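import Mathlib
import Pool.Agent.TH791.Coul

/-!
# TFW functional with `p = 2`: definitions, Coulomb energy, the limit functional
-/

set_option autoImplicit false

open MeasureTheory Filter Topology Set
open scoped ENNReal NNReal ContDiff

namespace Pool.Agent.H158.TW

/-- Three dimensional Euclidean space. -/
abbrev E3 := EuclideanSpace ℝ (Fin 3)

/-- `g` is the weak (distributional) gradient of `u`. -/
def WeakGrad (u : E3 → ℝ) (g : E3 → E3) : Prop :=
  ∀ φ : E3 → ℝ, ContDiff ℝ ∞ φ → HasCompactSupport φ → ∀ v : E3,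
    ∫ x, u x * fderiv ℝ φ x v = -∫ x, inner ℝ (g x) v * φ x

/-- `ρ` is an admissible density (`ρ ≥ 0`, `ρ ∈ L¹ ∩ L^p`, `∇ ρ^{1/2} = g ∈ L²` in the sense of
distributions, finite Coulomb energy). -/
structure Adm (p : ℝ) (ρ : E3 → ℝ) (g : E3 → E3) : Prop where
  nonneg : ∀ x, 0 ≤ ρ x
  int : Integrable ρ
  int_p : Integrable (fun x => ρ x ^ p)
  grad : MemLp g 2
  weak : WeakGrad (fun x => √(ρ x)) g
  coul : Integrable (fun q : E3 × E3 => ρ q.1 * ρ q.2 / ‖q.1 - q.2‖)
    ((volume : Measure E3).prod volume)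

/-- The TFW energy `A ∫ |∇ρ^{1/2}|² + (γ/p) ∫ ρ^p - ∫ (z/|x|) ρ + D(ρ, ρ)`, where
`g = ∇ρ^{1/2}` and `D(ρ, ρ) = (1/2) ∬ ρ(x) ρ(y) / |x - y|`. -/
noncomputable def energy (A γ p z : ℝ) (ρ : E3 → ℝ) (g : E3 → E3) : ℝ :=
  A * (∫ x, ‖g x‖ ^ 2) + γ / p * (∫ x, ρ x ^ p) - (∫ x, z / ‖x‖ * ρ x)
    + 1 / 2 * ∫ q : E3 × E3, ρ q.1 * ρ q.2 / ‖q.1 - q.2‖ ∂((volume : Measure E3).prod volume)

/-- `(ρ, g)` minimises the TFW energy over the admissible densities with `∫ ρ ≤ lam`. -/
def IsMin (A γ p z lam : ℝ) (ρ : E3 → ℝ) (g : E3 → E3) : Prop :=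
  Adm p ρ g ∧ ∫ x, ρ x ≤ lam ∧ ∀ ρ' g', Adm p ρ' g' → ∫ x, ρ' x ≤ lam →
    energy A γ p z ρ g ≤ energy A γ p z ρ' g'

/-- Coulomb double integral -/
noncomputable def DD (ρ : E3 → ℝ) : ℝ :=
  ∫ q : E3 × E3, ρ q.1 * ρ q.2 / ‖q.1 - q.2‖ ∂((volume : Measure E3).prod volume)

/-! ### Coulomb energy -/

/-- measurable, integrable and square integrable is nice -/
lemma nice_of_sq {h : E3 → ℝ} (hm : Measurable h) (hi : Integrable h)
    (h2 : Integrable (fun x => h x ^ 2)) : TH791.Cl.Nice h := by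
  refine ⟨hm, hi, ?_⟩
  refine Integrable.mono' (hi.abs.add h2) (hm.abs.pow_const _).aestronglyMeasurable ?_
  filter_upwards with x
  have h0 := abs_nonneg (h x)
  rw [Real.norm_of_nonneg (Real.rpow_nonneg h0 _)]
  simp only [Pi.add_apply]
  rcases le_total (|h x|) 1 with h1 | h1
  · have : |h x| ^ (5/3 : ℝ) ≤ |h x| ^ (1 : ℝ) :=
      Real.rpow_le_rpow_of_exponent_ge_of_imp h0 h1 (by norm_num) (by intro _ h; norm_num at h)
    rw [Real.rpow_one] at this
    nlinarith [sq_nonneg (h x)]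
  · have : |h x| ^ (5/3 : ℝ) ≤ |h x| ^ (2 : ℝ) :=
      Real.rpow_le_rpow_of_exponent_le h1 (by norm_num)
    rw [Real.rpow_two, sq_abs] at this
    linarith

lemma coul_int_nice (h : E3 → ℝ) (hh : TH791.Cl.Nice h) :
    Integrable (fun p : E3 × E3 => h p.1 * h p.2 / ‖p.1 - p.2‖)
      ((volume : Measure E3).prod (volume : Measure E3)) := by
  obtain ⟨B, hB⟩ := TH791.Cl.nice_bound h hh
  obtain ⟨hm, hi, h53⟩ := hh
  have hm1 : Measurable (fun p : E3 × E3 => h p.1) := hm.comp measurable_fst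
  have hm2 : Measurable (fun p : E3 × E3 => h p.2) := hm.comp measurable_snd
  have hPm : Measurable (fun p : E3 × E3 => h p.1 * h p.2 / ‖p.1 - p.2‖) :=
    (hm1.mul hm2).div (measurable_fst.sub measurable_snd).norm
  rw [integrable_prod_iff hPm.aestronglyMeasurable]
  constructor
  · filter_upwards with x
    have := ((hB x).1).const_mul (h x)
    refine this.congr (Filter.Eventually.of_forall fun y => ?_)
    simp only
    ring
  · have hcongr : (fun x : E3 => ∫ y : E3, ‖h x * h y / ‖x - y‖‖)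
        = fun x => |h x| * ∫ y, |h y| / ‖x - y‖ := by
      funext x
      rw [← integral_const_mul]
      refine integral_congr_ae (Filter.Eventually.of_forall fun y => ?_)
      simp only
      rw [Real.norm_eq_abs, abs_div, abs_mul, abs_norm]
      ring
    have hmeas : AEStronglyMeasurable (fun x : E3 => ∫ y : E3, ‖h x * h y / ‖x - y‖‖) volume :=
      (hPm.aestronglyMeasurable
        (μ := (volume : Measure E3).prod (volume : Measure E3))).norm.integral_prod_right'
    refine Integrable.mono' (hi.abs.mul_const B) hmeas ?_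
    filter_upwards with x
    have hx := congrFun hcongr x
    rw [hx, Real.norm_eq_abs, abs_mul, abs_abs,
      abs_of_nonneg (integral_nonneg fun y => by positivity)]
    exact mul_le_mul_of_nonneg_left (hB x).2 (abs_nonneg _)

lemma prod_ae {h h' : E3 → ℝ} (e : h =ᵐ[volume] h') :
    (fun p : E3 × E3 => h p.1 * h p.2 / ‖p.1 - p.2‖)
      =ᵐ[(volume : Measure E3).prod (volume : Measure E3)]
      (fun p : E3 × E3 => h' p.1 * h' p.2 / ‖p.1 - p.2‖) := by
  have e1 : ∀ᵐ p : E3 × E3 ∂((volume : Measure E3).prod volume), h p.1 = h' p.1 :=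
    Measure.quasiMeasurePreserving_fst.ae e
  have e2 : ∀ᵐ p : E3 × E3 ∂((volume : Measure E3).prod volume), h p.2 = h' p.2 :=
    Measure.quasiMeasurePreserving_snd.ae e
  filter_upwards [e1, e2] with p h1 h2
  rw [h1, h2]

/-- measurable representative -/
lemma exists_rep {h : E3 → ℝ} (hi : Integrable h) (h2 : Integrable (fun x => h x ^ 2)) :
    ∃ h' : E3 → ℝ, h =ᵐ[volume] h' ∧ TH791.Cl.Nice h' := by
  obtain ⟨h', hm', e⟩ := hi.aestronglyMeasurable
  refine ⟨h', e, nice_of_sq hm'.measurable (hi.congr e) (h2.congr ?_)⟩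
  filter_upwards [e] with x hx
  rw [hx]

lemma coul_int {h : E3 → ℝ} (hi : Integrable h) (h2 : Integrable (fun x => h x ^ 2)) :
    Integrable (fun p : E3 × E3 => h p.1 * h p.2 / ‖p.1 - p.2‖)
      ((volume : Measure E3).prod (volume : Measure E3)) := by
  obtain ⟨h', e, hn⟩ := exists_rep hi h2
  exact (coul_int_nice h' hn).congr (prod_ae e).symm

lemma DD_nonneg_of_sq {h : E3 → ℝ} (hi : Integrable h) (h2 : Integrable (fun x => h x ^ 2)) :
    0 ≤ DD h := by
  obtain ⟨h', e, hn⟩ := exists_rep hi h2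
  have h1 : DD h = ∫ x, ∫ y, h' x * h' y / ‖x - y‖ := by
    rw [DD, integral_congr_ae (prod_ae e), integral_prod _ (coul_int_nice h' hn)]
  rw [h1]
  exact TH791.Cl.coulomb_pd h' hn

lemma DD_nonneg {h : E3 → ℝ} (h0 : ∀ x, 0 ≤ h x) : 0 ≤ DD h := by
  refine integral_nonneg fun q => ?_
  exact div_nonneg (mul_nonneg (h0 _) (h0 _)) (norm_nonneg _)

/-- midpoint convexity of the Coulomb energy -/
lemma DD_mid {h k : E3 → ℝ} (hi : Integrable h) (h2 : Integrable (fun x => h x ^ 2))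
    (ki : Integrable k) (k2 : Integrable (fun x => k x ^ 2)) :
    DD (fun x => (h x + k x) / 2) ≤ (DD h + DD k) / 2 := by
  have hk : Integrable (fun x => h x * k x) := by
    refine Integrable.mono' (h2.add k2) (hi.aestronglyMeasurable.mul ki.aestronglyMeasurable) ?_
    filter_upwards with x
    simp only [Pi.add_apply, Real.norm_eq_abs]
    rw [abs_le]
    constructor <;> nlinarith [sq_nonneg (h x + k x), sq_nonneg (h x - k x)]
  have di : Integrable (fun x => h x - k x) := hi.sub ki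
  have d2 : Integrable (fun x => (h x - k x) ^ 2) := by
    refine ((h2.add k2).sub (hk.const_mul 2)).congr ?_
    filter_upwards with x
    simp only [Pi.add_apply, Pi.sub_apply]
    ring
  have mi : Integrable (fun x => (h x + k x) / 2) := (hi.add ki).div_const 2
  have m2 : Integrable (fun x => ((h x + k x) / 2) ^ 2) := by
    refine (((h2.add k2).add (hk.const_mul 2)).div_const 4).congr ?_
    filter_upwards with x
    simp only [Pi.add_apply]
    ring
  have hd := DD_nonneg_of_sq di d2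
  have key : DD (fun x => (h x + k x) / 2)
      = (DD h + DD k) / 2 - 1 / 4 * DD (fun x => h x - k x) := by
    have iA := coul_int hi h2
    have iB := coul_int ki k2
    have iC := coul_int di d2
    have e1 : DD (fun x => (h x + k x) / 2) = ∫ q : E3 × E3,
        ((h q.1 * h q.2 / ‖q.1 - q.2‖ + k q.1 * k q.2 / ‖q.1 - q.2‖) / 2
          - 1 / 4 * ((h q.1 - k q.1) * (h q.2 - k q.2) / ‖q.1 - q.2‖))
          ∂((volume : Measure E3).prod volume) := by
      unfold DD
      refine integral_congr_ae (ae_of_all _ fun q => ?_)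
      simp only
      ring
    have iAB : Integrable (fun q : E3 × E3 =>
        (h q.1 * h q.2 / ‖q.1 - q.2‖ + k q.1 * k q.2 / ‖q.1 - q.2‖) / 2)
        ((volume : Measure E3).prod volume) := (iA.add iB).div_const 2
    have iC' : Integrable (fun q : E3 × E3 =>
        1 / 4 * ((h q.1 - k q.1) * (h q.2 - k q.2) / ‖q.1 - q.2‖))
        ((volume : Measure E3).prod volume) := iC.const_mul _
    rw [e1, integral_sub iAB iC', integral_div, integral_add iA iB, integral_const_mul]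
    rfl
  rw [key]
  linarith

/-! ### The kernel `1/|x|` -/

/-- `1/|x|²` on the unit ball -/
noncomputable def K2 (x : E3) : ℝ := (Metric.ball (0 : E3) 1).indicator (fun x => (‖x‖ ^ 2)⁻¹) x

lemma K2_nonneg (x : E3) : 0 ≤ K2 x := by
  unfold K2
  exact indicator_nonneg (fun y _ => by positivity) x

lemma K2_eq : K2 = fun x : E3 => (Iio (1 : ℝ)).indicator (fun r : ℝ => (r ^ 2)⁻¹) ‖x‖ := by
  funext x
  unfold K2
  by_cases h : x ∈ Metric.ball (0 : E3) 1
  · have h' : ‖x‖ ∈ Iio (1 : ℝ) := by simpa using h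
    rw [indicator_of_mem h, indicator_of_mem h']
  · have h' : ‖x‖ ∉ Iio (1 : ℝ) := by simpa using h
    rw [indicator_of_notMem h, indicator_of_notMem h']

lemma K2_int : Integrable K2 := by
  rw [K2_eq, integrable_fun_norm_addHaar (μ := (volume : Measure E3))]
  have hfin : Module.finrank ℝ E3 = 3 := by simp
  rw [hfin]
  have : IntegrableOn (fun _ : ℝ => (1 : ℝ)) (Ioo 0 1) := by
    refine integrableOn_const ?_
    simp
  have h2 : IntegrableOn (fun y : ℝ => (Ioo (0:ℝ) 1).indicator (fun _ => (1:ℝ)) y) (Ioi 0) :=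
    (this.integrable_indicator measurableSet_Ioo).integrableOn
  refine h2.congr_fun (fun y hy => ?_) measurableSet_Ioi
  have hy0 : (0:ℝ) < y := hy
  show (Ioo (0:ℝ) 1).indicator (fun _ => (1:ℝ)) y
    = y ^ (3 - 1) • (Iio (1:ℝ)).indicator (fun r : ℝ => (r ^ 2)⁻¹) y
  by_cases h1 : y < 1
  · rw [indicator_of_mem (show y ∈ Ioo (0:ℝ) 1 from ⟨hy0, h1⟩),
      indicator_of_mem (show y ∈ Iio (1:ℝ) from h1)]
    simp only [smul_eq_mul]
    field_simp
  · rw [indicator_of_notMem (show y ∉ Ioo (0:ℝ) 1 from fun h => h1 h.2),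
      indicator_of_notMem (show y ∉ Iio (1:ℝ) from h1)]
    simp

/-- `1/|x| ≤ K2 + 1` -/
lemma inv_le (x : E3) : ‖x‖⁻¹ ≤ K2 x + 1 := by
  have h0 := K2_nonneg x
  by_cases h : ‖x‖ < 1
  · have h' : x ∈ Metric.ball (0 : E3) 1 := by simpa using h
    rcases eq_or_ne x 0 with rfl | hx
    · simp; linarith
    have hp : 0 < ‖x‖ := norm_pos_iff.mpr hx
    unfold K2
    rw [indicator_of_mem h']
    have : ‖x‖⁻¹ ≤ (‖x‖ ^ 2)⁻¹ := by
      apply inv_anti₀ (by positivity)
      nlinarith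
    linarith
  · have : ‖x‖⁻¹ ≤ 1 := by
      apply inv_le_one_of_one_le₀
      linarith
    linarith

/-- `s t / |x| ≤ ...` : the potential term is dominated -/
lemma pot_le (x : E3) (t c : ℝ) (ht : 0 ≤ t) (hc : 0 < c) :
    ‖x‖⁻¹ * t ≤ c * t ^ 2 + (4 * c)⁻¹ * K2 x + t := by
  by_cases h : ‖x‖ < 1
  · have h' : x ∈ Metric.ball (0 : E3) 1 := by simpa using h
    unfold K2
    rw [indicator_of_mem h']
    have h1 : ‖x‖⁻¹ * t ≤ c * t ^ 2 + (4 * c)⁻¹ * (‖x‖⁻¹) ^ 2 := by
      have h3 : 0 ≤ (4 * c)⁻¹ * (2 * c * t - ‖x‖⁻¹) ^ 2 := by positivity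
      have h4 : (4 * c)⁻¹ * (2 * c * t - ‖x‖⁻¹) ^ 2
          = c * t ^ 2 + (4 * c)⁻¹ * (‖x‖⁻¹) ^ 2 - ‖x‖⁻¹ * t := by
        field_simp
        ring
      linarith
    rw [← inv_pow]
    linarith
  · have h1 : ‖x‖⁻¹ ≤ 1 := by
      apply inv_le_one_of_one_le₀
      linarith
    have h2 : 0 ≤ (4 * c)⁻¹ * K2 x := mul_nonneg (by positivity) (K2_nonneg x)
    have h3 : 0 ≤ c * t ^ 2 := by positivity
    nlinarith

lemma pot_int {ρ : E3 → ℝ} (h0 : ∀ x, 0 ≤ ρ x) (hi : Integrable ρ)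
    (h2 : Integrable (fun x => ρ x ^ 2)) : Integrable (fun x => ‖x‖⁻¹ * ρ x) := by
  refine Integrable.mono' (((h2.const_mul 1).add (K2_int.const_mul (4 * 1)⁻¹)).add hi) ?_ ?_
  · exact (measurable_norm.inv.aestronglyMeasurable).mul hi.aestronglyMeasurable
  · filter_upwards with x
    rw [Real.norm_of_nonneg (mul_nonneg (by positivity) (h0 x))]
    have := pot_le x (ρ x) 1 (h0 x) one_pos
    simpa using this

end Pool.Agent.H158.TW
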