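import Mathlib
import Pool.Agent.H158.TWBase

/-!
# Fermi-Amaldi TFW theory: definitions
-/

set_option autoImplicit false

open MeasureTheory Set
open scoped ContDiff

namespace Pool.Agent.H158.FA

open Pool.Agent.H158.TW

/-- A density with its `∇ρ^{1/2}`: `ρ ≥ 0`, `ρ ∈ L¹ ∩ L^{5/3}` and the distributional gradient of
`ρ^{1/2}` is `g ∈ L²`. -/
structure Dens (ρ : E3 → ℝ) (g : E3 → E3) : Prop where
  nonneg : ∀ x, 0 ≤ ρ x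
  int : Integrable ρ
  int_p : Integrable (fun x => ρ x ^ (5 / 3 : ℝ))
  grad : MemLp g 2
  weak : WeakGrad (fun x => √(ρ x)) g

/-- The Fermi-Amaldi TFW energy
`A ∫ |∇ρ^{1/2}|² + (3/5) γ ∫ ρ^{5/3} - ∫ (z/|x|) ρ + (1 - 1/N) D(ρ, ρ)` with `A = 0.1859`,
`γ = (3π²)^{2/3}`, `D(ρ, ρ) = (1/2) ∬ ρ(x) ρ(y) / |x - y|` and `g = ∇ρ^{1/2}`. -/
noncomputable def energy (z N : ℕ) (ρ : E3 → ℝ) (g : E3 → E3) : ℝ :=
  1859 / 10000 * (∫ x, ‖g x‖ ^ 2)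
    + 3 / 5 * (3 * Real.pi ^ 2) ^ (2 / 3 : ℝ) * (∫ x, ρ x ^ (5 / 3 : ℝ))
    - (∫ x, (z : ℝ) / ‖x‖ * ρ x)
    + (1 - 1 / (N : ℝ)) *
      (1 / 2 * ∫ q : E3 × E3, ρ q.1 * ρ q.2 / ‖q.1 - q.2‖ ∂((volume : Measure E3).prod volume))

/-- The set of energies of densities with `∫ ρ = N`. -/
def energies (z N : ℕ) : Set ℝ :=
  {e | ∃ (ρ : E3 → ℝ) (g : E3 → E3), Dens ρ g ∧ ∫ x, ρ x = (N : ℝ) ∧ e = energy z N ρ g}

/-- The ground state energy `E(N)` at nuclear charge `z`. -/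
noncomputable def E (z N : ℕ) : ℝ := sInf (energies z N)

end Pool.Agent.H158.FA
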