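import Mathlib
import Pool.Agent.H158.TWBase
import Pool.Agent.Helper149.Mollify

/-!
# Weak limits of gradients and convexity of the kinetic energy
-/

set_option autoImplicit false

open MeasureTheory Filter Topology Set
open scoped ENNReal NNReal ContDiff

namespace Pool.Agent.H158.TW

lemma hilbert_limit {H : Type*} [NormedAddCommGroup H] [InnerProductSpace ℝ H] [CompleteSpace H]
    (g : ℕ → H) (C : ℝ) (hC : ∀ n, ‖g n‖ ≤ C) :
    ∃ c : H, (∀ C' : ℝ, (∀ᶠ n in atTop, ‖g n‖ ≤ C') → ‖c‖ ≤ C') ∧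
      ∀ (φ : H) (l : ℝ), Tendsto (fun n => inner ℝ (g n) φ) atTop (𝓝 l) → inner ℝ c φ = l := by
  let U : Ultrafilter ℕ := Ultrafilter.of atTop
  have hU : (U : Filter ℕ) ≤ atTop := Ultrafilter.of_le atTop
  have hb : ∀ (n : ℕ) (φ : H), |inner ℝ (g n) φ| ≤ C * ‖φ‖ := fun n φ =>
    (abs_real_inner_le_norm _ _).trans (mul_le_mul_of_nonneg_right (hC n) (norm_nonneg _))
  have hlim : ∀ φ : H, ∃ l : ℝ, Tendsto (fun n => inner ℝ (g n) φ) U (𝓝 l) := by
    intro φ
    have h1 : (U.map (fun n => (inner ℝ (g n) φ : ℝ)) : Filter ℝ) ≤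
        𝓟 (Icc (-(C * ‖φ‖)) (C * ‖φ‖)) := by
      rw [Filter.le_principal_iff]
      exact Filter.mem_map.2 (Filter.univ_mem' fun n => abs_le.mp (hb n φ))
    obtain ⟨l, _, hl⟩ := isCompact_Icc.ultrafilter_le_nhds _ h1
    exact ⟨l, hl⟩
  choose L hL using hlim
  have hadd : ∀ x y : H, L (x + y) = L x + L y := by
    intro x y
    refine tendsto_nhds_unique (hL (x + y)) ?_
    have := (hL x).add (hL y)
    refine this.congr fun n => ?_
    rw [inner_add_right]
  have hsmul : ∀ (r : ℝ) (x : H), L (r • x) = r * L x := by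
    intro r x
    refine tendsto_nhds_unique (hL (r • x)) ?_
    have := (hL x).const_mul r
    refine this.congr fun n => ?_
    rw [real_inner_smul_right]
  have hbd : ∀ C' : ℝ, (∀ᶠ n in atTop, ‖g n‖ ≤ C') → ∀ φ : H, |L φ| ≤ C' * ‖φ‖ := by
    intro C' hC' φ
    have h1 : Tendsto (fun n => |inner ℝ (g n) φ|) U (𝓝 |L φ|) := (hL φ).abs
    refine le_of_tendsto h1 ?_
    filter_upwards [hC'.filter_mono hU] with n hn
    exact (abs_real_inner_le_norm _ _).trans (mul_le_mul_of_nonneg_right hn (norm_nonneg _))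
  let ℓ : H →ₗ[ℝ] ℝ :=
    { toFun := L
      map_add' := hadd
      map_smul' := fun r x => by rw [hsmul]; rfl }
  let ℓc : H →L[ℝ] ℝ := ℓ.mkContinuous C (fun φ => by
    rw [Real.norm_eq_abs]
    exact hbd C (Eventually.of_forall hC) φ)
  refine ⟨(InnerProductSpace.toDual ℝ H).symm ℓc, ?_, ?_⟩
  · intro C' hC'
    set c := (InnerProductSpace.toDual ℝ H).symm ℓc with hc
    have h1 : inner ℝ c c = L c := by
      rw [hc, InnerProductSpace.toDual_symm_apply]
      rfl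
    have h2 := hbd C' hC' c
    rw [← h1, real_inner_self_eq_norm_sq, abs_of_nonneg (sq_nonneg _)] at h2
    rcases eq_or_lt_of_le (norm_nonneg c) with h | h
    · rw [← h]
      obtain ⟨n, hn⟩ := hC'.exists
      exact (norm_nonneg _).trans hn
    · nlinarith
  · intro φ l hl
    rw [InnerProductSpace.toDual_symm_apply]
    exact tendsto_nhds_unique (hL φ) (hl.mono_left hU)

lemma norm_toLp_sq {g : E3 → E3} (hg : MemLp g 2) : ‖hg.toLp g‖ ^ 2 = ∫ x, ‖g x‖ ^ 2 := by
  rw [← real_inner_self_eq_norm_sq, MeasureTheory.L2.inner_def]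
  refine integral_congr_ae ?_
  filter_upwards [hg.coeFn_toLp] with x hx
  rw [hx, real_inner_self_eq_norm_sq]

lemma weak_limit (u : ℕ → E3 → ℝ) (g : ℕ → E3 → E3) (w : E3 → ℝ) (C : ℝ)
    (hg : ∀ n, MemLp (g n) 2) (hC : ∀ n, ∫ x, ‖g n x‖ ^ 2 ≤ C)
    (hw : ∀ n, WeakGrad (u n) (g n))
    (hlim : ∀ φ : E3 → ℝ, ContDiff ℝ ∞ φ → HasCompactSupport φ → ∀ v : E3,
      Tendsto (fun n => ∫ x, u n x * fderiv ℝ φ x v) atTop (𝓝 (∫ x, w x * fderiv ℝ φ x v))) :
    ∃ g' : E3 → E3, MemLp g' 2 ∧ WeakGrad w g' ∧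
      ∀ C' : ℝ, (∀ᶠ n in atTop, ∫ x, ‖g n x‖ ^ 2 ≤ C') → ∫ x, ‖g' x‖ ^ 2 ≤ C' := by
  have hn : ∀ n C', ∫ x, ‖g n x‖ ^ 2 ≤ C' → ‖(hg n).toLp (g n)‖ ≤ √C' := by
    intro n C' h
    apply Real.le_sqrt_of_sq_le
    rw [norm_toLp_sq]
    exact h
  obtain ⟨c, hc1, hc2⟩ := hilbert_limit (fun n => (hg n).toLp (g n)) (√C) (fun n => hn n C (hC n))
  have hcm : MemLp (c : E3 → E3) 2 := Lp.memLp c
  have hc3 : hcm.toLp c = c := Lp.toLp_coeFn c hcm
  refine ⟨c, hcm, ?_, ?_⟩
  · intro φ hφ hφc v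
    have hΦ : MemLp (fun x => φ x • v) 2 := by
      have h1 : Continuous (fun x => φ x • v) := hφ.continuous.smul continuous_const
      exact h1.memLp_of_hasCompactSupport hφc.smul_right
    have h2 : ∀ n, inner ℝ ((hg n).toLp (g n)) (hΦ.toLp _) = -∫ x, u n x * fderiv ℝ φ x v := by
      intro n
      rw [hw n φ hφ hφc v, neg_neg, MeasureTheory.L2.inner_def]
      refine integral_congr_ae ?_
      filter_upwards [(hg n).coeFn_toLp, hΦ.coeFn_toLp] with x h3 h4
      rw [h3, h4, real_inner_smul_right]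
      ring
    have h3 : Tendsto (fun n => inner ℝ ((hg n).toLp (g n)) (hΦ.toLp _)) atTop
        (𝓝 (-∫ x, w x * fderiv ℝ φ x v)) := by
      simp only [h2]
      exact (hlim φ hφ hφc v).neg
    have h4 := hc2 _ _ h3
    rw [MeasureTheory.L2.inner_def] at h4
    have h5 : ∫ x, inner ℝ (c x) (hΦ.toLp (fun x => φ x • v) x) = ∫ x, inner ℝ (c x) v * φ x := by
      refine integral_congr_ae ?_
      filter_upwards [hΦ.coeFn_toLp] with x h4
      rw [h4, real_inner_smul_right]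
      ring
    rw [← h5, h4, neg_neg]
  · intro C' hC'
    have h1 : ‖c‖ ≤ √C' := hc1 _ (hC'.mono fun n h => hn n C' h)
    have h0 : 0 ≤ C' := by
      obtain ⟨n, h⟩ := hC'.exists
      exact le_trans (integral_nonneg fun x => by positivity) h
    have h2 : ∫ x, ‖c x‖ ^ 2 = ‖c‖ ^ 2 := by
      rw [← norm_toLp_sq hcm, hc3]
    rw [h2]
    calc ‖c‖ ^ 2 ≤ (√C') ^ 2 := pow_le_pow_left₀ (norm_nonneg _) h1 2
      _ = C' := Real.sq_sqrt h0

/-! ### convergence lemmas -/

/-- a.e. convergence and no gain of norm: strong `L²` convergence -/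
lemma l2_conv {w : ℕ → E3 → ℝ} {u : E3 → ℝ} (hw : ∀ n, AEStronglyMeasurable (w n))
    (hu : AEStronglyMeasurable u) (hw2 : ∀ n, Integrable (fun x => w n x ^ 2))
    (hu2 : Integrable (fun x => u x ^ 2))
    (hae : ∀ᵐ x, Tendsto (fun n => w n x) atTop (𝓝 (u x)))
    (hle : ∀ n, ∫ x, w n x ^ 2 ≤ ∫ x, u x ^ 2) :
    (∀ n, Integrable (fun x => (w n x - u x) ^ 2)) ∧
      Tendsto (fun n => ∫ x, (w n x - u x) ^ 2) atTop (𝓝 0) := by
  have hx : ∀ n, Integrable (fun x => w n x * u x) := by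
    intro n
    refine Integrable.mono' ((hw2 n).add hu2) ((hw n).mul hu) ?_
    filter_upwards with x
    simp only [Pi.add_apply, Real.norm_eq_abs]
    rw [abs_le]
    constructor <;> nlinarith [sq_nonneg (w n x + u x), sq_nonneg (w n x - u x)]
  have hd : ∀ n, Integrable (fun x => (w n x - u x) ^ 2) := by
    intro n
    refine (((hw2 n).add hu2).sub ((hx n).const_mul 2)).congr ?_
    filter_upwards with x
    simp only [Pi.add_apply, Pi.sub_apply]
    ring
  have hs : ∀ n, Integrable (fun x => (w n x + u x) ^ 2) := by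
    intro n
    refine (((hw2 n).add hu2).add ((hx n).const_mul 2)).congr ?_
    filter_upwards with x
    simp only [Pi.add_apply]
    ring
  refine ⟨hd, ?_⟩
  set I := ∫ x, u x ^ 2 with hI
  have hsum : ∀ n, ∫ x, (w n x - u x) ^ 2 ≤ 4 * I - ∫ x, (w n x + u x) ^ 2 := by
    intro n
    have h1 : (∫ x, (w n x - u x) ^ 2) + ∫ x, (w n x + u x) ^ 2
        = 2 * (∫ x, w n x ^ 2) + 2 * I := by
      rw [← integral_add (hd n) (hs n), hI, ← integral_const_mul, ← integral_const_mul,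
        ← integral_add ((hw2 n).const_mul 2) (hu2.const_mul 2)]
      refine integral_congr_ae (ae_of_all _ fun x => ?_)
      simp only
      ring
    have := hle n
    linarith
  have hfat : ∀ ε : ℝ, 0 < ε → ∀ᶠ n in atTop, 4 * I - ε < ∫ x, (w n x + u x) ^ 2 := by
    intro ε hε
    rcases lt_or_ge (4 * I - ε) 0 with hneg | hpos
    · exact Eventually.of_forall fun n => hneg.trans_le (integral_nonneg fun x => sq_nonneg _)
    have h1 : ∫⁻ x, ENNReal.ofReal (4 * u x ^ 2)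
        ≤ liminf (fun n => ∫⁻ x, ENNReal.ofReal ((w n x + u x) ^ 2)) atTop := by
      have h2 : ∫⁻ x, ENNReal.ofReal (4 * u x ^ 2)
          = ∫⁻ x, liminf (fun n => ENNReal.ofReal ((w n x + u x) ^ 2)) atTop := by
        refine lintegral_congr_ae ?_
        filter_upwards [hae] with x hx
        have h3 : Tendsto (fun n => ENNReal.ofReal ((w n x + u x) ^ 2)) atTop
            (𝓝 (ENNReal.ofReal ((u x + u x) ^ 2))) :=
          (ENNReal.continuous_ofReal.tendsto _).comp ((hx.add_const _).pow 2)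
        rw [h3.liminf_eq]
        congr 1
        ring
      rw [h2]
      exact lintegral_liminf_le' fun n =>
        (((hw n).add hu).pow 2).aemeasurable.ennreal_ofReal
    have h4 : ∫⁻ x, ENNReal.ofReal (4 * u x ^ 2) = ENNReal.ofReal (4 * I) := by
      rw [hI, ← integral_const_mul, ofReal_integral_eq_lintegral_ofReal (hu2.const_mul 4)
        (ae_of_all _ fun x => by positivity)]
    rw [h4] at h1
    have h5 : ENNReal.ofReal (4 * I - ε) < ENNReal.ofReal (4 * I) := by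
      rw [ENNReal.ofReal_lt_ofReal_iff (by linarith)]
      linarith
    filter_upwards [eventually_lt_of_lt_liminf (h5.trans_le h1)] with n hn
    rw [← ofReal_integral_eq_lintegral_ofReal (hs n) (ae_of_all _ fun x => sq_nonneg _)] at hn
    exact (ENNReal.ofReal_lt_ofReal_iff_of_nonneg hpos).1 hn
  rw [Metric.tendsto_atTop]
  intro ε hε
  obtain ⟨N, hN⟩ := eventually_atTop.mp (hfat ε hε)
  refine ⟨N, fun n hn => ?_⟩
  have h1 := hN n hn
  have h2 := hsum n
  have h3 : 0 ≤ ∫ x, (w n x - u x) ^ 2 := integral_nonneg fun x => sq_nonneg _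
  rw [Real.dist_eq, sub_zero, abs_of_nonneg h3]
  linarith

lemma mul_int_of_sq {d ζ : E3 → ℝ} (hd : AEStronglyMeasurable d) (hζ : AEStronglyMeasurable ζ)
    (hd2 : Integrable (fun x => d x ^ 2)) (hζ2 : Integrable (fun x => ζ x ^ 2)) :
    Integrable (fun x => d x * ζ x) := by
  refine Integrable.mono' (hd2.add hζ2) (hd.mul hζ) ?_
  filter_upwards with x
  simp only [Pi.add_apply, Real.norm_eq_abs]
  rw [abs_le]
  constructor <;> nlinarith [sq_nonneg (d x + ζ x), sq_nonneg (d x - ζ x)]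

/-- `d_n → 0` in `L²` gives `∫ |d_n| |ζ| → 0` -/
lemma tendsto_mul_zero {d : ℕ → E3 → ℝ} {ζ : E3 → ℝ} (hd : ∀ n, AEStronglyMeasurable (d n))
    (hζ : AEStronglyMeasurable ζ) (hd2 : ∀ n, Integrable (fun x => d n x ^ 2))
    (hζ2 : Integrable (fun x => ζ x ^ 2))
    (h0 : Tendsto (fun n => ∫ x, d n x ^ 2) atTop (𝓝 0)) :
    Tendsto (fun n => ∫ x, |d n x| * |ζ x|) atTop (𝓝 0) := by
  set Z := ∫ x, ζ x ^ 2 with hZ
  set κ : ℕ → ℝ := fun n => √(∫ x, d n x ^ 2) + 1 / ((n : ℝ) + 1) with hκ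
  have hκ0 : ∀ n, 0 < κ n := fun n => by
    have : (0:ℝ) < 1 / ((n : ℝ) + 1) := by positivity
    have h2 := Real.sqrt_nonneg (∫ x, d n x ^ 2)
    simp only [hκ]
    linarith
  have hs : Tendsto (fun n => √(∫ x, d n x ^ 2)) atTop (𝓝 0) := by
    have := (Real.continuous_sqrt.tendsto 0).comp h0
    rw [Real.sqrt_zero] at this
    exact this
  have hκt : Tendsto κ atTop (𝓝 0) := by
    have := hs.add (tendsto_one_div_add_atTop_nhds_zero_nat (𝕜 := ℝ))
    rw [add_zero] at this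
    exact this
  have hub : Tendsto (fun n => √(∫ x, d n x ^ 2) + κ n * Z) atTop (𝓝 0) := by
    have := hs.add (hκt.mul_const Z)
    rw [zero_mul, add_zero] at this
    exact this
  refine tendsto_of_tendsto_of_tendsto_of_le_of_le tendsto_const_nhds hub
    (fun n => integral_nonneg fun x => by positivity) fun n => ?_
  have hk := hκ0 n
  have h1 : ∫ x, |d n x| * |ζ x| ≤ ∫ x, ((κ n)⁻¹ * d n x ^ 2 + κ n * ζ x ^ 2) := by
    refine integral_mono_of_nonneg (ae_of_all _ fun x => by positivity)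
      (((hd2 n).const_mul _).add (hζ2.const_mul _)) (ae_of_all _ fun x => ?_)
    simp only
    rw [← abs_mul]
    have h3 : 0 ≤ (κ n)⁻¹ * (|d n x| - κ n * |ζ x|) ^ 2 := by positivity
    have h4 : (κ n)⁻¹ * (|d n x| - κ n * |ζ x|) ^ 2
        = (κ n)⁻¹ * d n x ^ 2 + κ n * ζ x ^ 2 - 2 * (|d n x| * |ζ x|) := by
      rw [← sq_abs (d n x), ← sq_abs (ζ x)]
      field_simp
      ring
    rw [abs_mul]
    have h5 : 0 ≤ |d n x| * |ζ x| := by positivity
    linarith
  rw [integral_add ((hd2 n).const_mul _) (hζ2.const_mul _), integral_const_mul,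
    integral_const_mul] at h1
  have h6 : (κ n)⁻¹ * ∫ x, d n x ^ 2 ≤ √(∫ x, d n x ^ 2) := by
    have h7 : 0 ≤ ∫ x, d n x ^ 2 := integral_nonneg fun x => sq_nonneg _
    have h8 : √(∫ x, d n x ^ 2) ≤ κ n := by
      have : (0:ℝ) < 1 / ((n : ℝ) + 1) := by positivity
      simp only [hκ]
      linarith
    have h9 := Real.mul_self_sqrt h7
    rw [inv_mul_le_iff₀ hk]
    calc ∫ x, d n x ^ 2 = √(∫ x, d n x ^ 2) * √(∫ x, d n x ^ 2) := h9.symm
      _ ≤ κ n * √(∫ x, d n x ^ 2) := mul_le_mul_of_nonneg_right h8 (Real.sqrt_nonneg _)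
  linarith

/-! ### convexity of the kinetic energy -/

lemma mink (a b c d ε : ℝ) (hε : 0 ≤ ε) :
    |√((a ^ 2 + b ^ 2) / 2 + ε ^ 2) - √((c ^ 2 + d ^ 2) / 2)| ≤ |a - c| + |b - d| + ε := by
  have h1 : 0 ≤ (a ^ 2 + b ^ 2) / 2 + ε ^ 2 := by positivity
  have h2 : 0 ≤ (c ^ 2 + d ^ 2) / 2 := by positivity
  set s := √((a ^ 2 + b ^ 2) / 2 + ε ^ 2) with hs
  set t := √((c ^ 2 + d ^ 2) / 2) with ht
  have hs0 : 0 ≤ s := Real.sqrt_nonneg _
  have ht0 : 0 ≤ t := Real.sqrt_nonneg _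
  have es : s ^ 2 = (a ^ 2 + b ^ 2) / 2 + ε ^ 2 := Real.sq_sqrt h1
  have et : t ^ 2 = (c ^ 2 + d ^ 2) / 2 := Real.sq_sqrt h2
  have ha : |a| ≤ 2 * s := by
    apply abs_le_of_sq_le_sq _ (by positivity); nlinarith [sq_nonneg a, sq_nonneg b, sq_nonneg ε]
  have hb : |b| ≤ 2 * s := by
    apply abs_le_of_sq_le_sq _ (by positivity); nlinarith [sq_nonneg a, sq_nonneg b, sq_nonneg ε]
  have hc : |c| ≤ 2 * t := by
    apply abs_le_of_sq_le_sq _ (by positivity); nlinarith [sq_nonneg c, sq_nonneg d]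
  have hd : |d| ≤ 2 * t := by
    apply abs_le_of_sq_le_sq _ (by positivity); nlinarith [sq_nonneg c, sq_nonneg d]
  set α := |a - c| with hα
  set β := |b - d| with hβ
  have hα0 : 0 ≤ α := abs_nonneg _
  have hβ0 : 0 ≤ β := abs_nonneg _
  have eα : α ^ 2 = (a - c) ^ 2 := sq_abs _
  have eβ : β ^ 2 = (b - d) ^ 2 := sq_abs _
  rw [abs_le]
  constructor
  · -- t ≤ s + Δ
    have k1 : -(a * (a - c)) ≤ 2 * s * α := by
      have : |a * (a - c)| ≤ 2 * s * α := by
        rw [abs_mul]; exact mul_le_mul_of_nonneg_right ha hα0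
      linarith [neg_abs_le (a * (a - c))]
    have k2 : -(b * (b - d)) ≤ 2 * s * β := by
      have : |b * (b - d)| ≤ 2 * s * β := by
        rw [abs_mul]; exact mul_le_mul_of_nonneg_right hb hβ0
      linarith [neg_abs_le (b * (b - d))]
    have k3 : t ≤ s + (α + β + ε) := by
      apply abs_le_of_sq_le_sq' _ (by positivity) |>.2
      nlinarith [mul_nonneg hs0 hε, mul_nonneg hα0 hβ0, mul_nonneg hα0 hε, mul_nonneg hβ0 hε]
    linarith
  · have k1 : c * (a - c) ≤ 2 * t * α := by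
      have : |c * (a - c)| ≤ 2 * t * α := by
        rw [abs_mul]; exact mul_le_mul_of_nonneg_right hc hα0
      linarith [le_abs_self (c * (a - c))]
    have k2 : d * (b - d) ≤ 2 * t * β := by
      have : |d * (b - d)| ≤ 2 * t * β := by
        rw [abs_mul]; exact mul_le_mul_of_nonneg_right hd hβ0
      linarith [le_abs_self (d * (b - d))]
    have k3 : s ≤ t + (α + β + ε) := by
      apply abs_le_of_sq_le_sq' _ (by positivity) |>.2
      nlinarith [mul_nonneg ht0 hε, mul_nonneg hα0 hβ0, mul_nonneg hα0 hε, mul_nonneg hβ0 hε]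
    linarith

end Pool.Agent.H158.TW
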