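import Mathlib
import Pool.Agent.H158.TWWeak

/-!
# Midpoint convexity of the kinetic energy
-/

set_option autoImplicit false

open MeasureTheory Filter Topology Set
open scoped ENNReal NNReal ContDiff

namespace Pool.Agent.H158.TW

lemma int_of_lint {f : E3 → ℝ} (hf0 : ∀ x, 0 ≤ f x) (hm : AEStronglyMeasurable f) {c : ℝ}
    (hc : 0 ≤ c) (h : ∫⁻ x, ENNReal.ofReal (f x) ≤ ENNReal.ofReal c) :
    Integrable f ∧ ∫ x, f x ≤ c := by
  refine ⟨⟨hm, ?_⟩, ?_⟩
  · rw [hasFiniteIntegral_iff_ofReal (ae_of_all _ hf0)]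
    exact h.trans_lt ENNReal.ofReal_lt_top
  · rw [integral_eq_lintegral_of_nonneg_ae (ae_of_all _ hf0) hm]
    exact ENNReal.toReal_le_of_le_ofReal hc h

lemma moll {u : E3 → ℝ} {g : E3 → E3} (h0 : ∀ x, 0 ≤ u x) (m : AEStronglyMeasurable u)
    (i : Integrable (fun x => u x ^ 2)) (G : MemLp g 2) (W : WeakGrad u g) :
    ∃ w : ℕ → E3 → ℝ, (∀ n, ContDiff ℝ ∞ (w n)) ∧ (∀ n x, 0 ≤ w n x) ∧
      (∀ n, Integrable (fun x => (w n x - u x) ^ 2)) ∧
      Tendsto (fun n => ∫ x, (w n x - u x) ^ 2) atTop (𝓝 0) ∧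
      (∀ n, Integrable (fun x => ‖fderiv ℝ (w n) x‖ ^ 2)) ∧
      (∀ n, ∫ x, ‖fderiv ℝ (w n) x‖ ^ 2 ≤ ∫ x, ‖g x‖ ^ 2) := by
  have hu : MemLp u 2 := (memLp_two_iff_integrable_sq m).2 i
  obtain ⟨w, hw1, hw2, hw3, hw4, hw5⟩ := Helper149.Mollify.exists_mollify u g h0
    (hu.locallyIntegrable (by norm_num)) (G.locallyIntegrable (by norm_num)) W
  have e1 : ∀ (f : E3 → ℝ), (∫⁻ x, ‖f x‖ₑ ^ (2:ℝ)) = ∫⁻ x, ENNReal.ofReal (f x ^ 2) := by
    intro f
    refine lintegral_congr fun x => ?_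
    rw [← ofReal_norm, ENNReal.ofReal_rpow_of_nonneg (norm_nonneg _) (by norm_num),
      Real.rpow_two, Real.norm_eq_abs, sq_abs]
  have hwi : ∀ n, Integrable (fun x => w n x ^ 2) ∧ ∫ x, w n x ^ 2 ≤ ∫ x, u x ^ 2 := by
    intro n
    refine int_of_lint (fun x => sq_nonneg _) ((hw1 n).continuous.pow 2).aestronglyMeasurable
      (integral_nonneg fun x => sq_nonneg _) ?_
    rw [ofReal_integral_eq_lintegral_ofReal i (ae_of_all _ fun x => sq_nonneg _), ← e1, ← e1]
    exact hw4 n 2 (by norm_num)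
  obtain ⟨c1, c2⟩ := l2_conv (fun n => (hw1 n).continuous.aestronglyMeasurable) m
    (fun n => (hwi n).1) i hw3 (fun n => (hwi n).2)
  have hgi : Integrable (fun x => ‖g x‖ ^ 2) := (memLp_two_iff_integrable_sq_norm G.1).1 G
  have hfi : ∀ n, Integrable (fun x => ‖fderiv ℝ (w n) x‖ ^ 2) ∧
      ∫ x, ‖fderiv ℝ (w n) x‖ ^ 2 ≤ ∫ x, ‖g x‖ ^ 2 := by
    intro n
    have hc : Continuous (fderiv ℝ (w n)) := (hw1 n).continuous_fderiv (by simp)
    refine int_of_lint (fun x => sq_nonneg _) (hc.norm.pow 2).aestronglyMeasurable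
      (integral_nonneg fun x => sq_nonneg _) ?_
    rw [ofReal_integral_eq_lintegral_ofReal hgi (ae_of_all _ fun x => sq_nonneg _)]
    have e2 : (∫⁻ x, ENNReal.ofReal (‖fderiv ℝ (w n) x‖ ^ 2))
        = ∫⁻ x, ‖fderiv ℝ (w n) x‖ₑ ^ (2:ℝ) := by
      refine lintegral_congr fun x => ?_
      rw [← ofReal_norm, ENNReal.ofReal_rpow_of_nonneg (norm_nonneg _) (by norm_num),
        Real.rpow_two]
    have e3 : (∫⁻ x, ENNReal.ofReal (‖g x‖ ^ 2)) = ∫⁻ x, ‖g x‖ₑ ^ (2:ℝ) := by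
      refine lintegral_congr fun x => ?_
      rw [← ofReal_norm, ENNReal.ofReal_rpow_of_nonneg (norm_nonneg _) (by norm_num),
        Real.rpow_two]
    rw [e2, e3]
    exact hw5 n 2 (by norm_num)
  exact ⟨w, hw1, hw2, c1, c2, fun n => (hfi n).1, fun n => (hfi n).2⟩

lemma sq_bound {s w1 w2 a b : ℝ} (hs : 0 < s) (h : (w1 ^ 2 + w2 ^ 2) / 2 ≤ s ^ 2) :
    (1 / (2 * s)) ^ 2 * (w1 * a + w2 * b) ^ 2 ≤ (a ^ 2 + b ^ 2) / 2 := by
  have h1 : (w1 * a + w2 * b) ^ 2 ≤ (w1 ^ 2 + w2 ^ 2) * (a ^ 2 + b ^ 2) := by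
    nlinarith [sq_nonneg (w1 * b - w2 * a)]
  have h2 : (w1 ^ 2 + w2 ^ 2) * (a ^ 2 + b ^ 2) ≤ (2 * s ^ 2) * (a ^ 2 + b ^ 2) :=
    mul_le_mul_of_nonneg_right (by linarith) (by positivity)
  have h3 : (1 / (2 * s)) ^ 2 * (w1 * a + w2 * b) ^ 2
      ≤ (1 / (2 * s)) ^ 2 * ((2 * s ^ 2) * (a ^ 2 + b ^ 2)) :=
    mul_le_mul_of_nonneg_left (h1.trans h2) (by positivity)
  refine h3.trans (le_of_eq ?_)
  field_simp

lemma kin_mid {u₁ u₂ : E3 → ℝ} {g₁ g₂ : E3 → E3} (h₁ : ∀ x, 0 ≤ u₁ x) (h₂ : ∀ x, 0 ≤ u₂ x)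
    (m₁ : AEStronglyMeasurable u₁) (m₂ : AEStronglyMeasurable u₂)
    (i₁ : Integrable (fun x => u₁ x ^ 2)) (i₂ : Integrable (fun x => u₂ x ^ 2))
    (G₁ : MemLp g₁ 2) (G₂ : MemLp g₂ 2) (W₁ : WeakGrad u₁ g₁) (W₂ : WeakGrad u₂ g₂) :
    ∃ g : E3 → E3, MemLp g 2 ∧ WeakGrad (fun x => √((u₁ x ^ 2 + u₂ x ^ 2) / 2)) g ∧
      ∫ x, ‖g x‖ ^ 2 ≤ ((∫ x, ‖g₁ x‖ ^ 2) + ∫ x, ‖g₂ x‖ ^ 2) / 2 := by
  obtain ⟨w, hw1, hw2, hw3, hw4, hw5, hw6⟩ := moll h₁ m₁ i₁ G₁ W₁
  obtain ⟨y, hy1, hy2, hy3, hy4, hy5, hy6⟩ := moll h₂ m₂ i₂ G₂ W₂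
  set e : ℕ → ℝ := fun n => 1 / ((n : ℝ) + 1) with he
  have he0 : ∀ n, 0 < e n := fun n => by simp only [he]; positivity
  have het : Tendsto e atTop (𝓝 0) := tendsto_one_div_add_atTop_nhds_zero_nat
  set q : ℕ → E3 → ℝ := fun n x => (w n x ^ 2 + y n x ^ 2) / 2 + e n ^ 2 with hq
  have hq0 : ∀ n x, 0 < q n x := fun n x => by
    have := he0 n
    simp only [hq]
    positivity
  set s : ℕ → E3 → ℝ := fun n x => √(q n x) with hs
  have hs0 : ∀ n x, 0 < s n x := fun n x => Real.sqrt_pos.2 (hq0 n x)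
  have hss : ∀ n x, s n x ^ 2 = q n x := fun n x => Real.sq_sqrt (hq0 n x).le
  have hsd : ∀ n, ContDiff ℝ ∞ (s n) := by
    intro n
    have h1 : ContDiff ℝ ∞ (q n) := by
      simp only [hq]
      exact ((((hw1 n).pow 2).add ((hy1 n).pow 2)).div_const 2).add contDiff_const
    exact h1.sqrt fun x => (hq0 n x).ne'
  have hder : ∀ n x, HasFDerivAt (s n) ((1 / (2 * s n x)) •
      (w n x • fderiv ℝ (w n) x + y n x • fderiv ℝ (y n) x)) x := by
    intro n x
    have a1 : HasFDerivAt (w n) (fderiv ℝ (w n) x) x :=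
      ((hw1 n).differentiable (by simp) x).hasFDerivAt
    have a2 : HasFDerivAt (y n) (fderiv ℝ (y n) x) x :=
      ((hy1 n).differentiable (by simp) x).hasFDerivAt
    have hqd : HasFDerivAt (q n) (w n x • fderiv ℝ (w n) x + y n x • fderiv ℝ (y n) x) x := by
      have b := (((a1.mul a1).add (a2.mul a2)).const_mul (1/2 : ℝ)).add_const (e n ^ 2)
      have hfun : q n = fun x => 1 / 2 * (w n * w n + y n * y n) x + e n ^ 2 := by
        funext z
        simp only [hq, Pi.add_apply, Pi.mul_apply]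
        ring
      rw [hfun]
      refine b.congr_fderiv ?_
      ext v
      simp
      ring
    exact hqd.sqrt (hq0 n x).ne'
  have hbound : ∀ n x, ‖fderiv ℝ (s n) x‖ ^ 2
      ≤ (‖fderiv ℝ (w n) x‖ ^ 2 + ‖fderiv ℝ (y n) x‖ ^ 2) / 2 := by
    intro n x
    rw [(hder n x).fderiv, norm_smul, mul_pow, Real.norm_of_nonneg
      (by have := hs0 n x; positivity)]
    have h1 : ‖w n x • fderiv ℝ (w n) x + y n x • fderiv ℝ (y n) x‖
        ≤ w n x * ‖fderiv ℝ (w n) x‖ + y n x * ‖fderiv ℝ (y n) x‖ := by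
      refine (norm_add_le _ _).trans ?_
      rw [norm_smul, norm_smul, Real.norm_of_nonneg (hw2 n x), Real.norm_of_nonneg (hy2 n x)]
    refine le_trans (mul_le_mul_of_nonneg_left (pow_le_pow_left₀ (norm_nonneg _) h1 2)
      (by positivity)) (sq_bound (hs0 n x) ?_)
    rw [hss n x]
    simp only [hq]
    nlinarith [sq_nonneg (e n)]
  set G : ℕ → E3 → E3 := fun n x => (InnerProductSpace.toDual ℝ E3).symm (fderiv ℝ (s n) x)
    with hG
  have hfc : ∀ n, Continuous (fderiv ℝ (s n)) := fun n => (hsd n).continuous_fderiv (by simp)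
  have hGc : ∀ n, Continuous (G n) := fun n =>
    (InnerProductSpace.toDual ℝ E3).symm.continuous.comp (hfc n)
  have hGn : ∀ n x, ‖G n x‖ = ‖fderiv ℝ (s n) x‖ := fun n x =>
    LinearIsometryEquiv.norm_map _ _
  have hGi : ∀ n, Integrable (fun x => ‖G n x‖ ^ 2) := by
    intro n
    refine Integrable.mono' (((hw5 n).add (hy5 n)).div_const 2)
      ((hGc n).norm.pow 2).aestronglyMeasurable (ae_of_all _ fun x => ?_)
    rw [Real.norm_of_nonneg (sq_nonneg _), hGn]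
    exact hbound n x
  have hGm : ∀ n, MemLp (G n) 2 := fun n =>
    (memLp_two_iff_integrable_sq_norm (hGc n).aestronglyMeasurable).2 (hGi n)
  have hGC : ∀ n, ∫ x, ‖G n x‖ ^ 2 ≤ ((∫ x, ‖g₁ x‖ ^ 2) + ∫ x, ‖g₂ x‖ ^ 2) / 2 := by
    intro n
    have h1 : ∫ x, ‖G n x‖ ^ 2
        ≤ ∫ x, (‖fderiv ℝ (w n) x‖ ^ 2 + ‖fderiv ℝ (y n) x‖ ^ 2) / 2 := by
      refine integral_mono (hGi n) (((hw5 n).add (hy5 n)).div_const 2) fun x => ?_
      simp only
      rw [hGn]
      exact hbound n x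
    rw [integral_div, integral_add (hw5 n) (hy5 n)] at h1
    have := hw6 n
    have := hy6 n
    linarith
  have hGw : ∀ n, WeakGrad (s n) (G n) := by
    intro n φ hφ hφc v
    have hfv : Continuous (fun x => fderiv ℝ (s n) x v) := (hfc n).clm_apply continuous_const
    have hφf : Continuous (fun x => fderiv ℝ φ x v) :=
      (hφ.continuous_fderiv (by simp)).clm_apply continuous_const
    have hφfc : HasCompactSupport (fun x => fderiv ℝ φ x v) := hφc.fderiv_apply ℝ v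
    rw [integral_mul_fderiv_eq_neg_fderiv_mul_of_integrable
      ((hfv.mul hφ.continuous).integrable_of_hasCompactSupport hφc.mul_left)
      (((hsd n).continuous.mul hφf).integrable_of_hasCompactSupport hφfc.mul_left)
      (((hsd n).continuous.mul hφ.continuous).integrable_of_hasCompactSupport hφc.mul_left)
      (fun x _ => (hsd n).differentiable (by simp) x)
      (fun x _ => hφ.differentiable (by simp) x)]
    congr 1
    refine integral_congr_ae (ae_of_all _ fun x => ?_)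
    simp only [hG]
    rw [InnerProductSpace.toDual_symm_apply]
  set t : E3 → ℝ := fun x => √((u₁ x ^ 2 + u₂ x ^ 2) / 2) with ht
  have htm : AEStronglyMeasurable t :=
    Real.continuous_sqrt.comp_aestronglyMeasurable ((i₁.add i₂).div_const 2).aestronglyMeasurable
  have ht2 : Integrable (fun x => t x ^ 2) := by
    refine ((i₁.add i₂).div_const 2).congr (ae_of_all _ fun x => ?_)
    simp only [ht, Pi.add_apply]
    rw [Real.sq_sqrt (by positivity)]
  obtain ⟨g, hg1, hg2, hg3⟩ := weak_limit s G t _ hGm hGC hGw (by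
    intro φ hφ hφc v
    set ζ : E3 → ℝ := fun x => fderiv ℝ φ x v with hζ
    have hζc : Continuous ζ := (hφ.continuous_fderiv (by simp)).clm_apply continuous_const
    have hζs : HasCompactSupport ζ := hφc.fderiv_apply ℝ v
    have hζ1 : Integrable ζ := hζc.integrable_of_hasCompactSupport hζs
    have hζ2 : Integrable (fun x => ζ x ^ 2) := by
      have : HasCompactSupport (fun x => ζ x ^ 2) := by
        have e1 : (fun x => ζ x ^ 2) = (fun r : ℝ => r ^ 2) ∘ ζ := rfl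
        rw [e1]
        exact hζs.comp_left (by norm_num)
      exact (hζc.pow 2).integrable_of_hasCompactSupport this
    have d1 : ∀ n, AEStronglyMeasurable (fun x => w n x - u₁ x) := fun n =>
      (hw1 n).continuous.aestronglyMeasurable.sub m₁
    have d2 : ∀ n, AEStronglyMeasurable (fun x => y n x - u₂ x) := fun n =>
      (hy1 n).continuous.aestronglyMeasurable.sub m₂
    have t1 := tendsto_mul_zero d1 hζc.aestronglyMeasurable hw3 hζ2 hw4
    have t2 := tendsto_mul_zero d2 hζc.aestronglyMeasurable hy3 hζ2 hy4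
    have t3 : Tendsto (fun n => e n * ∫ x, |ζ x|) atTop (𝓝 0) := by
      simpa using het.mul_const (∫ x, |ζ x|)
    have t4 := (t1.add t2).add t3
    simp only [add_zero] at t4
    have p1 : ∀ n, Integrable (fun x => |w n x - u₁ x| * |ζ x|) := fun n => by
      refine (mul_int_of_sq (d1 n) hζc.aestronglyMeasurable (hw3 n) hζ2).abs.congr
        (ae_of_all _ fun x => ?_)
      simp only [abs_mul]
    have p2 : ∀ n, Integrable (fun x => |y n x - u₂ x| * |ζ x|) := fun n => by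
      refine (mul_int_of_sq (d2 n) hζc.aestronglyMeasurable (hy3 n) hζ2).abs.congr
        (ae_of_all _ fun x => ?_)
      simp only [abs_mul]
    have p3 : ∀ n, Integrable (fun x => e n * |ζ x|) := fun n => hζ1.abs.const_mul _
    rw [tendsto_iff_norm_sub_tendsto_zero]
    refine tendsto_of_tendsto_of_tendsto_of_le_of_le tendsto_const_nhds t4
      (fun n => norm_nonneg _) fun n => ?_
    have j1 : Integrable (fun x => s n x * ζ x) :=
      ((hsd n).continuous.mul hζc).integrable_of_hasCompactSupport hζs.mul_left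
    have j2 : Integrable (fun x => t x * ζ x) :=
      mul_int_of_sq htm hζc.aestronglyMeasurable ht2 hζ2
    rw [← integral_sub j1 j2]
    refine (norm_integral_le_integral_norm _).trans ?_
    have j3 : ∫ x, ‖s n x * ζ x - t x * ζ x‖
        ≤ ∫ x, (|w n x - u₁ x| * |ζ x| + |y n x - u₂ x| * |ζ x| + e n * |ζ x|) := by
      refine integral_mono (j1.sub j2).norm (((p1 n).add (p2 n)).add (p3 n)) fun x => ?_
      simp only
      rw [← sub_mul, Real.norm_eq_abs, abs_mul, ← add_mul, ← add_mul]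
      refine mul_le_mul_of_nonneg_right ?_ (abs_nonneg _)
      exact mink (w n x) (y n x) (u₁ x) (u₂ x) (e n) (he0 n).le
    refine j3.trans (le_of_eq ?_)
    have p12 : Integrable (fun x => |w n x - u₁ x| * |ζ x| + |y n x - u₂ x| * |ζ x|) :=
      (p1 n).add (p2 n)
    rw [integral_add p12 (p3 n), integral_add (p1 n) (p2 n), integral_const_mul])
  exact ⟨g, hg1, hg2, hg3 _ (Eventually.of_forall hGC)⟩

end Pool.Agent.H158.TW
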