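import Mathlib
import Pool.Agent.H158.TWKin

/-!
# Existence of a minimiser of the TFW functional with `p = 2`
-/

set_option autoImplicit false

open MeasureTheory Filter Topology Set
open scoped ENNReal NNReal ContDiff

namespace Pool.Agent.H158.TW

/-- Fatou for real functions -/
lemma fatou_real {α : Type*} [MeasurableSpace α] {μ : Measure α} {f : ℕ → α → ℝ} {F : α → ℝ}
    {C : ℝ} (h0 : ∀ n x, 0 ≤ f n x) (hF0 : ∀ x, 0 ≤ F x) (hi : ∀ n, Integrable (f n) μ)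
    (hFm : AEStronglyMeasurable F μ) (hae : ∀ᵐ x ∂μ, Tendsto (fun n => f n x) atTop (𝓝 (F x)))
    (hc : ∀ ε : ℝ, 0 < ε → ∀ᶠ n in atTop, ∫ x, f n x ∂μ ≤ C + ε) :
    Integrable F μ ∧ ∫ x, F x ∂μ ≤ C := by
  have key : ∀ ε : ℝ, 0 < ε → ∫⁻ x, ENNReal.ofReal (F x) ∂μ ≤ ENNReal.ofReal (C + ε) := by
    intro ε hε
    have h2 : ∫⁻ x, ENNReal.ofReal (F x) ∂μ
        = ∫⁻ x, liminf (fun n => ENNReal.ofReal (f n x)) atTop ∂μ := by
      refine lintegral_congr_ae ?_
      filter_upwards [hae] with x hx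
      exact ((ENNReal.continuous_ofReal.tendsto _).comp hx).liminf_eq.symm
    rw [h2]
    refine (lintegral_liminf_le' fun n => (hi n).aestronglyMeasurable.aemeasurable.ennreal_ofReal).trans ?_
    refine Filter.liminf_le_of_frequently_le' ?_
    refine Eventually.frequently ?_
    filter_upwards [hc ε hε] with n hn
    rw [← ofReal_integral_eq_lintegral_ofReal (hi n) (ae_of_all _ (h0 n))]
    exact ENNReal.ofReal_le_ofReal hn
  have hC : 0 ≤ C := by
    by_contra hneg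
    push Not at hneg
    obtain ⟨n, hn⟩ := (hc (-C / 2) (by linarith)).exists
    have : 0 ≤ ∫ x, f n x ∂μ := integral_nonneg (h0 n)
    linarith
  have hI : Integrable F μ := by
    refine ⟨hFm, ?_⟩
    rw [hasFiniteIntegral_iff_ofReal (ae_of_all _ hF0)]
    exact (key 1 one_pos).trans_lt ENNReal.ofReal_lt_top
  refine ⟨hI, ?_⟩
  refine le_of_forall_pos_le_add fun ε hε => ?_
  rw [integral_eq_lintegral_of_nonneg_ae (ae_of_all _ hF0) hFm]
  exact ENNReal.toReal_le_of_le_ofReal (by linarith) (key ε hε)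

/-- truncated kernel -/
noncomputable def KR (δ : ℝ) (x : E3) : ℝ :=
  (Metric.ball (0 : E3) δ⁻¹).indicator (fun x => ‖x‖⁻¹) x

lemma KR_meas (δ : ℝ) : Measurable (KR δ) :=
  (measurable_norm.inv).indicator Metric.isOpen_ball.measurableSet

lemma KR_nonneg (δ : ℝ) (x : E3) : 0 ≤ KR δ x := by
  unfold KR
  exact indicator_nonneg (fun y _ => by positivity) x

lemma K2_meas : Measurable K2 := by
  have : Measurable (fun x : E3 => (‖x‖ ^ 2)⁻¹) := (measurable_norm.pow_const 2).inv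
  exact this.indicator Metric.isOpen_ball.measurableSet

lemma KR_sq_int (δ : ℝ) : Integrable (fun x => KR δ x ^ 2) := by
  have h1 : Integrable ((Metric.ball (0 : E3) δ⁻¹).indicator (fun _ => (1 : ℝ))) := by
    rw [integrable_indicator_iff Metric.isOpen_ball.measurableSet]
    refine integrableOn_const ?_
    exact (measure_ball_lt_top).ne
  refine Integrable.mono' (K2_int.add h1) ((KR_meas δ).pow_const 2).aestronglyMeasurable ?_
  filter_upwards with x
  rw [Real.norm_of_nonneg (sq_nonneg _)]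
  simp only [Pi.add_apply]
  have h0 := K2_nonneg x
  by_cases hx : x ∈ Metric.ball (0 : E3) δ⁻¹
  · unfold KR
    rw [indicator_of_mem hx, indicator_of_mem hx]
    by_cases h : ‖x‖ < 1
    · have h' : x ∈ Metric.ball (0 : E3) 1 := by simpa using h
      unfold K2
      rw [indicator_of_mem h', inv_pow]
      linarith
    · have h1 : ‖x‖⁻¹ ≤ 1 := by
        apply inv_le_one_of_one_le₀
        linarith
      have h2 : (0:ℝ) ≤ ‖x‖⁻¹ := by positivity
      nlinarith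
  · unfold KR
    rw [indicator_of_notMem hx, indicator_of_notMem hx]
    simpa using h0

lemma inv_le_KR {δ : ℝ} (hδ : 0 < δ) (x : E3) : ‖x‖⁻¹ ≤ KR δ x + δ := by
  by_cases hx : x ∈ Metric.ball (0 : E3) δ⁻¹
  · unfold KR
    rw [indicator_of_mem hx]
    linarith
  · have h0 := KR_nonneg δ x
    have h1 : δ⁻¹ ≤ ‖x‖ := by simpa using hx
    have h2 : ‖x‖⁻¹ ≤ δ := inv_le_of_inv_le₀ hδ h1
    linarith

/-- the kinetic, power and potential parts -/
lemma energy_two (A γ z : ℝ) (ρ : E3 → ℝ) (g : E3 → E3) :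
    energy A γ 2 z ρ g = A * (∫ x, ‖g x‖ ^ 2) + γ / 2 * (∫ x, ρ x ^ 2)
      - z * (∫ x, ‖x‖⁻¹ * ρ x) + 1 / 2 * DD ρ := by
  unfold energy DD
  simp only [Real.rpow_two]
  congr 2
  rw [← integral_const_mul]
  refine integral_congr_ae (ae_of_all _ fun x => ?_)
  simp only
  ring

lemma sq_int_of_adm {ρ : E3 → ℝ} {g : E3 → E3} (h : Adm 2 ρ g) :
    Integrable (fun x => ρ x ^ 2) := by
  have := h.int_p
  simpa only [Real.rpow_two] using this

/-- coercivity -/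
lemma coercive {A γ z lam : ℝ} (hγ : 0 < γ) (hz : 0 < z) {ρ : E3 → ℝ}
    {g : E3 → E3} (h : Adm 2 ρ g) (hl : ∫ x, ρ x ≤ lam) :
    A * (∫ x, ‖g x‖ ^ 2) + γ / 4 * (∫ x, ρ x ^ 2) + 1 / 2 * DD ρ ≤
      energy A γ 2 z ρ g + z * ((z / γ) * (∫ x, K2 x) + lam) := by
  rw [energy_two]
  have h2 := sq_int_of_adm h
  have hv : ∫ x, ‖x‖⁻¹ * ρ x ≤ γ / (4 * z) * (∫ x, ρ x ^ 2) + (z / γ) * (∫ x, K2 x) + ∫ x, ρ x := by
    have i1 : Integrable (fun x => γ / (4 * z) * ρ x ^ 2) := h2.const_mul _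
    have i2 : Integrable (fun x => z / γ * K2 x) := K2_int.const_mul _
    have i3 : Integrable (fun x => γ / (4 * z) * ρ x ^ 2 + z / γ * K2 x) := i1.add i2
    rw [← integral_const_mul, ← integral_const_mul, ← integral_add i1 i2,
      ← integral_add i3 h.int]
    refine integral_mono (pot_int h.nonneg h.int h2) (i3.add h.int) fun x => ?_
    have h3 := pot_le x (ρ x) (γ / (4 * z)) (h.nonneg x) (by positivity)
    have h4 : (4 * (γ / (4 * z)))⁻¹ = z / γ := by field_simp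
    rw [h4] at h3
    exact h3
  have h5 : z * ∫ x, ‖x‖⁻¹ * ρ x ≤ γ / 4 * (∫ x, ρ x ^ 2) + z * ((z / γ) * (∫ x, K2 x) + lam) := by
    calc z * ∫ x, ‖x‖⁻¹ * ρ x
        ≤ z * (γ / (4 * z) * (∫ x, ρ x ^ 2) + (z / γ) * (∫ x, K2 x) + ∫ x, ρ x) :=
          mul_le_mul_of_nonneg_left hv hz.le
      _ ≤ z * (γ / (4 * z) * (∫ x, ρ x ^ 2) + (z / γ) * (∫ x, K2 x) + lam) :=
          mul_le_mul_of_nonneg_left (by linarith) hz.le
      _ = _ := by
          field_simp
          ring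
  linarith

/-- midpoints -/
lemma adm_mid {A γ z lam : ℝ} (hA : 0 < A) {ρ₁ ρ₂ : E3 → ℝ}
    {g₁ g₂ : E3 → E3} (h₁ : Adm 2 ρ₁ g₁) (h₂ : Adm 2 ρ₂ g₂)
    (l₁ : ∫ x, ρ₁ x ≤ lam) (l₂ : ∫ x, ρ₂ x ≤ lam) :
    Integrable (fun x => (ρ₁ x - ρ₂ x) ^ 2) ∧
    ∃ ρ g, Adm 2 ρ g ∧ ∫ x, ρ x ≤ lam ∧
      energy A γ 2 z ρ g ≤ (energy A γ 2 z ρ₁ g₁ + energy A γ 2 z ρ₂ g₂) / 2
        - γ / 8 * ∫ x, (ρ₁ x - ρ₂ x) ^ 2 := by
  have q₁ := sq_int_of_adm h₁
  have q₂ := sq_int_of_adm h₂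
  have hx : Integrable (fun x => ρ₁ x * ρ₂ x) :=
    mul_int_of_sq h₁.int.aestronglyMeasurable h₂.int.aestronglyMeasurable q₁ q₂
  have hd : Integrable (fun x => (ρ₁ x - ρ₂ x) ^ 2) := by
    refine ((q₁.add q₂).sub (hx.const_mul 2)).congr (ae_of_all _ fun x => ?_)
    simp only [Pi.add_apply, Pi.sub_apply]
    ring
  refine ⟨hd, ?_⟩
  have sm : ∀ {ρ : E3 → ℝ}, Integrable ρ → AEStronglyMeasurable (fun x => √(ρ x)) := fun h =>
    Real.continuous_sqrt.comp_aestronglyMeasurable h.aestronglyMeasurable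
  have ss : ∀ {ρ : E3 → ℝ}, (∀ x, 0 ≤ ρ x) → Integrable ρ → Integrable (fun x => √(ρ x) ^ 2) :=
    fun h0 h => h.congr (ae_of_all _ fun x => (Real.sq_sqrt (h0 x)).symm)
  obtain ⟨g, hg1, hg2, hg3⟩ := kin_mid (fun x => Real.sqrt_nonneg (ρ₁ x))
    (fun x => Real.sqrt_nonneg (ρ₂ x)) (sm h₁.int) (sm h₂.int) (ss h₁.nonneg h₁.int)
    (ss h₂.nonneg h₂.int) h₁.grad h₂.grad h₁.weak h₂.weak
  set ρ : E3 → ℝ := fun x => (ρ₁ x + ρ₂ x) / 2 with hρ
  have e1 : (fun x => √((√(ρ₁ x) ^ 2 + √(ρ₂ x) ^ 2) / 2)) = fun x => √(ρ x) := by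
    funext x
    rw [Real.sq_sqrt (h₁.nonneg x), Real.sq_sqrt (h₂.nonneg x)]
  rw [e1] at hg2
  have hi : Integrable ρ := (h₁.int.add h₂.int).div_const 2
  have hi2 : Integrable (fun x => ρ x ^ 2) := by
    refine (((q₁.add q₂).add (hx.const_mul 2)).div_const 4).congr (ae_of_all _ fun x => ?_)
    simp only [Pi.add_apply, hρ]
    ring
  have hadm : Adm 2 ρ g := by
    refine ⟨fun x => ?_, hi, ?_, hg1, hg2, coul_int hi hi2⟩
    · have := h₁.nonneg x
      have := h₂.nonneg x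
      simp only [hρ]
      linarith
    · simpa only [Real.rpow_two] using hi2
  refine ⟨ρ, g, hadm, ?_, ?_⟩
  · simp only [hρ]
    rw [integral_div, integral_add h₁.int h₂.int]
    linarith
  · rw [energy_two, energy_two, energy_two]
    have p1 : ∫ x, ρ x ^ 2 = ((∫ x, ρ₁ x ^ 2) + ∫ x, ρ₂ x ^ 2) / 2
        - 1 / 4 * ∫ x, (ρ₁ x - ρ₂ x) ^ 2 := by
      have i1 : Integrable (fun x => (ρ₁ x ^ 2 + ρ₂ x ^ 2) / 2) := (q₁.add q₂).div_const 2
      have i2 : Integrable (fun x => 1 / 4 * (ρ₁ x - ρ₂ x) ^ 2) := hd.const_mul _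
      rw [← integral_add q₁ q₂, ← integral_div, ← integral_const_mul,
        ← integral_sub i1 i2]
      refine integral_congr_ae (ae_of_all _ fun x => ?_)
      simp only [hρ]
      ring
    have p2 : ∫ x, ‖x‖⁻¹ * ρ x = ((∫ x, ‖x‖⁻¹ * ρ₁ x) + ∫ x, ‖x‖⁻¹ * ρ₂ x) / 2 := by
      rw [← integral_add (pot_int h₁.nonneg h₁.int q₁) (pot_int h₂.nonneg h₂.int q₂),
        ← integral_div]
      refine integral_congr_ae (ae_of_all _ fun x => ?_)
      simp only [hρ]
      ring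
    have p3 := DD_mid h₁.int q₁ h₂.int q₂
    have p4 := mul_le_mul_of_nonneg_left hg3 hA.le
    rw [p1, p2]
    have p5 : DD ρ ≤ (DD ρ₁ + DD ρ₂) / 2 := p3
    linarith

/-- the zero density is admissible -/
lemma adm_zero : Adm 2 (fun _ => (0:ℝ)) (fun _ => (0 : E3)) := by
  refine ⟨fun x => le_refl _, integrable_zero _ _ _, ?_, ?_, ?_, ?_⟩
  · simp only [Real.rpow_two]
    simp
  · exact MemLp.zero
  · intro φ _ _ v
    simp
  · simp

lemma real_toLp_dist_sq {f h : E3 → ℝ} (hf : MemLp f 2 (volume : Measure E3)) (hh : MemLp h 2 (volume : Measure E3)) :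
    ‖hf.toLp f - hh.toLp h‖ ^ 2 = ∫ x, (f x - h x) ^ 2 := by
  rw [← MemLp.toLp_sub hf hh, ← real_inner_self_eq_norm_sq, MeasureTheory.L2.inner_def]
  refine integral_congr_ae ?_
  filter_upwards [(hf.sub hh).coeFn_toLp] with x hx
  rw [hx]
  simp [sq]

/-- completeness of `L²` -/
lemma l2_complete {ρ : ℕ → E3 → ℝ} (hm : ∀ n, MemLp (ρ n) 2) (b : ℕ → ℝ)
    (hb : Tendsto b atTop (𝓝 0)) (hc : ∀ n m, ∫ x, (ρ n x - ρ m x) ^ 2 ≤ b n + b m) :
    ∃ f : E3 → ℝ, MemLp f 2 ∧ Tendsto (fun n => ∫ x, (ρ n x - f x) ^ 2) atTop (𝓝 0) ∧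
      ∃ ns : ℕ → ℕ, StrictMono ns ∧
        ∀ᵐ x, Tendsto (fun i => ρ (ns i) x) atTop (𝓝 (f x)) := by
  set F : ℕ → Lp ℝ 2 (volume : Measure E3) := fun n => (hm n).toLp (ρ n) with hF
  have hcau : CauchySeq F := by
    rw [Metric.cauchySeq_iff]
    intro ε hε
    have hε2 : 0 < ε ^ 2 / 2 := by positivity
    obtain ⟨N, hN⟩ := Filter.eventually_atTop.mp (hb.eventually (gt_mem_nhds hε2))
    refine ⟨N, fun n hn m hm' => ?_⟩
    rw [dist_eq_norm]
    have h1 : ‖F n - F m‖ ^ 2 < ε ^ 2 := by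
      rw [hF]
      simp only
      rw [real_toLp_dist_sq]
      have := hc n m
      have := hN n hn
      have := hN m hm'
      linarith
    exact lt_of_pow_lt_pow_left₀ 2 hε.le h1
  obtain ⟨f, hf⟩ := cauchySeq_tendsto_of_complete hcau
  refine ⟨f, Lp.memLp f, ?_, ?_⟩
  · have h1 : Tendsto (fun n => ‖F n - f‖ ^ 2) atTop (𝓝 0) := by
      have := (tendsto_iff_norm_sub_tendsto_zero.1 hf).pow 2
      simpa using this
    refine h1.congr fun n => ?_
    have h2 := real_toLp_dist_sq (hm n) (Lp.memLp f)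
    rw [Lp.toLp_coeFn] at h2
    exact h2
  · have h1 := tendstoInMeasure_of_tendsto_Lp hf
    obtain ⟨ns, hns, hae⟩ := h1.exists_seq_tendsto_ae
    refine ⟨ns, hns, ?_⟩
    have h2 : ∀ᵐ x, ∀ n, F n x = ρ n x := by
      rw [ae_all_iff]
      intro n
      exact (hm n).coeFn_toLp
    filter_upwards [hae, h2] with x hx h3
    simpa only [h3] using hx

/-- minimising sequence -/
lemma exists_minseq {A γ z lam : ℝ} (hA : 0 < A) (hγ : 0 < γ) (hz : 0 < z) (hl : 0 < lam) :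
    ∃ e : ℝ, (∀ ρ g, Adm 2 ρ g → ∫ x, ρ x ≤ lam → e ≤ energy A γ 2 z ρ g) ∧
      ∀ n : ℕ, ∃ ρ g, Adm 2 ρ g ∧ ∫ x, ρ x ≤ lam ∧
        energy A γ 2 z ρ g ≤ e + 1 / ((n : ℝ) + 1) := by
  set S : Set ℝ := {E | ∃ ρ g, Adm 2 ρ g ∧ ∫ x, ρ x ≤ lam ∧ E = energy A γ 2 z ρ g} with hS
  have hne : S.Nonempty := ⟨_, fun _ => 0, fun _ => 0, adm_zero, by simpa using hl.le, rfl⟩
  have hbd : BddBelow S := by
    refine ⟨-(z * ((z / γ) * (∫ x, K2 x) + lam)), ?_⟩
    rintro E ⟨ρ, g, h, hl', rfl⟩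
    have h1 := coercive (A := A) hγ hz h hl'
    have h2 : 0 ≤ A * ∫ x, ‖g x‖ ^ 2 := mul_nonneg hA.le (integral_nonneg fun x => by positivity)
    have h3 : 0 ≤ γ / 4 * ∫ x, ρ x ^ 2 :=
      mul_nonneg (by positivity) (integral_nonneg fun x => by positivity)
    have h4 := DD_nonneg h.nonneg
    linarith
  refine ⟨sInf S, fun ρ g h hl' => csInf_le hbd ⟨ρ, g, h, hl', rfl⟩, fun n => ?_⟩
  have h1 : sInf S < sInf S + 1 / ((n : ℝ) + 1) := by
    have : (0:ℝ) < 1 / ((n : ℝ) + 1) := by positivity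
    linarith
  obtain ⟨E, ⟨ρ, g, h, hl', rfl⟩, hE⟩ := exists_lt_of_csInf_lt hne h1
  exact ⟨ρ, g, h, hl', hE.le⟩

lemma sqrt_sub_abs_le (a b ε : ℝ) (ha : 0 ≤ a) (hb : 0 ≤ b) (hε : 0 < ε) :
    |√a - √b| ≤ ε + (4 * ε)⁻¹ * |a - b| := by
  set x := √a with hx
  set y := √b with hy
  have hx0 : 0 ≤ x := Real.sqrt_nonneg _
  have hy0 : 0 ≤ y := Real.sqrt_nonneg _
  have e1 : a = x ^ 2 := (Real.sq_sqrt ha).symm
  have e2 : b = y ^ 2 := (Real.sq_sqrt hb).symm
  have h1 : |x - y| ^ 2 ≤ |a - b| := by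
    rw [e1, e2, show x ^ 2 - y ^ 2 = (x + y) * (x - y) by ring, abs_mul, sq]
    refine mul_le_mul_of_nonneg_right ?_ (abs_nonneg _)
    rw [abs_of_nonneg (add_nonneg hx0 hy0), abs_le]
    constructor <;> linarith
  have h2 : |x - y| ≤ ε + (4 * ε)⁻¹ * |x - y| ^ 2 := by
    have h3 : 0 ≤ (4 * ε)⁻¹ * (|x - y| - 2 * ε) ^ 2 := by positivity
    have h4 : (4 * ε)⁻¹ * (|x - y| - 2 * ε) ^ 2
        = ε + (4 * ε)⁻¹ * |x - y| ^ 2 - |x - y| := by
      field_simp
      ring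
    linarith
  have h5 : (4 * ε)⁻¹ * |x - y| ^ 2 ≤ (4 * ε)⁻¹ * |a - b| :=
    mul_le_mul_of_nonneg_left h1 (by positivity)
  linarith

/-- `ρ_n → ρ` in `L²`, nonnegative: `√ρ_n ζ → √ρ ζ` in `L¹` for `ζ ∈ C_c` -/
lemma sqrt_lim {ρ : ℕ → E3 → ℝ} {f : E3 → ℝ} (h0 : ∀ n x, 0 ≤ ρ n x) (hf0 : ∀ x, 0 ≤ f x)
    (hi : ∀ n, Integrable (ρ n)) (hfi : Integrable f)
    (hd : ∀ n, Integrable (fun x => (ρ n x - f x) ^ 2))
    (ht : Tendsto (fun n => ∫ x, (ρ n x - f x) ^ 2) atTop (𝓝 0))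
    {ζ : E3 → ℝ} (hζc : Continuous ζ) (hζs : HasCompactSupport ζ) :
    Tendsto (fun n => ∫ x, √(ρ n x) * ζ x) atTop (𝓝 (∫ x, √(f x) * ζ x)) := by
  have hζ1 : Integrable ζ := hζc.integrable_of_hasCompactSupport hζs
  have hζ2 : Integrable (fun x => ζ x ^ 2) := by
    have : HasCompactSupport (fun x => ζ x ^ 2) := by
      have e1 : (fun x => ζ x ^ 2) = (fun r : ℝ => r ^ 2) ∘ ζ := rfl
      rw [e1]
      exact hζs.comp_left (by norm_num)
    exact (hζc.pow 2).integrable_of_hasCompactSupport this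
  have sm : ∀ {ρ : E3 → ℝ}, Integrable ρ → AEStronglyMeasurable (fun x => √(ρ x)) := fun h =>
    Real.continuous_sqrt.comp_aestronglyMeasurable h.aestronglyMeasurable
  have ss : ∀ {ρ : E3 → ℝ}, (∀ x, 0 ≤ ρ x) → Integrable ρ → Integrable (fun x => √(ρ x) ^ 2) :=
    fun h0 h => h.congr (ae_of_all _ fun x => (Real.sq_sqrt (h0 x)).symm)
  have dm : ∀ n, AEStronglyMeasurable (fun x => ρ n x - f x) := fun n =>
    (hi n).aestronglyMeasurable.sub hfi.aestronglyMeasurable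
  have j1 : ∀ n, Integrable (fun x => √(ρ n x) * ζ x) := fun n =>
    mul_int_of_sq (sm (hi n)) hζc.aestronglyMeasurable (ss (h0 n) (hi n)) hζ2
  have j2 : Integrable (fun x => √(f x) * ζ x) :=
    mul_int_of_sq (sm hfi) hζc.aestronglyMeasurable (ss hf0 hfi) hζ2
  have j3 : ∀ n, Integrable (fun x => |ρ n x - f x| * |ζ x|) := fun n => by
    refine (mul_int_of_sq (dm n) hζc.aestronglyMeasurable (hd n) hζ2).abs.congr
      (ae_of_all _ fun x => ?_)
    simp only [abs_mul]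
  have t1 := tendsto_mul_zero dm hζc.aestronglyMeasurable hd hζ2 ht
  have bound : ∀ ε : ℝ, 0 < ε → ∀ n, |(∫ x, √(ρ n x) * ζ x) - ∫ x, √(f x) * ζ x|
      ≤ ε * (∫ x, |ζ x|) + (4 * ε)⁻¹ * ∫ x, |ρ n x - f x| * |ζ x| := by
    intro ε hε n
    have k1 : Integrable (fun x => ε * |ζ x|) := hζ1.abs.const_mul _
    have k2 : Integrable (fun x => (4 * ε)⁻¹ * (|ρ n x - f x| * |ζ x|)) := (j3 n).const_mul _
    rw [← integral_sub (j1 n) j2, ← integral_const_mul, ← integral_const_mul,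
      ← integral_add k1 k2, ← Real.norm_eq_abs]
    refine (norm_integral_le_integral_norm _).trans ?_
    refine integral_mono ((j1 n).sub j2).norm (k1.add k2) fun x => ?_
    simp only
    rw [← sub_mul, Real.norm_eq_abs, abs_mul, ← mul_assoc, ← add_mul]
    exact mul_le_mul_of_nonneg_right (sqrt_sub_abs_le _ _ ε (h0 n x) (hf0 x) hε) (abs_nonneg _)
  rw [Metric.tendsto_atTop]
  intro δ hδ
  set Z := ∫ x, |ζ x| with hZ
  have hZ0 : 0 ≤ Z := integral_nonneg fun x => abs_nonneg _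
  set ε := δ / (2 * (Z + 1)) with hε
  have hε0 : 0 < ε := by positivity
  have hεZ : ε * Z ≤ δ / 2 := by
    rw [hε, div_mul_eq_mul_div, div_le_div_iff₀ (by positivity) (by norm_num)]
    nlinarith
  have t2 := t1.const_mul ((4 * ε)⁻¹)
  rw [mul_zero] at t2
  obtain ⟨N, hN⟩ := Filter.eventually_atTop.mp (t2.eventually (gt_mem_nhds (half_pos hδ)))
  refine ⟨N, fun n hn => ?_⟩
  have h1 := bound ε hε0 n
  have h2 := hN n hn
  rw [Real.dist_eq]
  linarith

/-- convergence of the potential energy -/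
lemma pot_lim {ρ : ℕ → E3 → ℝ} {f : E3 → ℝ} {L : ℝ} (h0 : ∀ n x, 0 ≤ ρ n x) (hf0 : ∀ x, 0 ≤ f x)
    (hi : ∀ n, Integrable (ρ n)) (hfi : Integrable f)
    (hs : ∀ n, Integrable (fun x => ρ n x ^ 2)) (hfs : Integrable (fun x => f x ^ 2))
    (hL : ∀ n, ∫ x, ρ n x ≤ L) (hfL : ∫ x, f x ≤ L)
    (hd : ∀ n, Integrable (fun x => (ρ n x - f x) ^ 2))
    (ht : Tendsto (fun n => ∫ x, (ρ n x - f x) ^ 2) atTop (𝓝 0)) :
    Tendsto (fun n => ∫ x, ‖x‖⁻¹ * ρ n x) atTop (𝓝 (∫ x, ‖x‖⁻¹ * f x)) := by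
  have dm : ∀ n, AEStronglyMeasurable (fun x => ρ n x - f x) := fun n =>
    (hi n).aestronglyMeasurable.sub hfi.aestronglyMeasurable
  have hL0 : 0 ≤ L := (integral_nonneg hf0).trans hfL
  have bound : ∀ δ : ℝ, 0 < δ → ∀ n, |(∫ x, ‖x‖⁻¹ * ρ n x) - ∫ x, ‖x‖⁻¹ * f x|
      ≤ (∫ x, |ρ n x - f x| * |KR δ x|) + δ * (2 * L) := by
    intro δ hδ n
    have k1 : Integrable (fun x => |ρ n x - f x| * |KR δ x|) := by
      refine (mul_int_of_sq (dm n) (KR_meas δ).aestronglyMeasurable (hd n)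
        (KR_sq_int δ)).abs.congr (ae_of_all _ fun x => ?_)
      simp only [abs_mul]
    have k2 : Integrable (fun x => δ * (ρ n x + f x)) := ((hi n).add hfi).const_mul _
    have k3 : ∫ x, δ * (ρ n x + f x) ≤ δ * (2 * L) := by
      rw [integral_const_mul, integral_add (hi n) hfi]
      exact mul_le_mul_of_nonneg_left (by linarith [hL n]) hδ.le
    have j1 := pot_int (h0 n) (hi n) (hs n)
    have j2 := pot_int hf0 hfi hfs
    rw [← integral_sub j1 j2, ← Real.norm_eq_abs]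
    refine (norm_integral_le_integral_norm _).trans ?_
    have k4 : ∫ x, ‖‖x‖⁻¹ * ρ n x - ‖x‖⁻¹ * f x‖
        ≤ ∫ x, (|ρ n x - f x| * |KR δ x| + δ * (ρ n x + f x)) := by
      refine integral_mono (j1.sub j2).norm (k1.add k2) fun x => ?_
      simp only
      rw [← mul_sub, Real.norm_eq_abs, abs_mul, abs_of_nonneg (inv_nonneg.2 (norm_nonneg x)),
        abs_of_nonneg (KR_nonneg δ x)]
      have h1 := mul_le_mul_of_nonneg_right (inv_le_KR hδ x) (abs_nonneg (ρ n x - f x))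
      have h2 : |ρ n x - f x| ≤ ρ n x + f x := by
        rw [abs_le]
        constructor <;> linarith [h0 n x, hf0 x]
      have h3 := mul_le_mul_of_nonneg_left h2 hδ.le
      linarith
    rw [integral_add k1 k2] at k4
    linarith
  rw [Metric.tendsto_atTop]
  intro η hη
  set δ := η / (4 * (L + 1)) with hδ
  have hδ0 : 0 < δ := by positivity
  have hδL : δ * (2 * L) ≤ η / 2 := by
    rw [hδ, div_mul_eq_mul_div, div_le_div_iff₀ (by positivity) (by norm_num)]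
    nlinarith
  have t1 := tendsto_mul_zero dm (KR_meas δ).aestronglyMeasurable hd (KR_sq_int δ) ht
  obtain ⟨N, hN⟩ := Filter.eventually_atTop.mp (t1.eventually (gt_mem_nhds (half_pos hη)))
  refine ⟨N, fun n hn => ?_⟩
  have h1 := bound δ hδ0 n
  have h2 := hN n hn
  rw [Real.dist_eq]
  linarith

/-- convergence of the power term -/
lemma pow_lim {ρ : ℕ → E3 → ℝ} {f : E3 → ℝ}
    (hm : ∀ n, AEStronglyMeasurable (ρ n)) (hfm : AEStronglyMeasurable f)
    (hs : ∀ n, Integrable (fun x => ρ n x ^ 2)) (hfs : Integrable (fun x => f x ^ 2))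
    (hd : ∀ n, Integrable (fun x => (ρ n x - f x) ^ 2))
    (ht : Tendsto (fun n => ∫ x, (ρ n x - f x) ^ 2) atTop (𝓝 0)) :
    Tendsto (fun n => ∫ x, ρ n x ^ 2) atTop (𝓝 (∫ x, f x ^ 2)) := by
  have dm : ∀ n, AEStronglyMeasurable (fun x => ρ n x - f x) := fun n => (hm n).sub hfm
  have t1 := tendsto_mul_zero dm hfm hd hfs ht
  have hx : ∀ n, Integrable (fun x => (ρ n x - f x) * f x) := fun n =>
    mul_int_of_sq (dm n) hfm (hd n) hfs
  have t2 : Tendsto (fun n => ∫ x, (ρ n x - f x) * f x) atTop (𝓝 0) := by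
    rw [tendsto_zero_iff_abs_tendsto_zero]
    refine tendsto_of_tendsto_of_tendsto_of_le_of_le tendsto_const_nhds t1
      (fun n => abs_nonneg _) fun n => ?_
    simp only [Function.comp]
    rw [← Real.norm_eq_abs]
    refine (norm_integral_le_integral_norm _).trans (le_of_eq ?_)
    refine integral_congr_ae (ae_of_all _ fun x => ?_)
    simp only [Real.norm_eq_abs, abs_mul]
  have e1 : ∀ n, ∫ x, ρ n x ^ 2
      = (∫ x, (ρ n x - f x) ^ 2) + 2 * (∫ x, (ρ n x - f x) * f x) + ∫ x, f x ^ 2 := by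
    intro n
    have i2 : Integrable (fun x => 2 * ((ρ n x - f x) * f x)) := (hx n).const_mul 2
    have i3 : Integrable (fun x => (ρ n x - f x) ^ 2 + 2 * ((ρ n x - f x) * f x)) := (hd n).add i2
    rw [← integral_const_mul, ← integral_add (hd n) i2, ← integral_add i3 hfs]
    refine integral_congr_ae (ae_of_all _ fun x => ?_)
    simp only
    ring
  have t3 := (ht.add (t2.const_mul 2)).add_const (∫ x, f x ^ 2)
  simp only [mul_zero, add_zero, zero_add] at t3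
  exact t3.congr fun n => (e1 n).symm

/-- **Existence of a minimiser** of the TFW functional with `p = 2`. -/
theorem exists_min {A γ z lam : ℝ} (hA : 0 < A) (hγ : 0 < γ) (hz : 0 < z) (hl : 0 < lam) :
    ∃ ρ g, IsMin A γ 2 z lam ρ g := by
  obtain ⟨e, he, hseq⟩ := exists_minseq hA hγ hz hl
  choose R G hadm hlam hE using hseq
  have hsq : ∀ n, Integrable (fun x => R n x ^ 2) := fun n => sq_int_of_adm (hadm n)
  -- `L²` Cauchy
  have hcau : ∀ n m, ∫ x, (R n x - R m x) ^ 2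
      ≤ (4 / γ) * (1 / ((n : ℝ) + 1)) + (4 / γ) * (1 / ((m : ℝ) + 1)) := by
    intro n m
    obtain ⟨-, ρ, g, h1, h2, h3⟩ := adm_mid (γ := γ) (z := z) hA (hadm n) (hadm m) (hlam n) (hlam m)
    have h4 := he ρ g h1 h2
    have h5 : γ / 8 * ∫ x, (R n x - R m x) ^ 2
        ≤ (1 / ((n : ℝ) + 1) + 1 / ((m : ℝ) + 1)) / 2 := by
      have := hE n
      have := hE m
      linarith
    have h6 : ∫ x, (R n x - R m x) ^ 2 = (8 / γ) * (γ / 8 * ∫ x, (R n x - R m x) ^ 2) := by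
      field_simp
    rw [h6]
    calc (8 / γ) * (γ / 8 * ∫ x, (R n x - R m x) ^ 2)
        ≤ (8 / γ) * ((1 / ((n : ℝ) + 1) + 1 / ((m : ℝ) + 1)) / 2) :=
          mul_le_mul_of_nonneg_left h5 (by positivity)
      _ = _ := by ring
  have hb : Tendsto (fun n : ℕ => (4 / γ) * (1 / ((n : ℝ) + 1))) atTop (𝓝 0) := by
    have := (tendsto_one_div_add_atTop_nhds_zero_nat (𝕜 := ℝ)).const_mul (4 / γ)
    rw [mul_zero] at this
    exact this
  have hmem : ∀ n, MemLp (R n) 2 := fun n =>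
    (memLp_two_iff_integrable_sq (hadm n).int.aestronglyMeasurable).2 (hsq n)
  obtain ⟨f, hfm, hft, ns, hns, hae⟩ := l2_complete hmem _ hb hcau
  -- second subsequence: the Coulomb energies converge
  set M := z * ((z / γ) * (∫ x, K2 x) + lam) with hM
  have hEe : ∀ n, energy A γ 2 z (R n) (G n) ≤ e + 1 := fun n => by
    refine (hE n).trans ?_
    have : 1 / ((n : ℝ) + 1) ≤ 1 := by
      rw [div_le_one (by positivity)]
      have : (0:ℝ) ≤ n := Nat.cast_nonneg n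
      linarith
    linarith
  have hK0 : ∀ n, 0 ≤ ∫ x, ‖G n x‖ ^ 2 := fun n => integral_nonneg fun x => by positivity
  have hP0 : ∀ n, 0 ≤ ∫ x, R n x ^ 2 := fun n => integral_nonneg fun x => by positivity
  have hD0 : ∀ n, 0 ≤ DD (R n) := fun n => DD_nonneg (hadm n).nonneg
  have hco : ∀ n, A * (∫ x, ‖G n x‖ ^ 2) + γ / 4 * (∫ x, R n x ^ 2) + 1 / 2 * DD (R n)
      ≤ e + 1 + M := fun n => by
    have := coercive (A := A) hγ hz (hadm n) (hlam n)
    linarith [hEe n]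
  have hDb : ∀ n, DD (R n) ∈ Icc 0 (2 * (e + 1 + M)) := fun n => by
    refine ⟨hD0 n, ?_⟩
    have h1 := hco n
    have h2 : 0 ≤ A * ∫ x, ‖G n x‖ ^ 2 := mul_nonneg hA.le (hK0 n)
    have h3 : 0 ≤ γ / 4 * ∫ x, R n x ^ 2 := mul_nonneg (by positivity) (hP0 n)
    linarith
  obtain ⟨d, -, ms, hms, hd⟩ := isCompact_Icc.tendsto_subseq (fun n => hDb (ns n))
  -- the combined subsequence
  set k : ℕ → ℕ := fun n => ns (ms n) with hk
  have hkt : Tendsto k atTop atTop := hns.tendsto_atTop.comp hms.tendsto_atTop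
  set r : ℕ → E3 → ℝ := fun n => R (k n) with hr
  set ρ : E3 → ℝ := fun x => max (f x) 0 with hρ
  have hρ0 : ∀ x, 0 ≤ ρ x := fun x => le_max_right _ _
  have hae1 : ∀ᵐ x, Tendsto (fun n => r n x) atTop (𝓝 (f x)) := by
    filter_upwards [hae] with x hx
    exact hx.comp hms.tendsto_atTop
  have hfρ : f =ᵐ[volume] ρ := by
    filter_upwards [hae1] with x hx
    have : 0 ≤ f x := ge_of_tendsto' hx fun n => (hadm _).nonneg x
    simp only [hρ]
    rw [max_eq_left this]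
  have hae2 : ∀ᵐ x, Tendsto (fun n => r n x) atTop (𝓝 (ρ x)) := by
    filter_upwards [hae1, hfρ] with x hx h2
    rwa [← h2]
  have hfsq : Integrable (fun x => f x ^ 2) := hfm.integrable_sq
  have hρsq : Integrable (fun x => ρ x ^ 2) := by
    refine hfsq.congr ?_
    filter_upwards [hfρ] with x hx
    rw [hx]
  have hρm : AEStronglyMeasurable ρ := hfm.aestronglyMeasurable.congr hfρ
  have hr0 : ∀ n x, 0 ≤ r n x := fun n x => (hadm _).nonneg x
  have hri : ∀ n, Integrable (r n) := fun n => (hadm _).int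
  have hrs : ∀ n, Integrable (fun x => r n x ^ 2) := fun n => hsq _
  have hrL : ∀ n, ∫ x, r n x ≤ lam := fun n => hlam _
  obtain ⟨hρi, hρL⟩ := fatou_real (C := lam) hr0 hρ0 hri hρm hae2 (fun ε hε =>
    Eventually.of_forall fun n => (hrL n).trans (by linarith))
  have hdi : ∀ n, Integrable (fun x => (r n x - ρ x) ^ 2) := fun n => by
    have hx := mul_int_of_sq (hri n).aestronglyMeasurable hρm (hrs n) hρsq
    refine (((hrs n).add hρsq).sub (hx.const_mul 2)).congr (ae_of_all _ fun x => ?_)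
    simp only [Pi.add_apply, Pi.sub_apply]
    ring
  have hdt : Tendsto (fun n => ∫ x, (r n x - ρ x) ^ 2) atTop (𝓝 0) := by
    refine (hft.comp hkt).congr fun n => ?_
    refine integral_congr_ae ?_
    filter_upwards [hfρ] with x hx
    rw [hx]
  have tV := pot_lim hr0 hρ0 hri hρi hrs hρsq hrL hρL hdi hdt
  have tP := pow_lim (fun n => (hri n).aestronglyMeasurable) hρm hrs hρsq hdi hdt
  -- the Coulomb energy
  have hcρ := coul_int hρi hρsq
  have hDρ : DD ρ ≤ d := by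
    have hae3 : ∀ᵐ q : E3 × E3 ∂((volume : Measure E3).prod volume),
        Tendsto (fun n => r n q.1 * r n q.2 / ‖q.1 - q.2‖) atTop
          (𝓝 (ρ q.1 * ρ q.2 / ‖q.1 - q.2‖)) := by
      have e1 : ∀ᵐ p : E3 × E3 ∂((volume : Measure E3).prod volume),
          Tendsto (fun n => r n p.1) atTop (𝓝 (ρ p.1)) :=
        Measure.quasiMeasurePreserving_fst.ae hae2
      have e2 : ∀ᵐ p : E3 × E3 ∂((volume : Measure E3).prod volume),
          Tendsto (fun n => r n p.2) atTop (𝓝 (ρ p.2)) :=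
        Measure.quasiMeasurePreserving_snd.ae hae2
      filter_upwards [e1, e2] with p h1 h2
      exact (h1.mul h2).div_const _
    refine (fatou_real (C := d) (μ := (volume : Measure E3).prod volume)
      (f := fun n (q : E3 × E3) => r n q.1 * r n q.2 / ‖q.1 - q.2‖)
      (F := fun q : E3 × E3 => ρ q.1 * ρ q.2 / ‖q.1 - q.2‖)
      (fun n q => div_nonneg (mul_nonneg (hr0 _ _) (hr0 _ _)) (norm_nonneg _))
      (fun q => div_nonneg (mul_nonneg (hρ0 _) (hρ0 _)) (norm_nonneg _))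
      (fun n => (hadm _).coul) hcρ.aestronglyMeasurable hae3 (fun ε hε => ?_)).2
    have h1 := hd.eventually (gt_mem_nhds (show d < d + ε by linarith))
    filter_upwards [h1] with n hn
    exact hn.le
  -- the energies converge
  have tE : Tendsto (fun n => energy A γ 2 z (r n) (G (k n))) atTop (𝓝 e) := by
    have h1 : Tendsto (fun n => e + 1 / (((k n : ℕ) : ℝ) + 1)) atTop (𝓝 e) := by
      have := ((tendsto_one_div_add_atTop_nhds_zero_nat (𝕜 := ℝ)).comp hkt).const_add e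
      rw [add_zero] at this
      exact this
    refine tendsto_of_tendsto_of_tendsto_of_le_of_le tendsto_const_nhds h1
      (fun n => he _ _ (hadm _) (hlam _)) fun n => hE _
  have tK : Tendsto (fun n => ∫ x, ‖G (k n) x‖ ^ 2) atTop
      (𝓝 ((e - γ / 2 * (∫ x, ρ x ^ 2) + z * (∫ x, ‖x‖⁻¹ * ρ x) - 1 / 2 * d) / A)) := by
    have h1 := (((tE.sub (tP.const_mul (γ / 2))).add (tV.const_mul z)).sub
      (hd.const_mul (1 / 2))).div_const A
    refine h1.congr fun n => ?_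
    simp only [Function.comp]
    rw [energy_two]
    field_simp
    ring
  set t := (e - γ / 2 * (∫ x, ρ x ^ 2) + z * (∫ x, ‖x‖⁻¹ * ρ x) - 1 / 2 * d) / A with ht
  -- weak limit of the gradients
  obtain ⟨g, hg1, hg2, hg3⟩ := weak_limit (fun n x => √(r n x)) (fun n => G (k n))
    (fun x => √(ρ x)) ((e + 1 + M) / A) (fun n => (hadm _).grad) (fun n => by
      rw [le_div_iff₀ hA]
      have h1 := hco (k n)
      have h3 : 0 ≤ γ / 4 * ∫ x, R (k n) x ^ 2 := mul_nonneg (by positivity) (hP0 _)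
      have h4 := hD0 (k n)
      linarith) (fun n => (hadm _).weak) (fun φ hφ hφc v => by
      have hζc : Continuous (fun x => fderiv ℝ φ x v) :=
        (hφ.continuous_fderiv (by simp)).clm_apply continuous_const
      exact sqrt_lim hr0 hρ0 hri hρi hdi hdt hζc (hφc.fderiv_apply ℝ v))
  have hgt : ∫ x, ‖g x‖ ^ 2 ≤ t := by
    refine le_of_forall_pos_le_add fun ε hε => hg3 _ ?_
    have h1 := tK.eventually (gt_mem_nhds (show t < t + ε by linarith))
    filter_upwards [h1] with n hn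
    exact hn.le
  have hρadm : Adm 2 ρ g := ⟨hρ0, hρi, by simpa only [Real.rpow_two] using hρsq, hg1, hg2, hcρ⟩
  refine ⟨ρ, g, hρadm, hρL, fun ρ' g' h' hl' => le_trans ?_ (he ρ' g' h' hl')⟩
  rw [energy_two]
  have h1 : A * (∫ x, ‖g x‖ ^ 2) ≤ A * t := mul_le_mul_of_nonneg_left hgt hA.le
  have h2 : A * t = e - γ / 2 * (∫ x, ρ x ^ 2) + z * (∫ x, ‖x‖⁻¹ * ρ x) - 1 / 2 * d := by
    rw [ht]
    field_simp
  linarith

end Pool.Agent.H158.TW
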