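import Mathlib
import Pool.Agent.H158.TWExist
import Pool.Agent.Helper149.Hardy
import Pool.Agent.TH791.Newt

/-!
# A Hardy type inequality: `∫ 2c/(r(1+cr)²) u² ≤ ∫ |∇u|²`
-/

set_option autoImplicit false

open MeasureTheory Filter Topology Set
open scoped ENNReal NNReal ContDiff

namespace Pool.Agent.H158.FA

open Pool.Agent.H158.TW

/-- regularised radius -/
noncomputable def rd (δ : ℝ) (x : E3) : ℝ := √(‖x‖ ^ 2 + δ ^ 2)

lemma rd_pos {δ : ℝ} (hδ : 0 < δ) (x : E3) : 0 < rd δ x := Real.sqrt_pos.mpr (by positivity)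

lemma rd_ge {δ : ℝ} (x : E3) : ‖x‖ ≤ rd δ x := by
  apply Real.le_sqrt_of_sq_le; nlinarith [sq_nonneg δ]

lemma rd_ge' {δ : ℝ} (x : E3) : δ ≤ rd δ x := by
  apply Real.le_sqrt_of_sq_le; nlinarith [sq_nonneg ‖x‖]

lemma rd_cont (δ : ℝ) : Continuous (rd δ) := by
  unfold rd
  apply Continuous.sqrt; fun_prop

lemma rd_fderiv {δ : ℝ} (hδ : 0 < δ) (x : E3) :
    ∃ L : E3 →L[ℝ] ℝ, HasFDerivAt (rd δ) L x ∧ ‖L‖ ≤ 1 := by
  have h1 : HasFDerivAt (fun x : E3 => ‖x‖ ^ 2) (2 • (innerSL ℝ x)) x :=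
    (hasStrictFDerivAt_norm_sq x).hasFDerivAt
  have h2 : HasFDerivAt (fun x : E3 => ‖x‖ ^ 2 + δ ^ 2) (2 • (innerSL ℝ x)) x :=
    h1.add_const _
  have hp : ‖x‖ ^ 2 + δ ^ 2 ≠ 0 := by positivity
  have h3 := h2.sqrt hp
  refine ⟨_, h3, ?_⟩
  have hr := rd_pos hδ x
  have e : √(‖x‖ ^ 2 + δ ^ 2) = rd δ x := rfl
  rw [e, norm_smul, ← Nat.cast_smul_eq_nsmul ℝ, norm_smul, innerSL_apply_norm]
  rw [Real.norm_of_nonneg (by positivity)]
  simp only [Nat.cast_ofNat, Real.norm_ofNat]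
  rw [div_mul_eq_mul_div, one_mul, div_le_one (by positivity)]
  have := rd_ge (δ := δ) x
  linarith

/-- the weight `c/(1+cR)` -/
noncomputable def wt (c δ : ℝ) (x : E3) : ℝ := c / (1 + c * rd δ x)

lemma wt_den {c δ : ℝ} (hc : 0 < c) (hδ : 0 < δ) (x : E3) : 0 < 1 + c * rd δ x := by
  have := rd_pos hδ x
  positivity

lemma wt_fderiv {c δ : ℝ} (hc : 0 < c) (hδ : 0 < δ) (x : E3) :
    ∃ L : E3 →L[ℝ] ℝ, HasFDerivAt (wt c δ) L x ∧ ‖L‖ ≤ wt c δ x ^ 2 := by
  obtain ⟨L, hL, hn⟩ := rd_fderiv hδ x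
  have hd := wt_den hc hδ x
  have h1 : HasFDerivAt (fun x => 1 + c * rd δ x) (c • L) x := (hL.const_mul c).const_add 1
  have h2 : HasDerivAt (fun y : ℝ => c / y) (-(c / (1 + c * rd δ x) ^ 2)) (1 + c * rd δ x) := by
    have := (hasDerivAt_inv hd.ne').const_mul c
    refine (this.congr_deriv ?_).congr_of_eventuallyEq ?_
    · ring
    · filter_upwards with y
      rw [div_eq_mul_inv]
  have h3 := h2.comp_hasFDerivAt x h1
  refine ⟨_, h3, ?_⟩
  rw [norm_smul, norm_smul, Real.norm_eq_abs, abs_neg, abs_of_nonneg (by positivity),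
    Real.norm_of_nonneg hc.le]
  unfold wt
  rw [div_pow]
  calc c / (1 + c * rd δ x) ^ 2 * (c * ‖L‖) ≤ c / (1 + c * rd δ x) ^ 2 * (c * 1) := by gcongr
    _ = _ := by ring

lemma wt_contDiff {c δ : ℝ} (hc : 0 < c) (hδ : 0 < δ) : ContDiff ℝ 1 (wt c δ) := by
  unfold wt rd
  refine ContDiff.div contDiff_const ?_ (fun x => (wt_den hc hδ x).ne')
  refine contDiff_const.add (contDiff_const.mul ?_)
  refine ContDiff.sqrt ?_ (fun x => by positivity)
  exact (contDiff_norm_sq ℝ).add contDiff_const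

lemma wt_nonneg {c δ : ℝ} (hc : 0 < c) (hδ : 0 < δ) (x : E3) : 0 ≤ wt c δ x :=
  div_nonneg hc.le (wt_den hc hδ x).le

lemma wt_le {c δ : ℝ} (hc : 0 < c) (hδ : 0 < δ) (x : E3) : wt c δ x ≤ c := by
  unfold wt
  apply div_le_self hc.le
  have := rd_pos hδ x
  nlinarith [mul_pos hc this]

/-- regularised kernel -/
noncomputable def Kd (c δ : ℝ) (x : E3) : ℝ := 2 * c / (rd δ x * (1 + c * rd δ x) ^ 2)

lemma Kd_eq {c δ : ℝ} (hc : 0 < c) (hδ : 0 < δ) (x : E3) :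
    Kd c δ x = 2 * wt c δ x / rd δ x - 2 * wt c δ x ^ 2 := by
  have h1 := rd_pos hδ x
  have h2 := wt_den hc hδ x
  unfold Kd wt
  field_simp
  ring

lemma hardy_smooth {w : E3 → ℝ} (hw : ContDiff ℝ ∞ w)
    (hi : Integrable (fun x => w x ^ 2)) (hg : Integrable (fun x => ‖fderiv ℝ w x‖ ^ 2))
    {c δ : ℝ} (hc : 0 < c) (hδ : 0 < δ) :
    ∫ x, Kd c δ x * w x ^ 2 ≤ ∫ x, ‖fderiv ℝ w x‖ ^ 2 := by
  set W := wt c δ with hW
  have hWc : Continuous W := (wt_contDiff hc hδ).continuous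
  set F : E3 → ℝ := fun x => w x ^ 2 * W x with hF
  have hF1 : ContDiff ℝ 1 F := ((hw.of_le (by norm_cast)).pow 2).mul (wt_contDiff hc hδ)
  have hF0 : ∀ x, 0 ≤ F x := fun x => mul_nonneg (sq_nonneg _) (wt_nonneg hc hδ x)
  have iF : Integrable F := Helper149.Hardy.integrable_of_bdd_mul hi hWc c (fun x => by
    rw [abs_of_nonneg (wt_nonneg hc hδ x)]; exact wt_le hc hδ x)
  have iW2 : Integrable (fun x => w x ^ 2 * W x ^ 2) :=
    Helper149.Hardy.integrable_of_bdd_mul hi (hWc.pow 2) (c ^ 2) (fun x => by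
      rw [abs_of_nonneg (sq_nonneg _)]
      exact pow_le_pow_left₀ (wt_nonneg hc hδ x) (wt_le hc hδ x) 2)
  have hfd : ∀ x, ‖fderiv ℝ F x‖ ≤ ‖fderiv ℝ w x‖ ^ 2 + 2 * (w x ^ 2 * W x ^ 2) := by
    intro x
    obtain ⟨L, hL, hn⟩ := wt_fderiv hc hδ x
    have h1 : HasFDerivAt w (fderiv ℝ w x) x := (hw.differentiable (by simp) x).hasFDerivAt
    have h2 := (h1.pow 2).mul hL
    have h3 : fderiv ℝ F x = _ := h2.fderiv
    rw [h3]
    refine (norm_add_le _ _).trans ?_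
    rw [norm_smul, norm_smul, norm_smul, Real.norm_of_nonneg (sq_nonneg (w x))]
    have hW0 := wt_nonneg hc hδ x
    have e1 : ‖wt c δ x‖ = W x := Real.norm_of_nonneg hW0
    rw [e1]
    have e2 : ‖(2 : ℕ) • w x ^ (2 - 1)‖ = 2 * |w x| := by
      simp [Real.norm_eq_abs, abs_mul]
    rw [e2]
    have h4 : w x ^ 2 * ‖L‖ ≤ w x ^ 2 * W x ^ 2 := mul_le_mul_of_nonneg_left hn (sq_nonneg _)
    have h5 : W x * (2 * |w x| * ‖fderiv ℝ w x‖) ≤ ‖fderiv ℝ w x‖ ^ 2 + w x ^ 2 * W x ^ 2 := by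
      have := sq_nonneg (‖fderiv ℝ w x‖ - |w x| * W x)
      have e3 : |w x| ^ 2 = w x ^ 2 := sq_abs _
      nlinarith
    linarith
  have iB : Integrable (fun x => ‖fderiv ℝ w x‖ ^ 2 + 2 * (w x ^ 2 * W x ^ 2)) :=
    hg.add (iW2.const_mul 2)
  have iF' : Integrable (fun x => ‖fderiv ℝ F x‖) := by
    refine iB.mono' (hF1.continuous_fderiv (by simp)).norm.aestronglyMeasurable ?_
    filter_upwards with x
    rw [norm_norm]
    exact hfd x
  have h1 := Helper149.Hardy.hardyL1 F hF1 hF0 iF iF' 0 δ hδ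
  simp only [sub_zero] at h1
  have h2 : ∫ x, ‖fderiv ℝ F x‖ ≤ (∫ x, ‖fderiv ℝ w x‖ ^ 2) + 2 * ∫ x, w x ^ 2 * W x ^ 2 := by
    rw [← integral_const_mul, ← integral_add hg (iW2.const_mul 2)]
    exact integral_mono iF' iB hfd
  have i3 : Integrable (fun x => 2 * F x / rd δ x) := by
    have := (Helper149.Hardy.integrable_div_sqrt (iF.const_mul 2) 0 δ hδ)
    simp only [sub_zero] at this
    exact this
  have h1' : ∫ x, 2 * F x / rd δ x ≤ ∫ x, ‖fderiv ℝ F x‖ := h1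
  have h3 : ∫ x, Kd c δ x * w x ^ 2
      = (∫ x, 2 * F x / rd δ x) - 2 * ∫ x, w x ^ 2 * W x ^ 2 := by
    rw [← integral_const_mul, ← integral_sub i3 (iW2.const_mul 2)]
    refine integral_congr_ae (ae_of_all _ fun x => ?_)
    simp only
    rw [Kd_eq hc hδ]
    show _ = 2 * (w x ^ 2 * wt c δ x) / rd δ x - 2 * (w x ^ 2 * wt c δ x ^ 2)
    ring
  rw [h3]
  linarith

/-- the kernel -/
noncomputable def K0 (c : ℝ) (x : E3) : ℝ := 2 * c / (‖x‖ * (1 + c * ‖x‖) ^ 2)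

lemma K0_nonneg {c : ℝ} (hc : 0 < c) (x : E3) : 0 ≤ K0 c x := by
  unfold K0
  positivity

lemma K0_meas (c : ℝ) : Measurable (K0 c) := by
  unfold K0
  fun_prop

lemma Kd_nonneg {c δ : ℝ} (hc : 0 < c) (hδ : 0 < δ) (x : E3) : 0 ≤ Kd c δ x := by
  have := rd_pos hδ x
  unfold Kd
  positivity

lemma Kd_le {c δ : ℝ} (hc : 0 < c) (hδ : 0 < δ) (x : E3) : Kd c δ x ≤ 2 * c / δ := by
  have h1 := rd_pos hδ x
  have h2 := rd_ge' (δ := δ) x
  unfold Kd
  apply div_le_div_of_nonneg_left (by positivity) hδ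
  have h3 : 1 ≤ (1 + c * rd δ x) ^ 2 := by
    apply one_le_pow₀
    nlinarith [mul_pos hc h1]
  nlinarith

lemma Kd_cont {c δ : ℝ} (hc : 0 < c) (hδ : 0 < δ) : Continuous (Kd c δ) := by
  unfold Kd
  have := rd_cont δ
  refine continuous_const.div (by fun_prop) (fun x => ?_)
  have h1 := rd_pos hδ x
  positivity

lemma Kd_tendsto {c : ℝ} (hc : 0 < c) {x : E3} (hx : x ≠ 0) :
    Tendsto (fun n : ℕ => Kd c (1 / ((n : ℝ) + 1)) x) atTop (𝓝 (K0 c x)) := by
  have h0 : Tendsto (fun n : ℕ => 1 / ((n : ℝ) + 1)) atTop (𝓝 0) :=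
    tendsto_one_div_add_atTop_nhds_zero_nat
  have h1 : Tendsto (fun n : ℕ => rd (1 / ((n : ℝ) + 1)) x) atTop (𝓝 ‖x‖) := by
    have h2 : Tendsto (fun n : ℕ => ‖x‖ ^ 2 + (1 / ((n : ℝ) + 1)) ^ 2) atTop (𝓝 (‖x‖ ^ 2)) := by
      have := (h0.pow 2).const_add (‖x‖ ^ 2)
      simpa using this
    have h3 := (Real.continuous_sqrt.tendsto _).comp h2
    rw [Real.sqrt_sq (norm_nonneg x)] at h3
    exact h3
  have hp : 0 < ‖x‖ := norm_pos_iff.mpr hx
  unfold Kd K0
  refine tendsto_const_nhds.div (h1.mul (((h1.const_mul c).const_add 1).pow 2)) ?_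
  positivity

/-- the Hardy type inequality for functions with a weak gradient -/
lemma hardy_weak {u : E3 → ℝ} {g : E3 → E3} (h0 : ∀ x, 0 ≤ u x) (m : AEStronglyMeasurable u)
    (i : Integrable (fun x => u x ^ 2)) (G : MemLp g 2) (W : WeakGrad u g) {c : ℝ} (hc : 0 < c) :
    Integrable (fun x => K0 c x * u x ^ 2) ∧ ∫ x, K0 c x * u x ^ 2 ≤ ∫ x, ‖g x‖ ^ 2 := by
  obtain ⟨w, hw1, hw2, hw3, hw4, hw5, hw6⟩ := moll h0 m i G W
  have hwi : ∀ n, Integrable (fun x => w n x ^ 2) := by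
    intro n
    have hm : AEStronglyMeasurable (w n) := (hw1 n).continuous.aestronglyMeasurable
    refine Integrable.mono' (((hw3 n).const_mul 2).add (i.const_mul 2)) (hm.pow 2) ?_
    filter_upwards with x
    rw [Real.norm_of_nonneg (sq_nonneg _)]
    simp only [Pi.add_apply]
    nlinarith [sq_nonneg (w n x - 2 * u x)]
  have hδ : ∀ δ : ℝ, 0 < δ → ∫ x, Kd c δ x * u x ^ 2 ≤ ∫ x, ‖g x‖ ^ 2 := by
    intro δ hδ
    set s : E3 → ℝ := fun x => √(Kd c δ x) with hs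
    have hsc : Continuous s := Real.continuous_sqrt.comp (Kd_cont hc hδ)
    have hss : ∀ x, s x ^ 2 = Kd c δ x := fun x => Real.sq_sqrt (Kd_nonneg hc hδ x)
    have bd : ∀ {h : E3 → ℝ}, Integrable h → Integrable (fun x => h x * Kd c δ x) := fun hh =>
      Helper149.Hardy.integrable_of_bdd_mul hh (Kd_cont hc hδ) (2 * c / δ) (fun x => by
        rw [abs_of_nonneg (Kd_nonneg hc hδ x)]; exact Kd_le hc hδ x)
    have t1 : Tendsto (fun n => ∫ x, (s x * w n x - s x * u x) ^ 2) atTop (𝓝 0) := by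
      have hub := hw4.const_mul (2 * c / δ)
      rw [mul_zero] at hub
      refine tendsto_of_tendsto_of_tendsto_of_le_of_le tendsto_const_nhds hub
        (fun n => integral_nonneg fun x => sq_nonneg _) fun n => ?_
      simp only
      rw [← integral_const_mul]
      refine integral_mono_of_nonneg (ae_of_all _ fun x => sq_nonneg _)
        ((hw3 n).const_mul _) (ae_of_all _ fun x => ?_)
      simp only
      rw [← mul_sub, mul_pow, hss]
      exact mul_le_mul_of_nonneg_right (Kd_le hc hδ x) (sq_nonneg _)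
    have t2 := pow_lim (ρ := fun n x => s x * w n x) (f := fun x => s x * u x)
      (fun n => (hsc.mul (hw1 n).continuous).aestronglyMeasurable)
      (hsc.aestronglyMeasurable.mul m)
      (fun n => (bd (hwi n)).congr (ae_of_all _ fun x => by
        simp only; rw [mul_pow, hss]; ring))
      ((bd i).congr (ae_of_all _ fun x => by simp only; rw [mul_pow, hss]; ring))
      (fun n => (bd (hw3 n)).congr (ae_of_all _ fun x => by
        simp only; rw [← mul_sub, mul_pow, hss]; ring)) t1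
    have e1 : ∀ h : E3 → ℝ, ∫ x, (s x * h x) ^ 2 = ∫ x, Kd c δ x * h x ^ 2 := by
      intro h
      refine integral_congr_ae (ae_of_all _ fun x => ?_)
      simp only
      rw [mul_pow, hss]
    simp only [e1] at t2
    exact le_of_tendsto' t2 fun n => (hardy_smooth (hw1 n) (hwi n) (hw5 n) hc hδ).trans (hw6 n)
  refine fatou_real (f := fun n x => Kd c (1 / ((n : ℝ) + 1)) x * u x ^ 2)
    (fun n x => mul_nonneg (Kd_nonneg hc (by positivity) x) (sq_nonneg _))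
    (fun x => mul_nonneg (K0_nonneg hc x) (sq_nonneg _)) (fun n => ?_) ?_ ?_ ?_
  · have hδ' : (0:ℝ) < 1 / ((n : ℝ) + 1) := by positivity
    have := Helper149.Hardy.integrable_of_bdd_mul i (Kd_cont hc hδ') (2 * c / (1 / ((n : ℝ) + 1)))
      (fun x => by
        rw [abs_of_nonneg (Kd_nonneg hc hδ' x)]; exact Kd_le hc hδ' x)
    refine this.congr (ae_of_all _ fun x => ?_)
    simp only
    ring
  · exact (K0_meas c).aestronglyMeasurable.mul i.aestronglyMeasurable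
  · have : ∀ᵐ x : E3, x ≠ 0 := by
      rw [ae_iff]
      simp
    filter_upwards [this] with x hx
    exact (Kd_tendsto hc hx).mul_const _
  · intro ε hε
    refine Eventually.of_forall fun n => ?_
    have := hδ (1 / ((n : ℝ) + 1)) (by positivity)
    linarith

end Pool.Agent.H158.FA
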