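import Mathlib
import Pool.Agent.H158.FAHardy
import Pool.Agent.H158.FADefs

/-!
# Fermi-Amaldi TFW: densities, Coulomb lower bound, radial integrals
-/

set_option autoImplicit false

open MeasureTheory Filter Topology Set
open scoped ENNReal NNReal ContDiff

namespace Pool.Agent.H158.FA

open Pool.Agent.H158.TW

/-! ### radial integrals -/

lemma rad_int (f : ℝ → ℝ) :
    ∫ x : E3, f ‖x‖ = 4 * Real.pi * ∫ y in Ioi (0:ℝ), y ^ 2 * f y := by
  rw [integral_fun_norm_addHaar (volume : Measure E3) f]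
  have hfin : Module.finrank ℝ E3 = 3 := by simp
  rw [hfin, Measure.real, EuclideanSpace.volume_ball_fin_three]
  simp only [nsmul_eq_mul, smul_eq_mul]
  have hpi := Real.pi_pos
  rw [ENNReal.ofReal_one, one_pow, one_mul, ENNReal.toReal_ofReal (by positivity)]
  norm_num
  ring

lemma avg_sq {s : ℝ} (hs : 0 < s) :
    ∫ x : E3, (Metric.ball (0 : E3) s).indicator (fun x => ‖x‖ ^ 2) x
      = 4 * Real.pi * (s ^ 5 / 5) := by
  have e : ∀ x : E3, (Metric.ball (0 : E3) s).indicator (fun x => ‖x‖ ^ 2) x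
      = (Iio s).indicator (fun r : ℝ => r ^ 2) ‖x‖ := by
    intro x
    by_cases h : x ∈ Metric.ball (0 : E3) s
    · rw [indicator_of_mem h, indicator_of_mem (show ‖x‖ ∈ Iio s by simpa using h)]
    · rw [indicator_of_notMem h, indicator_of_notMem (show ‖x‖ ∉ Iio s by simpa using h)]
  simp only [e]
  rw [rad_int]
  congr 1
  have h1 : ∀ y : ℝ, y ^ 2 * (Iio s).indicator (fun r : ℝ => r ^ 2) y
      = (Iio s).indicator (fun r : ℝ => r ^ 4) y := by
    intro y
    by_cases h : y ∈ Iio s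
    · rw [indicator_of_mem h, indicator_of_mem h]; ring
    · rw [indicator_of_notMem h, indicator_of_notMem h]; simp
  simp only [h1]
  rw [setIntegral_indicator measurableSet_Iio, Ioi_inter_Iio, ← integral_Ioc_eq_integral_Ioo,
    ← intervalIntegral.integral_of_le hs.le, integral_pow]
  norm_num

/-! ### Coulomb lower bound -/

lemma rep53 {h : E3 → ℝ} (h0 : ∀ x, 0 ≤ h x) (hi : Integrable h)
    (h53 : Integrable (fun x => h x ^ (5 / 3 : ℝ))) :
    ∃ h' : E3 → ℝ, h =ᵐ[volume] h' ∧ TH791.Cl.Nice h' := by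
  obtain ⟨h', hm', e⟩ := hi.aestronglyMeasurable
  refine ⟨h', e, hm'.measurable, hi.congr e, h53.congr ?_⟩
  filter_upwards [e] with x hx
  rw [← hx, abs_of_nonneg (h0 x)]

lemma dd_lower {h N : E3 → ℝ} (h0 : ∀ x, 0 ≤ h x) (hi : Integrable h)
    (h53 : Integrable (fun x => h x ^ (5 / 3 : ℝ))) (hN : TH791.Cl.Nice N) :
    Integrable (fun x => h x * TH791.Cl.pot N x) ∧
    2 * (∫ x, h x * TH791.Cl.pot N x) - (∫ x, N x * TH791.Cl.pot N x) ≤ DD h := by
  obtain ⟨h', e, hn⟩ := rep53 h0 hi h53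
  have e1 : (fun x => h x * TH791.Cl.pot N x) =ᵐ[volume] (fun x => h' x * TH791.Cl.pot N x) := by
    filter_upwards [e] with x hx
    rw [hx]
  have h1 : DD h = ∫ x, ∫ y, h' x * h' y / ‖x - y‖ := by
    rw [DD, integral_congr_ae (prod_ae e), integral_prod _ (coul_int_nice h' hn)]
  have h2 := TH791.Cl.pd_main h' N hn hN
  refine ⟨(TH791.Cl.pd_int h' N hn hN).congr e1.symm, ?_⟩
  rw [h1, integral_congr_ae e1]
  linarith

/-! ### two uniformly charged balls -/

open TH791.Nw in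
/-- the comparison charge -/
noncomputable def sig (x : E3) : ℝ := 9 / 10 * gb 3 0 x + 11 / 10 * gb 14 0 x

lemma nice_smul {f : E3 → ℝ} (hf : TH791.Cl.Nice f) (c : ℝ) :
    TH791.Cl.Nice (fun x => c * f x) := by
  refine ⟨hf.1.const_mul c, hf.2.1.const_mul c, ?_⟩
  refine (hf.2.2.const_mul (|c| ^ (5 / 3 : ℝ))).congr (ae_of_all _ fun x => ?_)
  simp only
  rw [abs_mul, Real.mul_rpow (abs_nonneg _) (abs_nonneg _)]

lemma nice_add {f k : E3 → ℝ} (hf : TH791.Cl.Nice f) (hk : TH791.Cl.Nice k) :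
    TH791.Cl.Nice (fun x => f x + k x) := by
  have := TH791.Cl.pd_nice f (fun x => (-1) * k x) hf (nice_smul hk (-1))
  have e : (fun x => f x - (-1) * k x) = fun x => f x + k x := by
    funext x; ring
  rwa [e] at this

lemma pot_smul (f : E3 → ℝ) (c : ℝ) (x : E3) :
    TH791.Cl.pot (fun y => c * f y) x = c * TH791.Cl.pot f x := by
  unfold TH791.Cl.pot
  rw [← integral_const_mul]
  refine integral_congr_ae (ae_of_all _ fun y => ?_)
  simp only
  ring

lemma pot_add {f k : E3 → ℝ} (hf : TH791.Cl.Nice f) (hk : TH791.Cl.Nice k) (x : E3) :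
    TH791.Cl.pot (fun y => f y + k y) x = TH791.Cl.pot f x + TH791.Cl.pot k x := by
  obtain ⟨B1, hB1⟩ := TH791.Cl.nice_bound f hf
  obtain ⟨B2, hB2⟩ := TH791.Cl.nice_bound k hk
  unfold TH791.Cl.pot
  rw [← integral_add (hB1 x).1 (hB2 x).1]
  refine integral_congr_ae (ae_of_all _ fun y => ?_)
  simp only
  ring

open TH791.Nw in
lemma sig_nice : TH791.Cl.Nice sig :=
  nice_add (nice_smul (gb_nice 3 0) _) (nice_smul (gb_nice 14 0) _)

open TH791.Nw in
lemma pot_sig (x : E3) : TH791.Cl.pot sig x = 9 / 10 * Gf 3 ‖x‖ + 11 / 10 * Gf 14 ‖x‖ := by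
  have h := pot_add (nice_smul (gb_nice 3 0) (9 / 10)) (nice_smul (gb_nice 14 0) (11 / 10)) x
  have e : (fun y => 9 / 10 * gb 3 0 y + 11 / 10 * gb 14 0 y) = sig := rfl
  rw [e] at h
  rw [h, pot_smul, pot_smul, pot_gb (by norm_num), pot_gb (by norm_num), sub_zero]

open TH791.Nw in
/-- interaction of two concentric balls -/
lemma gb_Gf {s t : ℝ} (hs : 0 < s) (hst : s ≤ t) :
    ∫ x : E3, gb s 0 x * Gf t ‖x‖ = 3 / (2 * t) * (1 - s ^ 2 / (5 * t ^ 2)) := by
  have ht : 0 < t := hs.trans_le hst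
  have hpi := Real.pi_pos
  have e : ∀ x : E3, gb s 0 x * Gf t ‖x‖
      = 3 / (2 * t) * gb s 0 x - (4 / 3 * Real.pi * s ^ 3)⁻¹ / (2 * t ^ 3) *
        (Metric.ball (0 : E3) s).indicator (fun x => ‖x‖ ^ 2) x := by
    intro x
    unfold gb
    by_cases h : x ∈ Metric.ball (0 : E3) s
    · rw [indicator_of_mem h, indicator_of_mem h]
      have h' : ‖x‖ < t := lt_of_lt_of_le (by simpa using h) hst
      rw [Gf, if_pos h']
      field_simp
    · rw [indicator_of_notMem h, indicator_of_notMem h]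
      simp
  simp only [e]
  have i1 : Integrable (fun x : E3 => 3 / (2 * t) * gb s 0 x) := (gb_int s 0).const_mul _
  have i0 : Integrable ((Metric.ball (0 : E3) s).indicator (fun x => ‖x‖ ^ 2)) := by
    rw [integrable_indicator_iff Metric.isOpen_ball.measurableSet]
    have : IntegrableOn (fun x : E3 => ‖x‖ ^ 2) (Metric.closedBall 0 s) :=
      (continuous_norm.pow 2).continuousOn.integrableOn_compact (isCompact_closedBall 0 s)
    exact this.mono_set Metric.ball_subset_closedBall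
  have i2 : Integrable (fun x : E3 => (4 / 3 * Real.pi * s ^ 3)⁻¹ / (2 * t ^ 3) *
        (Metric.ball (0 : E3) s).indicator (fun x => ‖x‖ ^ 2) x) := i0.const_mul _
  rw [integral_sub i1 i2, integral_const_mul, integral_const_mul, gb_total hs, avg_sq hs]
  field_simp

open TH791.Nw in
/-- self energy of the comparison charge -/
lemma sig_self : ∫ x, sig x * TH791.Cl.pot sig x ≤ 638 / 1000 := by
  have hW : ∀ s t : ℝ, 0 < s → 0 < t → Integrable (fun x : E3 => gb s 0 x * Gf t ‖x‖) := by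
    intro s t hs ht
    have := TH791.Cl.pd_int _ _ (gb_nice s 0) (gb_nice t 0)
    refine this.congr (ae_of_all _ fun x => ?_)
    simp only
    rw [pot_gb ht, sub_zero]
  have hsw : ∫ x : E3, gb 14 0 x * Gf 3 ‖x‖ = ∫ x : E3, gb 3 0 x * Gf 14 ‖x‖ := by
    have := TH791.Cl.pd_swap _ _ (gb_nice 14 0) (gb_nice 3 0)
    simpa only [pot_gb (show (0:ℝ) < 3 by norm_num), pot_gb (show (0:ℝ) < 14 by norm_num),
      sub_zero] using this
  have e : ∀ x : E3, sig x * TH791.Cl.pot sig x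
      = 81 / 100 * (gb 3 0 x * Gf 3 ‖x‖) + 99 / 100 * (gb 3 0 x * Gf 14 ‖x‖)
        + 99 / 100 * (gb 14 0 x * Gf 3 ‖x‖) + 121 / 100 * (gb 14 0 x * Gf 14 ‖x‖) := by
    intro x
    rw [pot_sig]
    unfold sig
    ring
  simp only [e]
  have i1 : Integrable (fun x : E3 => 81 / 100 * (gb 3 0 x * Gf 3 ‖x‖)) :=
    (hW 3 3 (by norm_num) (by norm_num)).const_mul _
  have i2 : Integrable (fun x : E3 => 99 / 100 * (gb 3 0 x * Gf 14 ‖x‖)) :=
    (hW 3 14 (by norm_num) (by norm_num)).const_mul _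
  have i3 : Integrable (fun x : E3 => 99 / 100 * (gb 14 0 x * Gf 3 ‖x‖)) :=
    (hW 14 3 (by norm_num) (by norm_num)).const_mul _
  have i4 : Integrable (fun x : E3 => 121 / 100 * (gb 14 0 x * Gf 14 ‖x‖)) :=
    (hW 14 14 (by norm_num) (by norm_num)).const_mul _
  have i12 : Integrable (fun x : E3 => 81 / 100 * (gb 3 0 x * Gf 3 ‖x‖)
      + 99 / 100 * (gb 3 0 x * Gf 14 ‖x‖)) := i1.add i2
  have i123 : Integrable (fun x : E3 => 81 / 100 * (gb 3 0 x * Gf 3 ‖x‖)
      + 99 / 100 * (gb 3 0 x * Gf 14 ‖x‖) + 99 / 100 * (gb 14 0 x * Gf 3 ‖x‖)) := i12.add i3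
  rw [integral_add i123 i4, integral_add i12 i3, integral_add i1 i2, integral_const_mul,
    integral_const_mul, integral_const_mul, integral_const_mul, hsw,
    gb_Gf (by norm_num) (le_refl _), gb_Gf (by norm_num) (by norm_num),
    gb_Gf (by norm_num) (le_refl _)]
  norm_num

end Pool.Agent.H158.FA
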