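import Mathlib
import Pool.Agent.H158.FACoul

/-!
# Fermi-Amaldi TFW: lower bound for `N = 2`, `z = 1`
-/

set_option autoImplicit false

open MeasureTheory Filter Topology Set
open scoped ENNReal NNReal ContDiff

namespace Pool.Agent.H158.FA

open Pool.Agent.H158.TW

/-! ### the pointwise inequality -/

lemma bern7 {b0 b1 b2 b3 b4 b5 b6 b7 x y : ℝ} (hx : 0 ≤ x) (hy : 0 ≤ y) (h0 : 0 ≤ b0)
    (h1 : 0 ≤ b1) (h2 : 0 ≤ b2) (h3 : 0 ≤ b3) (h4 : 0 ≤ b4) (h5 : 0 ≤ b5) (h6 : 0 ≤ b6)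
    (h7 : 0 ≤ b7) : 0 ≤ b0 * y ^ 7 + b1 * (x * y ^ 6) + b2 * (x ^ 2 * y ^ 5) + b3 * (x ^ 3 * y ^ 4)
      + b4 * (x ^ 4 * y ^ 3) + b5 * (x ^ 5 * y ^ 2) + b6 * (x ^ 6 * y) + b7 * x ^ 7 := by
  positivity

/-- the polynomial in region 1 -/
noncomputable def Q1 (r : ℝ) : ℝ := (577 / 12800) * r ^ 0 + (-1550933 / 4480000) * r ^ 1 + (1286977 / 2240000) * r ^ 2 + (4846698359 / 2634240000) * r ^ 3 + (-43544411 / 10536960) * r ^ 4 + (51715879 / 21073920) * r ^ 5 + (-63871 / 439040) * r ^ 6 + (-8331 / 109760) * r ^ 7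

lemma Q1_0 {r : ℝ} (hl : 0 ≤ r) (hu : r ≤ 3 / 8) : 0 ≤ Q1 r := by
  have h := bern7 (x := r - 0) (y := 3 / 8 - r) (sub_nonneg.2 hl) (sub_nonneg.2 hu)
    (show (0:ℝ) ≤ 2363392 / 54675 by norm_num) (show (0:ℝ) ≤ 1704038656 / 9568125 by norm_num) (show (0:ℝ) ≤ 108574528 / 455625 by norm_num) (show (0:ℝ) ≤ 59080843631 / 468838125 by norm_num) (show (0:ℝ) ≤ 171982974011 / 1875352500 by norm_num) (show (0:ℝ) ≤ 1558081658713 / 10001880000 by norm_num) (show (0:ℝ) ≤ 214932921487 / 1875352500 by norm_num) (show (0:ℝ) ≤ 13068848323 / 468838125 by norm_num)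
  unfold Q1
  ring_nf at h ⊢
  linarith

lemma Q1_1 {r : ℝ} (hl : 3 / 8 ≤ r) (hu : r ≤ 3 / 4) : 0 ≤ Q1 r := by
  have h := bern7 (x := r - 3 / 8) (y := 3 / 4 - r) (sub_nonneg.2 hl) (sub_nonneg.2 hu)
    (show (0:ℝ) ≤ 13068848323 / 468838125 by norm_num) (show (0:ℝ) ≤ 516922584601 / 1875352500 by norm_num) (show (0:ℝ) ≤ 11221750878361 / 10001880000 by norm_num) (show (0:ℝ) ≤ 35924439748927 / 15002820000 by norm_num) (show (0:ℝ) ≤ 10862049656767 / 3750705000 by norm_num) (show (0:ℝ) ≤ 179040196651 / 89302500 by norm_num) (show (0:ℝ) ≤ 1402326023527 / 1875352500 by norm_num) (show (0:ℝ) ≤ 111120254531 / 937676250 by norm_num)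
  unfold Q1
  ring_nf at h ⊢
  linarith

lemma Q1_2 {r : ℝ} (hl : 3 / 4 ≤ r) (hu : r ≤ 3 / 2) : 0 ≤ Q1 r := by
  have h := bern7 (x := r - 3 / 4) (y := 3 / 2 - r) (sub_nonneg.2 hl) (sub_nonneg.2 hu)
    (show (0:ℝ) ≤ 111120254531 / 120022560000 by norm_num) (show (0:ℝ) ≤ 116399915203 / 15002820000 by norm_num) (show (0:ℝ) ≤ 218636529481 / 8001504000 by norm_num) (show (0:ℝ) ≤ 3382925966123 / 60011280000 by norm_num) (show (0:ℝ) ≤ 1222132527263 / 15002820000 by norm_num) (show (0:ℝ) ≤ 210202343399 / 2500470000 by norm_num) (show (0:ℝ) ≤ 389763491183 / 7501410000 by norm_num) (show (0:ℝ) ≤ 50252205883 / 3750705000 by norm_num)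
  unfold Q1
  ring_nf at h ⊢
  linarith

lemma Q1_3 {r : ℝ} (hl : 3 / 2 ≤ r) (hu : r ≤ 3) : 0 ≤ Q1 r := by
  have h := bern7 (x := r - 3 / 2) (y := 3 - r) (sub_nonneg.2 hl) (sub_nonneg.2 hu)
    (show (0:ℝ) ≤ 50252205883 / 480090240000 by norm_num) (show (0:ℝ) ≤ 16638320809 / 12002256000 by norm_num) (show (0:ℝ) ≤ 1247712710329 / 160030080000 by norm_num) (show (0:ℝ) ≤ 5672104550557 / 240045120000 by norm_num) (show (0:ℝ) ≤ 4888432296689 / 120022560000 by norm_num) (show (0:ℝ) ≤ 774109747853 / 20003760000 by norm_num) (show (0:ℝ) ≤ 66382946267 / 3750705000 by norm_num) (show (0:ℝ) ≤ 9525945077 / 3750705000 by norm_num)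
  unfold Q1
  ring_nf at h ⊢
  linarith

/-- the polynomial in region 2 -/
noncomputable def Q2 (r : ℝ) : ℝ := (2827 / 12800) * r ^ 0 + (5300317 / 4480000) * r ^ 1 + (11587477 / 2240000) * r ^ 2 + (6060617453 / 878080000) * r ^ 3 + (-13816913 / 3512320) * r ^ 4 + (3717109 / 7024640) * r ^ 5 + (-759 / 439040) * r ^ 6 + (-99 / 109760) * r ^ 7

lemma Q2_0 {r : ℝ} (hl : 3 ≤ r) (hu : r ≤ 17 / 2) : 0 ≤ Q2 r := by
  have h := bern7 (x := r - 3) (y := 17 / 2 - r) (sub_nonneg.2 hl) (sub_nonneg.2 hu)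
    (show (0:ℝ) ≤ 865995007 / 3038227115000 by norm_num) (show (0:ℝ) ≤ 6161521473 / 3038227115000 by norm_num) (show (0:ℝ) ≤ 213917797477 / 48611633840000 by norm_num) (show (0:ℝ) ≤ 558402154633 / 97223267680000 by norm_num) (show (0:ℝ) ≤ 5267420885119 / 194446535360000 by norm_num) (show (0:ℝ) ≤ 30025112164963 / 388893070720000 by norm_num) (show (0:ℝ) ≤ 7829500183563 / 97223267680000 by norm_num) (show (0:ℝ) ≤ 10276867635163 / 388893070720000 by norm_num)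
  unfold Q2
  ring_nf at h ⊢
  linarith

lemma Q2_1 {r : ℝ} (hl : 17 / 2 ≤ r) (hu : r ≤ 14) : 0 ≤ Q2 r := by
  have h := bern7 (x := r - 17 / 2) (y := 14 - r) (sub_nonneg.2 hl) (sub_nonneg.2 hu)
    (show (0:ℝ) ≤ 10276867635163 / 388893070720000 by norm_num) (show (0:ℝ) ≤ 11255814615803 / 38889307072000 by norm_num) (show (0:ℝ) ≤ 517465984707631 / 388893070720000 by norm_num) (show (0:ℝ) ≤ 161019896708739 / 48611633840000 by norm_num) (show (0:ℝ) ≤ 465781279816527 / 97223267680000 by norm_num) (show (0:ℝ) ≤ 2768924919021 / 694451912000 by norm_num) (show (0:ℝ) ≤ 7705689741 / 4428902500 by norm_num) (show (0:ℝ) ≤ 1319049891 / 4428902500 by norm_num)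
  unfold Q2
  ring_nf at h ⊢
  linarith

open TH791.Nw in
/-- effective potential is below `v²` -/
lemma pt_ineq {r : ℝ} (hr : 0 < r) :
    1 / r - 1859 / 10000 * (2 * 3 / (r * (1 + 3 * r) ^ 2))
      - 1 / 2 * (9 / 10 * Gf 3 r + 11 / 10 * Gf 14 r) ≤ (33 / 25 / (r + 5 / 8)) ^ 2 := by
  rcases lt_or_ge r 3 with h3 | h3
  · have hQ : 0 ≤ Q1 r := by
      rcases le_total r (3 / 8) with h | h
      · exact Q1_0 hr.le h
      rcases le_total r (3 / 4) with h' | h'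
      · exact Q1_1 h h'
      rcases le_total r (3 / 2) with h'' | h''
      · exact Q1_2 h' h''
      · exact Q1_3 h'' h3.le
    unfold Gf
    rw [if_pos h3, if_pos (show r < 14 by linarith), ← sub_nonneg]
    have e : (33 / 25 / (r + 5 / 8)) ^ 2 - (1 / r - 1859 / 10000 * (2 * 3 / (r * (1 + 3 * r) ^ 2))
      - 1 / 2 * (9 / 10 * ((3 - r ^ 2 / 3 ^ 2) / (2 * 3)) + 11 / 10 * ((3 - r ^ 2 / 14 ^ 2) / (2 * 14))))
      = Q1 r / (r * (1 + 3 * r) ^ 2 * (r + 5 / 8) ^ 2) := by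
      unfold Q1
      have h1 : r ≠ 0 := hr.ne'
      have h2 : 1 + 3 * r ≠ 0 := by positivity
      have h4 : r + 5 / 8 ≠ 0 := by positivity
      field_simp
      ring
    rw [e]
    positivity
  rcases lt_or_ge r 14 with h14 | h14
  · have hQ : 0 ≤ Q2 r := by
      rcases le_total r (17 / 2) with h | h
      · exact Q2_0 h3 h
      · exact Q2_1 h h14.le
    unfold Gf
    rw [if_neg (not_lt.2 h3), if_pos h14, ← sub_nonneg]
    have e : (33 / 25 / (r + 5 / 8)) ^ 2 - (1 / r - 1859 / 10000 * (2 * 3 / (r * (1 + 3 * r) ^ 2))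
      - 1 / 2 * (9 / 10 * (1 / r) + 11 / 10 * ((3 - r ^ 2 / 14 ^ 2) / (2 * 14))))
      = Q2 r / (r * (1 + 3 * r) ^ 2 * (r + 5 / 8) ^ 2) := by
      unfold Q2
      have h1 : r ≠ 0 := hr.ne'
      have h2 : 1 + 3 * r ≠ 0 := by positivity
      have h4 : r + 5 / 8 ≠ 0 := by positivity
      field_simp
      ring
    rw [e]
    positivity
  · unfold Gf
    rw [if_neg (not_lt.2 h3), if_neg (not_lt.2 h14)]
    have h1 : 0 ≤ 1859 / 10000 * (2 * 3 / (r * (1 + 3 * r) ^ 2)) := by positivity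
    have h2 : 0 ≤ (33 / 25 / (r + 5 / 8)) ^ 2 := by positivity
    have h3 : 1 / 2 * (9 / 10 * (1 / r) + 11 / 10 * (1 / r)) = 1 / r := by ring
    linarith

/-- Young's inequality with the constants of the problem -/
lemma young {t v : ℝ} (ht : 0 ≤ t) (hv : 0 ≤ v) :
    v ^ 2 * t - 2 / (15 * Real.pi ^ 2) * v ^ 5
      ≤ 3 / 5 * (3 * Real.pi ^ 2) ^ (2 / 3 : ℝ) * t ^ (5 / 3 : ℝ) := by
  have hpi := Real.pi_pos
  have hη0 : (0:ℝ) ≤ 3 * Real.pi ^ 2 := by positivity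
  set η : ℝ := (3 * Real.pi ^ 2) ^ (1 / 3 : ℝ) with hη
  set τ : ℝ := t ^ (1 / 3 : ℝ) with hτ
  have hηp : 0 < η := Real.rpow_pos_of_pos (by positivity) _
  have hτ0 : 0 ≤ τ := Real.rpow_nonneg ht _
  have gen : ∀ (b : ℝ) (k : ℕ), 0 ≤ b → (b ^ (1 / 3 : ℝ)) ^ k = b ^ ((k : ℝ) / 3) := by
    intro b k hb
    rw [← Real.rpow_natCast, ← Real.rpow_mul hb]
    congr 1
    ring
  have e1 : (3 * Real.pi ^ 2) ^ (2 / 3 : ℝ) = η ^ 2 := by
    rw [hη, gen _ _ hη0]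
    norm_num
  have e2 : η ^ 3 = 3 * Real.pi ^ 2 := by
    rw [hη, gen _ _ hη0]
    norm_num
  have e3 : t ^ (5 / 3 : ℝ) = τ ^ 5 := by
    rw [hτ, gen _ _ ht]
    norm_num
  have e4 : τ ^ 3 = t := by
    rw [hτ, gen _ _ ht]
    norm_num
  rw [e1, e3]
  have e5 : 2 / (15 * Real.pi ^ 2) = 2 / (5 * η ^ 3) := by rw [e2]; congr 1; ring
  rw [e5, ← e4]
  have h1 : 0 ≤ (η * τ - v) ^ 2 * (3 * (η * τ) ^ 3 + 6 * v * (η * τ) ^ 2 + 4 * v ^ 2 * (η * τ)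
      + 2 * v ^ 3) := by positivity
  have h2 : 3 / 5 * η ^ 2 * τ ^ 5 - (v ^ 2 * τ ^ 3 - 2 / (5 * η ^ 3) * v ^ 5)
      = (η * τ - v) ^ 2 * (3 * (η * τ) ^ 3 + 6 * v * (η * τ) ^ 2 + 4 * v ^ 2 * (η * τ)
      + 2 * v ^ 3) / (5 * η ^ 3) := by
    field_simp
    ring
  have h3 := div_nonneg h1 (show 0 ≤ 5 * η ^ 3 by positivity)
  rw [← h2] at h3
  linarith

/-! ### the integral of `v⁵` -/

lemma ioi_int {a : ℝ} (ha : 0 < a) :
    IntegrableOn (fun y : ℝ => y ^ 2 * ((y + a) ^ 5)⁻¹) (Ioi 0) ∧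
      ∫ y in Ioi (0:ℝ), y ^ 2 * ((y + a) ^ 5)⁻¹ = 1 / (12 * a ^ 2) := by
  set G : ℝ → ℝ := fun y => -(1 / 2) * ((y + a) ^ 2)⁻¹ + (2 * a / 3) * ((y + a) ^ 3)⁻¹
    - (a ^ 2 / 4) * ((y + a) ^ 4)⁻¹ with hG
  have hpow : ∀ (k : ℕ) (y : ℝ), 0 ≤ y →
      HasDerivAt (fun y => ((y + a) ^ k)⁻¹) (-(k * (y + a) ^ (k - 1)) / ((y + a) ^ k) ^ 2) y := by
    intro k y hy
    have h1 : HasDerivAt (fun y => y + a) 1 y := (hasDerivAt_id y).add_const a
    have hne : (y + a) ^ k ≠ 0 := pow_ne_zero _ (by linarith)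
    have h3 : HasDerivAt (fun y => (y + a) ^ k) (k * (y + a) ^ (k - 1) * 1) y := h1.pow k
    have h2 := h3.inv hne
    rw [mul_one] at h2
    exact h2
  have hd : ∀ y ∈ Ici (0:ℝ), HasDerivAt G (y ^ 2 * ((y + a) ^ 5)⁻¹) y := by
    intro y hy
    have hy' : (0:ℝ) ≤ y := hy
    have h1 := (((hpow 2 y hy').const_mul (-(1 / 2))).add ((hpow 3 y hy').const_mul (2 * a / 3))).sub
      ((hpow 4 y hy').const_mul (a ^ 2 / 4))
    refine h1.congr_deriv ?_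
    have hp : 0 < y + a := by linarith
    have hp' : y + a ≠ 0 := hp.ne'
    push_cast
    field_simp
    ring
  have hlim : Tendsto G atTop (𝓝 0) := by
    have h0 : Tendsto (fun y : ℝ => y + a) atTop atTop := tendsto_atTop_add_const_right _ _ tendsto_id
    have h1 : ∀ k : ℕ, k ≠ 0 → Tendsto (fun y : ℝ => ((y + a) ^ k)⁻¹) atTop (𝓝 0) := fun k hk =>
      tendsto_inv_atTop_zero.comp ((tendsto_pow_atTop hk).comp h0)
    have := (((h1 2 (by norm_num)).const_mul (-(1 / 2))).add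
      ((h1 3 (by norm_num)).const_mul (2 * a / 3))).sub ((h1 4 (by norm_num)).const_mul (a ^ 2 / 4))
    simpa only [mul_zero, add_zero, sub_zero] using this
  have hpos : ∀ y ∈ Ioi (0:ℝ), 0 ≤ y ^ 2 * ((y + a) ^ 5)⁻¹ := by
    intro y hy
    have hy' : (0:ℝ) < y := hy
    positivity
  refine ⟨integrableOn_Ioi_deriv_of_nonneg' hd hpos hlim, ?_⟩
  rw [integral_Ioi_of_hasDerivAt_of_nonneg' hd hpos hlim]
  simp only [hG]
  field_simp
  ring

lemma v5_int : Integrable (fun x : E3 => (33 / 25 / (‖x‖ + 5 / 8)) ^ 5) ∧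
    ∫ x : E3, (33 / 25 / (‖x‖ + 5 / 8)) ^ 5
      = (33 / 25) ^ 5 * (4 * Real.pi * (1 / (12 * (5 / 8) ^ 2))) := by
  obtain ⟨h1, h2⟩ := ioi_int (a := 5 / 8) (by norm_num)
  have e : ∀ x : E3, (33 / 25 / (‖x‖ + 5 / 8)) ^ 5 = (33 / 25) ^ 5 * ((‖x‖ + 5 / 8) ^ 5)⁻¹ := by
    intro x
    rw [div_pow, div_eq_mul_inv]
  simp only [e]
  have h3 : Integrable (fun x : E3 => ((‖x‖ + 5 / 8) ^ 5)⁻¹) := by
    have := (integrable_fun_norm_addHaar (volume : Measure E3)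
      (f := fun r : ℝ => ((r + 5 / 8) ^ 5)⁻¹)).2 (by
        have hfin : Module.finrank ℝ E3 = 3 := by simp
        rw [hfin]
        simpa only [smul_eq_mul] using h1)
    exact this
  refine ⟨h3.const_mul _, ?_⟩
  rw [integral_const_mul, rad_int (fun r => ((r + 5 / 8) ^ 5)⁻¹), h2]

end Pool.Agent.H158.FA
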