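import Mathlib
import Pool.Agent.H158.FALower

/-!
# Fermi-Amaldi TFW: bounds for `z = 1`, `N = 1, 2`
-/

set_option autoImplicit false

open MeasureTheory Filter Topology Set
open scoped ENNReal NNReal ContDiff

namespace Pool.Agent.H158.FA

open Pool.Agent.H158.TW

lemma dens_hardy {ρ : E3 → ℝ} {g : E3 → E3} (h : Dens ρ g) :
    Integrable (fun x => K0 3 x * ρ x) ∧ ∫ x, K0 3 x * ρ x ≤ ∫ x, ‖g x‖ ^ 2 := by
  have sm : AEStronglyMeasurable (fun x => √(ρ x)) :=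
    Real.continuous_sqrt.comp_aestronglyMeasurable h.int.aestronglyMeasurable
  have e : ∀ x, √(ρ x) ^ 2 = ρ x := fun x => Real.sq_sqrt (h.nonneg x)
  have := hardy_weak (fun x => Real.sqrt_nonneg (ρ x)) sm (by simp only [e]; exact h.int) h.grad
    h.weak (c := 3) (by norm_num)
  simpa only [e] using this

lemma inv_le_K0 (x : E3) : ‖x‖⁻¹ ≤ 16 / 6 * K0 3 x + 1 := by
  rcases eq_or_ne x 0 with rfl | hx
  · simp [K0]
  have hp : 0 < ‖x‖ := norm_pos_iff.mpr hx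
  have h0 := K0_nonneg (c := 3) (by norm_num) x
  rcases le_total ‖x‖ 1 with h | h
  · have h1 : ‖x‖⁻¹ ≤ 16 / 6 * K0 3 x := by
      unfold K0
      rw [← sub_nonneg]
      have e : 16 / 6 * (2 * 3 / (‖x‖ * (1 + 3 * ‖x‖) ^ 2)) - ‖x‖⁻¹
          = (16 - (1 + 3 * ‖x‖) ^ 2) / (‖x‖ * (1 + 3 * ‖x‖) ^ 2) := by
        field_simp
        ring
      rw [e]
      apply div_nonneg _ (by positivity)
      nlinarith
    linarith
  · have h1 : ‖x‖⁻¹ ≤ 1 := inv_le_one_of_one_le₀ h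
    linarith

lemma dens_pot {ρ : E3 → ℝ} {g : E3 → E3} (h : Dens ρ g) :
    Integrable (fun x => ‖x‖⁻¹ * ρ x) := by
  have h1 := (dens_hardy h).1
  refine Integrable.mono' ((h1.const_mul (16 / 6)).add h.int)
    (measurable_norm.inv.aestronglyMeasurable.mul h.int.aestronglyMeasurable) ?_
  filter_upwards with x
  rw [Real.norm_of_nonneg (mul_nonneg (by positivity) (h.nonneg x))]
  simp only [Pi.add_apply]
  have := mul_le_mul_of_nonneg_right (inv_le_K0 x) (h.nonneg x)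
  linarith

lemma energy_one (N : ℕ) (ρ : E3 → ℝ) (g : E3 → E3) :
    energy 1 N ρ g = 1859 / 10000 * (∫ x, ‖g x‖ ^ 2)
    + 3 / 5 * (3 * Real.pi ^ 2) ^ (2 / 3 : ℝ) * (∫ x, ρ x ^ (5 / 3 : ℝ))
    - (∫ x, ‖x‖⁻¹ * ρ x) + (1 - 1 / (N : ℝ)) * (1 / 2 * DD ρ) := by
  unfold energy DD
  congr 2
  refine integral_congr_ae (ae_of_all _ fun x => ?_)
  simp only [Nat.cast_one, one_div]

/-- lower bound for `N = 2` -/
theorem lower_two {ρ : E3 → ℝ} {g : E3 → E3} (h : Dens ρ g) :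
    -(305 / 1000) ≤ energy 1 2 ρ g := by
  obtain ⟨iK, hK⟩ := dens_hardy h
  have iV := dens_pot h
  obtain ⟨iU, hD⟩ := dd_lower h.nonneg h.int h.int_p sig_nice
  obtain ⟨i5, h5⟩ := v5_int
  have hS := sig_self
  set γ : ℝ := (3 * Real.pi ^ 2) ^ (2 / 3 : ℝ) with hγ
  have hpi := Real.pi_pos
  -- the pointwise inequality
  have hpt : ∀ᵐ x : E3, -(2 / (15 * Real.pi ^ 2)) * (33 / 25 / (‖x‖ + 5 / 8)) ^ 5
      ≤ 1859 / 10000 * (K0 3 x * ρ x) + 3 / 5 * γ * ρ x ^ (5 / 3 : ℝ) - ‖x‖⁻¹ * ρ x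
        + 1 / 2 * (ρ x * TH791.Cl.pot sig x) := by
    have : ∀ᵐ x : E3, x ≠ 0 := by
      rw [ae_iff]
      simp
    filter_upwards [this] with x hx
    have hp : 0 < ‖x‖ := norm_pos_iff.mpr hx
    have h1 := pt_ineq hp
    have h2 := young (h.nonneg x) (show 0 ≤ 33 / 25 / (‖x‖ + 5 / 8) by positivity)
    have h3 := mul_le_mul_of_nonneg_right h1 (h.nonneg x)
    rw [pot_sig]
    have e : K0 3 x = 2 * 3 / (‖x‖ * (1 + 3 * ‖x‖) ^ 2) := rfl
    rw [← e, one_div] at h3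
    linarith
  have j1 : Integrable (fun x => 1859 / 10000 * (K0 3 x * ρ x)) := iK.const_mul _
  have j2 : Integrable (fun x => 3 / 5 * γ * ρ x ^ (5 / 3 : ℝ)) := h.int_p.const_mul _
  have j3 : Integrable (fun x => 1 / 2 * (ρ x * TH791.Cl.pot sig x)) := iU.const_mul _
  have j12 : Integrable (fun x => 1859 / 10000 * (K0 3 x * ρ x) + 3 / 5 * γ * ρ x ^ (5 / 3 : ℝ)) :=
    j1.add j2
  have j123 : Integrable (fun x => 1859 / 10000 * (K0 3 x * ρ x) + 3 / 5 * γ * ρ x ^ (5 / 3 : ℝ)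
      - ‖x‖⁻¹ * ρ x) := j12.sub iV
  have hint := integral_mono_ae (i5.const_mul (-(2 / (15 * Real.pi ^ 2)))) (j123.add j3) hpt
  rw [integral_const_mul, h5] at hint
  have e2 : ∫ x, ((fun x => 1859 / 10000 * (K0 3 x * ρ x) + 3 / 5 * γ * ρ x ^ (5 / 3 : ℝ)
      - ‖x‖⁻¹ * ρ x) + fun x => 1 / 2 * (ρ x * TH791.Cl.pot sig x)) x
      = 1859 / 10000 * (∫ x, K0 3 x * ρ x) + 3 / 5 * γ * (∫ x, ρ x ^ (5 / 3 : ℝ))
      - (∫ x, ‖x‖⁻¹ * ρ x) + 1 / 2 * ∫ x, ρ x * TH791.Cl.pot sig x := by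
    simp only [Pi.add_apply]
    rw [integral_add j123 j3, integral_sub j12 iV, integral_add j1 j2, integral_const_mul,
      integral_const_mul, integral_const_mul]
  rw [e2] at hint
  rw [energy_one]
  have e3 : -(2 / (15 * Real.pi ^ 2)) * ((33 / 25) ^ 5 * (4 * Real.pi * (1 / (12 * (5 / 8) ^ 2))))
      = -((8 / (15 * 12 * (5 / 8) ^ 2) * (33 / 25) ^ 5) / Real.pi) := by
    field_simp
    ring
  have e4 : -(1455 / 10000) ≤ -((8 / (15 * 12 * (5 / 8) ^ 2) * (33 / 25 : ℝ) ^ 5) / Real.pi) := by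
    rw [neg_le_neg_iff, div_le_iff₀ hpi]
    have := Real.pi_gt_d4
    have h1 : (8 / (15 * 12 * (5 / 8) ^ 2) * (33 / 25 : ℝ) ^ 5) ≤ 1455 / 10000 * 3.1415 := by
      norm_num
    nlinarith
  rw [e3] at hint
  push_cast
  linarith

/-- crude lower bound for `N = 1` -/
theorem lower_one {ρ : E3 → ℝ} {g : E3 → E3} (h : Dens ρ g) :
    -6 * (∫ x, ρ x) ≤ energy 1 1 ρ g := by
  obtain ⟨iK, hK⟩ := dens_hardy h
  have iV := dens_pot h
  rw [energy_one]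
  have h1 : ∫ x, ‖x‖⁻¹ * ρ x ≤ ∫ x, (1859 / 10000 * (K0 3 x * ρ x) + 6 * ρ x) := by
    have : ∀ᵐ x : E3, x ≠ 0 := by
      rw [ae_iff]
      simp
    refine integral_mono_ae iV ((iK.const_mul _).add (h.int.const_mul _)) ?_
    filter_upwards [this] with x hx
    have hp : 0 < ‖x‖ := norm_pos_iff.mpr hx
    have h2 : ‖x‖⁻¹ ≤ 1859 / 10000 * K0 3 x + 6 := by
      unfold K0
      rw [← sub_nonneg]
      have e : 1859 / 10000 * (2 * 3 / (‖x‖ * (1 + 3 * ‖x‖) ^ 2)) + 6 - ‖x‖⁻¹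
          = (1859 * 6 / 10000 + 6 * ‖x‖ * (1 + 3 * ‖x‖) ^ 2 - (1 + 3 * ‖x‖) ^ 2)
            / (‖x‖ * (1 + 3 * ‖x‖) ^ 2) := by
        field_simp
        ring
      rw [e]
      apply div_nonneg _ (by positivity)
      nlinarith [mul_pos hp hp, mul_pos (mul_pos hp hp) hp]
    have := mul_le_mul_of_nonneg_right h2 (h.nonneg x)
    linarith
  rw [integral_add (iK.const_mul _) (h.int.const_mul _), integral_const_mul,
    integral_const_mul] at h1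
  have h2 : 0 ≤ 3 / 5 * (3 * Real.pi ^ 2) ^ (2 / 3 : ℝ) * (∫ x, ρ x ^ (5 / 3 : ℝ)) :=
    mul_nonneg (by positivity) (integral_nonneg fun x => Real.rpow_nonneg (h.nonneg x) _)
  have h3 : (1 - 1 / ((1 : ℕ) : ℝ)) * (1 / 2 * DD ρ) = 0 := by simp
  rw [h3]
  linarith

end Pool.Agent.H158.FA
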