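import Mathlib
import Pool.Agent.H158.FAMain

/-!
# Fermi-Amaldi TFW: the trial density `k² (1 - |x|/12)₊^12`
-/

set_option autoImplicit false

open MeasureTheory Filter Topology Set
open scoped ENNReal NNReal ContDiff

namespace Pool.Agent.H158.FA

open Pool.Agent.H158.TW

/-- `(1 - |x|/12)₊` -/
noncomputable def M (x : E3) : ℝ := max (1 - ‖x‖ / 12) 0

lemma M_nonneg (x : E3) : 0 ≤ M x := le_max_right _ _

lemma M_le (x : E3) : M x ≤ 1 := by
  unfold M
  have := norm_nonneg x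
  exact max_le (by linarith) (by norm_num)

lemma M_cont : Continuous M := by
  unfold M
  fun_prop

lemma M_zero {x : E3} (h : 12 ≤ ‖x‖) : M x = 0 := by
  unfold M
  rw [max_eq_right]
  linarith

lemma M_cs : HasCompactSupport M := by
  refine HasCompactSupport.intro (isCompact_closedBall (0 : E3) 12) fun x hx => ?_
  apply M_zero
  simp only [Metric.mem_closedBall, dist_zero_right, not_le] at hx
  exact hx.le

lemma M_pow_int {m : ℕ} (hm : m ≠ 0) : Integrable (fun x => M x ^ m) := by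
  have h1 : HasCompactSupport (fun x => M x ^ m) := by
    have : (fun x => M x ^ m) = (fun t : ℝ => t ^ m) ∘ M := rfl
    rw [this]
    exact M_cs.comp_left (by simp [hm])
  exact (M_cont.pow m).integrable_of_hasCompactSupport h1

lemma M_lip (x y : E3) : |M x - M y| ≤ 1 / 12 * ‖x - y‖ := by
  have h1 : |M x - M y| ≤ |(1 - ‖x‖ / 12) - (1 - ‖y‖ / 12)| := by
    unfold M
    exact abs_max_sub_max_le_abs _ _ _
  refine h1.trans ?_
  have h2 : (1 - ‖x‖ / 12) - (1 - ‖y‖ / 12) = 1 / 12 * (‖y‖ - ‖x‖) := by ring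
  rw [h2, abs_mul, abs_of_pos (by norm_num : (0:ℝ) < 1 / 12)]
  have h3 : |‖y‖ - ‖x‖| ≤ ‖x - y‖ := by
    rw [norm_sub_rev]
    exact abs_norm_sub_norm_le y x
  exact mul_le_mul_of_nonneg_left h3 (by norm_num)

lemma pow6_lip {a b : ℝ} (ha : 0 ≤ a) (ha1 : a ≤ 1) (hb : 0 ≤ b) (hb1 : b ≤ 1) :
    |a ^ 6 - b ^ 6| ≤ 6 * |a - b| := by
  have e : a ^ 6 - b ^ 6 = (a ^ 5 + a ^ 4 * b + a ^ 3 * b ^ 2 + a ^ 2 * b ^ 3 + a * b ^ 4 + b ^ 5)
    * (a - b) := by ring
  rw [e, abs_mul]
  refine mul_le_mul_of_nonneg_right ?_ (abs_nonneg _)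
  rw [abs_of_nonneg (by positivity)]
  have p : ∀ (i j : ℕ), a ^ i * b ^ j ≤ 1 := fun i j =>
    mul_le_one₀ (pow_le_one₀ ha ha1) (pow_nonneg hb _) (pow_le_one₀ hb hb1)
  have p1 := p 5 0
  have p2 := p 4 1
  have p3 := p 3 2
  have p4 := p 2 3
  have p5 := p 1 4
  have p6 := p 0 5
  simp only [pow_zero, mul_one, one_mul, pow_one] at p1 p2 p3 p4 p5 p6
  linarith

/-- the trial function -/
noncomputable def ps (k : ℝ) (x : E3) : ℝ := k * M x ^ 6

lemma ps_lip {k : ℝ} (hk : 0 ≤ k) : LipschitzWith (Real.toNNReal (k / 2)) (ps k) := by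
  refine LipschitzWith.of_dist_le_mul fun x y => ?_
  rw [Real.dist_eq, dist_eq_norm, Real.coe_toNNReal _ (by positivity)]
  unfold ps
  rw [← mul_sub, abs_mul, abs_of_nonneg hk]
  have h1 := pow6_lip (M_nonneg x) (M_le x) (M_nonneg y) (M_le y)
  have h2 := M_lip x y
  calc k * |M x ^ 6 - M y ^ 6| ≤ k * (6 * (1 / 12 * ‖x - y‖)) := by
        refine mul_le_mul_of_nonneg_left (h1.trans ?_) hk
        exact mul_le_mul_of_nonneg_left h2 (by norm_num)
    _ = k / 2 * ‖x - y‖ := by ring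

lemma ps_cs (k : ℝ) : HasCompactSupport (ps k) := by
  refine HasCompactSupport.intro (isCompact_closedBall (0 : E3) 12) fun x hx => ?_
  simp only [Metric.mem_closedBall, dist_zero_right, not_le] at hx
  unfold ps
  rw [M_zero hx.le]
  simp

lemma ps_fderiv {k : ℝ} (hk : 0 ≤ k) : ∀ᵐ x : E3, ‖fderiv ℝ (ps k) x‖ ≤ k / 2 * M x ^ 5 := by
  have h0 : ∀ᵐ x : E3, x ≠ 0 := by
    rw [ae_iff]
    simp
  have h12 : ∀ᵐ x : E3, x ∉ Metric.sphere (0 : E3) 12 := by
    rw [ae_iff]
    simp only [not_not]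
    exact Measure.addHaar_sphere _ _ _
  filter_upwards [h0, h12] with x hx0 hx12
  have hx12' : ‖x‖ ≠ 12 := by simpa using hx12
  rcases lt_or_gt_of_ne hx12' with h | h
  · have hopen : {y : E3 | ‖y‖ < 12} ∈ 𝓝 x := (isOpen_lt continuous_norm continuous_const).mem_nhds h
    have hev : ps k =ᶠ[𝓝 x] fun y => k * (1 - ‖y‖ / 12) ^ 6 := by
      filter_upwards [hopen] with y hy
      have hy' : ‖y‖ < 12 := hy
      unfold ps M
      rw [max_eq_left (by linarith)]
    rw [hev.fderiv_eq]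
    have hn : DifferentiableAt ℝ (fun y : E3 => ‖y‖) x := (contDiffAt_norm ℝ hx0 : ContDiffAt ℝ 1 _ x).differentiableAt (by simp)
    have hL : ‖fderiv ℝ (fun y : E3 => ‖y‖) x‖ ≤ 1 := by
      have := norm_fderiv_le_of_lipschitz ℝ (x₀ := x) (lipschitzWith_one_norm (E := E3))
      simpa using this
    have h1 : HasFDerivAt (fun y : E3 => ‖y‖) (fderiv ℝ (fun y : E3 => ‖y‖) x) x := hn.hasFDerivAt
    have h2 : HasDerivAt (fun t : ℝ => k * (1 - t / 12) ^ 6) (k * (6 * (1 - ‖x‖ / 12) ^ 5 * (-(1 / 12)))) ‖x‖ := by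
      have h3 : HasDerivAt (fun t : ℝ => 1 - t / 12) (-(1 / 12)) ‖x‖ := by
        have := ((hasDerivAt_id ‖x‖).div_const 12).const_sub 1
        simpa using this
      have h4 := (h3.pow 6).const_mul k
      exact h4
    have h3 := h2.comp_hasFDerivAt x h1
    have e1 : fderiv ℝ (fun y : E3 => k * (1 - ‖y‖ / 12) ^ 6) x = _ := h3.fderiv
    rw [e1, norm_smul]
    have hM : M x = 1 - ‖x‖ / 12 := by
      unfold M
      rw [max_eq_left (by linarith)]
    have hM0 := M_nonneg x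
    rw [← hM]
    have e2 : ‖k * (6 * M x ^ 5 * (-(1 / 12)))‖ = k / 2 * M x ^ 5 := by
      rw [Real.norm_eq_abs, show k * (6 * M x ^ 5 * (-(1 / 12))) = -(k / 2 * M x ^ 5) by ring,
        abs_neg, abs_of_nonneg (by positivity)]
    rw [e2]
    exact mul_le_of_le_one_right (by positivity) hL
  · have hopen : {y : E3 | 12 < ‖y‖} ∈ 𝓝 x := (isOpen_lt continuous_const continuous_norm).mem_nhds h
    have hev : ps k =ᶠ[𝓝 x] fun _ => (0:ℝ) := by
      filter_upwards [hopen] with y hy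
      have hy' : 12 < ‖y‖ := hy
      unfold ps
      rw [M_zero hy'.le]
      simp
    rw [hev.fderiv_eq]
    have := M_nonneg x
    simp only [fderiv_fun_const, Pi.zero_apply, norm_zero]
    positivity

/-- the trial density -/
lemma trial {k : ℝ} (hk : 0 ≤ k) :
    ∃ g : E3 → E3, Dens (fun x => ps k x ^ 2) g ∧
      ∫ x, ‖g x‖ ^ 2 ≤ k ^ 2 / 4 * ∫ x, M x ^ 10 := by
  have hf := ps_lip hk
  have hc := ps_cs k
  have h0 : ∀ x, 0 ≤ ps k x := fun x => mul_nonneg hk (pow_nonneg (M_nonneg x) _)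
  set g : E3 → E3 := fun x => (InnerProductSpace.toDual ℝ E3).symm (fderiv ℝ (ps k) x) with hg
  have hm : Measurable g :=
    (InnerProductSpace.toDual ℝ E3).symm.continuous.measurable.comp (measurable_fderiv ℝ (ps k))
  have hi10 : Integrable (fun x => k ^ 2 / 4 * M x ^ 10) :=
    (M_pow_int (by norm_num)).const_mul _
  have hbd : ∀ᵐ x : E3, ‖g x‖ ^ 2 ≤ k ^ 2 / 4 * M x ^ 10 := by
    filter_upwards [ps_fderiv hk] with x hx
    simp only [hg]
    rw [LinearIsometryEquiv.norm_map]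
    calc ‖fderiv ℝ (ps k) x‖ ^ 2 ≤ (k / 2 * M x ^ 5) ^ 2 := pow_le_pow_left₀ (norm_nonneg _) hx 2
      _ = _ := by ring
  have hgi : Integrable (fun x => ‖g x‖ ^ 2) := by
    refine Integrable.mono' hi10 (hm.norm.pow_const 2).aestronglyMeasurable ?_
    filter_upwards [hbd] with x hx
    rw [Real.norm_of_nonneg (sq_nonneg _)]
    exact hx
  have hint : ∀ m : ℕ, m ≠ 0 → Integrable (fun x => ps k x ^ m) := by
    intro m hm0
    have h1 : HasCompactSupport (fun x => ps k x ^ m) := by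
      have : (fun x => ps k x ^ m) = (fun t : ℝ => t ^ m) ∘ ps k := rfl
      rw [this]
      exact hc.comp_left (by simp [hm0])
    exact (hf.continuous.pow m).integrable_of_hasCompactSupport h1
  refine ⟨g, ⟨fun x => sq_nonneg _, hint 2 (by norm_num), ?_, ?_, ?_⟩, ?_⟩
  · have h1 : HasCompactSupport (fun x => (ps k x ^ 2) ^ (5 / 3 : ℝ)) := by
      have : (fun x => (ps k x ^ 2) ^ (5 / 3 : ℝ)) = (fun t : ℝ => (t ^ 2) ^ (5 / 3 : ℝ)) ∘ ps k := rfl
      rw [this]
      refine hc.comp_left ?_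
      rw [zero_pow (by norm_num), Real.zero_rpow (by norm_num)]
    have h2 : Continuous (fun x => (ps k x ^ 2) ^ (5 / 3 : ℝ)) :=
      (hf.continuous.pow 2).rpow_const (fun x => Or.inr (by norm_num))
    exact h2.integrable_of_hasCompactSupport h1
  · exact (memLp_two_iff_integrable_sq_norm hm.aestronglyMeasurable).2 hgi
  · have e : (fun x => √(ps k x ^ 2)) = ps k := by
      funext x
      exact Real.sqrt_sq (h0 x)
    rw [e]
    intro φ hφ hφc v
    obtain ⟨D, hD⟩ := ContDiff.lipschitzWith_of_hasCompactSupport hφc hφ (by simp)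
    have h1 := hf.integral_lineDeriv_mul_eq (μ := (volume : Measure E3)) hD hφc v
    have h2 : ∫ x, lineDeriv ℝ (ps k) x v * φ x
        = ∫ x, inner ℝ (g x) v * φ x := by
      refine integral_congr_ae ?_
      filter_upwards [hf.ae_differentiableAt] with x hx
      simp only [hg]
      rw [hx.lineDeriv_eq_fderiv, InnerProductSpace.toDual_symm_apply]
    have h3 : ∫ x, lineDeriv ℝ φ x (-v) * ps k x = -∫ x, ps k x * fderiv ℝ φ x v := by
      rw [← integral_neg]
      refine integral_congr_ae (ae_of_all _ fun x => ?_)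
      have hd : DifferentiableAt ℝ φ x := (hφ.differentiable (by simp)) x
      simp only
      rw [hd.lineDeriv_eq_fderiv, map_neg]
      ring
    rw [← h2, h1, h3, neg_neg]
  · rw [← integral_const_mul]
    exact integral_mono_ae hgi hi10 hbd

/-! ### radial integrals of the trial density -/

lemma ioi_to_interval (p : ℝ → ℝ) (m : ℕ) (hm : m ≠ 0) :
    ∫ y in Ioi (0:ℝ), p y * (max (1 - y / 12) 0) ^ m = ∫ y in (0:ℝ)..12, p y * (1 - y / 12) ^ m := by
  rw [intervalIntegral.integral_of_le (by norm_num)]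
  have h1 : ∫ y in Ioi (0:ℝ), p y * (max (1 - y / 12) 0) ^ m
      = ∫ y in Ioc (0:ℝ) 12, p y * (max (1 - y / 12) 0) ^ m := by
    refine setIntegral_eq_of_subset_of_forall_sdiff_eq_zero measurableSet_Ioi
      (fun y hy => hy.1) (fun y hy => ?_)
    have h2 : 12 < y := by
      by_contra hc
      exact hy.2 ⟨hy.1, not_lt.1 hc⟩
    rw [max_eq_right (by linarith), zero_pow hm, mul_zero]
  rw [h1]
  refine setIntegral_congr_fun measurableSet_Ioc fun y hy => ?_
  rw [max_eq_left (by linarith [hy.2])]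

lemma int_two (m : ℕ) : ∫ y in (0:ℝ)..12, y ^ 2 * (1 - y / 12) ^ m
    = 1728 * (1 / ((m : ℝ) + 1) - 2 / ((m : ℝ) + 2) + 1 / ((m : ℝ) + 3)) := by
  have hpow : ∀ (j : ℕ) (y : ℝ),
      HasDerivAt (fun y : ℝ => (1 - y / 12) ^ (j + 1) / ((j : ℝ) + 1))
        (-(1 / 12) * (1 - y / 12) ^ j) y := by
    intro j y
    have h3 : HasDerivAt (fun t : ℝ => 1 - t / 12) (-(1 / 12)) y := by
      have := ((hasDerivAt_id y).div_const 12).const_sub 1
      simpa using this
    have h4 := (h3.pow (j + 1)).div_const ((j : ℝ) + 1)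
    refine h4.congr_deriv ?_
    have : (j : ℝ) + 1 ≠ 0 := by positivity
    rw [Nat.add_sub_cancel]
    push_cast
    field_simp
  set G : ℝ → ℝ := fun y => -1728 * ((1 - y / 12) ^ (m + 1) / ((m : ℝ) + 1)
    - 2 * ((1 - y / 12) ^ (m + 1 + 1) / (((m + 1 : ℕ) : ℝ) + 1))
    + (1 - y / 12) ^ (m + 2 + 1) / (((m + 2 : ℕ) : ℝ) + 1)) with hG
  have hd : ∀ y ∈ uIcc (0:ℝ) 12, HasDerivAt G (y ^ 2 * (1 - y / 12) ^ m) y := by
    intro y _
    have h1 := (((hpow m y).sub ((hpow (m + 1) y).const_mul 2)).add (hpow (m + 2) y)).const_mul (-1728)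
    refine h1.congr_deriv ?_
    ring
  rw [intervalIntegral.integral_eq_sub_of_hasDerivAt hd (by
    apply Continuous.intervalIntegrable; fun_prop)]
  simp only [hG]
  push_cast
  norm_num
  ring

lemma int_one (m : ℕ) : ∫ y in (0:ℝ)..12, y * (1 - y / 12) ^ m
    = 144 * (1 / ((m : ℝ) + 1) - 1 / ((m : ℝ) + 2)) := by
  have hpow : ∀ (j : ℕ) (y : ℝ),
      HasDerivAt (fun y : ℝ => (1 - y / 12) ^ (j + 1) / ((j : ℝ) + 1))
        (-(1 / 12) * (1 - y / 12) ^ j) y := by
    intro j y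
    have h3 : HasDerivAt (fun t : ℝ => 1 - t / 12) (-(1 / 12)) y := by
      have := ((hasDerivAt_id y).div_const 12).const_sub 1
      simpa using this
    have h4 := (h3.pow (j + 1)).div_const ((j : ℝ) + 1)
    refine h4.congr_deriv ?_
    have : (j : ℝ) + 1 ≠ 0 := by positivity
    rw [Nat.add_sub_cancel]
    push_cast
    field_simp
  set G : ℝ → ℝ := fun y => -144 * ((1 - y / 12) ^ (m + 1) / ((m : ℝ) + 1)
    - (1 - y / 12) ^ (m + 1 + 1) / (((m + 1 : ℕ) : ℝ) + 1)) with hG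
  have hd : ∀ y ∈ uIcc (0:ℝ) 12, HasDerivAt G (y * (1 - y / 12) ^ m) y := by
    intro y _
    have h1 := ((hpow m y).sub (hpow (m + 1) y)).const_mul (-144)
    refine h1.congr_deriv ?_
    ring
  rw [intervalIntegral.integral_eq_sub_of_hasDerivAt hd (by
    apply Continuous.intervalIntegrable; fun_prop)]
  simp only [hG]
  push_cast
  norm_num
  ring

lemma M_int (m : ℕ) (hm : m ≠ 0) :
    ∫ x : E3, M x ^ m = 4 * Real.pi * (1728 * (1 / (m + 1) - 2 / (m + 2) + 1 / (m + 3))) := by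
  have := rad_int (fun r => (max (1 - r / 12) 0) ^ m)
  rw [ioi_to_interval (fun y => y ^ 2) m hm, int_two] at this
  exact this

lemma M_inv_int (m : ℕ) (hm : m ≠ 0) :
    ∫ x : E3, ‖x‖⁻¹ * M x ^ m = 4 * Real.pi * (144 * (1 / (m + 1) - 1 / (m + 2))) := by
  have := rad_int (fun r => r⁻¹ * (max (1 - r / 12) 0) ^ m)
  have e : ∫ y in Ioi (0:ℝ), y ^ 2 * (y⁻¹ * (max (1 - y / 12) 0) ^ m)
      = ∫ y in Ioi (0:ℝ), y * (max (1 - y / 12) 0) ^ m := by
    refine setIntegral_congr_fun measurableSet_Ioi fun y hy => ?_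
    have hy' : (0:ℝ) < y := hy
    field_simp
  rw [e, ioi_to_interval (fun y => y) m hm, int_one] at this
  exact this

end Pool.Agent.H158.FA
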