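import Mathlib
import Pool.Agent.H158.FATrial

/-!
# Fermi-Amaldi TFW: `E(1) < E(2)` at `z = 1`
-/

set_option autoImplicit false

open MeasureTheory Filter Topology Set
open scoped ENNReal NNReal ContDiff

namespace Pool.Agent.H158.FA

open Pool.Agent.H158.TW

lemma trial_mass (k : ℝ) : ∫ x, ps k x ^ 2 = k ^ 2 * (6912 * Real.pi / 1365) := by
  have e : ∀ x, ps k x ^ 2 = k ^ 2 * M x ^ 12 := fun x => by unfold ps; ring
  simp only [e]
  rw [integral_const_mul, M_int 12 (by norm_num)]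
  push_cast
  ring

lemma exists_mass {m : ℝ} (hm : 0 < m) : ∃ k : ℝ, 0 ≤ k ∧ k ^ 2 = m * (1365 / (6912 * Real.pi)) ∧
    ∫ x, ps k x ^ 2 = m := by
  have hpi := Real.pi_pos
  refine ⟨√(m * (1365 / (6912 * Real.pi))), Real.sqrt_nonneg _, Real.sq_sqrt (by positivity), ?_⟩
  rw [trial_mass, Real.sq_sqrt (by positivity)]
  field_simp

/-- upper bound for `N = 1` -/
theorem upper_one : ∃ (ρ : E3 → ℝ) (g : E3 → E3), Dens ρ g ∧ ∫ x, ρ x = 1 ∧
    energy 1 1 ρ g ≤ -(317 / 1000) := by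
  have hpi := Real.pi_pos
  obtain ⟨k, hk0, hk2, hk⟩ := exists_mass (m := 1) one_pos
  rw [one_mul] at hk2
  obtain ⟨g, hg, hgb⟩ := trial hk0
  refine ⟨_, g, hg, hk, ?_⟩
  rw [energy_one]
  have h3 : (1 - 1 / ((1 : ℕ) : ℝ)) * (1 / 2 * DD (fun x => ps k x ^ 2)) = 0 := by simp
  rw [h3, add_zero]
  have e1 : ∫ x, ‖x‖⁻¹ * ps k x ^ 2 = k ^ 2 * (4 * Real.pi * (144 * (1 / 13 - 1 / 14))) := by
    have e : ∀ x, ‖x‖⁻¹ * ps k x ^ 2 = k ^ 2 * (‖x‖⁻¹ * M x ^ 12) := fun x => by unfold ps; ring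
    simp only [e]
    rw [integral_const_mul, M_inv_int 12 (by norm_num)]
    push_cast
    ring
  have e2 : ∫ x, (ps k x ^ 2) ^ (5 / 3 : ℝ)
      = (k ^ 2) ^ (5 / 3 : ℝ) * (4 * Real.pi * (1728 * (1 / 21 - 2 / 22 + 1 / 23))) := by
    have e : ∀ x, (ps k x ^ 2) ^ (5 / 3 : ℝ) = (k ^ 2) ^ (5 / 3 : ℝ) * M x ^ 20 := fun x => by
      have h1 : ps k x ^ 2 = k ^ 2 * M x ^ 12 := by unfold ps; ring
      rw [h1, Real.mul_rpow (sq_nonneg _) (pow_nonneg (M_nonneg x) _)]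
      congr 1
      rw [← Real.rpow_natCast (M x) 12, ← Real.rpow_mul (M_nonneg x), ← Real.rpow_natCast (M x) 20]
      congr 1
      norm_num
    simp only [e]
    rw [integral_const_mul, M_int 20 (by norm_num)]
    push_cast
    ring
  have e3 : k ^ 2 / 4 * ∫ x, M x ^ 10
      = k ^ 2 * (Real.pi * (1728 * (1 / 11 - 2 / 12 + 1 / 13))) := by
    rw [M_int 10 (by norm_num)]
    push_cast
    ring
  rw [e3] at hgb
  rw [e1, e2]
  have hkpi : k ^ 2 * Real.pi = 1365 / 6912 := by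
    rw [hk2]
    field_simp
  have hk2p : 0 < k ^ 2 := by rw [hk2]; positivity
  -- the power term
  have e4 : (3 * Real.pi ^ 2) ^ (2 / 3 : ℝ) * (k ^ 2) ^ (5 / 3 : ℝ)
      = (3 * Real.pi * (1365 / 6912)) ^ (2 / 3 : ℝ) * k ^ 2 := by
    have h1 : (k ^ 2) ^ (5 / 3 : ℝ) = (k ^ 2) ^ (2 / 3 : ℝ) * k ^ 2 := by
      rw [show (5 / 3 : ℝ) = 2 / 3 + 1 by norm_num, Real.rpow_add hk2p, Real.rpow_one]
    rw [h1, ← mul_assoc, ← Real.mul_rpow (by positivity) hk2p.le]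
    congr 2
    rw [← hkpi]
    ring
  have e5 : (3 * Real.pi * (1365 / 6912)) ^ (2 / 3 : ℝ) ≤ 1514 / 1000 := by
    have hb : (3 * Real.pi * (1365 / 6912)) ≤ 18613 / 10000 := by
      have := Real.pi_lt_d4
      linarith
    have hb0 : 0 ≤ 3 * Real.pi * (1365 / 6912) := by positivity
    calc (3 * Real.pi * (1365 / 6912)) ^ (2 / 3 : ℝ)
        ≤ (18613 / 10000 : ℝ) ^ (2 / 3 : ℝ) := Real.rpow_le_rpow hb0 hb (by norm_num)
      _ = ((18613 / 10000 : ℝ) ^ (2 : ℝ)) ^ (1 / 3 : ℝ) := by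
          rw [← Real.rpow_mul (by norm_num)]
          norm_num
      _ ≤ ((1514 / 1000 : ℝ) ^ (3 : ℝ)) ^ (1 / 3 : ℝ) := by
          refine Real.rpow_le_rpow (by positivity) ?_ (by norm_num)
          rw [show (2:ℝ) = ((2:ℕ):ℝ) by norm_num, show (3:ℝ) = ((3:ℕ):ℝ) by norm_num,
            Real.rpow_natCast, Real.rpow_natCast]
          norm_num
      _ = 1514 / 1000 := by
          rw [← Real.rpow_mul (by norm_num)]
          norm_num
  have e6 : 3 / 5 * (3 * Real.pi ^ 2) ^ (2 / 3 : ℝ) * ((k ^ 2) ^ (5 / 3 : ℝ)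
      * (4 * Real.pi * (1728 * (1 / 21 - 2 / 22 + 1 / 23))))
      = (3 * Real.pi * (1365 / 6912)) ^ (2 / 3 : ℝ) * (3 / 5 * (1365 / 6912) * (4 * (1728 * (1 / 21 - 2 / 22 + 1 / 23)))) := by
    rw [← hkpi]
    calc _ = 3 / 5 * ((3 * Real.pi ^ 2) ^ (2 / 3 : ℝ) * (k ^ 2) ^ (5 / 3 : ℝ))
          * (4 * Real.pi * (1728 * (1 / 21 - 2 / 22 + 1 / 23))) := by ring
      _ = _ := by rw [e4, ← hkpi]; ring
  rw [e6]
  have e7 : k ^ 2 * (4 * Real.pi * (144 * (1 / 13 - 1 / 14)))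
      = 1365 / 6912 * (4 * (144 * (1 / 13 - 1 / 14))) := by rw [← hkpi]; ring
  have e8 : k ^ 2 * (Real.pi * (1728 * (1 / 11 - 2 / 12 + 1 / 13)))
      = 1365 / 6912 * (1728 * (1 / 11 - 2 / 12 + 1 / 13)) := by rw [← hkpi]; ring
  rw [e8] at hgb
  rw [e7]
  have e9 : (3 * Real.pi * (1365 / 6912)) ^ (2 / 3 : ℝ) * (3 / 5 * (1365 / 6912) * (4 * (1728 * (1 / 21 - 2 / 22 + 1 / 23))))
      ≤ 1514 / 1000 * (3 / 5 * (1365 / 6912) * (4 * (1728 * (1 / 21 - 2 / 22 + 1 / 23)))) :=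
    mul_le_mul_of_nonneg_right e5 (by norm_num)
  norm_num at hgb e9 ⊢
  linarith

theorem main : (energies 1 1).Nonempty ∧ BddBelow (energies 1 1) ∧
    (energies 1 2).Nonempty ∧ BddBelow (energies 1 2) ∧ E 1 1 < E 1 2 := by
  obtain ⟨ρ, g, h1, h2, h3⟩ := upper_one
  have hb1 : BddBelow (energies 1 1) := by
    refine ⟨-6, ?_⟩
    rintro e ⟨ρ, g, h, hm, rfl⟩
    have := lower_one h
    rw [hm] at this
    push_cast at this
    linarith
  have hb2 : BddBelow (energies 1 2) := by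
    refine ⟨-(305 / 1000), ?_⟩
    rintro e ⟨ρ, g, h, hm, rfl⟩
    exact lower_two h
  have hn1 : (energies 1 1).Nonempty := ⟨_, ρ, g, h1, by simpa using h2, rfl⟩
  have hn2 : (energies 1 2).Nonempty := by
    obtain ⟨k, hk0, -, hk⟩ := exists_mass (m := 2) two_pos
    obtain ⟨g', hg', -⟩ := trial hk0
    exact ⟨_, _, g', hg', by rw [hk]; norm_num, rfl⟩
  refine ⟨hn1, hb1, hn2, hb2, ?_⟩
  have u1 : E 1 1 ≤ -(317 / 1000) :=
    (csInf_le hb1 ⟨ρ, g, h1, by simpa using h2, rfl⟩).trans h3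
  have l2 : -(305 / 1000) ≤ E 1 2 := by
    refine le_csInf hn2 ?_
    rintro e ⟨ρ, g, h, hm, rfl⟩
    exact lower_two h
  linarith

end Pool.Agent.H158.FA
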