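import Mathlib
import Pool.Agent.Helper985.VR.S

/-!
# `L^q` tools for `H¹(ℝ^N)`: extension of inequalities by density, Sobolev, Brezis-Lieb
-/

set_option autoImplicit false
set_option linter.unusedSectionVars false
set_option linter.unusedVariables false

open MeasureTheory Filter Topology Set
open scoped ContDiff ENNReal NNReal

namespace Pool.Agent.H158.LS

open Pool.Agent.Helper985.VR

section gen

variable {X : Type*} [NormedAddCommGroup X] [NormedSpace ℝ X] [FiniteDimensional ℝ X]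
  [MeasureSpace X] [BorelSpace X] [(volume : Measure X).IsAddHaarMeasure]
variable {ι : Type*} [Fintype ι]

/-- `∫ |f|^q` -/
noncomputable def Lq (q : ℝ) (f : X → ℝ) : ℝ := ∫ x, |f x| ^ q

lemma Lq_nonneg (q : ℝ) (f : X → ℝ) : 0 ≤ Lq q f :=
  integral_nonneg fun x => Real.rpow_nonneg (abs_nonneg _) _

lemma meas_pow {f : X → ℝ} (hf : Measurable f) (q : ℝ) : Measurable fun x => |f x| ^ q :=
  (continuous_abs.measurable.comp hf).pow_const q

lemma int_of_lint {f : X → ℝ} (hf0 : ∀ x, 0 ≤ f x) (hm : AEStronglyMeasurable f) {c : ℝ}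
    (hc : 0 ≤ c) (h : ∫⁻ x, ENNReal.ofReal (f x) ≤ ENNReal.ofReal c) :
    Integrable f ∧ ∫ x, f x ≤ c := by
  refine ⟨⟨hm, ?_⟩, ?_⟩
  · rw [hasFiniteIntegral_iff_ofReal (ae_of_all _ hf0)]
    exact h.trans_lt ENNReal.ofReal_lt_top
  · rw [integral_eq_lintegral_of_nonneg_ae (ae_of_all _ hf0) hm]
    exact ENNReal.toReal_le_of_le_ofReal hc h

/-- Fatou's lemma for `∫ |f|^q` -/
lemma fatou {q M : ℝ} (hq : 0 ≤ q) {w : ℕ → X → ℝ} {f : X → ℝ}
    (hw : ∀ n, Measurable (w n)) (hf : Measurable f)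
    (hi : ∀ n, Integrable fun x => |w n x| ^ q)
    (hae : ∀ᵐ x, Tendsto (fun n => w n x) atTop (𝓝 (f x))) (c : ℕ → ℝ)
    (hc : Tendsto c atTop (𝓝 M)) (hle : ∀ n, Lq q (w n) ≤ c n) :
    Integrable (fun x => |f x| ^ q) ∧ Lq q f ≤ M := by
  have hM : 0 ≤ M := ge_of_tendsto' hc fun n => (Lq_nonneg q _).trans (hle n)
  refine int_of_lint (fun x => Real.rpow_nonneg (abs_nonneg _) _)
    (meas_pow hf q).aestronglyMeasurable hM ?_
  have h1 : ∫⁻ x, ENNReal.ofReal (|f x| ^ q)
      ≤ liminf (fun n => ∫⁻ x, ENNReal.ofReal (|w n x| ^ q)) atTop := by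
    have h2 : ∫⁻ x, ENNReal.ofReal (|f x| ^ q)
        = ∫⁻ x, liminf (fun n => ENNReal.ofReal (|w n x| ^ q)) atTop := by
      refine lintegral_congr_ae ?_
      filter_upwards [hae] with x hx
      have h3 : Tendsto (fun n => ENNReal.ofReal (|w n x| ^ q)) atTop
          (𝓝 (ENNReal.ofReal (|f x| ^ q))) :=
        (ENNReal.continuous_ofReal.tendsto _).comp
          (((Real.continuous_rpow_const hq).tendsto _).comp hx.abs)
      rw [h3.liminf_eq]
    rw [h2]
    exact lintegral_liminf_le' fun n => (meas_pow (hw n) q).ennreal_ofReal.aemeasurable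
  refine h1.trans ?_
  have h4 : Tendsto (fun n => ENNReal.ofReal (c n)) atTop (𝓝 (ENNReal.ofReal M)) :=
    (ENNReal.continuous_ofReal.tendsto _).comp hc
  rw [← h4.liminf_eq]
  refine liminf_le_liminf (Eventually.of_forall fun n => ?_)
  rw [← ofReal_integral_eq_lintegral_ofReal (hi n)
    (ae_of_all _ fun x => Real.rpow_nonneg (abs_nonneg _) _)]
  exact ENNReal.ofReal_le_ofReal (hle n)

lemma test_int {q : ℝ} (hq : 0 < q) {φ : X → ℝ} (hφ : Continuous φ) (hc : HasCompactSupport φ) :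
    Integrable fun x => |φ x| ^ q := by
  have h1 : Continuous fun x => |φ x| ^ q := (Real.continuous_rpow_const hq.le).comp hφ.abs
  refine h1.integrable_of_hasCompactSupport ?_
  refine hc.mono' ?_
  intro x hx
  apply subset_tsupport
  rw [Function.mem_support] at hx ⊢
  intro h0
  exact hx (by simp only [h0, abs_zero]; exact Real.zero_rpow hq.ne')

/-- an `L^q` inequality on test functions extends to `H¹` -/
lemma ext_ineq {b : ι → X} {q c β : ℝ} (hq : 0 < q) (hc : 0 < c) (hβ : 0 ≤ β)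
    (h : ∀ φ : X → ℝ, ContDiff ℝ ∞ φ → HasCompactSupport φ →
      c * (Lq q φ) ^ (2 / q) ≤ (Kn fun i x => fderiv ℝ φ x (b i)) + β * N2 φ)
    {f : X → ℝ} {g : ι → X → ℝ} (H : H1 b f g) :
    Integrable (fun x => |f x| ^ q) ∧ c * (Lq q f) ^ (2 / q) ≤ Kn g + β * N2 f := by
  choose w h1 h2 h3 h4 using fun j : ℕ => H.cc_approx (ε := 1 / ((j:ℝ) + 1)) Nat.one_div_pos_of_nat
  have hH : ∀ j, H1 b (w j) fun i x => fderiv ℝ (w j) x (b i) := fun j => H1.of_smooth (h1 j) (h2 j)
  have t1 : Tendsto (fun j => N2 (fun x => w j x - f x)) atTop (𝓝 0) :=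
    squeeze_zero (fun j => N2_nonneg _) (fun j => (h3 j).le)
      (tendsto_one_div_add_atTop_nhds_zero_nat (𝕜 := ℝ))
  have t2 : ∀ i, Tendsto (fun j => N2 (fun x => fderiv ℝ (w j) x (b i) - g i x)) atTop (𝓝 0) :=
    fun i => squeeze_zero (fun j => N2_nonneg _) (fun j => (h4 j i).le)
      (tendsto_one_div_add_atTop_nhds_zero_nat (𝕜 := ℝ))
  have t3 : Tendsto (fun j => Kn fun i x => fderiv ℝ (w j) x (b i)) atTop (𝓝 (Kn g)) :=
    tendsto_finsetSum _ fun i _ => tendsto_N2 (fun j => (hH j).2.1 i) (H.2.1 i) (t2 i)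
  have t4 : Tendsto (fun j => N2 (w j)) atTop (𝓝 (N2 f)) := tendsto_N2 (fun j => (hH j).1) H.1 t1
  obtain ⟨σ, hσ, hae⟩ := exists_ae_subseq (fun j => (hH j).1) H.1 t1
  have t5 : Tendsto (fun j => (((Kn fun i x => fderiv ℝ (w (σ j)) x (b i))
      + β * N2 (w (σ j))) / c) ^ (q / 2)) atTop (𝓝 (((Kn g + β * N2 f) / c) ^ (q / 2))) := by
    have t6 := ((t3.add (t4.const_mul β)).div_const c).comp hσ.tendsto_atTop
    exact ((Real.continuous_rpow_const (by positivity : (0:ℝ) ≤ q / 2)).tendsto _).comp t6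
  have hA : 0 ≤ Kn g + β * N2 f := by
    have := Kn_nonneg g; have := N2_nonneg f; positivity
  have key := fatou (q := q) hq.le (fun n => (h1 (σ n)).continuous.measurable) H.1.1
    (fun n => test_int hq (h1 (σ n)).continuous (h2 (σ n))) hae _ t5 (fun n => by
      have k1 := h (w (σ n)) (h1 _) (h2 _)
      have k2 : (Lq q (w (σ n))) ^ (2 / q) ≤ ((Kn fun i x => fderiv ℝ (w (σ n)) x (b i))
          + β * N2 (w (σ n))) / c := by
        rw [le_div_iff₀ hc]; linarith
      have k3 := Real.rpow_le_rpow (Real.rpow_nonneg (Lq_nonneg q _) _) k2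
        (by positivity : (0:ℝ) ≤ q / 2)
      rw [← Real.rpow_mul (Lq_nonneg q _)] at k3
      have k4 : 2 / q * (q / 2) = 1 := by field_simp
      rw [k4, Real.rpow_one] at k3
      exact k3)
  refine ⟨key.1, ?_⟩
  have k3 := Real.rpow_le_rpow (Lq_nonneg q f) key.2 (by positivity : (0:ℝ) ≤ 2 / q)
  rw [← Real.rpow_mul (by positivity)] at k3
  have k4 : q / 2 * (2 / q) = 1 := by field_simp
  rw [k4, Real.rpow_one] at k3
  rw [le_div_iff₀ hc] at k3
  linarith

/-! ### Brezis-Lieb -/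

lemma conv2 {q t : ℝ} (hq : 1 ≤ q) (ht0 : 0 < t) (ht1 : t < 1) (a b : ℝ) :
    |a + b| ^ q ≤ (1 - t) ^ (1 - q) * |a| ^ q + t ^ (1 - q) * |b| ^ q := by
  have h1t : 0 < 1 - t := by linarith
  have h1 : |a + b| ≤ (1 - t) * (|a| / (1 - t)) + t * (|b| / t) := by
    rw [mul_div_cancel₀ _ h1t.ne', mul_div_cancel₀ _ ht0.ne']
    exact abs_add_le a b
  have h2 := Real.rpow_le_rpow (abs_nonneg _) h1 (by linarith : (0:ℝ) ≤ q)
  have h3 := (convexOn_rpow hq).2 (x := |a| / (1 - t)) (y := |b| / t)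
    (Set.mem_Ici.2 (by positivity)) (Set.mem_Ici.2 (by positivity)) h1t.le ht0.le (by ring)
  simp only [smul_eq_mul] at h3
  refine h2.trans (h3.trans (le_of_eq ?_))
  rw [Real.div_rpow (abs_nonneg _) h1t.le, Real.div_rpow (abs_nonneg _) ht0.le]
  have e1 : (1 - t) ^ (1 - q) = (1 - t) / (1 - t) ^ q := by
    rw [Real.rpow_sub h1t, Real.rpow_one]
  have e2 : t ^ (1 - q) = t / t ^ q := by
    rw [Real.rpow_sub ht0, Real.rpow_one]
  rw [e1, e2]
  ring

lemma bl_ineq {q : ℝ} (hq : 1 < q) {ε : ℝ} (hε : 0 < ε) :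
    ∃ C : ℝ, 0 < C ∧ ∀ a b : ℝ, |(|a + b| ^ q - |a| ^ q)| ≤ ε * |a| ^ q + C * |b| ^ q := by
  -- choose t with κ = (1-t)^(1-q), (κ - 1) κ ≤ ε
  have hlim : Tendsto (fun t : ℝ => ((1 - t) ^ (1 - q) - 1) * (1 - t) ^ (1 - q)) (𝓝 0) (𝓝 0) := by
    have h1 : Tendsto (fun t : ℝ => (1 - t) ^ (1 - q)) (𝓝 0) (𝓝 1) := by
      have h2 : ContinuousAt (fun t : ℝ => (1 - t) ^ (1 - q)) 0 := by
        refine ContinuousAt.rpow_const (by fun_prop) (Or.inl (by norm_num))
      have h3 := h2.tendsto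
      simpa using h3
    have := (h1.sub_const 1).mul h1
    simpa using this
  have hev := (hlim.eventually_lt_const hε)
  rw [Metric.eventually_nhds_iff] at hev
  obtain ⟨δ, hδ, hd⟩ := hev
  set t := min (δ / 2) (1 / 2) with ht
  have ht0 : 0 < t := by positivity
  have ht1 : t < 1 := lt_of_le_of_lt (min_le_right _ _) (by norm_num)
  have hκ := hd (y := t) (by
    rw [Real.dist_eq, sub_zero, abs_of_pos ht0]
    exact lt_of_le_of_lt (min_le_left _ _) (by linarith))
  set κ := (1 - t) ^ (1 - q) with hκd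
  have h1t : 0 < 1 - t := by linarith
  have hκ1 : 1 ≤ κ := by
    rw [hκd]
    exact Real.one_le_rpow_of_pos_of_le_one_of_nonpos h1t (by linarith) (by linarith)
  set T := t ^ (1 - q) with hT
  have hT0 : 0 < T := Real.rpow_pos_of_pos ht0 _
  refine ⟨κ * T, by positivity, fun a b => ?_⟩
  have h1 := conv2 hq.le ht0 ht1 a b
  have h2 := conv2 hq.le ht0 ht1 (a + b) (-b)
  rw [add_neg_cancel_right, abs_neg] at h2
  rw [← hκd, ← hT] at h1 h2
  have pa : 0 ≤ |a| ^ q := Real.rpow_nonneg (abs_nonneg _) _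
  have pb : 0 ≤ |b| ^ q := Real.rpow_nonneg (abs_nonneg _) _
  have pab : 0 ≤ |a + b| ^ q := Real.rpow_nonneg (abs_nonneg _) _
  rw [abs_le]
  constructor
  · -- |a|^q - |a+b|^q ≤ (κ-1)|a+b|^q + T|b|^q
    have h3 : (κ - 1) * |a + b| ^ q ≤ (κ - 1) * (κ * |a| ^ q + T * |b| ^ q) :=
      mul_le_mul_of_nonneg_left h1 (by linarith)
    have h4 : ((κ - 1) * κ) * |a| ^ q ≤ ε * |a| ^ q := mul_le_mul_of_nonneg_right hκ.le pa
    nlinarith
  · have h4 : ((κ - 1) * κ) * |a| ^ q ≤ ε * |a| ^ q := mul_le_mul_of_nonneg_right hκ.le pa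
    have h5 : (κ - 1) * |a| ^ q ≤ ((κ - 1) * κ) * |a| ^ q := by
      refine mul_le_mul_of_nonneg_right ?_ pa
      nlinarith
    have h6 : T * |b| ^ q ≤ κ * T * |b| ^ q := by
      refine mul_le_mul_of_nonneg_right ?_ pb
      nlinarith
    nlinarith

lemma int_sub_pow {q : ℝ} (hq : 1 ≤ q) {f F : X → ℝ} (hf : Measurable f) (hF : Measurable F)
    (hi : Integrable fun x => |f x| ^ q) (hFi : Integrable fun x => |F x| ^ q) :
    Integrable (fun x => |f x - F x| ^ q) ∧
      Lq q (fun x => f x - F x) ≤ (1/2) ^ (1 - q) * (Lq q f + Lq q F) := by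
  have hpt : ∀ x, |f x - F x| ^ q ≤ (1/2) ^ (1 - q) * (|f x| ^ q + |F x| ^ q) := by
    intro x
    have := conv2 hq (by norm_num : (0:ℝ) < 1/2) (by norm_num) (f x) (-F x)
    rw [abs_neg, ← sub_eq_add_neg] at this
    norm_num at this ⊢
    linarith
  have hI : Integrable fun x => (1/2 : ℝ) ^ (1 - q) * (|f x| ^ q + |F x| ^ q) :=
    (hi.add hFi).const_mul _
  have h1 : Integrable (fun x => |f x - F x| ^ q) := by
    refine Integrable.mono' hI (meas_pow (hf.sub hF) q).aestronglyMeasurable ?_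
    filter_upwards with x
    rw [Real.norm_eq_abs, abs_of_nonneg (Real.rpow_nonneg (abs_nonneg _) _)]
    exact hpt x
  refine ⟨h1, ?_⟩
  have h2 := integral_mono h1 hI hpt
  rw [integral_const_mul, integral_add hi hFi] at h2
  exact h2

/-- the Brezis-Lieb lemma -/
lemma brezis_lieb {q : ℝ} (hq : 1 < q) {f : ℕ → X → ℝ} {F : X → ℝ}
    (hm : ∀ n, Measurable (f n)) (hF : Measurable F)
    (hi : ∀ n, Integrable fun x => |f n x| ^ q) (hFi : Integrable fun x => |F x| ^ q)
    (C : ℝ) (hb : ∀ n, Lq q (f n) ≤ C)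
    (hae : ∀ᵐ x, Tendsto (fun n => f n x) atTop (𝓝 (F x))) :
    Tendsto (fun n => Lq q (f n) - Lq q (fun x => f n x - F x)) atTop (𝓝 (Lq q F)) := by
  have hC0 : 0 ≤ C := (Lq_nonneg q _).trans (hb 0)
  set C' := (1/2 : ℝ) ^ (1 - q) * (C + Lq q F) with hC'
  have hC'0 : 0 ≤ C' := by have := Lq_nonneg q F; positivity
  have hsub := fun n => int_sub_pow hq.le (hm n) hF (hi n) hFi
  have hsubC : ∀ n, Lq q (fun x => f n x - F x) ≤ C' := fun n =>
    (hsub n).2.trans (mul_le_mul_of_nonneg_left (by linarith [hb n]) (by positivity))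
  rw [Metric.tendsto_atTop]
  intro ε hε
  set ε' := ε / (2 * (C' + 1)) with hε'
  have hε'0 : 0 < ε' := by positivity
  obtain ⟨D, hD, hbl⟩ := bl_ineq hq hε'0
  -- W_n
  set W : ℕ → X → ℝ := fun n x =>
    max (|(|f n x| ^ q - |f n x - F x| ^ q - |F x| ^ q)| - ε' * |f n x - F x| ^ q) 0 with hW
  have hWm : ∀ n, Measurable (W n) := by
    intro n
    have m1 := meas_pow (hm n) q
    have m2 := meas_pow ((hm n).sub hF) q
    have m3 := meas_pow hF q
    exact (((continuous_abs.measurable.comp ((m1.sub m2).sub m3)).sub (m2.const_mul _))).max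
      measurable_const
  have hWle : ∀ n x, W n x ≤ (D + 1) * |F x| ^ q := by
    intro n x
    have h1 := hbl (f n x - F x) (F x)
    rw [sub_add_cancel] at h1
    have p : 0 ≤ |F x| ^ q := Real.rpow_nonneg (abs_nonneg _) _
    apply max_le _ (by positivity)
    have h2 := abs_sub (|f n x| ^ q - |f n x - F x| ^ q) (|F x| ^ q)
    rw [abs_of_nonneg p] at h2
    linarith
  have hWt : Tendsto (fun n => ∫ x, W n x) atTop (𝓝 0) := by
    have : Tendsto (fun n => ∫ x, W n x) atTop (𝓝 (∫ x : X, (0:ℝ))) := by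
      refine tendsto_integral_of_dominated_convergence (fun x => (D + 1) * |F x| ^ q)
        (fun n => (hWm n).aestronglyMeasurable) (hFi.const_mul _) (fun n => ?_) ?_
      · filter_upwards with x
        rw [Real.norm_eq_abs, abs_of_nonneg (le_max_right _ _)]
        exact hWle n x
      · filter_upwards [hae] with x hx
        have c1 : Tendsto (fun n => |f n x| ^ q) atTop (𝓝 (|F x| ^ q)) :=
          ((Real.continuous_rpow_const (by linarith : (0:ℝ) ≤ q)).tendsto _).comp hx.abs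
        have c2 : Tendsto (fun n => |f n x - F x| ^ q) atTop (𝓝 0) := by
          have := ((Real.continuous_rpow_const (by linarith : (0:ℝ) ≤ q)).tendsto _).comp
            (hx.sub_const (F x)).abs
          simpa [Real.zero_rpow (by linarith : q ≠ 0), Function.comp_def] using this
        have c3 := ((((c1.sub c2).sub_const (|F x| ^ q)).abs).sub (c2.const_mul ε')).max
          (tendsto_const_nhds (x := (0:ℝ)))
        simpa [hW] using c3
    simpa using this
  rw [Metric.tendsto_atTop] at hWt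
  obtain ⟨n0, hn0⟩ := hWt (ε / 2) (by positivity)
  refine ⟨n0, fun n hn => ?_⟩
  have h1 := hn0 n hn
  rw [Real.dist_eq, sub_zero, abs_of_nonneg (integral_nonneg fun x => le_max_right _ _)] at h1
  have hWi : Integrable (W n) := by
    refine Integrable.mono' (hFi.const_mul (D + 1)) (hWm n).aestronglyMeasurable ?_
    filter_upwards with x
    rw [Real.norm_eq_abs, abs_of_nonneg (le_max_right _ _)]
    exact hWle n x
  have e1 : Lq q (f n) - Lq q (fun x => f n x - F x) - Lq q F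
      = ∫ x, (|f n x| ^ q - |f n x - F x| ^ q - |F x| ^ q) := by
    have i1 := integral_sub (hi n) (hsub n).1
    have i2 := integral_sub (f := fun x => |f n x| ^ q - |f n x - F x| ^ q)
      ((hi n).sub (hsub n).1) hFi
    rw [i2, i1]
    rfl
  rw [Real.dist_eq, e1]
  have h3 : |∫ x, (|f n x| ^ q - |f n x - F x| ^ q - |F x| ^ q)|
      ≤ ∫ x, (W n x + ε' * |f n x - F x| ^ q) := by
    refine (abs_integral_le_integral_abs).trans ?_
    refine integral_mono (((hi n).sub (hsub n).1).sub hFi).abs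
      (hWi.add ((hsub n).1.const_mul _)) fun x => ?_
    have := le_max_left (|(|f n x| ^ q - |f n x - F x| ^ q - |F x| ^ q)| - ε' * |f n x - F x| ^ q) 0
    simp only [hW]
    linarith
  rw [integral_add hWi ((hsub n).1.const_mul _), integral_const_mul] at h3
  have h4 : ε' * ∫ x, |f n x - F x| ^ q ≤ ε' * C' := mul_le_mul_of_nonneg_left (hsubC n) hε'0.le
  have h5 : ε' * C' ≤ ε / 2 := by
    rw [hε', div_mul_eq_mul_div, div_le_iff₀ (by positivity)]
    nlinarith
  linarith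

end gen

end Pool.Agent.H158.LS
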