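import Mathlib
import Pool.Agent.H158.LS1

/-!
# Sharp constants, Sobolev inequality, translations, non vanishing
-/

set_option autoImplicit false
set_option linter.unusedSectionVars false
set_option linter.unusedVariables false

open MeasureTheory Filter Topology Set
open scoped ContDiff ENNReal NNReal

namespace Pool.Agent.H158.LS

open Pool.Agent.Helper985.VR

/-- `ℝ^N` -/
abbrev EN (N : ℕ) := EuclideanSpace ℝ (Fin N)

/-- the standard basis of `ℝ^N` -/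
noncomputable def bN (N : ℕ) : Module.Basis (Fin N) ℝ (EN N) :=
  (EuclideanSpace.basisFun (Fin N) ℝ).toBasis

/-- the critical exponent `2^* = 2N/(N-2)` -/
noncomputable def ts (N : ℕ) : ℝ := 2 * N / (N - 2)

lemma bN_repr (N : ℕ) (x : EN N) (i : Fin N) : (bN N).repr x i = x i := by simp [bN]

theorem bN_opNorm {N : ℕ} (L : EN N →L[ℝ] ℝ) : ‖L‖ ≤ √(∑ i, (L (bN N i)) ^ 2) := by
  refine L.opNorm_le_bound (Real.sqrt_nonneg _) fun x => ?_
  have h1 : L x = ∑ i, x i * L (bN N i) := by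
    conv_lhs => rw [← (bN N).sum_repr x]
    rw [map_sum]
    refine Finset.sum_congr rfl fun i _ => ?_
    rw [map_smul, bN_repr, smul_eq_mul]
  rw [h1, Real.norm_eq_abs, EuclideanSpace.norm_eq]
  have h2 := Finset.sum_mul_sq_le_sq_mul_sq Finset.univ (fun i => x i) (fun i => L (bN N i))
  rw [← Real.sqrt_mul (by positivity)]
  apply Real.le_sqrt_of_sq_le
  rw [sq_abs]
  refine h2.trans (le_of_eq ?_)
  rw [mul_comm]
  congr 1
  refine Finset.sum_congr rfl fun i _ => ?_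
  rw [Real.norm_eq_abs, sq_abs]

lemma ts_gt {N : ℕ} (hN : 3 ≤ N) : 2 < ts N := by
  have h : (3:ℝ) ≤ N := by exact_mod_cast hN
  unfold ts
  rw [lt_div_iff₀ (by linarith)]
  linarith

lemma ts_pos {N : ℕ} (hN : 3 ≤ N) : 0 < ts N := by linarith [ts_gt hN]

/-- the gradient of a smooth function, in coordinates -/
noncomputable def gr {N : ℕ} (φ : EN N → ℝ) (i : Fin N) (x : EN N) : ℝ := fderiv ℝ φ x (bN N i)

theorem sob_test {N : ℕ} (hN : 3 ≤ N) : ∃ s : ℝ, 0 < s ∧ ∀ φ : EN N → ℝ, ContDiff ℝ ∞ φ →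
    HasCompactSupport φ → s * (Lq (ts N) φ) ^ (2 / ts N) ≤ Kn (gr φ) := by
  set S := SNormLESNormFDerivOfEqConst ℝ (volume : Measure (EN N)) ((2:NNReal):ℝ) with hS
  have hNr : (3:ℝ) ≤ N := by exact_mod_cast hN
  have hts := ts_pos hN
  refine ⟨1 / ((S:ℝ) ^ 2 + 1), by positivity, fun w h1 h2 => ?_⟩
  have hfr : Module.finrank ℝ (EN N) = N := by simp
  set p' : ℝ≥0 := ⟨ts N, hts.le⟩ with hp'
  have hp'c : (p' : ℝ) = ts N := rfl
  have h3 := eLpNorm_le_eLpNorm_fderiv_of_eq (volume : Measure (EN N)) (u := w)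
    (h1.of_le (by norm_num)) h2 (p := 2) (p' := p') (by norm_num) (by rw [hfr]; omega)
    (by
      rw [hfr, hp'c]
      unfold ts
      have h0 : (N:ℝ) - 2 ≠ 0 := by intro h; linarith
      have h00 : (N:ℝ) ≠ 0 := by intro h; linarith
      push_cast
      field_simp)
  have hH := H1.of_smooth (b := (bN N : _ → EN N)) h1 h2
  have hmF : Measurable fun x => √(∑ i, (fderiv ℝ w x (bN N i)) ^ 2) :=
    (Finset.measurable_sum _ fun i _ => (hH.2.1 i).1.pow_const 2).sqrt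
  have hLF : L2 fun x => √(∑ i, (fderiv ℝ w x (bN N i)) ^ 2) := by
    refine ⟨hmF, ?_⟩
    refine (sum_sq_int hH.2.1).congr (Eventually.of_forall fun x => ?_)
    simp only
    rw [Real.sq_sqrt (by positivity)]
  have h4 : eLpNorm (fderiv ℝ w) 2 (volume : Measure (EN N)) ≤
      ENNReal.ofReal (√(Kn (gr w))) := by
    refine (eLpNorm_mono (g := fun x => √(∑ i, (fderiv ℝ w x (bN N i)) ^ 2)) fun x => ?_).trans
      (le_of_eq ?_)
    · rw [Real.norm_eq_abs, abs_of_nonneg (Real.sqrt_nonneg _)]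
      exact bN_opNorm _
    · rw [eLp2 hLF]
      congr 2
      unfold gr
      rw [← int_sum_sq hH.2.1]
      unfold N2
      congr 1; ext x
      rw [Real.sq_sqrt (by positivity)]
  have hmem : MemLp w p' (volume : Measure (EN N)) :=
    h1.continuous.memLp_of_hasCompactSupport h2
  have hp0 : (p' : ℝ≥0∞) ≠ 0 := by
    intro h
    have : (p' : ℝ≥0) = 0 := by exact_mod_cast h
    rw [this] at hp'c
    simp at hp'c
    linarith
  have h5 := hmem.eLpNorm_eq_integral_rpow_norm hp0 ENNReal.coe_ne_top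
  rw [ENNReal.coe_toReal, hp'c] at h5
  have h6 : (∫ x, ‖w x‖ ^ (ts N)) = Lq (ts N) w := rfl
  rw [h6] at h5
  rw [h5] at h3
  have h7 : ENNReal.ofReal ((Lq (ts N) w) ^ (ts N)⁻¹) ≤ ENNReal.ofReal (S * √(Kn (gr w))) := by
    refine h3.trans ?_
    have e0 : ENNReal.ofReal ((S:ℝ) * √(Kn (gr w)))
        = (S:ℝ≥0∞) * ENNReal.ofReal (√(Kn (gr w))) := by
      rw [ENNReal.ofReal_mul S.coe_nonneg, ENNReal.ofReal_coe_nnreal]
    rw [e0]
    exact mul_le_mul' le_rfl h4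
  have hK : 0 ≤ Kn (gr w) := Kn_nonneg _
  have h8 := (ENNReal.ofReal_le_ofReal_iff (by positivity)).1 h7
  have hL := Lq_nonneg (ts N) w
  have h9 : ((Lq (ts N) w) ^ (ts N)⁻¹) ^ 2 ≤ (S * √(Kn (gr w))) ^ 2 :=
    pow_le_pow_left₀ (Real.rpow_nonneg hL _) h8 2
  rw [mul_pow, Real.sq_sqrt hK, ← Real.rpow_natCast, ← Real.rpow_mul hL] at h9
  have h10 : (ts N)⁻¹ * ((2:ℕ):ℝ) = 2 / ts N := by push_cast; ring
  rw [h10] at h9
  rw [div_mul_eq_mul_div, one_mul, div_le_iff₀ (by positivity)]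
  nlinarith

/-! ### sharp constants -/

/-- the sharp Sobolev constant `S` -/
noncomputable def Sob (N : ℕ) : ℝ :=
  sInf {r | ∃ φ : EN N → ℝ, ContDiff ℝ ∞ φ ∧ HasCompactSupport φ ∧ φ ≠ 0 ∧
    r = Kn (gr φ) / (Lq (ts N) φ) ^ (2 / ts N)}

/-- the sharp constant `C_q` of `H¹ ⊂ L^q` -/
noncomputable def Cq (N : ℕ) (q : ℝ) : ℝ :=
  sInf {r | ∃ (u : EN N → ℝ) (g : Fin N → EN N → ℝ), H1 (bN N) u g ∧ ¬ u =ᵐ[volume] 0 ∧
    r = (Kn g + N2 u) / (Lq q u) ^ (2 / q)}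

lemma Lq_pos_of_ne {N : ℕ} {q : ℝ} (hq : 0 < q) {u : EN N → ℝ}
    (hi : Integrable fun x => |u x| ^ q) (h : ¬ u =ᵐ[volume] 0) : 0 < Lq q u := by
  refine lt_of_le_of_ne (Lq_nonneg q u) fun h0 => h ?_
  have h1 := (integral_eq_zero_iff_of_nonneg (fun x => Real.rpow_nonneg (abs_nonneg _) _) hi).1
    h0.symm
  filter_upwards [h1] with x hx
  simp only [Pi.zero_apply] at hx ⊢
  exact abs_eq_zero.1 ((Real.rpow_eq_zero (abs_nonneg _) hq.ne').1 hx)

lemma test_ne {N : ℕ} {φ : EN N → ℝ} (h1 : Continuous φ) (h : φ ≠ 0) : ¬ φ =ᵐ[volume] 0 := by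
  intro h2
  exact h ((Continuous.ae_eq_iff_eq volume h1 continuous_const).1 h2)

lemma exists_test (N : ℕ) : ∃ φ : EN N → ℝ, ContDiff ℝ ∞ φ ∧ HasCompactSupport φ ∧ φ ≠ 0 := by
  let η : ContDiffBump (0:EN N) := ⟨1, 2, by norm_num, by norm_num⟩
  refine ⟨η, η.contDiff, η.hasCompactSupport, fun h => ?_⟩
  have h1 : (η : EN N → ℝ) 0 = 1 := η.one_of_mem_closedBall (by simp [η])
  rw [h] at h1
  simp at h1

lemma Sob_test {N : ℕ} (hN : 3 ≤ N) {φ : EN N → ℝ} (h1 : ContDiff ℝ ∞ φ)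
    (h2 : HasCompactSupport φ) : Sob N * (Lq (ts N) φ) ^ (2 / ts N) ≤ Kn (gr φ) := by
  have hts := ts_pos hN
  by_cases h0 : φ = 0
  · have : Lq (ts N) φ = 0 := by
      rw [h0]; unfold Lq; simp [Real.zero_rpow hts.ne']
    rw [this, Real.zero_rpow (by positivity), mul_zero]
    exact Kn_nonneg _
  · have hp := Lq_pos_of_ne hts (test_int hts h1.continuous h2) (test_ne h1.continuous h0)
    rw [← le_div_iff₀ (Real.rpow_pos_of_pos hp _)]
    refine csInf_le ⟨0, ?_⟩ ⟨φ, h1, h2, h0, rfl⟩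
    rintro r ⟨ψ, -, -, -, rfl⟩
    exact div_nonneg (Kn_nonneg _) (Real.rpow_nonneg (Lq_nonneg _ _) _)

lemma Sob_pos {N : ℕ} (hN : 3 ≤ N) : 0 < Sob N := by
  obtain ⟨s, hs, hs2⟩ := sob_test hN
  have hts := ts_pos hN
  refine lt_of_lt_of_le hs (le_csInf ?_ ?_)
  · obtain ⟨φ, h1, h2, h3⟩ := exists_test N
    exact ⟨_, φ, h1, h2, h3, rfl⟩
  · rintro r ⟨φ, h1, h2, h0, rfl⟩
    have hp := Lq_pos_of_ne hts (test_int hts h1.continuous h2) (test_ne h1.continuous h0)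
    rw [le_div_iff₀ (Real.rpow_pos_of_pos hp _)]
    exact hs2 φ h1 h2

lemma Sob_sharp {N : ℕ} (hN : 3 ≤ N) {ε : ℝ} (hε : 0 < ε) : ∃ φ : EN N → ℝ, ContDiff ℝ ∞ φ ∧
    HasCompactSupport φ ∧ φ ≠ 0 ∧ 0 < Lq (ts N) φ ∧
      Kn (gr φ) < (Sob N + ε) * (Lq (ts N) φ) ^ (2 / ts N) := by
  have hts := ts_pos hN
  obtain ⟨ψ, g1, g2, g3⟩ := exists_test N
  obtain ⟨r, ⟨φ, h1, h2, h0, rfl⟩, hr⟩ := Real.lt_sInf_add_pos
    (s := {r | ∃ φ : EN N → ℝ, ContDiff ℝ ∞ φ ∧ HasCompactSupport φ ∧ φ ≠ 0 ∧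
    r = Kn (gr φ) / (Lq (ts N) φ) ^ (2 / ts N)}) ⟨_, ψ, g1, g2, g3, rfl⟩ hε
  have hp := Lq_pos_of_ne hts (test_int hts h1.continuous h2) (test_ne h1.continuous h0)
  refine ⟨φ, h1, h2, h0, hp, ?_⟩
  rwa [div_lt_iff₀ (Real.rpow_pos_of_pos hp _)] at hr

lemma Sob_H1 {N : ℕ} (hN : 3 ≤ N) {u : EN N → ℝ} {g : Fin N → EN N → ℝ} (H : H1 (bN N) u g) :
    Integrable (fun x => |u x| ^ ts N) ∧ Sob N * (Lq (ts N) u) ^ (2 / ts N) ≤ Kn g := by
  have h := ext_ineq (b := (bN N : _ → EN N)) (q := ts N) (c := Sob N) (β := 0) (ts_pos hN)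
    (Sob_pos hN) le_rfl (fun φ h1 h2 => by
      rw [zero_mul, add_zero]; exact Sob_test hN h1 h2) H
  rw [zero_mul, add_zero] at h
  exact h

lemma interp_pt {q r t : ℝ} (h2q : 2 ≤ q) (hqr : q ≤ r) (ht : 0 ≤ t) : t ^ q ≤ t ^ 2 + t ^ r := by
  rcases le_total t 1 with h | h
  · rcases eq_or_lt_of_le ht with h0 | h0
    · rw [← h0, Real.zero_rpow (by linarith), Real.zero_rpow (by linarith)]; norm_num
    · have h1 : t ^ q ≤ t ^ (2:ℝ) := Real.rpow_le_rpow_of_exponent_ge h0 h h2q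
      rw [Real.rpow_two] at h1
      have h2 : 0 ≤ t ^ r := Real.rpow_nonneg ht _
      linarith
  · have h1 : t ^ q ≤ t ^ r := Real.rpow_le_rpow_of_exponent_le h hqr
    have h2 : 0 ≤ t ^ 2 := sq_nonneg _
    linarith

lemma Lq_int {N : ℕ} (hN : 3 ≤ N) {q : ℝ} (h2q : 2 ≤ q) (hq : q ≤ ts N) {u : EN N → ℝ}
    {g : Fin N → EN N → ℝ} (H : H1 (bN N) u g) :
    Integrable (fun x => |u x| ^ q) ∧ Lq q u ≤ N2 u + Lq (ts N) u := by
  have hi := (Sob_H1 hN H).1
  have hI : Integrable fun x => u x ^ 2 + |u x| ^ ts N := H.1.2.add hi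
  have hpt : ∀ x, |u x| ^ q ≤ u x ^ 2 + |u x| ^ ts N := fun x => by
    have := interp_pt h2q hq (abs_nonneg (u x))
    rwa [sq_abs] at this
  have h1 : Integrable (fun x => |u x| ^ q) := by
    refine Integrable.mono' hI (meas_pow H.1.1 q).aestronglyMeasurable ?_
    filter_upwards with x
    rw [Real.norm_eq_abs, abs_of_nonneg (Real.rpow_nonneg (abs_nonneg _) _)]
    exact hpt x
  refine ⟨h1, ?_⟩
  have h2 := integral_mono h1 hI hpt
  rw [integral_add H.1.2 hi] at h2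
  exact h2

lemma Lq_const_mul {N : ℕ} (q c : ℝ) (u : EN N → ℝ) :
    Lq q (fun x => c * u x) = |c| ^ q * Lq q u := by
  unfold Lq
  rw [← integral_const_mul]
  congr 1; ext x
  rw [abs_mul, Real.mul_rpow (abs_nonneg _) (abs_nonneg _)]

/-- uniform bound `∫|u|^q ≤ K ‖u‖^q` -/
lemma Lq_le {N : ℕ} (hN : 3 ≤ N) {q : ℝ} (h2q : 2 ≤ q) (hq : q ≤ ts N) : ∃ K : ℝ, 0 < K ∧
    ∀ (u : EN N → ℝ) (g : Fin N → EN N → ℝ), H1 (bN N) u g →
      Lq q u ≤ K * (Kn g + N2 u) ^ (q / 2) := by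
  have hS := Sob_pos hN
  have hts := ts_pos hN
  refine ⟨1 + (1 / Sob N) ^ (ts N / 2), by positivity, fun u g H => ?_⟩
  set A := Kn g + N2 u with hA
  have hK := Kn_nonneg g
  have hN2 := N2_nonneg u
  have hA0 : 0 ≤ A := by positivity
  have hL : Lq (ts N) u ≤ (A / Sob N) ^ (ts N / 2) := by
    have h1 := (Sob_H1 hN H).2
    have h2 : (Lq (ts N) u) ^ (2 / ts N) ≤ A / Sob N := by
      rw [le_div_iff₀ hS]; linarith
    have h3 := Real.rpow_le_rpow (Real.rpow_nonneg (Lq_nonneg _ _) _) h2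
      (by positivity : (0:ℝ) ≤ ts N / 2)
    rw [← Real.rpow_mul (Lq_nonneg _ _)] at h3
    have h4 : 2 / ts N * (ts N / 2) = 1 := by field_simp
    rwa [h4, Real.rpow_one] at h3
  rcases eq_or_lt_of_le hA0 with h0 | hpos
  · -- A = 0: u = 0
    have h1 : N2 u = 0 := by linarith
    have h2 := N2_eq_zero H.1 h1
    have h3 : Lq q u = 0 := by
      unfold Lq
      have : (fun x => |u x| ^ q) =ᵐ[volume] fun _ => (0:ℝ) := by
        filter_upwards [h2] with x hx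
        rw [hx, Pi.zero_apply, abs_zero, Real.zero_rpow (by linarith)]
      rw [integral_congr_ae this]; simp
    rw [h3]; positivity
  · set c := (√A)⁻¹ with hc
    have hsA : 0 < √A := Real.sqrt_pos.2 hpos
    have hc0 : 0 < c := inv_pos.2 hsA
    have Hc := H.const_mul c
    have h1 := (Lq_int hN h2q hq Hc).2
    rw [Lq_const_mul, Lq_const_mul, N2_const_mul, abs_of_pos hc0] at h1
    have hcA : c ^ 2 * A = 1 := by
      rw [hc, inv_pow, Real.sq_sqrt hA0]; field_simp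
    have e1 : ∀ s : ℝ, c ^ s = (A ^ (s / 2))⁻¹ := by
      intro s
      rw [hc, Real.inv_rpow hsA.le, Real.sqrt_eq_rpow, ← Real.rpow_mul hA0]
      congr 2; ring
    have h2 : c ^ 2 * N2 u ≤ 1 := by
      calc c ^ 2 * N2 u ≤ c ^ 2 * A := mul_le_mul_of_nonneg_left (by linarith) (by positivity)
        _ = 1 := hcA
    have h3 : c ^ ts N * Lq (ts N) u ≤ (1 / Sob N) ^ (ts N / 2) := by
      have hAp : 0 < A ^ (ts N / 2) := Real.rpow_pos_of_pos hpos _
      rw [e1, inv_mul_le_iff₀ hAp]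
      refine hL.trans (le_of_eq ?_)
      rw [← Real.mul_rpow hA0 (by positivity)]
      congr 1; ring
    have h4 : c ^ q * Lq q u ≤ 1 + (1 / Sob N) ^ (ts N / 2) := by linarith
    rw [e1, inv_mul_le_iff₀ (Real.rpow_pos_of_pos hpos _)] at h4
    linarith

lemma Cq_pos {N : ℕ} (hN : 3 ≤ N) {q : ℝ} (h2q : 2 ≤ q) (hq : q ≤ ts N) : 0 < Cq N q := by
  obtain ⟨K, hK, h⟩ := Lq_le hN h2q hq
  have hq0 : 0 < q := by linarith
  refine lt_of_lt_of_le (show 0 < (1 / K) ^ (2 / q) by positivity) (le_csInf ?_ ?_)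
  · obtain ⟨φ, h1, h2, h3⟩ := exists_test N
    exact ⟨_, φ, _, H1.of_smooth h1 h2, test_ne h1.continuous h3, rfl⟩
  · rintro r ⟨u, g, H, h0, rfl⟩
    have hp := Lq_pos_of_ne hq0 (Lq_int hN h2q hq H).1 h0
    have h1 := h u g H
    have hA : 0 ≤ Kn g + N2 u := by
      have := Kn_nonneg g; have := N2_nonneg u; positivity
    rw [le_div_iff₀ (Real.rpow_pos_of_pos hp _), ← Real.mul_rpow (by positivity) hp.le]
    have h2 : 1 / K * Lq q u ≤ (Kn g + N2 u) ^ (q / 2) := by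
      rw [div_mul_eq_mul_div, one_mul, div_le_iff₀ hK]; linarith
    have h3 := Real.rpow_le_rpow (by positivity) h2 (by positivity : (0:ℝ) ≤ 2 / q)
    rw [← Real.rpow_mul hA] at h3
    have h4 : q / 2 * (2 / q) = 1 := by field_simp
    rwa [h4, Real.rpow_one] at h3

lemma Cq_H1 {N : ℕ} (hN : 3 ≤ N) {q : ℝ} (h2q : 2 ≤ q) (hq : q ≤ ts N) {u : EN N → ℝ}
    {g : Fin N → EN N → ℝ} (H : H1 (bN N) u g) :
    Cq N q * (Lq q u) ^ (2 / q) ≤ Kn g + N2 u := by
  have hq0 : 0 < q := by linarith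
  have hA : 0 ≤ Kn g + N2 u := by
    have := Kn_nonneg g; have := N2_nonneg u; positivity
  by_cases h0 : u =ᵐ[volume] 0
  · have h3 : Lq q u = 0 := by
      unfold Lq
      have : (fun x => |u x| ^ q) =ᵐ[volume] fun _ => (0:ℝ) := by
        filter_upwards [h0] with x hx
        rw [hx, Pi.zero_apply, abs_zero, Real.zero_rpow (by linarith)]
      rw [integral_congr_ae this]; simp
    rw [h3, Real.zero_rpow (by positivity), mul_zero]
    exact hA
  · have hp := Lq_pos_of_ne hq0 (Lq_int hN h2q hq H).1 h0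
    rw [← le_div_iff₀ (Real.rpow_pos_of_pos hp _)]
    refine csInf_le ⟨0, ?_⟩ ⟨u, g, H, h0, rfl⟩
    rintro r ⟨u', g', H', -, rfl⟩
    have := Kn_nonneg g'
    have := N2_nonneg u'
    exact div_nonneg (by positivity) (Real.rpow_nonneg (Lq_nonneg _ _) _)

/-! ### translations -/

lemma H1_translate {N : ℕ} {u : EN N → ℝ} {g : Fin N → EN N → ℝ} (H : H1 (bN N) u g)
    (a : EN N) : H1 (bN N) (fun x => u (x + a)) (fun i x => g i (x + a)) := by
  refine ⟨H.1.translate a, fun i => (H.2.1 i).translate a, fun i φ hφ hc => ?_⟩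
  have h1 := (H.2.2 i).shift hφ hc a
  have e1 := integral_add_right_eq_self (μ := (volume : Measure (EN N)))
    (fun x => u x * fderiv ℝ φ (x - a) (bN N i)) a
  have e2 := integral_add_right_eq_self (μ := (volume : Measure (EN N)))
    (fun x => g i x * φ (x - a)) a
  simp only [add_sub_cancel_right] at e1 e2
  rw [e1, e2]
  exact h1

lemma Kn_translate {N : ℕ} (g : Fin N → EN N → ℝ) (a : EN N) :
    Kn (fun i x => g i (x + a)) = Kn g :=
  Finset.sum_congr rfl fun i _ => N2_translate (g i) a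

lemma Lq_translate {N : ℕ} (q : ℝ) (u : EN N → ℝ) (a : EN N) :
    Lq q (fun x => u (x + a)) = Lq q u :=
  integral_add_right_eq_self (fun x => |u x| ^ q) a

/-! ### non vanishing -/

lemma nv_pt {q r η K t w : ℝ} (h2q : 2 < q) (hqr : q < r) (hη : 0 < η) (hK : 0 < K)
    (hw : |w| ≤ η) : |t| ^ q ≤ (2 * η) ^ (q - 2) * t ^ 2 + 4 * K ^ (q - 2) * (w - t) ^ 2
      + K ^ (q - r) * |t| ^ r := by
  have ht := abs_nonneg t
  have p1 : 0 ≤ (2 * η) ^ (q - 2) * t ^ 2 := by positivity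
  have p2 : 0 ≤ 4 * K ^ (q - 2) * (w - t) ^ 2 := by positivity
  have p3 : 0 ≤ K ^ (q - r) * |t| ^ r := by positivity
  have e1 : |t| ^ q = |t| ^ (q - 2) * t ^ 2 := by
    rcases eq_or_lt_of_le ht with h0 | h0
    · have : t = 0 := abs_eq_zero.1 h0.symm
      rw [this, abs_zero, Real.zero_rpow (by linarith)]; ring
    · rw [← sq_abs t, ← Real.rpow_two, ← Real.rpow_add h0]; congr 1; ring
  rcases le_total (|t|) (2 * η) with h | h
  · have : |t| ^ (q - 2) ≤ (2 * η) ^ (q - 2) := Real.rpow_le_rpow ht h (by linarith)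
    have h2 := mul_le_mul_of_nonneg_right this (sq_nonneg t)
    linarith
  · rcases le_total (|t|) K with h3 | h3
    · have : |t| ^ (q - 2) ≤ K ^ (q - 2) := Real.rpow_le_rpow ht h3 (by linarith)
      have h2 := mul_le_mul_of_nonneg_right this (sq_nonneg t)
      have h4 : t ^ 2 ≤ 4 * (w - t) ^ 2 := by
        have h5 : |t| ≤ 2 * |w - t| := by
          have := abs_sub_abs_le_abs_sub t w
          rw [abs_sub_comm] at this
          linarith
        have h6 := pow_le_pow_left₀ ht h5 2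
        rw [mul_pow, sq_abs, sq_abs] at h6
        linarith
      have h5 := mul_le_mul_of_nonneg_left h4 (by positivity : (0:ℝ) ≤ K ^ (q - 2))
      linarith
    · have ht0 : 0 < |t| := lt_of_lt_of_le hK h3
      have e2 : |t| ^ q = |t| ^ (q - r) * |t| ^ r := by
        rw [← Real.rpow_add ht0]; congr 1; ring
      have h4 : |t| ^ (q - r) ≤ K ^ (q - r) :=
        Real.rpow_le_rpow_of_nonpos hK h3 (by linarith)
      have h5 := mul_le_mul_of_nonneg_right h4 (Real.rpow_nonneg ht r)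
      linarith

lemma nonvanish {N : ℕ} (hN : 3 ≤ N) {q : ℝ} (h2q : 2 < q) (hq : q < ts N) {C δ : ℝ}
    (hC : 0 < C) (hδ : 0 < δ) : ∃ (k : EN N → ℝ) (ε η : ℝ), Ker k ε ∧ 0 < η ∧
      ∀ (u : EN N → ℝ) (g : Fin N → EN N → ℝ), H1 (bN N) u g → N2 u ≤ C → Kn g ≤ C →
        Lq (ts N) u ≤ C → δ ≤ Lq q u → ∃ x, η < |Mol k u x| := by
  obtain ⟨Cb, hCb, hrep⟩ := exists_repr_bound (bN N)
  -- K
  obtain ⟨K, hK, hK2⟩ : ∃ K : ℝ, 0 < K ∧ K ^ (q - ts N) * C ≤ δ / 4 := by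
    have h1 : Tendsto (fun K : ℝ => K ^ (-(ts N - q)) * C) atTop (𝓝 (0 * C)) :=
      (tendsto_rpow_neg_atTop (by linarith)).mul_const C
    rw [zero_mul] at h1
    obtain ⟨K, hK1, hK2⟩ := ((h1.eventually_lt_const (by positivity : (0:ℝ) < δ / 4)).and
      (eventually_gt_atTop 0)).exists
    refine ⟨K, hK2, ?_⟩
    rw [neg_sub] at hK1
    exact hK1.le
  -- ε
  obtain ⟨ε, hε, hε2⟩ : ∃ ε : ℝ, 0 < ε ∧ 4 * K ^ (q - 2) * (Cb * ε ^ 2 * C) ≤ δ / 4 := by
    have h1 : Tendsto (fun ε : ℝ => 4 * K ^ (q - 2) * (Cb * ε ^ 2 * C)) (𝓝[>] 0)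
        (𝓝 (4 * K ^ (q - 2) * (Cb * 0 ^ 2 * C))) := by
      have : Continuous fun ε : ℝ => 4 * K ^ (q - 2) * (Cb * ε ^ 2 * C) := by fun_prop
      exact (this.tendsto 0).mono_left nhdsWithin_le_nhds
    simp only [ne_eq, OfNat.ofNat_ne_zero, not_false_eq_true, zero_pow, mul_zero, zero_mul] at h1
    obtain ⟨ε, h2, h3⟩ := ((h1.eventually_lt_const (by positivity : (0:ℝ) < δ / 4)).and
      self_mem_nhdsWithin).exists
    exact ⟨ε, h3, h2.le⟩
  obtain ⟨η, hη, hη2⟩ : ∃ η : ℝ, 0 < η ∧ (2 * η) ^ (q - 2) * C ≤ δ / 4 := by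
    have h1 : Tendsto (fun η : ℝ => (2 * η) ^ (q - 2) * C) (𝓝[>] 0)
        (𝓝 ((2 * 0) ^ (q - 2) * C)) := by
      have : Continuous fun η : ℝ => (2 * η) ^ (q - 2) * C :=
        ((Real.continuous_rpow_const (by linarith : (0:ℝ) ≤ q - 2)).comp
          (continuous_const.mul continuous_id)).mul_const C
      exact (this.tendsto 0).mono_left nhdsWithin_le_nhds
    rw [mul_zero, Real.zero_rpow (by linarith), zero_mul] at h1
    obtain ⟨ε, h2, h3⟩ := ((h1.eventually_lt_const (by positivity : (0:ℝ) < δ / 4)).and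
      self_mem_nhdsWithin).exists
    exact ⟨ε, h3, h2.le⟩
  obtain ⟨k, hk⟩ := exists_ker (X := EN N) hε
  refine ⟨k, ε, η, hk, hη, fun u g H hu hg hL hd => ?_⟩
  by_contra hcon
  push Not at hcon
  have hsm : N2 (fun x => Mol k u x - u x) ≤ Cb * ε ^ 2 * C := by
    refine Mol_sub_le hk H.1 _ ?_
    intro h hh
    refine (H.trans_le h).trans ?_
    have h1 : ∑ i, (bN N).repr h i ^ 2 ≤ Cb * ε ^ 2 := by
      refine (hrep h).trans ?_
      gcongr
    exact mul_le_mul h1 hg (Kn_nonneg _) (by positivity)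
  have hi := (Sob_H1 hN H).1
  have hiq := (Lq_int hN h2q.le hq.le H).1
  have hMl : L2 (fun x => Mol k u x - u x) := (Mol_L2 hk H.1).1.sub H.1
  have h1 : Lq q u ≤ ∫ x, ((2 * η) ^ (q - 2) * u x ^ 2
      + 4 * K ^ (q - 2) * (Mol k u x - u x) ^ 2 + K ^ (q - ts N) * |u x| ^ ts N) := by
    refine integral_mono hiq (((H.1.2.const_mul _).add (hMl.2.const_mul _)).add (hi.const_mul _))
      fun x => ?_
    exact nv_pt h2q hq hη hK (hcon x)
  have e1 := integral_add (f := fun x => (2 * η) ^ (q - 2) * u x ^ 2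
      + 4 * K ^ (q - 2) * (Mol k u x - u x) ^ 2) (g := fun x => K ^ (q - ts N) * |u x| ^ ts N)
      ((H.1.2.const_mul _).add (hMl.2.const_mul _)) (hi.const_mul _)
  have e2 := integral_add (H.1.2.const_mul ((2 * η) ^ (q - 2)))
    (hMl.2.const_mul (4 * K ^ (q - 2)))
  rw [integral_const_mul] at e1
  rw [integral_const_mul, integral_const_mul] at e2
  rw [e1, e2] at h1
  have b1 : (2 * η) ^ (q - 2) * N2 u ≤ (2 * η) ^ (q - 2) * C :=
    mul_le_mul_of_nonneg_left hu (by positivity)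
  have b2 : 4 * K ^ (q - 2) * N2 (fun x => Mol k u x - u x) ≤
      4 * K ^ (q - 2) * (Cb * ε ^ 2 * C) := mul_le_mul_of_nonneg_left hsm (by positivity)
  have b3 : K ^ (q - ts N) * Lq (ts N) u ≤ K ^ (q - ts N) * C :=
    mul_le_mul_of_nonneg_left hL (by positivity)
  unfold N2 at b1 b2
  unfold Lq at b3 h1 hd
  linarith

end Pool.Agent.H158.LS
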