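import Mathlib
import Pool.Agent.H158.LS2

/-!
# One dimensional analysis of the Nehari fibres
-/

set_option autoImplicit false
set_option linter.unusedSectionVars false
set_option linter.unusedVariables false

open MeasureTheory Filter Topology Set
open scoped ContDiff ENNReal NNReal

namespace Pool.Agent.H158.LS

open Pool.Agent.Helper985.VR

lemma half_sub_pos {q : ℝ} (hq : 2 < q) : 0 < 1 / 2 - 1 / q := by
  have : 1 / q < 1 / 2 := one_div_lt_one_div_of_lt (by norm_num) hq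
  linarith

lemma young2 {q s : ℝ} (hq : 2 < q) (hs : 0 ≤ s) : s ^ 2 / 2 ≤ s ^ q / q + (1 / 2 - 1 / q) := by
  have h := one_add_mul_self_le_rpow_one_add (s := s ^ 2 - 1) (by nlinarith [sq_nonneg s])
    (p := q / 2) (by linarith)
  have e : (1 + (s ^ 2 - 1)) ^ (q / 2) = s ^ q := by
    rw [add_sub_cancel, ← Real.rpow_two, ← Real.rpow_mul hs]
    congr 1; ring
  rw [e] at h
  have hq0 : 0 < q := by linarith
  have h2 : q * (s ^ 2 / 2) ≤ q * (s ^ q / q + (1 / 2 - 1 / q)) := by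
    have e2 : q * (s ^ q / q + (1 / 2 - 1 / q)) = s ^ q + q / 2 - 1 := by
      field_simp; ring
    rw [e2]; linarith
  exact le_of_mul_le_mul_left h2 hq0

/-- the fibre map -/
noncomputable def fib (q r a b d t : ℝ) : ℝ := t ^ 2 / 2 * a - t ^ q / q * b - t ^ r / r * d

/-- on the Nehari set the fibre map is maximal at `1` -/
lemma fib_le {q r a b d s : ℝ} (hq : 2 < q) (hr : 2 < r) (hb : 0 ≤ b) (hd : 0 ≤ d)
    (h : a = b + d) (hs : 0 ≤ s) : fib q r a b d s ≤ fib q r a b d 1 := by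
  unfold fib
  rw [h, Real.one_rpow, Real.one_rpow]
  have h1 := mul_le_mul_of_nonneg_right (young2 hq hs) hb
  have h2 := mul_le_mul_of_nonneg_right (young2 hr hs) hd
  nlinarith

lemma fib_one {q r a b d : ℝ} (h : a = b + d) :
    fib q r a b d 1 = (1 / 2 - 1 / q) * b + (1 / 2 - 1 / r) * d := by
  unfold fib
  rw [h, Real.one_rpow, Real.one_rpow]
  ring

/-- projection on the Nehari set when `a ≤ b + d` -/
lemma exists_proj {q r a b d : ℝ} (hq : 2 < q) (hr : 2 < r) (ha : 0 < a) (hb : 0 ≤ b) (hd : 0 ≤ d)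
    (h : a ≤ b + d) : ∃ t : ℝ, 0 < t ∧ t ≤ 1 ∧ t ^ 2 * a = t ^ q * b + t ^ r * d := by
  -- psi t = t^(q-2) b + t^(r-2) d - a
  set ψ : ℝ → ℝ := fun t => t ^ (q - 2) * b + t ^ (r - 2) * d - a with hψ
  have hc : Continuous ψ :=
    (((Real.continuous_rpow_const (by linarith : (0:ℝ) ≤ q - 2)).mul_const b).add
      ((Real.continuous_rpow_const (by linarith : (0:ℝ) ≤ r - 2)).mul_const d)).sub continuous_const
  have h0 : ψ 0 = -a := by
    simp only [hψ]
    rw [Real.zero_rpow (by linarith), Real.zero_rpow (by linarith)]; ring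
  have h1 : 0 ≤ ψ 1 := by
    simp only [hψ]
    rw [Real.one_rpow, Real.one_rpow]; linarith
  obtain ⟨t, ht, ht2⟩ := intermediate_value_Icc (zero_le_one) hc.continuousOn
    (show (0:ℝ) ∈ Icc (ψ 0) (ψ 1) from ⟨by rw [h0]; linarith, h1⟩)
  have ht0 : 0 < t := by
    rcases eq_or_lt_of_le ht.1 with h2 | h2
    · exfalso
      rw [← h2, h0] at ht2
      linarith
    · exact h2
  refine ⟨t, ht0, ht.2, ?_⟩
  have e1 : t ^ q = t ^ 2 * t ^ (q - 2) := by
    rw [← Real.rpow_two, ← Real.rpow_add ht0]; congr 1; ring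
  have e2 : t ^ r = t ^ 2 * t ^ (r - 2) := by
    rw [← Real.rpow_two, ← Real.rpow_add ht0]; congr 1; ring
  rw [e1, e2]
  have h3 : a = t ^ (q - 2) * b + t ^ (r - 2) * d := by
    simp only [hψ] at ht2; linarith
  rw [h3]; ring

/-- projection on the Nehari set in general -/
lemma exists_proj' {q r a b d : ℝ} (hq : 2 < q) (hr : 2 < r) (ha : 0 < a) (hb : 0 ≤ b) (hd : 0 ≤ d)
    (h : 0 < b + d) : ∃ t : ℝ, 0 < t ∧ t ^ 2 * a = t ^ q * b + t ^ r * d := by
  -- choose T with a T^2 ≤ T^q b + T^r d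
  have h2 : ∃ T : ℝ, 0 < T ∧ T ^ 2 * a ≤ T ^ q * b + T ^ r * d := by
    set m := min (q - 2) (r - 2) with hm
    have hm0 : 0 < m := lt_min (by linarith) (by linarith)
    have h3 : Tendsto (fun T : ℝ => T ^ m * (b + d)) atTop atTop :=
      (tendsto_rpow_atTop hm0).atTop_mul_const h
    obtain ⟨T, hT, hT1⟩ := ((h3.eventually_ge_atTop a).and (eventually_ge_atTop (1:ℝ))).exists
    have hT0 : 0 < T := by linarith
    refine ⟨T, hT0, ?_⟩
    have e1 : T ^ q = T ^ 2 * T ^ (q - 2) := by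
      rw [← Real.rpow_two, ← Real.rpow_add hT0]; congr 1; ring
    have e2 : T ^ r = T ^ 2 * T ^ (r - 2) := by
      rw [← Real.rpow_two, ← Real.rpow_add hT0]; congr 1; ring
    have i1 : T ^ m ≤ T ^ (q - 2) := Real.rpow_le_rpow_of_exponent_le hT1 (min_le_left _ _)
    have i2 : T ^ m ≤ T ^ (r - 2) := Real.rpow_le_rpow_of_exponent_le hT1 (min_le_right _ _)
    have i3 : a ≤ T ^ (q - 2) * b + T ^ (r - 2) * d := by
      have := mul_le_mul_of_nonneg_right i1 hb
      have := mul_le_mul_of_nonneg_right i2 hd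
      nlinarith
    rw [e1, e2]
    have := mul_le_mul_of_nonneg_left i3 (sq_nonneg T)
    nlinarith
  obtain ⟨T, hT, hT2⟩ := h2
  obtain ⟨t, h1, h2, h3⟩ := exists_proj hq hr (a := T ^ 2 * a) (b := T ^ q * b) (d := T ^ r * d)
    (by positivity) (by positivity) (by positivity) hT2
  refine ⟨t * T, by positivity, ?_⟩
  rw [Real.mul_rpow h1.le hT.le, Real.mul_rpow h1.le hT.le]
  nlinarith

/-- peak of a one exponent fibre -/
lemma peak {s a b C : ℝ} (hs : 2 < s) (ha : 0 < a) (hb : 0 < b) (hC : 0 ≤ C)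
    (h : C * b ^ (2 / s) ≤ a) : ∃ T : ℝ, 0 < T ∧ T ^ (s - 2) = a / b ∧ T ^ s * b = T ^ 2 * a ∧
      C ^ (s / (s - 2)) ≤ T ^ 2 * a ∧ ∀ t, 0 ≤ t → t ≤ T → t ^ s / s * b ≤ t ^ 2 / 2 * a := by
  have hs2 : 0 < s - 2 := by linarith
  have hs0 : 0 < s := by linarith
  have hab : 0 < a / b := div_pos ha hb
  refine ⟨(a / b) ^ (1 / (s - 2)), by positivity, ?_, ?_, ?_, ?_⟩
  · rw [← Real.rpow_mul hab.le]
    have : 1 / (s - 2) * (s - 2) = 1 := by field_simp
    rw [this, Real.rpow_one]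
  · set T := (a / b) ^ (1 / (s - 2)) with hT
    have hT0 : 0 < T := by positivity
    have h1 : T ^ (s - 2) = a / b := by
      rw [hT, ← Real.rpow_mul hab.le]
      have : 1 / (s - 2) * (s - 2) = 1 := by field_simp
      rw [this, Real.rpow_one]
    have e1 : T ^ s = T ^ 2 * T ^ (s - 2) := by
      rw [← Real.rpow_two, ← Real.rpow_add hT0]; congr 1; ring
    rw [e1, h1]; field_simp
  · have h1 : C ≤ a / b ^ (2 / s) := by
      rw [le_div_iff₀ (by positivity)]; exact h
    have h2 := Real.rpow_le_rpow hC h1 (by positivity : (0:ℝ) ≤ s / (s - 2))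
    refine h2.trans (le_of_eq ?_)
    rw [Real.div_rpow ha.le (by positivity), ← Real.rpow_mul hb.le, ← Real.rpow_natCast,
      ← Real.rpow_mul hab.le, Real.div_rpow ha.le hb.le]
    have e1 : (2 / s * (s / (s - 2))) = 2 / (s - 2) := by field_simp
    have e2 : (1 / (s - 2) * ((2:ℕ):ℝ)) = 2 / (s - 2) := by push_cast; ring
    rw [e1, e2]
    have e3 : s / (s - 2) = 2 / (s - 2) + 1 := by field_simp; ring
    rw [e3, Real.rpow_add ha, Real.rpow_one]
    ring
  · intro t ht0 htT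
    set T := (a / b) ^ (1 / (s - 2)) with hT
    have h1 : T ^ (s - 2) = a / b := by
      rw [hT, ← Real.rpow_mul hab.le]
      have : 1 / (s - 2) * (s - 2) = 1 := by field_simp
      rw [this, Real.rpow_one]
    rcases eq_or_lt_of_le ht0 with h0 | h0
    · rw [← h0, Real.zero_rpow hs0.ne']; norm_num
    have e1 : t ^ s = t ^ 2 * t ^ (s - 2) := by
      rw [← Real.rpow_two, ← Real.rpow_add h0]; congr 1; ring
    have h2 : t ^ (s - 2) ≤ a / b := by
      rw [← h1]; exact Real.rpow_le_rpow ht0 htT hs2.le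
    have h3 : t ^ (s - 2) * b ≤ a := by rwa [le_div_iff₀ hb] at h2
    have h4 : t ^ s * b ≤ t ^ 2 * a := by
      rw [e1, mul_assoc]; exact mul_le_mul_of_nonneg_left h3 (sq_nonneg t)
    have h5 : 0 ≤ t ^ s * b := by positivity
    calc t ^ s / s * b = t ^ s * b / s := by ring
      _ ≤ t ^ s * b / 2 := div_le_div_of_nonneg_left h5 (by norm_num) hs.le
      _ ≤ t ^ 2 * a / 2 := by linarith
      _ = _ := by ring

/-- lower bound for the subcritical part along low energy Nehari elements -/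
lemma b_lower {q r K S : ℝ} (hq : 2 < q) (hqr : q < r) (hK : 0 < K) (hS : 0 < S) :
    ∃ δ : ℝ, 0 < δ ∧ ∀ a g b d : ℝ, 0 < a → 0 ≤ g → 0 ≤ b → 0 ≤ d → b ≤ K * a ^ (q / 2) →
      S * d ^ (2 / r) ≤ g → a + g = b + d →
      fib q r (a + g) b d 1 ≤ (1 / 2 - 1 / r) * S ^ (r / (r - 2)) → δ ≤ b := by
  have hr : 2 < r := hq.trans hqr
  have hr0 : 0 < r := by linarith
  have hq0 : 0 < q := by linarith
  set K2 := K + (1 / S) ^ (r / 2) with hK2
  have hK20 : 0 < K2 := by positivity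
  set e0 := min 1 ((1 / K2) ^ (1 / (q / 2 - 1))) with he0
  have he00 : 0 < e0 := by positivity
  set T0 : ℝ := 2 ^ (1 / (r - 2)) with hT0
  have hT00 : 0 < T0 := by positivity
  set W := T0 ^ (q - 2) with hW
  have hW0 : 0 < W := by positivity
  set a1 := ((q / 2) / (W * K)) ^ (1 / (q / 2 - 1)) with ha1
  have ha10 : 0 < a1 := by positivity
  refine ⟨min (e0 / 2) (q / 2 * a1 / W), by positivity, ?_⟩
  intro a g b d ha hg hb hd hbK hSd hE hen
  by_contra hcon
  push Not at hcon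
  have hb1 : b < e0 / 2 := hcon.trans_le (min_le_left _ _)
  have hb2 : b < q / 2 * a1 / W := hcon.trans_le (min_le_right _ _)
  set E := a + g with hEd
  have hE0 : 0 < E := by linarith
  have hq1 : 0 < q / 2 - 1 := by linarith
  -- E ≥ e0
  have hdE : d ≤ (1 / S) ^ (r / 2) * E ^ (r / 2) := by
    have h1 : d ^ (2 / r) ≤ E / S := by
      rw [le_div_iff₀ hS]; linarith
    have h3 := Real.rpow_le_rpow (Real.rpow_nonneg hd _) h1 (by positivity : (0:ℝ) ≤ r / 2)
    rw [← Real.rpow_mul hd] at h3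
    have h4 : 2 / r * (r / 2) = 1 := by field_simp
    rw [h4, Real.rpow_one] at h3
    refine h3.trans (le_of_eq ?_)
    rw [← Real.mul_rpow (by positivity) hE0.le]
    congr 1; ring
  have hEe : e0 ≤ E := by
    by_contra hlt
    push Not at hlt
    have hE1 : E ≤ 1 := (hlt.trans_le (min_le_left _ _)).le
    have hE2 : E < (1 / K2) ^ (1 / (q / 2 - 1)) := hlt.trans_le (min_le_right _ _)
    have h1 : E ^ (r / 2) ≤ E ^ (q / 2) :=
      Real.rpow_le_rpow_of_exponent_ge hE0 hE1 (by linarith)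
    have h2 : a ^ (q / 2) ≤ E ^ (q / 2) :=
      Real.rpow_le_rpow ha.le (by linarith) (by positivity)
    have h3 : E ≤ K2 * E ^ (q / 2) := by
      have i1 := mul_le_mul_of_nonneg_left h1 (by positivity : (0:ℝ) ≤ (1 / S) ^ (r / 2))
      have i2 := mul_le_mul_of_nonneg_left h2 hK.le
      rw [hK2]
      nlinarith
    have h4 : E ^ (q / 2) = E * E ^ (q / 2 - 1) := by
      nth_rewrite 2 [← Real.rpow_one E]
      rw [← Real.rpow_add hE0]; congr 1; ring
    rw [h4] at h3
    have h5 : 1 ≤ K2 * E ^ (q / 2 - 1) := by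
      have : E * 1 ≤ E * (K2 * E ^ (q / 2 - 1)) := by nlinarith
      exact le_of_mul_le_mul_left this hE0
    have h6 : E ^ (q / 2 - 1) < 1 / K2 := by
      have := Real.rpow_lt_rpow hE0.le hE2 hq1
      rw [← Real.rpow_mul (by positivity)] at this
      have e : 1 / (q / 2 - 1) * (q / 2 - 1) = 1 := one_div_mul_cancel hq1.ne'
      rwa [e, Real.rpow_one] at this
    rw [lt_div_iff₀ hK20] at h6
    linarith
  have hd1 : e0 / 2 < d := by linarith
  have hd0 : 0 < d := by linarith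
  have hg0 : 0 < g := by
    have : 0 < S * d ^ (2 / r) := by positivity
    linarith
  obtain ⟨T, hT1, hT2, hT3, hT4, -⟩ := peak hr hg0 hd0 hS.le hSd
  have hTT : T ≤ T0 := by
    have h1 : g / d ≤ 2 := by rw [div_le_iff₀ hd0]; linarith
    have h2 : T ^ (r - 2) ≤ T0 ^ (r - 2) := by
      rw [hT2, hT0, ← Real.rpow_mul (by norm_num)]
      have e : 1 / (r - 2) * (r - 2) = 1 := by
        have : r - 2 ≠ 0 := by intro h; linarith
        field_simp
      rw [e, Real.rpow_one]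
      exact h1
    exact (Real.rpow_le_rpow_iff hT1.le hT00.le (by linarith : (0:ℝ) < r - 2)).1 h2
  have h1 := fib_le hq hr hb hd hE hT1.le
  have h2 := h1.trans hen
  -- fib at T
  have e1 : T ^ q = T ^ 2 * T ^ (q - 2) := by
    rw [← Real.rpow_two, ← Real.rpow_add hT1]; congr 1; ring
  have hWT : T ^ (q - 2) ≤ W := Real.rpow_le_rpow hT1.le hTT (by linarith)
  have h3 : fib q r E b d T = (1 / 2 - 1 / r) * (T ^ 2 * g)
      + T ^ 2 * (1 / 2 * a - T ^ (q - 2) * b / q) := by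
    unfold fib
    have : T ^ r / r * d = T ^ r * d / r := by ring
    rw [this, hT3, e1, hEd]
    field_simp
    ring
  rw [h3] at h2
  have hr' := half_sub_pos hr
  have h4 := mul_le_mul_of_nonneg_left hT4 hr'.le
  have h5 : T ^ 2 * (1 / 2 * a - T ^ (q - 2) * b / q) ≤ 0 := by linarith
  have hT22 : 0 < T ^ 2 := by positivity
  have h6 : 1 / 2 * a - T ^ (q - 2) * b / q ≤ 0 := by
    by_contra hc
    push Not at hc
    have := mul_pos hT22 hc
    linarith
  have h7 : q / 2 * a ≤ W * b := by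
    have h8 : T ^ (q - 2) * b ≤ W * b := mul_le_mul_of_nonneg_right hWT hb
    have h9 : 1 / 2 * a ≤ T ^ (q - 2) * b / q := by linarith
    rw [le_div_iff₀ hq0] at h9
    nlinarith
  -- a ≥ a1
  have h8 : a1 ≤ a := by
    have i1 : q / 2 * a ≤ W * (K * a ^ (q / 2)) :=
      h7.trans (mul_le_mul_of_nonneg_left hbK hW0.le)
    have i2 : a ^ (q / 2) = a * a ^ (q / 2 - 1) := by
      nth_rewrite 2 [← Real.rpow_one a]
      rw [← Real.rpow_add ha]; congr 1; ring
    rw [i2] at i1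
    have i3 : q / 2 ≤ W * K * a ^ (q / 2 - 1) := by
      have : a * (q / 2) ≤ a * (W * K * a ^ (q / 2 - 1)) := by nlinarith
      exact le_of_mul_le_mul_left this ha
    have i4 : (q / 2) / (W * K) ≤ a ^ (q / 2 - 1) := by
      rw [div_le_iff₀ (by positivity)]; linarith
    have i5 := Real.rpow_le_rpow (by positivity) i4 (by positivity : (0:ℝ) ≤ 1 / (q / 2 - 1))
    rw [← Real.rpow_mul ha.le] at i5
    have e : (q / 2 - 1) * (1 / (q / 2 - 1)) = 1 := mul_one_div_cancel hq1.ne'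
    rwa [e, Real.rpow_one] at i5
  rw [lt_div_iff₀ hW0] at hb2
  have h9 : q / 2 * a1 ≤ q / 2 * a := mul_le_mul_of_nonneg_left h8 (by positivity)
  linarith

end Pool.Agent.H158.LS
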