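import Mathlib
import Pool.Agent.H158.LS3

/-!
# The functional, the Nehari set, coercivity
-/

set_option autoImplicit false
set_option linter.unusedSectionVars false
set_option linter.unusedVariables false

open MeasureTheory Filter Topology Set
open scoped ContDiff ENNReal NNReal

namespace Pool.Agent.H158.LS

open Pool.Agent.Helper985.VR

/-- an element `(u, v)` of `H = H¹(ℝ^N) × H¹(ℝ^N)`; `gu`, `gv` are the weak gradients -/
structure Pt (N : ℕ) where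
  u : EN N → ℝ
  gu : Fin N → EN N → ℝ
  v : EN N → ℝ
  gv : Fin N → EN N → ℝ
  hu : H1 (bN N) u gu
  hv : H1 (bN N) v gv

variable {N : ℕ}

/-- `‖u‖_μ² + ‖v‖_ν² - 2 λ ∫ u v` -/
noncomputable def Qf (μ ν lam : ℝ) (X : Pt N) : ℝ :=
  (Kn X.gu + μ * N2 X.u) + (Kn X.gv + ν * N2 X.v) - 2 * lam * ∫ x, X.u x * X.v x

/-- the energy `I(u, v)` with `q = p + 1` -/
noncomputable def En (q μ ν lam : ℝ) (X : Pt N) : ℝ :=
  1 / 2 * (Kn X.gu + μ * N2 X.u) + 1 / 2 * (Kn X.gv + ν * N2 X.v)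
    - 1 / q * Lq q X.u - 1 / ts N * Lq (ts N) X.v - lam * ∫ x, X.u x * X.v x

/-- `(u, v) ≠ (0, 0)` -/
def NZ (X : Pt N) : Prop := ¬ (X.u =ᵐ[volume] 0 ∧ X.v =ᵐ[volume] 0)

/-- the Nehari set `M = {(u,v) ≠ 0 : I'(u,v)(u,v) = 0}` -/
def Neh (N : ℕ) (q μ ν lam : ℝ) : Set (Pt N) :=
  {X | NZ X ∧ Qf μ ν lam X = Lq q X.u + Lq (ts N) X.v}

/-- `m = inf_M I` -/
noncomputable def mm (N : ℕ) (q μ ν lam : ℝ) : ℝ := sInf (En q μ ν lam '' Neh N q μ ν lam)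

/-- `(1/N) S^{N/2}` -/
noncomputable def cst (N : ℕ) : ℝ := 1 / N * Sob N ^ ((N:ℝ) / 2)

lemma cst_eq (hN : 3 ≤ N) : cst N = (1 / 2 - 1 / ts N) * Sob N ^ (ts N / (ts N - 2)) := by
  have h : (3:ℝ) ≤ N := by exact_mod_cast hN
  have h0 : (N:ℝ) - 2 ≠ 0 := by intro h; linarith
  have h00 : (N:ℝ) ≠ 0 := by intro h; linarith
  unfold cst ts
  congr 1
  · field_simp; ring
  · congr 1
    have : (2 * (N:ℝ) / (N - 2) - 2) = 4 / (N - 2) := by field_simp; ring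
    rw [this]; field_simp; ring

lemma En_eq_fib (q μ ν lam : ℝ) (X : Pt N) :
    En q μ ν lam X = fib q (ts N) (Qf μ ν lam X) (Lq q X.u) (Lq (ts N) X.v) 1 := by
  unfold En fib Qf
  rw [Real.one_rpow, Real.one_rpow]; ring

/-- scaling -/
def Pt.sm (X : Pt N) (t : ℝ) : Pt N where
  u := fun x => t * X.u x
  gu := fun i x => t * X.gu i x
  v := fun x => t * X.v x
  gv := fun i x => t * X.gv i x
  hu := X.hu.const_mul t
  hv := X.hv.const_mul t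

/-- translation -/
def Pt.tr (X : Pt N) (a : EN N) : Pt N where
  u := fun x => X.u (x + a)
  gu := fun i x => X.gu i (x + a)
  v := fun x => X.v (x + a)
  gv := fun i x => X.gv i (x + a)
  hu := H1_translate X.hu a
  hv := H1_translate X.hv a

/-- difference -/
def Pt.sb (X Y : Pt N) : Pt N where
  u := fun x => X.u x - Y.u x
  gu := fun i x => X.gu i x - Y.gu i x
  v := fun x => X.v x - Y.v x
  gv := fun i x => X.gv i x - Y.gv i x
  hu := X.hu.sub Y.hu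
  hv := X.hv.sub Y.hv

/-- `X + s Y` -/
def Pt.lc (X Y : Pt N) (s : ℝ) : Pt N where
  u := fun x => X.u x + s * Y.u x
  gu := fun i x => X.gu i x + s * Y.gu i x
  v := fun x => X.v x + s * Y.v x
  gv := fun i x => X.gv i x + s * Y.gv i x
  hu := X.hu.add (Y.hu.const_mul s)
  hv := X.hv.add (Y.hv.const_mul s)

/-- the bilinear form -/
noncomputable def Bf (μ ν lam : ℝ) (X Y : Pt N) : ℝ :=
  (Kb X.gu Y.gu + μ * ∫ x, X.u x * Y.u x) + (Kb X.gv Y.gv + ν * ∫ x, X.v x * Y.v x)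
    - lam * ((∫ x, X.u x * Y.v x) + ∫ x, Y.u x * X.v x)

lemma Qf_sm (μ ν lam : ℝ) (X : Pt N) (t : ℝ) : Qf μ ν lam (X.sm t) = t ^ 2 * Qf μ ν lam X := by
  unfold Qf Pt.sm
  simp only
  rw [Kn_const_mul, Kn_const_mul, N2_const_mul, N2_const_mul]
  have : (∫ x, t * X.u x * (t * X.v x)) = t ^ 2 * ∫ x, X.u x * X.v x := by
    rw [← integral_const_mul]; congr 1; ext x; ring
  rw [this]; ring

lemma En_sm (q μ ν lam : ℝ) (X : Pt N) {t : ℝ} (ht : 0 ≤ t) :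
    En q μ ν lam (X.sm t) = fib q (ts N) (Qf μ ν lam X) (Lq q X.u) (Lq (ts N) X.v) t := by
  rw [En_eq_fib, Qf_sm]
  unfold fib
  have e1 : Lq q (X.sm t).u = t ^ q * Lq q X.u := by
    unfold Pt.sm; simp only; rw [Lq_const_mul, abs_of_nonneg ht]
  have e2 : Lq (ts N) (X.sm t).v = t ^ ts N * Lq (ts N) X.v := by
    unfold Pt.sm; simp only; rw [Lq_const_mul, abs_of_nonneg ht]
  rw [e1, e2, Real.one_rpow, Real.one_rpow]; ring

lemma Qf_tr (μ ν lam : ℝ) (X : Pt N) (a : EN N) : Qf μ ν lam (X.tr a) = Qf μ ν lam X := by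
  unfold Qf Pt.tr
  simp only
  rw [Kn_translate, Kn_translate, N2_translate, N2_translate]
  rw [integral_add_right_eq_self (μ := (volume : Measure (EN N))) (fun x => X.u x * X.v x) a]

lemma Lq_tr_u (q : ℝ) (X : Pt N) (a : EN N) : Lq q (X.tr a).u = Lq q X.u := Lq_translate q X.u a
lemma Lq_tr_v (q : ℝ) (X : Pt N) (a : EN N) : Lq q (X.tr a).v = Lq q X.v := Lq_translate q X.v a

lemma int4 {a b c d : EN N → ℝ} (ha : Integrable a) (hb : Integrable b) (hc : Integrable c)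
    (hd : Integrable d) : (∫ x, (a x - b x - c x + d x)) = (∫ x, a x) - (∫ x, b x) - (∫ x, c x)
      + ∫ x, d x := by
  have e1 := integral_add (f := fun x => a x - b x - c x) (g := d) ((ha.sub hb).sub hc) hd
  have e2 := integral_sub (f := fun x => a x - b x) (g := c) (ha.sub hb) hc
  rw [e1, e2, integral_sub ha hb]

lemma Qf_sb (μ ν lam : ℝ) (X Y : Pt N) :
    Qf μ ν lam (X.sb Y) = Qf μ ν lam X - 2 * Bf μ ν lam X Y + Qf μ ν lam Y := by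
  unfold Qf Bf Pt.sb
  simp only
  rw [Kn_sub X.hu.2.1 Y.hu.2.1, Kn_sub X.hv.2.1 Y.hv.2.1, N2_sub X.hu.1 Y.hu.1,
    N2_sub X.hv.1 Y.hv.1]
  have e : (∫ x, (X.u x - Y.u x) * (X.v x - Y.v x)) = (∫ x, X.u x * X.v x) - (∫ x, X.u x * Y.v x)
      - (∫ x, Y.u x * X.v x) + ∫ x, Y.u x * Y.v x := by
    have i1 := X.hu.1.mul X.hv.1
    have i2 := X.hu.1.mul Y.hv.1
    have i3 := Y.hu.1.mul X.hv.1
    have i4 := Y.hu.1.mul Y.hv.1
    rw [← int4 i1 i2 i3 i4]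
    congr 1; ext x
    ring
  rw [e]; ring

lemma Bf_smul (μ ν lam : ℝ) (X Y : Pt N) (s : ℝ) :
    Bf μ ν lam X (Y.sm s) = s * Bf μ ν lam X Y := by
  unfold Bf Kb Pt.sm
  simp only
  have e1 : ∀ f g : EN N → ℝ, (∫ x, f x * (s * g x)) = s * ∫ x, f x * g x := fun f g => by
    rw [← integral_const_mul]; congr 1; ext x; ring
  have e2 : ∀ f g : EN N → ℝ, (∫ x, s * f x * g x) = s * ∫ x, f x * g x := fun f g => by
    rw [← integral_const_mul]; congr 1; ext x; ring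
  simp only [e1, e2, ← Finset.mul_sum]
  ring

lemma Qf_lc (μ ν lam : ℝ) (X Y : Pt N) (s : ℝ) :
    Qf μ ν lam (X.lc Y s) = Qf μ ν lam X + 2 * s * Bf μ ν lam X Y + s ^ 2 * Qf μ ν lam Y := by
  have h := Qf_sb μ ν lam X (Y.sm (-s))
  rw [Bf_smul, Qf_sm] at h
  have e : X.lc Y s = X.sb (Y.sm (-s)) := by
    unfold Pt.lc Pt.sb Pt.sm
    congr 1
    · ext x; simp
    · ext i x; simp
    · ext x; simp
    · ext i x; simp
  rw [e, h]; ring

/-! ### coercivity -/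

lemma quad_int {A B c : ℝ} (hA : 0 ≤ A) (hB : 0 ≤ B) (h : c ^ 2 ≤ A * B) {u v : EN N → ℝ}
    (hu : L2 u) (hv : L2 v) : 2 * c * (∫ x, u x * v x) ≤ A * N2 u + B * N2 v := by
  have h1 := cs_sq hu hv
  have x0 := N2_nonneg u
  have y0 := N2_nonneg v
  set I := ∫ x, u x * v x
  set x := N2 u
  set y := N2 v
  have h2 : (2 * c * I) ^ 2 ≤ (A * x + B * y) ^ 2 := by
    have i1 : c ^ 2 * I ^ 2 ≤ (A * B) * (x * y) :=
      mul_le_mul h h1 (sq_nonneg _) (mul_nonneg hA hB)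
    nlinarith [sq_nonneg (A * x - B * y)]
  exact (abs_le_of_sq_le_sq' h2 (by positivity)).2

/-- the coercivity constant -/
noncomputable def kap (μ ν lb : ℝ) : ℝ := min 1 ((μ * ν - lb ^ 2) / (μ + ν))

lemma kap_pos {μ ν lb : ℝ} (hμ : 0 < μ) (hν : 0 < ν) (h : lb ^ 2 < μ * ν) : 0 < kap μ ν lb :=
  lt_min one_pos (div_pos (by linarith) (by linarith))

lemma kap_le (μ ν lb : ℝ) : kap μ ν lb ≤ 1 := min_le_left _ _

lemma coer {μ ν lam lb : ℝ} (hμ : 0 < μ) (hν : 0 < ν) (hlam : 0 < lam) (hll : lam ≤ lb)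
    (h : lb ^ 2 < μ * ν) (X : Pt N) :
    kap μ ν lb * (Kn X.gu + N2 X.u + N2 X.v) + Kn X.gv ≤ Qf μ ν lam X := by
  set κ := (μ * ν - lb ^ 2) / (μ + ν) with hκ
  have hs : 0 < μ + ν := by linarith
  have hκ0 : 0 < κ := div_pos (by linarith) hs
  have hκs : κ * (μ + ν) = μ * ν - lb ^ 2 := by rw [hκ]; field_simp
  have h1 : κ < μ := by
    rw [hκ, div_lt_iff₀ hs]; nlinarith [sq_nonneg lb, sq_nonneg μ, mul_pos hμ hμ]
  have h2 : κ < ν := by
    rw [hκ, div_lt_iff₀ hs]; nlinarith [sq_nonneg lb, mul_pos hν hν]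
  have h3 : lam ^ 2 ≤ (μ - κ) * (ν - κ) := by nlinarith
  have h4 := quad_int (by linarith : (0:ℝ) ≤ μ - κ) (by linarith : (0:ℝ) ≤ ν - κ) h3 X.hu.1 X.hv.1
  have hk1 : kap μ ν lb ≤ 1 := min_le_left _ _
  have hk2 : kap μ ν lb ≤ κ := min_le_right _ _
  have a1 := mul_le_mul_of_nonneg_right hk1 (Kn_nonneg X.gu)
  have a2 := mul_le_mul_of_nonneg_right hk2 (N2_nonneg X.u)
  have a3 := mul_le_mul_of_nonneg_right hk2 (N2_nonneg X.v)
  unfold Qf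
  nlinarith

lemma NZ_iff (X : Pt N) : NZ X ↔ 0 < N2 X.u + N2 X.v := by
  have x0 := N2_nonneg X.u
  have y0 := N2_nonneg X.v
  constructor
  · intro h
    by_contra hc
    push Not at hc
    exact h ⟨N2_eq_zero X.hu.1 (by linarith), N2_eq_zero X.hv.1 (by linarith)⟩
  · rintro h ⟨h1, h2⟩
    have e1 : N2 X.u = 0 := by
      rw [N2_congr h1]; unfold N2; simp
    have e2 : N2 X.v = 0 := by
      rw [N2_congr h2]; unfold N2; simp
    rw [e1, e2] at h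
    simp at h

section par

variable {q μ ν lam lb : ℝ}

lemma Qf_pos (hμ : 0 < μ) (hν : 0 < ν) (hlam : 0 < lam) (hll : lam ≤ lb) (h : lb ^ 2 < μ * ν)
    {X : Pt N} (hX : NZ X) : 0 < Qf μ ν lam X := by
  have h1 := coer hμ hν hlam hll h X
  have h2 := (NZ_iff X).1 hX
  have h3 := kap_pos hμ hν h
  have h4 := Kn_nonneg X.gu
  have h5 := Kn_nonneg X.gv
  have h6 : 0 < kap μ ν lb * (Kn X.gu + N2 X.u + N2 X.v) := mul_pos h3 (by linarith)
  linarith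

lemma bd_pos (hN : 3 ≤ N) (hq : 2 < q) (hqr : q < ts N) {X : Pt N} (hX : NZ X) :
    0 < Lq q X.u + Lq (ts N) X.v := by
  have b0 := Lq_nonneg q X.u
  have d0 := Lq_nonneg (ts N) X.v
  by_cases h : X.u =ᵐ[volume] 0
  · have h2 : ¬ X.v =ᵐ[volume] 0 := fun h3 => hX ⟨h, h3⟩
    have := Lq_pos_of_ne (ts_pos hN) (Sob_H1 hN X.hv).1 h2
    linarith
  · have := Lq_pos_of_ne (by linarith : 0 < q) (Lq_int hN hq.le hqr.le X.hu).1 h
    linarith

lemma sm_mem {t : ℝ} (ht : 0 < t) {X : Pt N} (hX : NZ X)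
    (h : t ^ 2 * Qf μ ν lam X = t ^ q * Lq q X.u + t ^ ts N * Lq (ts N) X.v) :
    X.sm t ∈ Neh N q μ ν lam := by
  refine ⟨?_, ?_⟩
  · rw [NZ_iff] at hX ⊢
    unfold Pt.sm
    simp only
    rw [N2_const_mul, N2_const_mul, ← mul_add]
    positivity
  · rw [Qf_sm, h]
    unfold Pt.sm
    simp only
    rw [Lq_const_mul, Lq_const_mul, abs_of_pos ht]

lemma En_Neh {X : Pt N} (hX : X ∈ Neh N q μ ν lam) :
    En q μ ν lam X = (1 / 2 - 1 / q) * Lq q X.u + (1 / 2 - 1 / ts N) * Lq (ts N) X.v := by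
  rw [En_eq_fib, fib_one hX.2]

lemma En_nonneg (hN : 3 ≤ N) (hq : 2 < q) {X : Pt N} (hX : X ∈ Neh N q μ ν lam) :
    0 ≤ En q μ ν lam X := by
  rw [En_Neh hX]
  have h1 := half_sub_pos hq
  have h2 := half_sub_pos (ts_gt hN)
  have b0 := Lq_nonneg q X.u
  have d0 := Lq_nonneg (ts N) X.v
  positivity

lemma mm_le (hN : 3 ≤ N) (hq : 2 < q) {X : Pt N} (hX : X ∈ Neh N q μ ν lam) :
    mm N q μ ν lam ≤ En q μ ν lam X := by
  refine csInf_le ⟨0, ?_⟩ ⟨X, hX, rfl⟩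
  rintro r ⟨Y, hY, rfl⟩
  exact En_nonneg hN hq hY

/-- every nonzero element projects onto the Nehari set -/
lemma exists_sm (hN : 3 ≤ N) (hq : 2 < q) (hqr : q < ts N) (hμ : 0 < μ) (hν : 0 < ν)
    (hlam : 0 < lam) (hl : lam ^ 2 < μ * ν) {X : Pt N} (hX : NZ X) :
    ∃ t : ℝ, 0 < t ∧ t ^ 2 * Qf μ ν lam X = t ^ q * Lq q X.u + t ^ ts N * Lq (ts N) X.v ∧
      X.sm t ∈ Neh N q μ ν lam := by
  obtain ⟨t, h1, h2⟩ := exists_proj' hq (ts_gt hN) (Qf_pos hμ hν hlam le_rfl hl hX)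
    (Lq_nonneg q X.u) (Lq_nonneg (ts N) X.v) (bd_pos hN hq hqr hX)
  exact ⟨t, h1, h2, sm_mem h1 hX h2⟩

lemma exists_sm_le (hN : 3 ≤ N) (hq : 2 < q) (hqr : q < ts N) (hμ : 0 < μ) (hν : 0 < ν)
    (hlam : 0 < lam) (hl : lam ^ 2 < μ * ν) {X : Pt N} (hX : NZ X)
    (hle : Qf μ ν lam X ≤ Lq q X.u + Lq (ts N) X.v) :
    ∃ t : ℝ, 0 < t ∧ t ≤ 1 ∧ X.sm t ∈ Neh N q μ ν lam ∧ En q μ ν lam (X.sm t) ≤
      (1 / 2 - 1 / q) * Lq q X.u + (1 / 2 - 1 / ts N) * Lq (ts N) X.v := by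
  obtain ⟨t, h1, h11, h2⟩ := exists_proj hq (ts_gt hN) (Qf_pos hμ hν hlam le_rfl hl hX)
    (Lq_nonneg q X.u) (Lq_nonneg (ts N) X.v) hle
  have hm := sm_mem h1 hX h2
  refine ⟨t, h1, h11, hm, ?_⟩
  rw [En_Neh hm]
  have e1 : Lq q (X.sm t).u = t ^ q * Lq q X.u := by
    unfold Pt.sm; simp only; rw [Lq_const_mul, abs_of_pos h1]
  have e2 : Lq (ts N) (X.sm t).v = t ^ ts N * Lq (ts N) X.v := by
    unfold Pt.sm; simp only; rw [Lq_const_mul, abs_of_pos h1]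
  rw [e1, e2]
  have b0 := Lq_nonneg q X.u
  have d0 := Lq_nonneg (ts N) X.v
  have i1 : t ^ q ≤ 1 := Real.rpow_le_one h1.le h11 (by linarith)
  have i2 : t ^ ts N ≤ 1 := Real.rpow_le_one h1.le h11 (ts_pos hN).le
  have j1 := mul_le_mul_of_nonneg_right i1 b0
  have j2 := mul_le_mul_of_nonneg_right i2 d0
  have := mul_le_mul_of_nonneg_left j1 (half_sub_pos hq).le
  have := mul_le_mul_of_nonneg_left j2 (half_sub_pos (ts_gt hN)).le
  linarith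

/-- lower bound of `∫|u|^q` along low energy Nehari elements -/
lemma u_lower (hN : 3 ≤ N) (hq : 2 < q) (hqr : q < ts N) (hμ : 0 < μ) (hν : 0 < ν)
    (hlb : lb ^ 2 < μ * ν) : ∃ δ : ℝ, 0 < δ ∧ ∀ (l : ℝ) (X : Pt N), 0 < l → l ≤ lb →
      X ∈ Neh N q μ ν l → En q μ ν l X ≤ cst N → δ ≤ Lq q X.u := by
  obtain ⟨K, hK, hKq⟩ := Lq_le (N := N) hN hq.le hqr.le
  have hκ := kap_pos hμ hν hlb
  obtain ⟨δ, hδ, h⟩ := b_lower (q := q) (r := ts N) (K := K * (1 / kap μ ν lb) ^ (q / 2))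
    (S := Sob N) hq hqr (by positivity) (Sob_pos hN)
  refine ⟨δ, hδ, fun l X hl hll hX hE => ?_⟩
  have hc := coer hμ hν hl hll hlb X
  have hnz := (NZ_iff X).1 hX.1
  have hgu := Kn_nonneg X.gu
  have hgv := Kn_nonneg X.gv
  have hnu := N2_nonneg X.u
  have hnv := N2_nonneg X.v
  have ha : kap μ ν lb * (Kn X.gu + N2 X.u + N2 X.v) ≤ Qf μ ν l X - Kn X.gv := by linarith
  have ha0 : 0 < Qf μ ν l X - Kn X.gv :=
    lt_of_lt_of_le (mul_pos hκ (by linarith)) ha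
  refine h (Qf μ ν l X - Kn X.gv) (Kn X.gv) (Lq q X.u) (Lq (ts N) X.v) ha0 hgv (Lq_nonneg _ _)
    (Lq_nonneg _ _) ?_ (Sob_H1 hN X.hv).2 (by rw [sub_add_cancel]; exact hX.2) ?_
  · refine (hKq X.u X.gu X.hu).trans ?_
    rw [mul_assoc]
    refine mul_le_mul_of_nonneg_left ?_ hK.le
    rw [← Real.mul_rpow (by positivity) ha0.le]
    refine Real.rpow_le_rpow (by positivity) ?_ (by linarith)
    rw [div_mul_eq_mul_div, one_mul, le_div_iff₀ hκ]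
    nlinarith
  · rw [sub_add_cancel, ← En_eq_fib, ← cst_eq hN]
    exact hE

/-- boundedness -/
lemma bound (hN : 3 ≤ N) (hq : 2 < q) (hqr : q < ts N) (hμ : 0 < μ) (hν : 0 < ν)
    (hlb : lb ^ 2 < μ * ν) : ∃ C : ℝ, 0 < C ∧ ∀ (l : ℝ) (X : Pt N), 0 < l → l ≤ lb →
      X ∈ Neh N q μ ν l → En q μ ν l X ≤ cst N → Kn X.gu ≤ C ∧ N2 X.u ≤ C ∧ Kn X.gv ≤ C ∧
        N2 X.v ≤ C ∧ Lq q X.u ≤ C ∧ Lq (ts N) X.u ≤ C ∧ Lq (ts N) X.v ≤ C := by
  have hκ := kap_pos hμ hν hlb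
  have hκ1 := kap_le μ ν lb
  have hS := Sob_pos hN
  have h1 := half_sub_pos hq
  have h2 := half_sub_pos (ts_gt hN)
  have hts := ts_pos hN
  have hc0 : 0 ≤ cst N := by rw [cst_eq hN]; positivity
  set B := cst N / (1 / 2 - 1 / q) + cst N / (1 / 2 - 1 / ts N) with hB
  have hB0 : 0 ≤ B := by positivity
  set B2 := B / kap μ ν lb with hB2
  have hB20 : 0 ≤ B2 := by positivity
  have hBB : B ≤ B2 := by
    rw [hB2, le_div_iff₀ hκ]; nlinarith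
  refine ⟨1 + B2 + (B2 / Sob N) ^ (ts N / 2), by positivity, fun l X hl hll hX hE => ?_⟩
  have hp : 0 ≤ (B2 / Sob N) ^ (ts N / 2) := by positivity
  have b0 := Lq_nonneg q X.u
  have d0 := Lq_nonneg (ts N) X.v
  rw [En_Neh hX] at hE
  have hb : Lq q X.u ≤ cst N / (1 / 2 - 1 / q) := by
    rw [le_div_iff₀ h1]
    have := mul_nonneg h2.le d0
    linarith
  have hd : Lq (ts N) X.v ≤ cst N / (1 / 2 - 1 / ts N) := by
    rw [le_div_iff₀ h2]
    have := mul_nonneg h1.le b0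
    linarith
  have hQ : Qf μ ν l X ≤ B := by rw [hX.2]; linarith
  have hc := coer hμ hν hl hll hlb X
  have hgu := Kn_nonneg X.gu
  have hgv := Kn_nonneg X.gv
  have hnu := N2_nonneg X.u
  have hnv := N2_nonneg X.v
  have hsum : Kn X.gu + N2 X.u + N2 X.v + Kn X.gv ≤ B2 := by
    rw [hB2, le_div_iff₀ hκ]
    nlinarith [mul_le_mul_of_nonneg_right hκ1 hgv]
  have hq0 : 0 ≤ cst N / (1 / 2 - 1 / q) := by positivity
  have hr0 : 0 ≤ cst N / (1 / 2 - 1 / ts N) := by positivity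
  refine ⟨by linarith, by linarith, by linarith, by linarith, by linarith, ?_, by linarith⟩
  have h3 := (Sob_H1 hN X.hu).2
  have h4 : (Lq (ts N) X.u) ^ (2 / ts N) ≤ B2 / Sob N := by
    rw [le_div_iff₀ hS]; linarith
  have h5 := Real.rpow_le_rpow (Real.rpow_nonneg (Lq_nonneg _ _) _) h4
    (by positivity : (0:ℝ) ≤ ts N / 2)
  rw [← Real.rpow_mul (Lq_nonneg _ _)] at h5
  have h6 : 2 / ts N * (ts N / 2) = 1 := by field_simp
  rw [h6, Real.rpow_one] at h5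
  linarith

end par

end Pool.Agent.H158.LS
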