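import Mathlib
import Pool.Agent.H158.LS4

/-!
# Compactness: low energy Nehari sequences produce minimisers
-/

set_option autoImplicit false
set_option linter.unusedSectionVars false
set_option linter.unusedVariables false

open MeasureTheory Filter Topology Set
open scoped ContDiff ENNReal NNReal

namespace Pool.Agent.H158.LS

open Pool.Agent.Helper985.VR

variable {N : ℕ}

lemma ae_of_WCv {u : ℕ → EN N → ℝ} {g : ℕ → Fin N → EN N → ℝ} {F : EN N → ℝ}
    {G : Fin N → EN N → ℝ} (h : WCv (bN N) u g F G) (hk : ∀ k, H1 (bN N) (u k) (g k)) (C : ℝ)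
    (hf : ∀ k, N2 (u k) ≤ C) (hg : ∀ k, Kn (g k) ≤ C) :
    ∃ σ : ℕ → ℕ, StrictMono σ ∧ ∀ᵐ x, Tendsto (fun k => u (σ k) x) atTop (𝓝 (F x)) := by
  set om : EN N → ℝ := fun x => 1 / (1 + ‖x‖) with hom
  have homm : Measurable om := by
    have : Continuous om := by
      refine continuous_const.div (continuous_const.add continuous_norm) fun x => ?_
      have := norm_nonneg x
      positivity
    exact this.measurable
  have hom0 : ∀ x, 0 < om x := fun x => by have := norm_nonneg x; simp only [hom]; positivity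
  have hom1 : ∀ x, |om x| ≤ 1 := fun x => by
    have := norm_nonneg x
    rw [abs_of_pos (hom0 x)]
    simp only [hom]
    rw [div_le_one (by positivity)]; linarith
  set C' := max C (N2 F) with hC'
  have hC0 : 0 ≤ C' := (N2_nonneg F).trans (le_max_right _ _)
  have hd : ∀ k, L2 (fun x => u k x - F x) := fun k => (hk k).1.sub h.1.1
  have hdn : ∀ k, N2 (fun x => u k x - F x) ≤ 4 * C' := fun k => by
    have h1 := N2_sub_le (hk k).1 h.1.1
    have h2 := (hf k).trans (le_max_left C (N2 F))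
    have h3 := le_max_right C (N2 F)
    linarith
  have hlim : Tendsto (fun k => N2 (fun x => om x * u k x - om x * F x)) atTop (𝓝 0) := by
    rw [Metric.tendsto_atTop]
    intro ε hε
    obtain ⟨R, hR0, hR⟩ : ∃ R : ℝ, 0 < R ∧ (1 / (1 + R)) ^ 2 * (4 * C') < ε / 2 := by
      have h1 : Tendsto (fun R : ℝ => (1 / (1 + R)) ^ 2 * (4 * C')) atTop (𝓝 (0 ^ 2 * (4 * C'))) := by
        have h2 : Tendsto (fun R : ℝ => 1 / (1 + R)) atTop (𝓝 0) := by
          have h3 : Tendsto (fun R : ℝ => 1 + R) atTop atTop := tendsto_atTop_add_const_left _ _ tendsto_id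
          exact tendsto_const_nhds.div_atTop h3
        exact (h2.pow 2).mul_const _
      rw [zero_pow (by norm_num), zero_mul] at h1
      obtain ⟨R, h2, h3⟩ := ((h1.eventually_lt_const (by positivity : (0:ℝ) < ε / 2)).and
        (eventually_gt_atTop 0)).exists
      exact ⟨R, h3, h2⟩
    have hre := h.rellich hk C hf hg (B := Metric.closedBall (0 : EN N) R)
      Metric.isClosed_closedBall.measurableSet measure_closedBall_lt_top.ne
    rw [Metric.tendsto_atTop] at hre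
    obtain ⟨n0, hn0⟩ := hre (ε / 2) (by positivity)
    refine ⟨n0, fun n hn => ?_⟩
    have h1 := hn0 n hn
    rw [Real.dist_eq, sub_zero, abs_of_nonneg (integral_nonneg fun x => sq_nonneg _)] at h1
    rw [Real.dist_eq, sub_zero, abs_of_nonneg (N2_nonneg _)]
    have hBm : MeasurableSet (Metric.closedBall (0 : EN N) R) :=
      Metric.isClosed_closedBall.measurableSet
    have h2 : N2 (fun x => om x * u n x - om x * F x) ≤
        ∫ x, ((Metric.closedBall (0 : EN N) R).indicator (fun x => (u n x - F x) ^ 2) x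
          + (1 / (1 + R)) ^ 2 * (u n x - F x) ^ 2) := by
      refine integral_mono_of_nonneg (Eventually.of_forall fun x => sq_nonneg _)
        (((hd n).2.indicator hBm).add ((hd n).2.const_mul _)) (Eventually.of_forall fun x => ?_)
      simp only
      have e : (om x * u n x - om x * F x) ^ 2 = om x ^ 2 * (u n x - F x) ^ 2 := by ring
      rw [e]
      have hs := sq_nonneg (u n x - F x)
      by_cases hx : x ∈ Metric.closedBall (0 : EN N) R
      · rw [indicator_of_mem hx]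
        have h3 : om x ^ 2 ≤ 1 := by
          have := hom1 x
          rw [← sq_abs]; exact pow_le_one₀ (abs_nonneg _) this
        have h4 : 0 ≤ (1 / (1 + R)) ^ 2 * (u n x - F x) ^ 2 := by positivity
        nlinarith
      · rw [indicator_of_notMem hx, zero_add]
        refine mul_le_mul_of_nonneg_right ?_ hs
        rw [mem_closedBall_zero_iff] at hx
        push Not at hx
        refine pow_le_pow_left₀ (hom0 x).le ?_ 2
        simp only [hom]
        exact one_div_le_one_div_of_le (by linarith) (by linarith)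
    rw [integral_add ((hd n).2.indicator hBm) ((hd n).2.const_mul _), integral_indicator hBm,
      integral_const_mul] at h2
    have h3 : (1 / (1 + R)) ^ 2 * N2 (fun x => u n x - F x) ≤ (1 / (1 + R)) ^ 2 * (4 * C') :=
      mul_le_mul_of_nonneg_left (hdn n) (by positivity)
    unfold N2 at h3 h2 ⊢
    linarith
  obtain ⟨σ, hσ, hae⟩ := exists_ae_subseq (u := fun k x => om x * u k x) (f := fun x => om x * F x)
    (fun k => (hk k).1.bdd_mul homm 1 hom1) (h.1.1.bdd_mul homm 1 hom1) hlim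
  refine ⟨σ, hσ, ?_⟩
  filter_upwards [hae] with x hx
  have h1 := hx.const_mul (om x)⁻¹
  have e : ∀ t, (om x)⁻¹ * (om x * t) = t := fun t => by
    rw [← mul_assoc, inv_mul_cancel₀ (hom0 x).ne', one_mul]
  simpa only [e] using h1

lemma exists_limit (X : ℕ → Pt N) (C : ℝ) (h1 : ∀ n, Kn (X n).gu ≤ C) (h2 : ∀ n, N2 (X n).u ≤ C)
    (h3 : ∀ n, Kn (X n).gv ≤ C) (h4 : ∀ n, N2 (X n).v ≤ C) :
    ∃ σ : ℕ → ℕ, StrictMono σ ∧ ∃ W : Pt N,
      WCv (bN N) (fun n => (X (σ n)).u) (fun n => (X (σ n)).gu) W.u W.gu ∧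
      WCv (bN N) (fun n => (X (σ n)).v) (fun n => (X (σ n)).gv) W.v W.gv ∧
      (∀ᵐ x, Tendsto (fun n => (X (σ n)).u x) atTop (𝓝 (W.u x))) ∧
      (∀ᵐ x, Tendsto (fun n => (X (σ n)).v x) atTop (𝓝 (W.v x))) := by
  obtain ⟨σ1, hσ1, U, GU, w1⟩ := H1.weak_subseq (b := (bN N : _ → EN N))
    (f := fun n => (X n).u) (g := fun n => (X n).gu) (fun n => (X n).hu) C h2 h1
  obtain ⟨σ2, hσ2, V, GV, w2⟩ := H1.weak_subseq (b := (bN N : _ → EN N))
    (f := fun n => (X (σ1 n)).v) (g := fun n => (X (σ1 n)).gv) (fun n => (X _).hv) C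
    (fun n => h4 _) (fun n => h3 _)
  have w1' := w1.subseq hσ2
  obtain ⟨σ3, hσ3, a1⟩ := ae_of_WCv w1' (fun n => (X _).hu) C (fun n => h2 _) (fun n => h1 _)
  have w1'' := w1'.subseq hσ3
  have w2'' := w2.subseq hσ3
  obtain ⟨σ4, hσ4, a2⟩ := ae_of_WCv w2'' (fun n => (X _).hv) C (fun n => h4 _) (fun n => h3 _)
  refine ⟨fun n => σ1 (σ2 (σ3 (σ4 n))), hσ1.comp (hσ2.comp (hσ3.comp hσ4)),
    ⟨U, GU, V, GV, w1.1, w2.1⟩, w1''.subseq hσ4, w2''.subseq hσ4, ?_, a2⟩
  filter_upwards [a1] with x hx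
  exact hx.comp hσ4.tendsto_atTop

lemma Kb_self' {N : ℕ} (g : Fin N → EN N → ℝ) : Kb g g = Kn g := by
  unfold Kb Kn
  refine Finset.sum_congr rfl fun i _ => ?_
  unfold N2; congr 1; ext x; ring

lemma Bf_self (μ ν lam : ℝ) (X : Pt N) : Bf μ ν lam X X = Qf μ ν lam X := by
  unfold Bf Qf
  rw [Kb_self', Kb_self']
  have e : ∀ f : EN N → ℝ, (∫ x, f x * f x) = N2 f := fun f => by
    unfold N2; congr 1; ext x; ring
  rw [e, e]; ring

lemma Bf_tendsto {μ ν lam : ℝ} {Z : ℕ → Pt N} {W : Pt N}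
    (w1 : WCv (bN N) (fun n => (Z n).u) (fun n => (Z n).gu) W.u W.gu)
    (w2 : WCv (bN N) (fun n => (Z n).v) (fun n => (Z n).gv) W.v W.gv) :
    Tendsto (fun n => Bf μ ν lam (Z n) W) atTop (𝓝 (Qf μ ν lam W)) := by
  rw [← Bf_self]
  unfold Bf Kb
  have c : ∀ n, (∫ x, W.u x * (Z n).v x) = ∫ x, (Z n).v x * W.u x := fun n => by
    congr 1; ext x; ring
  have c' : (∫ x, W.u x * W.v x) = ∫ x, W.v x * W.u x := by congr 1; ext x; ring
  simp only [c]
  nth_rewrite 2 [c']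
  refine Tendsto.sub (Tendsto.add (Tendsto.add ?_ ((w1.2.1 _ W.hu.1).const_mul μ))
    (Tendsto.add ?_ ((w2.2.1 _ W.hv.1).const_mul ν))) (Tendsto.const_mul lam
      ((w1.2.1 _ W.hv.1).add (w2.2.1 _ W.hu.1)))
  · exact tendsto_finsetSum _ fun i _ => w1.2.2 i _ (W.hu.2.1 i)
  · exact tendsto_finsetSum _ fun i _ => w2.2.2 i _ (W.hv.2.1 i)

section par

variable {q μ ν lam lb : ℝ}

lemma tr_mem {X : Pt N} (hX : X ∈ Neh N q μ ν lam) (a : EN N) : X.tr a ∈ Neh N q μ ν lam := by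
  refine ⟨?_, ?_⟩
  · have h := (NZ_iff X).1 hX.1
    rw [NZ_iff]
    unfold Pt.tr
    simp only
    rw [N2_translate, N2_translate]
    exact h
  · rw [Qf_tr, Lq_tr_u, Lq_tr_v]
    exact hX.2

lemma En_tr (X : Pt N) (a : EN N) : En q μ ν lam (X.tr a) = En q μ ν lam X := by
  rw [En_eq_fib, En_eq_fib, Qf_tr, Lq_tr_u, Lq_tr_v]

lemma NZ_of_lt (hN : 3 ≤ N) (hq : 2 < q) (hμ : 0 < μ) (hν : 0 < ν) (hlam : 0 < lam)
    (hl : lam ^ 2 < μ * ν) {X : Pt N} (h : Qf μ ν lam X < Lq q X.u + Lq (ts N) X.v) : NZ X := by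
  rintro ⟨h1, h2⟩
  have e1 : Lq q X.u = 0 := by
    unfold Lq
    have : (fun x => |X.u x| ^ q) =ᵐ[volume] fun _ => (0:ℝ) := by
      filter_upwards [h1] with x hx
      rw [hx, Pi.zero_apply, abs_zero, Real.zero_rpow (by linarith)]
    rw [integral_congr_ae this]; simp
  have e2 : Lq (ts N) X.v = 0 := by
    unfold Lq
    have : (fun x => |X.v x| ^ ts N) =ᵐ[volume] fun _ => (0:ℝ) := by
      filter_upwards [h2] with x hx
      rw [hx, Pi.zero_apply, abs_zero, Real.zero_rpow (ts_pos hN).ne']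
    rw [integral_congr_ae this]; simp
  rw [e1, e2] at h
  have h3 := coer hμ hν hlam le_rfl hl X
  have h4 := kap_pos hμ hν hl
  have h5 := Kn_nonneg X.gu
  have h6 := Kn_nonneg X.gv
  have h7 := N2_nonneg X.u
  have h8 := N2_nonneg X.v
  have : 0 ≤ kap μ ν lam * (Kn X.gu + N2 X.u + N2 X.v) := by positivity
  linarith

theorem core (hN : 3 ≤ N) (hq : 2 < q) (hqr : q < ts N) (hμ : 0 < μ) (hν : 0 < ν)
    (hlam : 0 < lam) (hlb : lb ^ 2 < μ * ν) (hlamb : lam ≤ lb)
    (l : ℕ → ℝ) (hl : Tendsto l atTop (𝓝 lam)) (hl0 : ∀ n, 0 < l n) (hl1 : ∀ n, l n ≤ lb)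
    (X : ℕ → Pt N) (hX : ∀ n, X n ∈ Neh N q μ ν (l n))
    (hE : ∀ n, En q μ ν (l n) (X n) ≤ cst N)
    (hm : ∀ ε : ℝ, 0 < ε → ∀ᶠ n in atTop, En q μ ν (l n) (X n) ≤ mm N q μ ν lam + ε) :
    ∃ Z ∈ Neh N q μ ν lam, En q μ ν lam Z = mm N q μ ν lam := by
  have hll : lam ^ 2 < μ * ν := by
    have : lam ^ 2 ≤ lb ^ 2 := pow_le_pow_left₀ hlam.le hlamb 2
    linarith
  have hts := ts_gt hN
  obtain ⟨δ, hδ, hδ2⟩ := u_lower (N := N) hN hq hqr hμ hν hlb
  obtain ⟨C, hC, hC2⟩ := bound (N := N) hN hq hqr hμ hν hlb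
  obtain ⟨k, ε, η, hk, hη, hnv⟩ := nonvanish (N := N) hN hq hqr hC hδ
  have hch : ∀ n, ∃ x, η < |Mol k (X n).u x| := by
    intro n
    obtain ⟨c1, c2, c3, c4, c5, c6, c7⟩ := hC2 (l n) (X n) (hl0 n) (hl1 n) (hX n) (hE n)
    exact hnv (X n).u (X n).gu (X n).hu c2 c1 c6 (hδ2 (l n) (X n) (hl0 n) (hl1 n) (hX n) (hE n))
  choose a ha using hch
  set Y : ℕ → Pt N := fun n => (X n).tr (a n) with hY
  have hYM : ∀ n, Y n ∈ Neh N q μ ν (l n) := fun n => tr_mem (hX n) (a n)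
  have hYE : ∀ n, En q μ ν (l n) (Y n) = En q μ ν (l n) (X n) := fun n => En_tr (X n) (a n)
  have hYE' : ∀ n, En q μ ν (l n) (Y n) ≤ cst N := fun n => by rw [hYE]; exact hE n
  have hYb := fun n => hC2 (l n) (Y n) (hl0 n) (hl1 n) (hYM n) (hYE' n)
  have hYmol : ∀ n, η < |Mol k (Y n).u 0| := by
    intro n
    have e : Mol k (Y n).u 0 = Mol k (X n).u (a n) := by
      unfold Mol
      congr 1; ext h
      simp only [hY, Pt.tr, zero_add]
      rw [add_comm h]
    rw [e]; exact ha n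
  obtain ⟨σ, hσ, W, w1, w2, a1, a2⟩ := exists_limit Y C (fun n => (hYb n).1)
    (fun n => (hYb n).2.1) (fun n => (hYb n).2.2.1) (fun n => (hYb n).2.2.2.1)
  set Z : ℕ → Pt N := fun n => Y (σ n) with hZ
  set l' : ℕ → ℝ := fun n => l (σ n) with hl'
  have hl't : Tendsto l' atTop (𝓝 lam) := hl.comp hσ.tendsto_atTop
  have hZb := fun n => hYb (σ n)
  -- W.u ≠ 0
  have hWu : ¬ W.u =ᵐ[volume] 0 := by
    intro h0
    have h1 : Tendsto (fun n => Mol k (Z n).u 0) atTop (𝓝 (Mol k W.u 0)) := by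
      simp_rw [Mol_eq]
      have hL : L2 (fun y => k (y - 0)) := by simpa using hk.L2
      exact w1.2.1 _ hL
    have h2 : η ≤ |Mol k W.u 0| := ge_of_tendsto' h1.abs fun n => (hYmol (σ n)).le
    have h3 := Mol_bound hk W.hu.1 0
    have h4 : N2 W.u = 0 := by rw [N2_congr h0]; unfold N2; simp
    rw [h4, mul_zero] at h3
    have h5 : Mol k W.u 0 = 0 := by
      have := le_antisymm h3 (sq_nonneg _)
      exact pow_eq_zero_iff (two_ne_zero) |>.1 this
    rw [h5, abs_zero] at h2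
    linarith
  have hWNZ : NZ W := fun h => hWu h.1
  have hbW : 0 < Lq q W.u := Lq_pos_of_ne (by linarith) (Lq_int hN hq.le hqr.le W.hu).1 hWu
  have hdW : 0 ≤ Lq (ts N) W.v := Lq_nonneg _ _
  have hhq := half_sub_pos hq
  have hhr := half_sub_pos hts
  set IW := (1 / 2 - 1 / q) * Lq q W.u + (1 / 2 - 1 / ts N) * Lq (ts N) W.v with hIW
  have hIWpos : 0 < IW := by
    have h1 := mul_pos hhq hbW
    have h2 := mul_nonneg hhr.le hdW
    rw [hIW]; linarith
  -- convergences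
  have t1 : Tendsto (fun n => Bf μ ν lam (Z n) W) atTop (𝓝 (Qf μ ν lam W)) := Bf_tendsto w1 w2
  have t2 : Tendsto (fun n => Lq q (Z n).u - Lq q (fun x => (Z n).u x - W.u x)) atTop
      (𝓝 (Lq q W.u)) := brezis_lieb (by linarith) (fun n => (Z n).hu.1.1) W.hu.1.1
      (fun n => (Lq_int hN hq.le hqr.le (Z n).hu).1) (Lq_int hN hq.le hqr.le W.hu).1 C
      (fun n => (hZb n).2.2.2.2.1) a1
  have t3 : Tendsto (fun n => Lq (ts N) (Z n).v - Lq (ts N) (fun x => (Z n).v x - W.v x)) atTop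
      (𝓝 (Lq (ts N) W.v)) := brezis_lieb (by linarith) (fun n => (Z n).hv.1.1) W.hv.1.1
      (fun n => (Sob_H1 hN (Z n).hv).1) (Sob_H1 hN W.hv).1 C
      (fun n => (hZb n).2.2.2.2.2.2) a2
  have t4 : Tendsto (fun n => 2 * (l' n - lam) * ∫ x, (Z n).u x * (Z n).v x) atTop (𝓝 0) := by
    have hb : ∀ n, |∫ x, (Z n).u x * (Z n).v x| ≤ C := by
      intro n
      refine (cs (Z n).hu.1 (Z n).hv.1).trans ?_
      have i1 : √(N2 (Z n).u) ≤ √C := Real.sqrt_le_sqrt (hZb n).2.1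
      have i2 : √(N2 (Z n).v) ≤ √C := Real.sqrt_le_sqrt (hZb n).2.2.2.1
      calc √(N2 (Z n).u) * √(N2 (Z n).v) ≤ √C * √C :=
            mul_le_mul i1 i2 (Real.sqrt_nonneg _) (Real.sqrt_nonneg _)
        _ = C := Real.mul_self_sqrt hC.le
    have h1 : Tendsto (fun n => |2 * (l' n - lam)| * C) atTop (𝓝 0) := by
      have := (((hl't.sub_const lam).const_mul 2).abs).mul_const C
      simpa using this
    refine squeeze_zero_norm (fun n => ?_) h1
    rw [Real.norm_eq_abs, abs_mul]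
    exact mul_le_mul_of_nonneg_left (hb n) (abs_nonneg _)
  -- energies
  have hEZ : ∀ n, En q μ ν (l' n) (Z n) =
      (1 / 2 - 1 / q) * Lq q (Z n).u + (1 / 2 - 1 / ts N) * Lq (ts N) (Z n).v :=
    fun n => En_Neh (hYM (σ n))
  have hmZ : ∀ ε : ℝ, 0 < ε → ∀ᶠ n in atTop, (1 / 2 - 1 / q) * Lq q (Z n).u
      + (1 / 2 - 1 / ts N) * Lq (ts N) (Z n).v ≤ mm N q μ ν lam + ε := by
    intro ε hε
    filter_upwards [hσ.tendsto_atTop.eventually (hm ε hε)] with n hn
    rw [← hEZ n]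
    have := hYE (σ n)
    simp only [hl', hZ]
    rw [this]; exact hn
  have t5 : Tendsto (fun n => ((1 / 2 - 1 / q) * (Lq q (Z n).u
      - Lq q (fun x => (Z n).u x - W.u x)) + (1 / 2 - 1 / ts N) * (Lq (ts N) (Z n).v
      - Lq (ts N) (fun x => (Z n).v x - W.v x)))) atTop (𝓝 IW) :=
    (t2.const_mul _).add (t3.const_mul _)
  rcases le_or_gt (Qf μ ν lam W) (Lq q W.u + Lq (ts N) W.v) with hle | hgt
  · obtain ⟨t, ht0, ht1, htM, htE⟩ := exists_sm_le hN hq hqr hμ hν hlam hll hWNZ hle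
    refine ⟨W.sm t, htM, le_antisymm (htE.trans ?_) (mm_le hN hq htM)⟩
    refine le_of_forall_pos_le_add fun ε hε => ?_
    refine le_of_tendsto t5 ?_
    filter_upwards [hmZ ε hε] with n hn
    have h1 := mul_nonneg hhq.le (Lq_nonneg q (fun x => (Z n).u x - W.u x))
    have h2 := mul_nonneg hhr.le (Lq_nonneg (ts N) (fun x => (Z n).v x - W.v x))
    linarith
  · exfalso
    have hQZ : ∀ n, Qf μ ν lam ((Z n).sb W) - Lq q (fun x => (Z n).u x - W.u x)
        - Lq (ts N) (fun x => (Z n).v x - W.v x) =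
        (Lq q (Z n).u - Lq q (fun x => (Z n).u x - W.u x)) +
        (Lq (ts N) (Z n).v - Lq (ts N) (fun x => (Z n).v x - W.v x))
        + 2 * (l' n - lam) * (∫ x, (Z n).u x * (Z n).v x) - 2 * Bf μ ν lam (Z n) W
        + Qf μ ν lam W := by
      intro n
      rw [Qf_sb]
      have h1 : Qf μ ν (l' n) (Z n) = Lq q (Z n).u + Lq (ts N) (Z n).v := (hYM (σ n)).2
      have h2 : Qf μ ν lam (Z n) = Qf μ ν (l' n) (Z n)
          + 2 * (l' n - lam) * (∫ x, (Z n).u x * (Z n).v x) := by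
        unfold Qf; ring
      rw [h2, h1]; ring
    have t6 : Tendsto (fun n => Qf μ ν lam ((Z n).sb W) - Lq q (fun x => (Z n).u x - W.u x)
        - Lq (ts N) (fun x => (Z n).v x - W.v x)) atTop
        (𝓝 (Lq q W.u + Lq (ts N) W.v + 0 - 2 * Qf μ ν lam W + Qf μ ν lam W)) := by
      simp only [hQZ]
      exact ((((t2.add t3).add t4).sub (t1.const_mul 2)).add_const _)
    have hneg : Lq q W.u + Lq (ts N) W.v + 0 - 2 * Qf μ ν lam W + Qf μ ν lam W < 0 := by linarith
    have hev := t6.eventually_lt_const hneg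
    have hIle : IW ≤ IW / 2 := by
      refine le_of_tendsto t5 ?_
      filter_upwards [hev, hmZ (IW / 2) (by positivity)] with n hn hn2
      have h1 : Qf μ ν lam ((Z n).sb W) < Lq q ((Z n).sb W).u + Lq (ts N) ((Z n).sb W).v := by
        have e1 : Lq q ((Z n).sb W).u = Lq q (fun x => (Z n).u x - W.u x) := rfl
        have e2 : Lq (ts N) ((Z n).sb W).v = Lq (ts N) (fun x => (Z n).v x - W.v x) := rfl
        rw [e1, e2]; linarith
      have h2 := NZ_of_lt hN hq hμ hν hlam hll h1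
      obtain ⟨t, ht0, ht1, htM, htE⟩ := exists_sm_le hN hq hqr hμ hν hlam hll h2 h1.le
      have h3 := (mm_le hN hq htM).trans htE
      have e1 : Lq q ((Z n).sb W).u = Lq q (fun x => (Z n).u x - W.u x) := rfl
      have e2 : Lq (ts N) ((Z n).sb W).v = Lq (ts N) (fun x => (Z n).v x - W.v x) := rfl
      rw [e1, e2] at h3
      linarith
    linarith

end par

end Pool.Agent.H158.LS
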