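import Mathlib
import Pool.Agent.H158.LS5

/-!
# Minimisers on the Nehari set are critical points
-/

set_option autoImplicit false
set_option linter.unusedSectionVars false
set_option linter.unusedVariables false

open MeasureTheory Filter Topology Set
open scoped ContDiff ENNReal NNReal

namespace Pool.Agent.H158.LS

open Pool.Agent.Helper985.VR

variable {N : ℕ}

lemma hasDeriv_Lq {q : ℝ} (hq : 2 < q) {u φ : EN N → ℝ} (hu : Measurable u) (hφ : Measurable φ)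
    (iu : Integrable fun x => |u x| ^ q) (iφ : Integrable fun x => |φ x| ^ q) :
    HasDerivAt (fun s : ℝ => Lq q (fun x => u x + s * φ x))
      (q * ∫ x, |u x| ^ (q - 2) * u x * φ x) 0 := by
  have hmw : ∀ s : ℝ, Measurable fun x => u x + s * φ x := fun s => hu.add (hφ.const_mul s)
  have key := hasDerivAt_integral_of_dominated_loc_of_deriv_le
    (μ := (volume : Measure (EN N))) (F := fun (s : ℝ) (x : EN N) => |u x + s * φ x| ^ q)
    (F' := fun (s : ℝ) (x : EN N) => q * |u x + s * φ x| ^ (q - 2) * (u x + s * φ x) * φ x)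
    (x₀ := (0:ℝ)) (s := Metric.ball (0:ℝ) 1)
    (bound := fun x => q * ((1/2) ^ (1 - q) * (|u x| ^ q + |φ x| ^ q)))
    (Metric.ball_mem_nhds _ one_pos)
    (Eventually.of_forall fun s => (meas_pow (hmw s) q).aestronglyMeasurable)
    (by simpa using iu)
    ((((meas_pow (hmw 0) (q - 2)).const_mul q).mul (hmw 0)).mul hφ).aestronglyMeasurable
    ?_ (((iu.add iφ).const_mul _).const_mul q) ?_
  · have h2 := key.2
    have e : (∫ x, q * |u x + 0 * φ x| ^ (q - 2) * (u x + 0 * φ x) * φ x)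
        = q * ∫ x, |u x| ^ (q - 2) * u x * φ x := by
      rw [← integral_const_mul]
      congr 1; ext x
      rw [zero_mul, add_zero]; ring
    rw [e] at h2
    exact h2
  · filter_upwards with x s hs
    rw [mem_ball_zero_iff, Real.norm_eq_abs] at hs
    set m := |u x| + |φ x| with hm
    have hm0 : 0 ≤ m := by positivity
    have hw : |u x + s * φ x| ≤ m := by
      refine (abs_add_le _ _).trans ?_
      rw [abs_mul]
      have := mul_le_mul_of_nonneg_right hs.le (abs_nonneg (φ x))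
      linarith
    have hφm : |φ x| ≤ m := by have := abs_nonneg (u x); linarith
    rw [Real.norm_eq_abs, abs_mul, abs_mul, abs_mul, abs_of_pos (by linarith : 0 < q),
      abs_of_nonneg (Real.rpow_nonneg (abs_nonneg _) _)]
    have h1 : |u x + s * φ x| ^ (q - 2) ≤ m ^ (q - 2) :=
      Real.rpow_le_rpow (abs_nonneg _) hw (by linarith)
    have h2 : |u x + s * φ x| ^ (q - 2) * |u x + s * φ x| ≤ m ^ (q - 2) * m :=
      mul_le_mul h1 hw (abs_nonneg _) (by positivity)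
    have h3 : |u x + s * φ x| ^ (q - 2) * |u x + s * φ x| * |φ x| ≤ m ^ (q - 2) * m * m :=
      mul_le_mul h2 hφm (abs_nonneg _) (by positivity)
    have h4 : m ^ (q - 2) * m * m = m ^ q := by
      rcases eq_or_lt_of_le hm0 with h0 | h0
      · rw [← h0, mul_zero, Real.zero_rpow (by linarith : q ≠ 0)]
      · rw [mul_assoc, ← sq, ← Real.rpow_two, ← Real.rpow_add h0]; congr 1; ring
    have h5 := conv2 (q := q) (by linarith) (by norm_num : (0:ℝ) < 1/2) (by norm_num) (|u x|) (|φ x|)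
    rw [abs_of_nonneg (by positivity : 0 ≤ |u x| + |φ x|), abs_abs, abs_abs] at h5
    norm_num at h5
    have h6 : m ^ q ≤ (1/2) ^ (1 - q) * (|u x| ^ q + |φ x| ^ q) := by
      norm_num
      linarith
    have h7 := (h3.trans (le_of_eq h4)).trans h6
    have := mul_le_mul_of_nonneg_left h7 (by linarith : (0:ℝ) ≤ q)
    linarith
  · filter_upwards with x s hs
    have h1 := hasDerivAt_abs_rpow (u x + s * φ x) (p := q) (by linarith)
    have h2 : HasDerivAt (fun s : ℝ => u x + s * φ x) (φ x) s := by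
      simpa using ((hasDerivAt_id s).mul_const (φ x)).const_add (u x)
    exact h1.comp s h2

/-- directional derivative of the energy at a Nehari element -/
noncomputable def Dir (q μ ν lam : ℝ) (Z W : Pt N) : ℝ :=
  Bf μ ν lam Z W - (∫ x, |Z.u x| ^ (q - 2) * Z.u x * W.u x)
    - ∫ x, |Z.v x| ^ (ts N - 2) * Z.v x * W.v x

section par

variable {q μ ν lam : ℝ}

lemma NZ_sm {X : Pt N} {t : ℝ} (h : NZ (X.sm t)) : NZ X := by
  rw [NZ_iff] at h ⊢
  unfold Pt.sm at h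
  simp only at h
  rw [N2_const_mul, N2_const_mul, ← mul_add] at h
  have h2 := sq_nonneg t
  by_contra hc
  push Not at hc
  nlinarith

theorem dir_nonneg (hN : 3 ≤ N) (hq : 2 < q) (hqr : q < ts N) (hμ : 0 < μ) (hν : 0 < ν)
    (hlam : 0 < lam) (hll : lam ^ 2 < μ * ν) {Z : Pt N} (hZ : Z ∈ Neh N q μ ν lam)
    (hmin : En q μ ν lam Z = mm N q μ ν lam) (W : Pt N) : 0 ≤ Dir q μ ν lam Z W := by
  by_contra hD
  push Not at hD
  have hr := ts_gt hN
  have hr0 := ts_pos hN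
  have hq0 : 0 < q := by linarith
  set r := ts N with hrd
  set Q0 := Qf μ ν lam Z with hQ0
  set B := Bf μ ν lam Z W with hB
  set QW := Qf μ ν lam W with hQW
  set b : ℝ → ℝ := fun s => Lq q (fun x => Z.u x + s * W.u x) with hb
  set d : ℝ → ℝ := fun s => Lq r (fun x => Z.v x + s * W.v x) with hd
  set a : ℝ → ℝ := fun s => Q0 + 2 * s * B + s ^ 2 * QW with ha
  have ha0 : a 0 = Q0 := by simp [ha]
  have hb0 : b 0 = Lq q Z.u := by simp [hb]
  have hd0 : d 0 = Lq r Z.v := by simp [hd]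
  have hbD : HasDerivAt b (q * ∫ x, |Z.u x| ^ (q - 2) * Z.u x * W.u x) 0 :=
    hasDeriv_Lq hq Z.hu.1.1 W.hu.1.1 (Lq_int hN hq.le hqr.le Z.hu).1 (Lq_int hN hq.le hqr.le W.hu).1
  have hdD : HasDerivAt d (r * ∫ x, |Z.v x| ^ (r - 2) * Z.v x * W.v x) 0 :=
    hasDeriv_Lq hr Z.hv.1.1 W.hv.1.1 (Sob_H1 hN Z.hv).1 (Sob_H1 hN W.hv).1
  set b' := ∫ x, |Z.u x| ^ (q - 2) * Z.u x * W.u x with hb'
  set d' := ∫ x, |Z.v x| ^ (r - 2) * Z.v x * W.v x with hd'
  have hDir : Dir q μ ν lam Z W = B - b' - d' := rfl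
  rw [hDir] at hD
  have hac : Continuous a := by simp only [ha]; fun_prop
  -- Φ
  set Φ : ℝ × ℝ → ℝ := fun p => p.1 ^ 2 / 2 * (2 * B + p.2 * QW) - p.1 ^ q / q * slope b 0 p.2
    - p.1 ^ r / r * slope d 0 p.2 with hΦ
  have hsub : 𝓝[>] (0:ℝ) ≤ 𝓝[≠] 0 := nhdsWithin_mono _ fun x hx => ne_of_gt hx
  have s1 : Tendsto (fun p : ℝ × ℝ => p.1 ^ 2 / 2) (𝓝 1 ×ˢ 𝓝[>] 0) (𝓝 (1 ^ 2 / 2)) := by
    have : Continuous fun t : ℝ => t ^ 2 / 2 := by fun_prop
    exact (this.tendsto 1).comp tendsto_fst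
  have s2 : Tendsto (fun p : ℝ × ℝ => p.1 ^ q / q) (𝓝 1 ×ˢ 𝓝[>] 0) (𝓝 (1 ^ q / q)) := by
    have : Continuous fun t : ℝ => t ^ q / q := (Real.continuous_rpow_const hq0.le).div_const q
    exact (this.tendsto 1).comp tendsto_fst
  have s3 : Tendsto (fun p : ℝ × ℝ => p.1 ^ r / r) (𝓝 1 ×ˢ 𝓝[>] 0) (𝓝 (1 ^ r / r)) := by
    have : Continuous fun t : ℝ => t ^ r / r := (Real.continuous_rpow_const hr0.le).div_const r
    exact (this.tendsto 1).comp tendsto_fst
  have s4 : Tendsto (fun p : ℝ × ℝ => 2 * B + p.2 * QW) (𝓝 1 ×ˢ 𝓝[>] 0) (𝓝 (2 * B + 0 * QW)) := by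
    have : Continuous fun t : ℝ => 2 * B + t * QW := by fun_prop
    exact ((this.tendsto 0).mono_left nhdsWithin_le_nhds).comp tendsto_snd
  have s5 : Tendsto (fun p : ℝ × ℝ => slope b 0 p.2) (𝓝 1 ×ˢ 𝓝[>] 0) (𝓝 (q * b')) :=
    ((hasDerivAt_iff_tendsto_slope.1 hbD).mono_left hsub).comp tendsto_snd
  have s6 : Tendsto (fun p : ℝ × ℝ => slope d 0 p.2) (𝓝 1 ×ˢ 𝓝[>] 0) (𝓝 (r * d')) :=
    ((hasDerivAt_iff_tendsto_slope.1 hdD).mono_left hsub).comp tendsto_snd
  have hΦt : Tendsto Φ (𝓝 1 ×ˢ 𝓝[>] 0) (𝓝 (B - b' - d')) := by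
    have := ((s1.mul s4).sub (s2.mul s5)).sub (s3.mul s6)
    have e : (1:ℝ) ^ 2 / 2 * (2 * B + 0 * QW) - 1 ^ q / q * (q * b') - 1 ^ r / r * (r * d')
        = B - b' - d' := by
      rw [Real.one_rpow, Real.one_rpow]
      field_simp
      ring
    rw [e] at this
    exact this
  have hev := hΦt.eventually_lt_const hD
  rw [eventually_prod_iff] at hev
  obtain ⟨pa, hpa, pb, hpb, hab⟩ := hev
  rw [Metric.eventually_nhds_iff] at hpa
  obtain ⟨δ0, hδ0, hδ⟩ := hpa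
  set δ := min (δ0 / 2) (1 / 2) with hδd
  have hδp : 0 < δ := by positivity
  have hδ1 : δ ≤ 1 / 2 := min_le_right _ _
  have hδ2 : δ < δ0 := lt_of_le_of_lt (min_le_left _ _) (by linarith)
  have hbd : 0 < b 0 + d 0 := by
    rw [hb0, hd0]; exact bd_pos hN hq hqr hZ.1
  have hb00 : 0 ≤ b 0 := by rw [hb0]; exact Lq_nonneg _ _
  have hd00 : 0 ≤ d 0 := by rw [hd0]; exact Lq_nonneg _ _
  have hQbd : a 0 = b 0 + d 0 := by rw [ha0, hb0, hd0]; exact hZ.2
  set G : ℝ → ℝ → ℝ := fun t s => t ^ 2 * a s - t ^ q * b s - t ^ r * d s with hG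
  have hGc : ∀ t, Tendsto (fun s => G t s) (𝓝[>] 0) (𝓝 (G t 0)) := by
    intro t
    have c1 : Tendsto a (𝓝[>] 0) (𝓝 (a 0)) := (hac.tendsto 0).mono_left nhdsWithin_le_nhds
    have c2 : Tendsto b (𝓝[>] 0) (𝓝 (b 0)) := hbD.continuousAt.tendsto.mono_left nhdsWithin_le_nhds
    have c3 : Tendsto d (𝓝[>] 0) (𝓝 (d 0)) := hdD.continuousAt.tendsto.mono_left nhdsWithin_le_nhds
    exact ((c1.const_mul _).sub (c2.const_mul _)).sub (c3.const_mul _)
  have hG1 : 0 < G (1 - δ) 0 := by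
    have p0 : 0 < 1 - δ := by linarith
    have i1 : (1 - δ) ^ q < (1 - δ) ^ (2:ℝ) :=
      Real.rpow_lt_rpow_of_exponent_gt p0 (by linarith) hq
    have i2 : (1 - δ) ^ r < (1 - δ) ^ (2:ℝ) :=
      Real.rpow_lt_rpow_of_exponent_gt p0 (by linarith) hr
    rw [Real.rpow_two] at i1 i2
    simp only [hG]
    rw [hQbd]
    set m := min ((1 - δ) ^ 2 - (1 - δ) ^ q) ((1 - δ) ^ 2 - (1 - δ) ^ r) with hm
    have hm0 : 0 < m := lt_min (by linarith) (by linarith)
    have j1 := mul_le_mul_of_nonneg_right (min_le_left _ _ : m ≤ (1 - δ) ^ 2 - (1 - δ) ^ q) hb00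
    have j2 := mul_le_mul_of_nonneg_right (min_le_right _ _ : m ≤ (1 - δ) ^ 2 - (1 - δ) ^ r) hd00
    have j3 := mul_pos hm0 hbd
    nlinarith
  have hG2 : G (1 + δ) 0 < 0 := by
    have i1 : (1 + δ) ^ (2:ℝ) < (1 + δ) ^ q :=
      Real.rpow_lt_rpow_of_exponent_lt (by linarith) hq
    have i2 : (1 + δ) ^ (2:ℝ) < (1 + δ) ^ r :=
      Real.rpow_lt_rpow_of_exponent_lt (by linarith) hr
    rw [Real.rpow_two] at i1 i2
    simp only [hG]
    rw [hQbd]
    set m := min ((1 + δ) ^ q - (1 + δ) ^ 2) ((1 + δ) ^ r - (1 + δ) ^ 2) with hm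
    have hm0 : 0 < m := lt_min (by linarith) (by linarith)
    have j1 := mul_le_mul_of_nonneg_right (min_le_left _ _ : m ≤ (1 + δ) ^ q - (1 + δ) ^ 2) hb00
    have j2 := mul_le_mul_of_nonneg_right (min_le_right _ _ : m ≤ (1 + δ) ^ r - (1 + δ) ^ 2) hd00
    have j3 := mul_pos hm0 hbd
    nlinarith
  obtain ⟨s, ⟨⟨hs1, hs2⟩, hs3⟩, hs4⟩ := ((((hGc (1 - δ)).eventually_const_lt hG1).and
    ((hGc (1 + δ)).eventually_lt_const hG2)).and hpb |>.and self_mem_nhdsWithin).exists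
  have hs0 : (0:ℝ) < s := hs4
  have hcG : Continuous fun t => G t s := by
    simp only [hG]
    exact ((((continuous_id.pow 2).mul continuous_const).sub
      ((Real.continuous_rpow_const hq0.le).mul continuous_const))).sub
      ((Real.continuous_rpow_const hr0.le).mul continuous_const)
  obtain ⟨t, ht, htG⟩ := intermediate_value_Icc' (show 1 - δ ≤ 1 + δ by linarith)
    hcG.continuousOn (show (0:ℝ) ∈ Icc (G (1 + δ) s) (G (1 - δ) s) from ⟨hs2.le, hs1.le⟩)
  have ht0 : 0 < t := by linarith [ht.1]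
  have hpt : pa t := hδ (by
    rw [Real.dist_eq, abs_lt]; constructor <;> linarith [ht.1, ht.2])
  have hneg := hab hpt hs3
  set Zs := Z.lc W s with hZs
  have hQs : Qf μ ν lam Zs = a s := by rw [hZs, Qf_lc]
  have hbs : Lq q Zs.u = b s := rfl
  have hds : Lq (ts N) Zs.v = d s := rfl
  have hNZ : NZ Zs := by
    refine NZ_sm (t := 1 + δ) (NZ_of_lt hN hq hμ hν hlam hll ?_)
    rw [Qf_sm, hQs]
    have e1 : Lq q (Zs.sm (1 + δ)).u = (1 + δ) ^ q * b s := by
      unfold Pt.sm; simp only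
      rw [Lq_const_mul, abs_of_pos (by linarith : 0 < 1 + δ), hbs]
    have e2 : Lq (ts N) (Zs.sm (1 + δ)).v = (1 + δ) ^ ts N * d s := by
      unfold Pt.sm; simp only
      rw [Lq_const_mul, abs_of_pos (by linarith : 0 < 1 + δ), hds]
    rw [e1, e2]
    simp only [hG] at hs2
    linarith
  have hmem : Zs.sm t ∈ Neh N q μ ν lam := by
    refine sm_mem ht0 hNZ ?_
    rw [hQs, hbs, hds]
    simp only [hG] at htG
    linarith
  have h1 := mm_le hN hq hmem
  rw [En_sm q μ ν lam Zs ht0.le, hQs, hbs, hds, ← hmin, En_eq_fib] at h1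
  have h2 := fib_le (q := q) (r := ts N) hq hr (Lq_nonneg q Z.u) (Lq_nonneg (ts N) Z.v) hZ.2 ht0.le
  have h3 := h2.trans h1
  unfold fib at h3
  have e1 : slope b 0 s = (b s - b 0) / s := by
    rw [slope_def_field]; simp
  have e2 : slope d 0 s = (d s - d 0) / s := by
    rw [slope_def_field]; simp
  simp only [hΦ] at hneg
  rw [e1, e2] at hneg
  have h4 : s * (t ^ 2 / 2 * (2 * B + s * QW) - t ^ q / q * ((b s - b 0) / s)
      - t ^ r / r * ((d s - d 0) / s)) < 0 := mul_neg_of_pos_of_neg hs0 hneg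
  have h5 : s * (t ^ 2 / 2 * (2 * B + s * QW) - t ^ q / q * ((b s - b 0) / s)
      - t ^ r / r * ((d s - d 0) / s)) = t ^ 2 / 2 * (a s - a 0) - t ^ q / q * (b s - b 0)
      - t ^ r / r * (d s - d 0) := by
    simp only [ha]
    field_simp
    ring
  rw [h5, ha0, hb0, hd0] at h4
  nlinarith

lemma Dir_sm (Z W : Pt N) (s : ℝ) : Dir q μ ν lam Z (W.sm s) = s * Dir q μ ν lam Z W := by
  unfold Dir
  rw [Bf_smul]
  have e : ∀ (f φ : EN N → ℝ) (c : ℝ), (∫ x, |f x| ^ c * f x * (s * φ x))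
      = s * ∫ x, |f x| ^ c * f x * φ x := fun f φ c => by
    rw [← integral_const_mul]; congr 1; ext x; ring
  have e1 : (∫ x, |Z.u x| ^ (q - 2) * Z.u x * (W.sm s).u x)
      = s * ∫ x, |Z.u x| ^ (q - 2) * Z.u x * W.u x := e _ _ _
  have e2 : (∫ x, |Z.v x| ^ (ts N - 2) * Z.v x * (W.sm s).v x)
      = s * ∫ x, |Z.v x| ^ (ts N - 2) * Z.v x * W.v x := e _ _ _
  rw [e1, e2]; ring

/-- the weak form of the system, tested against all of `H¹` -/
def IsCrit (q μ ν lam : ℝ) (X : Pt N) : Prop :=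
  ∀ (φ : EN N → ℝ) (g : Fin N → EN N → ℝ), H1 (bN N) φ g →
    (Kb X.gu g + μ * ∫ x, X.u x * φ x) =
      (∫ x, |X.u x| ^ (q - 2) * X.u x * φ x) + lam * ∫ x, X.v x * φ x ∧
    (Kb X.gv g + ν * ∫ x, X.v x * φ x) =
      (∫ x, |X.v x| ^ (ts N - 2) * X.v x * φ x) + lam * ∫ x, X.u x * φ x

theorem crit (hN : 3 ≤ N) (hq : 2 < q) (hqr : q < ts N) (hμ : 0 < μ) (hν : 0 < ν)
    (hlam : 0 < lam) (hll : lam ^ 2 < μ * ν) {Z : Pt N} (hZ : Z ∈ Neh N q μ ν lam)
    (hmin : En q μ ν lam Z = mm N q μ ν lam) : IsCrit q μ ν lam Z := by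
  have hzero : ∀ W : Pt N, Dir q μ ν lam Z W = 0 := by
    intro W
    have h1 := dir_nonneg hN hq hqr hμ hν hlam hll hZ hmin W
    have h2 := dir_nonneg hN hq hqr hμ hν hlam hll hZ hmin (W.sm (-1))
    rw [Dir_sm] at h2
    linarith
  intro φ g H
  have k0 : ∀ f : Fin N → EN N → ℝ, Kb f (fun _ _ => (0:ℝ)) = 0 := fun f => by
    unfold Kb; simp
  constructor
  · have h := hzero ⟨φ, g, fun _ => 0, fun _ _ => 0, H, H1.zero⟩
    unfold Dir Bf at h
    simp only [k0, mul_zero, integral_zero, add_zero, sub_zero, zero_add] at h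
    have e : (∫ x, φ x * Z.v x) = ∫ x, Z.v x * φ x := by congr 1; ext x; ring
    rw [e] at h
    linarith
  · have h := hzero ⟨fun _ => 0, fun _ _ => 0, φ, g, H1.zero, H⟩
    unfold Dir Bf at h
    simp only [k0, mul_zero, zero_mul, integral_zero, add_zero, sub_zero, zero_add] at h
    linarith

end par

end Pool.Agent.H158.LS
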