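import Mathlib
import Pool.Agent.H158.LS6

/-!
# Test functions, the number `μ₀`, thresholds
-/

set_option autoImplicit false
set_option linter.unusedSectionVars false
set_option linter.unusedVariables false

open MeasureTheory Filter Topology Set
open scoped ContDiff ENNReal NNReal

namespace Pool.Agent.H158.LS

open Pool.Agent.Helper985.VR

variable {N : ℕ}

/-! ### dilations of test functions -/

/-- dilation -/
def dil (s : ℝ) (φ : EN N → ℝ) (x : EN N) : ℝ := φ (s • x)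

lemma dil_smooth {s : ℝ} {φ : EN N → ℝ} (h : ContDiff ℝ ∞ φ) : ContDiff ℝ ∞ (dil s φ) :=
  h.comp (contDiff_const_smul _)

lemma dil_cc {s : ℝ} (hs : s ≠ 0) {φ : EN N → ℝ} (h : HasCompactSupport φ) :
    HasCompactSupport (dil s φ) := h.comp_homeomorph (Homeomorph.smulOfNeZero _ hs)

lemma int_dil {s : ℝ} (hs : 0 < s) (f : EN N → ℝ) :
    (∫ x, f (s • x)) = (s ^ N)⁻¹ * ∫ x, f x := by
  have h := Measure.integral_comp_smul (volume : Measure (EN N)) f s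
  rw [h]
  have hf : Module.finrank ℝ (EN N) = N := by simp
  rw [hf, abs_of_pos (by positivity), smul_eq_mul]

lemma N2_dil {s : ℝ} (hs : 0 < s) (φ : EN N → ℝ) : N2 (dil s φ) = (s ^ N)⁻¹ * N2 φ :=
  int_dil hs fun x => φ x ^ 2

lemma Lq_dil (q : ℝ) {s : ℝ} (hs : 0 < s) (φ : EN N → ℝ) :
    Lq q (dil s φ) = (s ^ N)⁻¹ * Lq q φ :=
  int_dil hs fun x => |φ x| ^ q

lemma gr_dil {s : ℝ} {φ : EN N → ℝ} (h : ContDiff ℝ ∞ φ) (i : Fin N) (x : EN N) :
    gr (dil s φ) i x = s * gr φ i (s • x) := by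
  have h1 : HasFDerivAt (fun x : EN N => s • x) (s • ContinuousLinearMap.id ℝ (EN N)) x :=
    (s • ContinuousLinearMap.id ℝ (EN N)).hasFDerivAt
  have h2 := (h.differentiable (by norm_num) (s • x)).hasFDerivAt.comp x h1
  have h3 : HasFDerivAt (dil s φ) ((fderiv ℝ φ (s • x)).comp
    (s • ContinuousLinearMap.id ℝ (EN N))) x := h2
  unfold gr
  rw [h3.fderiv]
  simp

lemma Kn_dil {s : ℝ} (hs : 0 < s) {φ : EN N → ℝ} (h : ContDiff ℝ ∞ φ) :
    Kn (gr (dil s φ)) = (s ^ N)⁻¹ * (s ^ 2 * Kn (gr φ)) := by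
  unfold Kn
  rw [Finset.mul_sum, Finset.mul_sum]
  refine Finset.sum_congr rfl fun i _ => ?_
  have e : N2 (gr (dil s φ) i) = N2 (fun x => s * (fun y => gr φ i (s • y)) x) := by
    congr 1; ext x; exact gr_dil h i x
  rw [e, N2_const_mul]
  have e2 : N2 (fun y => gr φ i (s • y)) = (s ^ N)⁻¹ * N2 (gr φ i) :=
    int_dil hs fun x => (gr φ i x) ^ 2
  rw [e2]; ring

lemma H1_test {φ : EN N → ℝ} (h1 : ContDiff ℝ ∞ φ) (h2 : HasCompactSupport φ) :
    H1 (bN N) φ (gr φ) := H1.of_smooth h1 h2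

/-- the element `(α φ, β φ)` -/
noncomputable def tp (α β : ℝ) {φ : EN N → ℝ} (h1 : ContDiff ℝ ∞ φ) (h2 : HasCompactSupport φ) : Pt N where
  u := fun x => α * φ x
  gu := fun i x => α * gr φ i x
  v := fun x => β * φ x
  gv := fun i x => β * gr φ i x
  hu := (H1_test h1 h2).const_mul α
  hv := (H1_test h1 h2).const_mul β

lemma Qf_tp (μ ν lam α β : ℝ) {φ : EN N → ℝ} (h1 : ContDiff ℝ ∞ φ) (h2 : HasCompactSupport φ) :
    Qf μ ν lam (tp α β h1 h2) = (α ^ 2 + β ^ 2) * Kn (gr φ)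
      + (μ * α ^ 2 + ν * β ^ 2 - 2 * lam * (α * β)) * N2 φ := by
  unfold Qf tp
  simp only
  rw [Kn_const_mul, Kn_const_mul, N2_const_mul, N2_const_mul]
  have : (∫ x, α * φ x * (β * φ x)) = (α * β) * N2 φ := by
    unfold N2
    rw [← integral_const_mul]; congr 1; ext x; ring
  rw [this]; ring

/-! ### the scaled constant -/

section par

variable {q : ℝ}

lemma Cq_beta (hN : 3 ≤ N) (hq : 2 < q) (hqr : q < ts N) {β : ℝ} (hβ : 0 < β) {u : EN N → ℝ}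
    {g : Fin N → EN N → ℝ} (H : H1 (bN N) u g) :
    (β ^ (1 - (N:ℝ) / 2 + N / q) * Cq N q) * (Lq q u) ^ (2 / q) ≤ Kn g + β * N2 u := by
  have hC := Cq_pos (N := N) hN hq.le hqr.le
  have hq0 : 0 < q := by linarith
  refine (ext_ineq (b := (bN N : _ → EN N)) hq0 (by positivity) hβ.le ?_ H).2
  intro φ h1 h2
  set s : ℝ := β ^ (-(1/2) : ℝ) with hs
  have hs0 : 0 < s := by positivity
  have h3 := Cq_H1 hN hq.le hqr.le (H1_test (dil_smooth (s := s) h1) (dil_cc hs0.ne' h2))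
  rw [Lq_dil q hs0, N2_dil hs0, Kn_dil hs0 h1] at h3
  have hL := Lq_nonneg q φ
  have hsN : s ^ N = β ^ (-((N:ℝ) / 2)) := by
    rw [hs, ← Real.rpow_natCast, ← Real.rpow_mul hβ.le]; congr 1; ring
  have hs2 : s ^ 2 = β⁻¹ := by
    rw [hs, ← Real.rpow_natCast, ← Real.rpow_mul hβ.le, ← Real.rpow_neg_one]; congr 1; norm_num
  have hsNi : (s ^ N)⁻¹ = β ^ ((N:ℝ) / 2) := by
    rw [hsN, Real.rpow_neg hβ.le, inv_inv]
  rw [hsNi, hs2, Real.mul_rpow (by positivity) hL, ← Real.rpow_mul hβ.le] at h3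
  have e1 : (N:ℝ) / 2 * (2 / q) = N / q := by field_simp
  rw [e1] at h3
  -- multiply by β^(1 - N/2)
  have h4 := mul_le_mul_of_nonneg_left h3 (by positivity : 0 ≤ β ^ (1 - (N:ℝ) / 2))
  have e2 : β ^ (1 - (N:ℝ) / 2) * (Cq N q * (β ^ ((N:ℝ) / q) * Lq q φ ^ (2 / q)))
      = (β ^ (1 - (N:ℝ) / 2 + N / q) * Cq N q) * (Lq q φ) ^ (2 / q) := by
    rw [Real.rpow_add hβ]; ring
  have e3 : β ^ (1 - (N:ℝ) / 2) * β ^ ((N:ℝ) / 2) = β := by
    rw [← Real.rpow_add hβ]; simp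
  rw [e2] at h4
  refine h4.trans (le_of_eq ?_)
  calc β ^ (1 - (N:ℝ) / 2) * (β ^ ((N:ℝ) / 2) * (β⁻¹ * Kn (gr φ)) + β ^ ((N:ℝ) / 2) * N2 φ)
      = (β ^ (1 - (N:ℝ) / 2) * β ^ ((N:ℝ) / 2)) * (β⁻¹ * Kn (gr φ))
        + (β ^ (1 - (N:ℝ) / 2) * β ^ ((N:ℝ) / 2)) * N2 φ := by ring
    _ = _ := by
      rw [e3, ← mul_assoc, mul_inv_cancel₀ hβ.ne', one_mul]
      rfl

/-- the number `μ₀` (in terms of `q = p + 1`) -/
noncomputable def mu0q (N : ℕ) (q : ℝ) : ℝ :=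
  (2 * q / (N * (q - 2)) * Sob N ^ ((N:ℝ) / 2) * Cq N q ^ (-(q / (q - 2))))
    ^ (q / (q - 2) - (N:ℝ) / 2)⁻¹

lemma expo_pos (hN : 3 ≤ N) (hq : 2 < q) (hqr : q < ts N) : 0 < q / (q - 2) - (N:ℝ) / 2 := by
  have h : (3:ℝ) ≤ N := by exact_mod_cast hN
  have h2 : 0 < q - 2 := by linarith
  unfold ts at hqr
  rw [lt_div_iff₀ (by linarith)] at hqr
  have : (N:ℝ) / 2 < q / (q - 2) := by
    rw [div_lt_div_iff₀ (by norm_num) h2]
    nlinarith
  linarith

lemma mu0q_pos (hN : 3 ≤ N) (hq : 2 < q) (hqr : q < ts N) : 0 < mu0q N q := by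
  have h : (3:ℝ) ≤ N := by exact_mod_cast hN
  have hC := Cq_pos (N := N) hN hq.le hqr.le
  have hS := Sob_pos hN
  have h2 : 0 < q - 2 := by linarith
  have hN0 : (0:ℝ) < N := by linarith
  unfold mu0q
  positivity

lemma cst_mu0 (hN : 3 ≤ N) (hq : 2 < q) (hqr : q < ts N) :
    cst N = (1 / 2 - 1 / q) *
      (mu0q N q ^ (1 - (N:ℝ) / 2 + N / q) * Cq N q) ^ (q / (q - 2)) := by
  have h : (3:ℝ) ≤ N := by exact_mod_cast hN
  have hC := Cq_pos (N := N) hN hq.le hqr.le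
  have hS := Sob_pos hN
  have h2 : 0 < q - 2 := by linarith
  have hN0 : (0:ℝ) < N := by linarith
  have hq0 : 0 < q := by linarith
  have ha := expo_pos hN hq hqr
  have hm := mu0q_pos hN hq hqr
  rw [Real.mul_rpow (by positivity) hC.le, ← Real.rpow_mul hm.le]
  have e1 : (1 - (N:ℝ) / 2 + N / q) * (q / (q - 2)) = q / (q - 2) - (N:ℝ) / 2 := by
    field_simp; ring
  rw [e1]
  have e2 : mu0q N q ^ (q / (q - 2) - (N:ℝ) / 2)
      = 2 * q / (N * (q - 2)) * Sob N ^ ((N:ℝ) / 2) * Cq N q ^ (-(q / (q - 2))) := by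
    unfold mu0q
    rw [← Real.rpow_mul (by positivity), inv_mul_cancel₀ ha.ne', Real.rpow_one]
  rw [e2]
  have e3 : Cq N q ^ (-(q / (q - 2))) * Cq N q ^ (q / (q - 2)) = 1 := by
    rw [← Real.rpow_add hC]; simp
  rw [mul_assoc (2 * q / (N * (q - 2)) * Sob N ^ ((N:ℝ) / 2)), e3]
  unfold cst
  field_simp

lemma two_peak {q r A g R b d C0 S c : ℝ} (hq : 2 < q) (hr : 2 < r) (hA : 0 ≤ A) (hg : 0 ≤ g)
    (hR : 0 < R) (hb : 0 ≤ b) (hd : 0 ≤ d) (hbd : 0 < b + d) (hQ : A + g + R = b + d)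
    (hC0 : 0 < C0) (hS : 0 < S) (h1 : C0 * b ^ (2 / q) ≤ A) (h2 : S * d ^ (2 / r) ≤ g)
    (c1 : c = (1 / 2 - 1 / q) * C0 ^ (q / (q - 2)))
    (c2 : c = (1 / 2 - 1 / r) * S ^ (r / (r - 2))) :
    c < fib q r (A + g + R) b d 1 := by
  have hhq := half_sub_pos hq
  have hhr := half_sub_pos hr
  -- it suffices to find T
  suffices h : ∃ T : ℝ, 0 < T ∧ c < fib q r (A + g + R) b d T by
    obtain ⟨T, hT, hc⟩ := h
    exact hc.trans_le (fib_le hq hr hb hd hQ hT.le)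
  have hsplit : ∀ T : ℝ, fib q r (A + g + R) b d T
      = (T ^ 2 / 2 * A - T ^ q / q * b) + (T ^ 2 / 2 * g - T ^ r / r * d) + T ^ 2 / 2 * R := by
    intro T; unfold fib; ring
  rcases eq_or_lt_of_le hb with hb0 | hb0
  · -- b = 0, d > 0
    have hd0 : 0 < d := by linarith
    have hg0 : 0 < g := lt_of_lt_of_le (by positivity) h2
    obtain ⟨T, hT1, hT2, hT3, hT4, -⟩ := peak hr hg0 hd0 hS.le h2
    refine ⟨T, hT1, ?_⟩
    rw [hsplit, ← hb0]
    have e : T ^ r / r * d = T ^ 2 * g / r := by rw [← hT3]; ring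
    rw [e, c2]
    have i1 := mul_le_mul_of_nonneg_left hT4 hhr.le
    have i2 : 0 ≤ T ^ 2 / 2 * A := by positivity
    have i3 : 0 < T ^ 2 / 2 * R := by positivity
    have i4 : T ^ 2 / 2 * g - T ^ 2 * g / r = (1 / 2 - 1 / r) * (T ^ 2 * g) := by ring
    linarith
  · have hA0 : 0 < A := lt_of_lt_of_le (by positivity) h1
    obtain ⟨T, hT1, hT2, hT3, hT4, hT5⟩ := peak hq hA0 hb0 hC0.le h1
    rcases eq_or_lt_of_le hd with hd0 | hd0
    · refine ⟨T, hT1, ?_⟩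
      rw [hsplit, ← hd0]
      have e : T ^ q / q * b = T ^ 2 * A / q := by rw [← hT3]; ring
      rw [e, c1]
      have i1 := mul_le_mul_of_nonneg_left hT4 hhq.le
      have i2 : 0 ≤ T ^ 2 / 2 * g := by positivity
      have i3 : 0 < T ^ 2 / 2 * R := by positivity
      have i4 : T ^ 2 / 2 * A - T ^ 2 * A / q = (1 / 2 - 1 / q) * (T ^ 2 * A) := by ring
      linarith
    · have hg0 : 0 < g := lt_of_lt_of_le (by positivity) h2
      obtain ⟨T', hT1', hT2', hT3', hT4', hT5'⟩ := peak hr hg0 hd0 hS.le h2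
      rcases le_total T T' with hle | hle
      · refine ⟨T, hT1, ?_⟩
        rw [hsplit]
        have e : T ^ q / q * b = T ^ 2 * A / q := by rw [← hT3]; ring
        rw [e]
        have i1 := mul_le_mul_of_nonneg_left hT4 hhq.le
        have i2 := hT5' T hT1.le hle
        have i3 : 0 < T ^ 2 / 2 * R := by positivity
        have i4 : T ^ 2 / 2 * A - T ^ 2 * A / q = (1 / 2 - 1 / q) * (T ^ 2 * A) := by ring
        linarith
      · refine ⟨T', hT1', ?_⟩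
        rw [hsplit]
        have e : T' ^ r / r * d = T' ^ 2 * g / r := by rw [← hT3']; ring
        rw [e]
        have i1 := mul_le_mul_of_nonneg_left hT4' hhr.le
        have i2 := hT5 T' hT1'.le hle
        have i3 : 0 < T' ^ 2 / 2 * R := by positivity
        have i4 : T' ^ 2 / 2 * g - T' ^ 2 * g / r = (1 / 2 - 1 / r) * (T' ^ 2 * g) := by ring
        linarith

lemma quad_pos {A B c : ℝ} (hA : 0 < A) (hB : 0 < B) (h : c ^ 2 < A * B) {X : Pt N} (hX : NZ X) :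
    0 < A * N2 X.u + B * N2 X.v - 2 * c * ∫ x, X.u x * X.v x := by
  set κ := (A * B - c ^ 2) / (A + B) with hκ
  have hs : 0 < A + B := by linarith
  have hκ0 : 0 < κ := div_pos (by linarith) hs
  have hκs : κ * (A + B) = A * B - c ^ 2 := by rw [hκ]; field_simp
  have h1 : κ < A := by
    rw [hκ, div_lt_iff₀ hs]; nlinarith [sq_nonneg c, mul_pos hA hA]
  have h2 : κ < B := by
    rw [hκ, div_lt_iff₀ hs]; nlinarith [sq_nonneg c, mul_pos hB hB]
  have h3 : c ^ 2 ≤ (A - κ) * (B - κ) := by nlinarith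
  have h4 := quad_int (by linarith : (0:ℝ) ≤ A - κ) (by linarith : (0:ℝ) ≤ B - κ) h3 X.hu.1 X.hv.1
  have h5 := mul_pos hκ0 ((NZ_iff X).1 hX)
  nlinarith

/-- below `√((μ-μ₀)ν)` all Nehari elements have energy `> (1/N) S^{N/2}` -/
theorem En_gt (hN : 3 ≤ N) (hq : 2 < q) (hqr : q < ts N) {μ ν lam : ℝ} (hν : 0 < ν)
    (hμ : mu0q N q < μ) (hl : lam ^ 2 < (μ - mu0q N q) * ν) {X : Pt N}
    (hX : X ∈ Neh N q μ ν lam) : cst N < En q μ ν lam X := by
  have hm := mu0q_pos hN hq hqr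
  have hC := Cq_pos (N := N) hN hq.le hqr.le
  have hR := quad_pos (by linarith : 0 < μ - mu0q N q) hν hl hX.1
  have h1 := Cq_beta hN hq hqr hm X.hu
  have h2 := (Sob_H1 hN X.hv).2
  have hgu := Kn_nonneg X.gu
  have hnu := N2_nonneg X.u
  set R := (μ - mu0q N q) * N2 X.u + ν * N2 X.v - 2 * lam * ∫ x, X.u x * X.v x with hRd
  have hQ : Qf μ ν lam X = (Kn X.gu + mu0q N q * N2 X.u) + Kn X.gv + R := by
    unfold Qf; rw [hRd]; ring
  rw [En_eq_fib, hQ]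
  refine two_peak hq (ts_gt hN) (by positivity) (Kn_nonneg _) hR (Lq_nonneg _ _) (Lq_nonneg _ _)
    (bd_pos hN hq hqr hX.1) (by rw [← hQ]; exact hX.2) (by positivity) (Sob_pos hN) h1 h2
    (cst_mu0 hN hq hqr) (cst_eq hN)

end par

end Pool.Agent.H158.LS
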