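import Mathlib
import Pool.Agent.H158.LS7

/-!
# Upper bounds for the Nehari level, closedness of the set of good couplings
-/

set_option autoImplicit false
set_option linter.unusedSectionVars false
set_option linter.unusedVariables false

open MeasureTheory Filter Topology Set
open scoped ContDiff ENNReal NNReal

namespace Pool.Agent.H158.LS

open Pool.Agent.Helper985.VR

variable {N : ℕ}

section par

variable {q μ ν : ℝ}

lemma NZ_tp {α β : ℝ} {φ : EN N → ℝ} (h1 : ContDiff ℝ ∞ φ) (h2 : HasCompactSupport φ)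
    (h0 : φ ≠ 0) (hβ : β ≠ 0) : NZ (tp α β h1 h2) := by
  rw [NZ_iff]
  unfold tp
  simp only
  rw [N2_const_mul, N2_const_mul]
  have hp : 0 < N2 φ := by
    refine lt_of_le_of_ne (N2_nonneg _) fun h => ?_
    exact test_ne h1.continuous h0 (N2_eq_zero (H1_test h1 h2).1 h.symm)
  have hβ2 : 0 < β ^ 2 := by positivity
  have hα2 := sq_nonneg α
  nlinarith [mul_pos hβ2 hp, mul_nonneg hα2 hp.le]

lemma dil_ne {s : ℝ} (hs : s ≠ 0) {φ : EN N → ℝ} (h0 : φ ≠ 0) : dil s φ ≠ 0 := by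
  intro h
  apply h0
  ext x
  have := congrFun h (s⁻¹ • x)
  unfold dil at this
  rw [smul_smul, mul_inv_cancel₀ hs, one_smul] at this
  exact this

lemma Neh_nonempty (hN : 3 ≤ N) (hq : 2 < q) (hqr : q < ts N) (hμ : 0 < μ) (hν : 0 < ν) {lam : ℝ}
    (hlam : 0 < lam) (hl : lam ^ 2 < μ * ν) : (Neh N q μ ν lam).Nonempty := by
  obtain ⟨φ, h1, h2, h3⟩ := exists_test N
  obtain ⟨t, _, _, hm⟩ := exists_sm hN hq hqr hμ hν hlam hl (NZ_tp (α := 1) (β := 1) h1 h2 h3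
    one_ne_zero)
  exact ⟨_, hm⟩

/-- for couplings close to `√(μν)` the level is below `(1/N) S^{N/2}` -/
theorem exists_lam1 (hN : 3 ≤ N) (hq : 2 < q) (hqr : q < ts N) (hμ : 0 < μ) (hν : 0 < ν) :
    ∃ l1 : ℝ, 0 < l1 ∧ l1 < √(μ * ν) ∧ ∀ τ : ℝ, l1 ≤ τ → τ < √(μ * ν) →
      mm N q μ ν τ < cst N := by
  obtain ⟨φ, h1, h2, h3⟩ := exists_test N
  have hμν : 0 < μ * ν := mul_pos hμ hν
  set ρ := √(μ * ν) with hρ
  have hρ0 : 0 < ρ := Real.sqrt_pos.2 hμν
  have hρ2 : ρ ^ 2 = μ * ν := Real.sq_sqrt hμν.le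
  have hr := ts_gt hN
  have hr0 := ts_pos hN
  have hq0 : 0 < q := by linarith
  have hq2 : 0 < q - 2 := by linarith
  have hS := Sob_pos hN
  have hc0 : 0 < cst N := by
    have := half_sub_pos hr
    rw [cst_eq hN]; positivity
  set K := Kn (gr φ) with hK
  set n2 := N2 φ with hn2
  set L := Lq q φ with hL
  have hK0 : 0 ≤ K := Kn_nonneg _
  have hn20 : 0 ≤ n2 := N2_nonneg _
  have hL0 : 0 < L := Lq_pos_of_ne hq0 (test_int hq0 h1.continuous h2) (test_ne h1.continuous h3)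
  set E1 := (μ + ν) * K + 2 * ρ * n2 with hE1
  have hE10 : 0 ≤ E1 := by positivity
  set E2 := E1 / (ν ^ (q / 2) * L) with hE2
  have hE20 : 0 ≤ E2 := by positivity
  set e := 2 * q / (q - 2) - N with he
  have he0 : 0 < e := by
    have := expo_pos hN hq hqr
    have h2 : e = 2 * (q / (q - 2) - N / 2) := by rw [he]; ring
    rw [h2]; positivity
  -- choose s
  obtain ⟨s, hs0, hs1, hs2⟩ : ∃ s : ℝ, 0 < s ∧ s ^ 2 < ρ ∧
      1 / 2 * E1 * E2 ^ (2 / (q - 2)) * s ^ e < cst N := by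
    have t1 : Tendsto (fun s : ℝ => 1 / 2 * E1 * E2 ^ (2 / (q - 2)) * s ^ e) (𝓝[>] 0)
        (𝓝 (1 / 2 * E1 * E2 ^ (2 / (q - 2)) * 0 ^ e)) :=
      (((Real.continuous_rpow_const he0.le).tendsto 0).mono_left nhdsWithin_le_nhds).const_mul _
    rw [Real.zero_rpow he0.ne', mul_zero] at t1
    have t2 : Tendsto (fun s : ℝ => s ^ 2) (𝓝[>] 0) (𝓝 (0 ^ 2)) :=
      ((continuous_pow 2).tendsto 0).mono_left nhdsWithin_le_nhds
    rw [zero_pow (by norm_num)] at t2
    obtain ⟨s, ⟨h4, h5⟩, h6⟩ := (((t1.eventually_lt_const hc0).and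
      (t2.eventually_lt_const hρ0)).and self_mem_nhdsWithin).exists
    exact ⟨s, h6, h5, h4⟩
  refine ⟨ρ - s ^ 2, by linarith, by nlinarith [sq_nonneg s, pow_pos hs0 2], fun τ hτ1 hτ2 => ?_⟩
  have hτ0 : 0 < τ := by linarith
  have hτμν : τ ^ 2 < μ * ν := by rw [← hρ2]; exact pow_lt_pow_left₀ hτ2 hτ0.le (by norm_num)
  have hd1 := dil_smooth (s := s) h1
  have hd2 := dil_cc hs0.ne' h2
  have hsν : 0 < √ν := Real.sqrt_pos.2 hν
  have hsμ : 0 < √μ := Real.sqrt_pos.2 hμ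
  set X : Pt N := tp (√ν) (√μ) hd1 hd2 with hX
  have hXnz : NZ X := NZ_tp hd1 hd2 (dil_ne hs0.ne' h3) hsμ.ne'
  obtain ⟨t, ht0, ht1, htm⟩ := exists_sm hN hq hqr hμ hν hτ0 hτμν hXnz
  set M := (s ^ N)⁻¹ with hM
  have hM0 : 0 < M := by positivity
  have hQ : Qf μ ν τ X = M * ((μ + ν) * (s ^ 2 * K) + 2 * ρ * (ρ - τ) * n2) := by
    rw [hX, Qf_tp, Kn_dil hs0 h1, N2_dil hs0, Real.sq_sqrt hν.le, Real.sq_sqrt hμ.le]
    have e1 : √ν * √μ = ρ := by rw [hρ, mul_comm, ← Real.sqrt_mul hμ.le]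
    rw [e1]
    have e2 : μ * ν + ν * μ - 2 * τ * ρ = 2 * ρ * (ρ - τ) := by nlinarith
    rw [e2]; ring
  have hQle : Qf μ ν τ X ≤ M * (s ^ 2 * E1) := by
    rw [hQ]
    refine mul_le_mul_of_nonneg_left ?_ hM0.le
    have i1 : 2 * ρ * (ρ - τ) * n2 ≤ 2 * ρ * s ^ 2 * n2 := by
      refine mul_le_mul_of_nonneg_right ?_ hn20
      exact mul_le_mul_of_nonneg_left (by linarith) (by positivity)
    rw [hE1]; nlinarith
  have hb : Lq q X.u = M * (ν ^ (q / 2) * L) := by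
    have e1 : Lq q X.u = |√ν| ^ q * Lq q (dil s φ) := Lq_const_mul q (√ν) (dil s φ)
    rw [e1, Lq_dil q hs0, abs_of_pos hsν, Real.sqrt_eq_rpow, ← Real.rpow_mul hν.le]
    have e2 : 1 / 2 * q = q / 2 := by ring
    rw [e2]; ring
  have hb0 : 0 < Lq q X.u := by rw [hb]; positivity
  have hd0 : 0 ≤ Lq (ts N) X.v := Lq_nonneg _ _
  have hQ0 : 0 < Qf μ ν τ X := Qf_pos hμ hν hτ0 le_rfl hτμν hXnz
  refine (mm_le hN hq htm).trans_lt ?_
  rw [En_Neh htm]
  have f1 : Lq q (X.sm t).u = t ^ q * Lq q X.u := by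
    unfold Pt.sm; simp only; rw [Lq_const_mul, abs_of_pos ht0]
  have f2 : Lq (ts N) (X.sm t).v = t ^ ts N * Lq (ts N) X.v := by
    unfold Pt.sm; simp only; rw [Lq_const_mul, abs_of_pos ht0]
  rw [f1, f2]
  have htb : 0 < t ^ q * Lq q X.u := by positivity
  have htd : 0 ≤ t ^ ts N * Lq (ts N) X.v := by positivity
  have g1 : (1 / 2 - 1 / q) * (t ^ q * Lq q X.u) ≤ 1 / 2 * (t ^ q * Lq q X.u) :=
    mul_le_mul_of_nonneg_right (by have : 0 < 1 / q := by positivity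
                                   linarith) htb.le
  have g2 : (1 / 2 - 1 / ts N) * (t ^ ts N * Lq (ts N) X.v) ≤ 1 / 2 * (t ^ ts N * Lq (ts N) X.v) :=
    mul_le_mul_of_nonneg_right (by have : 0 < 1 / ts N := by positivity
                                   linarith) htd
  have g3 : (1 / 2 - 1 / q) * (t ^ q * Lq q X.u) + (1 / 2 - 1 / ts N) * (t ^ ts N * Lq (ts N) X.v)
      ≤ 1 / 2 * (t ^ 2 * Qf μ ν τ X) := by rw [ht1]; linarith
  refine g3.trans_lt (lt_of_le_of_lt ?_ hs2)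
  -- t^2 ≤ (Q/b)^(2/(q-2))
  have e1 : t ^ q = t ^ 2 * t ^ (q - 2) := by
    rw [← Real.rpow_two, ← Real.rpow_add ht0]; congr 1; ring
  have g4 : t ^ (q - 2) ≤ s ^ 2 * E2 := by
    have g5 : t ^ q * Lq q X.u ≤ t ^ 2 * Qf μ ν τ X := by rw [ht1]; linarith
    rw [e1, mul_assoc] at g5
    have g6 := le_of_mul_le_mul_left g5 (by positivity : 0 < t ^ 2)
    have g7 : t ^ (q - 2) * Lq q X.u ≤ M * (s ^ 2 * E1) := g6.trans hQle
    rw [hb] at g7
    have g8 : t ^ (q - 2) * (ν ^ (q / 2) * L) ≤ s ^ 2 * E1 := by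
      have : M * (t ^ (q - 2) * (ν ^ (q / 2) * L)) ≤ M * (s ^ 2 * E1) := by
        calc M * (t ^ (q - 2) * (ν ^ (q / 2) * L)) = t ^ (q - 2) * (M * (ν ^ (q / 2) * L)) := by ring
          _ ≤ _ := g7
      exact le_of_mul_le_mul_left this hM0
    rw [hE2, ← mul_div_assoc, le_div_iff₀ (by positivity)]
    exact g8
  have g5 : t ^ 2 ≤ (s ^ 2 * E2) ^ (2 / (q - 2)) := by
    have h6 := Real.rpow_le_rpow (by positivity) g4 (by positivity : (0:ℝ) ≤ 2 / (q - 2))
    rw [← Real.rpow_mul ht0.le] at h6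
    have : (q - 2) * (2 / (q - 2)) = 2 := by field_simp
    rw [this, Real.rpow_two] at h6
    exact h6
  calc 1 / 2 * (t ^ 2 * Qf μ ν τ X) ≤ 1 / 2 * ((s ^ 2 * E2) ^ (2 / (q - 2)) * (M * (s ^ 2 * E1))) := by
        refine mul_le_mul_of_nonneg_left ?_ (by norm_num)
        exact mul_le_mul g5 hQle hQ0.le (by positivity)
    _ = 1 / 2 * E1 * E2 ^ (2 / (q - 2)) * s ^ e := by
        rw [Real.mul_rpow (by positivity) hE20]
        have e2 : (s ^ 2) ^ (2 / (q - 2)) = s ^ (4 / (q - 2)) := by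
          rw [← Real.rpow_two, ← Real.rpow_mul hs0.le]; congr 1; ring
        have e3 : s ^ e = s ^ (4 / (q - 2)) * (M * s ^ 2) := by
          rw [hM, ← Real.rpow_natCast s N, ← Real.rpow_neg hs0.le, ← Real.rpow_two,
            ← Real.rpow_add hs0, ← Real.rpow_add hs0]
          congr 1
          rw [he]
          field_simp
          ring
        rw [e2, e3]; ring

lemma sup_fib {r Q d C t : ℝ} (hr : 2 < r) (ht : 0 < t) (hd : 0 < d) (hC : 0 ≤ C)
    (h : t ^ 2 * Q = t ^ r * d) (hQ : Q ≤ C * d ^ (2 / r)) : t ^ r * d ≤ C ^ (r / (r - 2)) := by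
  have hr0 : 0 < r := by linarith
  have hr2 : 0 < r - 2 := by linarith
  set y := t ^ r * d with hy
  have hy0 : 0 < y := by positivity
  have h1 : y ^ (2 / r) = t ^ 2 * d ^ (2 / r) := by
    rw [hy, Real.mul_rpow (by positivity) hd.le, ← Real.rpow_mul ht.le]
    have : r * (2 / r) = 2 := by field_simp
    rw [this, Real.rpow_two]
  have h2 : y ≤ C * y ^ (2 / r) := by
    rw [h1, ← h]
    have := mul_le_mul_of_nonneg_left hQ (sq_nonneg t)
    linarith
  have h3 : y ^ ((r - 2) / r) ≤ C := by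
    have e : y = y ^ ((r - 2) / r) * y ^ (2 / r) := by
      rw [← Real.rpow_add hy0]
      have : (r - 2) / r + 2 / r = 1 := by field_simp; ring
      rw [this, Real.rpow_one]
    have hp : 0 < y ^ (2 / r) := by positivity
    have h4 : y ^ ((r - 2) / r) * y ^ (2 / r) ≤ C * y ^ (2 / r) := by rw [← e]; exact h2
    exact le_of_mul_le_mul_right h4 hp
  have h5 := Real.rpow_le_rpow (by positivity) h3 (by positivity : (0:ℝ) ≤ r / (r - 2))
  rw [← Real.rpow_mul hy0.le] at h5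
  have : (r - 2) / r * (r / (r - 2)) = 1 := by field_simp
  rwa [this, Real.rpow_one] at h5

/-- the level never exceeds `(1/N) S^{N/2}` -/
theorem mm_le_cst (hN : 3 ≤ N) (hq : 2 < q) (hqr : q < ts N) (hμ : 0 < μ) (hν : 0 < ν) {lam : ℝ}
    (hlam : 0 < lam) (hl : lam ^ 2 < μ * ν) : mm N q μ ν lam ≤ cst N := by
  have hr := ts_gt hN
  have hr0 := ts_pos hN
  have hr2 : 0 < ts N - 2 := by linarith
  have hS := Sob_pos hN
  have hNr : (3:ℝ) ≤ N := by exact_mod_cast hN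
  have key : ∀ ε : ℝ, 0 < ε →
      mm N q μ ν lam ≤ (1 / 2 - 1 / ts N) * (Sob N + 2 * ε) ^ (ts N / (ts N - 2)) := by
    intro ε hε
    obtain ⟨φ, h1, h2, h3, hD, hK⟩ := Sob_sharp hN hε
    set D := Lq (ts N) φ with hDd
    have hDp : 0 < D ^ (2 / ts N) := by positivity
    -- choose s
    obtain ⟨s, hs0, hs⟩ : ∃ s : ℝ, 0 < s ∧ ν * N2 φ / s ^ 2 < ε * D ^ (2 / ts N) := by
      have t1 : Tendsto (fun s : ℝ => ν * N2 φ / s ^ 2) atTop (𝓝 0) :=
        tendsto_const_nhds.div_atTop (tendsto_pow_atTop (by norm_num))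
      obtain ⟨s, h4, h5⟩ := ((t1.eventually_lt_const (by positivity :
        (0:ℝ) < ε * D ^ (2 / ts N))).and (eventually_gt_atTop 0)).exists
      exact ⟨s, h5, h4⟩
    have hd1 := dil_smooth (s := s) h1
    have hd2 := dil_cc hs0.ne' h2
    set X : Pt N := tp 0 1 hd1 hd2 with hX
    have hXnz : NZ X := NZ_tp hd1 hd2 (dil_ne hs0.ne' h3) one_ne_zero
    obtain ⟨t, ht0, ht1, htm⟩ := exists_sm hN hq hqr hμ hν hlam hl hXnz
    set M := (s ^ N)⁻¹ with hM
    have hM0 : 0 < M := by positivity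
    have hQ : Qf μ ν lam X = M * (s ^ 2 * Kn (gr φ) + ν * N2 φ) := by
      rw [hX, Qf_tp, Kn_dil hs0 h1, N2_dil hs0]; ring
    have hb : Lq q X.u = 0 := by
      have e1 : Lq q X.u = |(0:ℝ)| ^ q * Lq q (dil s φ) := Lq_const_mul q 0 (dil s φ)
      rw [e1, abs_zero, Real.zero_rpow (by linarith), zero_mul]
    have hd : Lq (ts N) X.v = M * D := by
      have e1 : Lq (ts N) X.v = |(1:ℝ)| ^ ts N * Lq (ts N) (dil s φ) :=
        Lq_const_mul (ts N) 1 (dil s φ)
      rw [e1, abs_one, Real.one_rpow, one_mul, Lq_dil _ hs0]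
    rw [hb, mul_zero, zero_add, hd] at ht1
    refine (mm_le hN hq htm).trans ?_
    rw [En_Neh htm]
    have f1 : Lq q (X.sm t).u = t ^ q * Lq q X.u := by
      unfold Pt.sm; simp only; rw [Lq_const_mul, abs_of_pos ht0]
    have f2 : Lq (ts N) (X.sm t).v = t ^ ts N * Lq (ts N) X.v := by
      unfold Pt.sm; simp only; rw [Lq_const_mul, abs_of_pos ht0]
    rw [f1, f2, hb, hd, mul_zero, mul_zero, zero_add]
    refine mul_le_mul_of_nonneg_left ?_ (half_sub_pos hr).le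
    refine sup_fib hr ht0 (by positivity) (by positivity) ht1 ?_
    -- Q ≤ (S + 2ε) (M D)^(2/r)
    have hMr : M ^ (2 / ts N) = M * s ^ 2 := by
      rw [hM, ← Real.rpow_natCast s N, ← Real.rpow_neg hs0.le, ← Real.rpow_mul hs0.le,
        ← Real.rpow_two, ← Real.rpow_add hs0]
      congr 1
      unfold ts
      have h0 : (N:ℝ) - 2 ≠ 0 := by intro h; linarith
      have h00 : (N:ℝ) ≠ 0 := by intro h; linarith
      field_simp
      ring
    rw [hQ, Real.mul_rpow hM0.le hD.le, hMr]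
    have h5 : ν * N2 φ < s ^ 2 * (ε * D ^ (2 / ts N)) := by
      rw [div_lt_iff₀ (by positivity)] at hs
      linarith
    have h6 : s ^ 2 * Kn (gr φ) + ν * N2 φ ≤ s ^ 2 * ((Sob N + 2 * ε) * D ^ (2 / ts N)) := by
      have := mul_le_mul_of_nonneg_left hK.le (sq_nonneg s)
      nlinarith
    calc M * (s ^ 2 * Kn (gr φ) + ν * N2 φ) ≤ M * (s ^ 2 * ((Sob N + 2 * ε) * D ^ (2 / ts N))) :=
          mul_le_mul_of_nonneg_left h6 hM0.le
      _ = _ := by ring
  have t1 : Tendsto (fun ε : ℝ => (1 / 2 - 1 / ts N) * (Sob N + 2 * ε) ^ (ts N / (ts N - 2)))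
      (𝓝[>] 0) (𝓝 ((1 / 2 - 1 / ts N) * (Sob N + 2 * 0) ^ (ts N / (ts N - 2)))) := by
    have hc : Continuous fun ε : ℝ => (1 / 2 - 1 / ts N) * (Sob N + 2 * ε) ^ (ts N / (ts N - 2)) :=
      continuous_const.mul ((Real.continuous_rpow_const (by positivity)).comp
        (continuous_const.add (continuous_const.mul continuous_id)))
    exact (hc.tendsto 0).mono_left nhdsWithin_le_nhds
  rw [mul_zero, add_zero, ← cst_eq hN] at t1
  refine ge_of_tendsto t1 ?_
  filter_upwards [self_mem_nhdsWithin] with ε hε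
  exact key ε hε

/-- a ground state of the system -/
def IsGS (q μ ν lam : ℝ) (X : Pt N) : Prop :=
  X ∈ Neh N q μ ν lam ∧ IsCrit q μ ν lam X ∧ En q μ ν lam X = mm N q μ ν lam

/-- the set of couplings carrying low energy Nehari elements is closed, and a ground state exists
there -/
theorem gs_of_seq (hN : 3 ≤ N) (hq : 2 < q) (hqr : q < ts N) (hμ : 0 < μ) (hν : 0 < ν) {lam lb : ℝ}
    (hlam : 0 < lam) (hlb : lb ^ 2 < μ * ν) (hlamb : lam ≤ lb)
    (l : ℕ → ℝ) (hl : Tendsto l atTop (𝓝 lam)) (hl0 : ∀ n, 0 < l n) (hl1 : ∀ n, l n ≤ lb)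
    (hX : ∀ n, ∃ X ∈ Neh N q μ ν (l n), En q μ ν (l n) X ≤ cst N) :
    ∃ Z : Pt N, IsGS q μ ν lam Z := by
  have hll : lam ^ 2 < μ * ν := by
    have : lam ^ 2 ≤ lb ^ 2 := pow_le_pow_left₀ hlam.le hlamb 2
    linarith
  suffices h : ∃ Z ∈ Neh N q μ ν lam, En q μ ν lam Z = mm N q μ ν lam by
    obtain ⟨Z, h1, h2⟩ := h
    exact ⟨Z, h1, crit hN hq hqr hμ hν hlam hll h1 h2, h2⟩
  rcases lt_or_ge (mm N q μ ν lam) (cst N) with h | h
  · -- minimising sequence
    have hne : (En q μ ν lam '' Neh N q μ ν lam).Nonempty :=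
      (Neh_nonempty hN hq hqr hμ hν hlam hll).image _
    have hseq : ∀ n : ℕ, ∃ X ∈ Neh N q μ ν lam,
        En q μ ν lam X < min (cst N) (mm N q μ ν lam + 1 / ((n:ℝ) + 1)) := by
      intro n
      have hpos : 0 < 1 / ((n:ℝ) + 1) := by positivity
      obtain ⟨_, ⟨X, hX1, rfl⟩, hX2⟩ := exists_lt_of_csInf_lt hne
        (show mm N q μ ν lam < min (cst N) (mm N q μ ν lam + 1 / ((n:ℝ) + 1)) from
          lt_min h (by linarith))
      exact ⟨X, hX1, hX2⟩
    choose X hX1 hX2 using hseq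
    refine core hN hq hqr hμ hν hlam hlb hlamb (fun _ => lam) tendsto_const_nhds (fun _ => hlam)
      (fun _ => hlamb) X hX1 (fun n => (hX2 n).le.trans (min_le_left _ _)) ?_
    intro ε hε
    have ht := tendsto_one_div_add_atTop_nhds_zero_nat (𝕜 := ℝ)
    filter_upwards [ht.eventually_lt_const hε] with n hn
    have := (hX2 n).le.trans (min_le_right _ _)
    linarith
  · choose X hX1 hX2 using hX
    refine core hN hq hqr hμ hν hlam hlb hlamb l hl hl0 hl1 X hX1 hX2 ?_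
    intro ε hε
    exact Eventually.of_forall fun n => by have := hX2 n; linarith

/-- the level is `≥ (1/N) S^{N/2}` below `√((μ-μ₀)ν)` -/
theorem cst_le_mm (hN : 3 ≤ N) (hq : 2 < q) (hqr : q < ts N) (hν : 0 < ν)
    (hμ : mu0q N q < μ) {lam : ℝ} (hlam : 0 < lam) (hl : lam ^ 2 < (μ - mu0q N q) * ν) :
    cst N ≤ mm N q μ ν lam := by
  have hm := mu0q_pos hN hq hqr
  have hl2 : lam ^ 2 < μ * ν := by nlinarith [mul_pos hm hν]
  refine le_csInf ((Neh_nonempty hN hq hqr (by linarith) hν hlam hl2).image _) ?_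
  rintro _ ⟨X, hX, rfl⟩
  exact (En_gt hN hq hqr hν hμ hl hX).le

end par

end Pool.Agent.H158.LS
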