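import Mathlib
import Pool.Agent.H158.LS8

/-!
# The set of couplings with a ground state is `[λ_{μ,ν}, √(μν))`
-/

set_option autoImplicit false
set_option linter.unusedSectionVars false
set_option linter.unusedVariables false

open MeasureTheory Filter Topology Set
open scoped ContDiff ENNReal NNReal

namespace Pool.Agent.H158.LS

open Pool.Agent.Helper985.VR

variable {N : ℕ} {q μ ν : ℝ}

/-- couplings carrying a ground state -/
def GSet (N : ℕ) (q μ ν : ℝ) : Set ℝ :=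
  {l | 0 < l ∧ l < √(μ * ν) ∧ ∃ X : Pt N, IsGS q μ ν l X}

/-- the couplings in the definition of `λ_{μ,ν}` -/
def TSet (N : ℕ) (q μ ν : ℝ) : Set ℝ :=
  {l | l < √(μ * ν) ∧ ∀ τ, l ≤ τ → τ < √(μ * ν) → mm N q μ ν τ < cst N}

/-- flipping the sign of `v` -/
def Pt.fl (X : Pt N) : Pt N where
  u := X.u
  gu := X.gu
  v := fun x => (-1) * X.v x
  gv := fun i x => (-1) * X.gv i x
  hu := X.hu
  hv := X.hv.const_mul (-1)

lemma Qf_fl (μ ν lam : ℝ) (X : Pt N) :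
    Qf μ ν lam X.fl = Qf μ ν lam X + 4 * lam * ∫ x, X.u x * X.v x := by
  unfold Qf Pt.fl
  simp only
  rw [Kn_const_mul, N2_const_mul]
  have : (∫ x, X.u x * (-1 * X.v x)) = -∫ x, X.u x * X.v x := by
    rw [← integral_neg]; congr 1; ext x; ring
  rw [this]; ring

lemma Lq_fl (r : ℝ) (X : Pt N) : Lq r X.fl.v = Lq r X.v := by
  have : Lq r X.fl.v = |(-1:ℝ)| ^ r * Lq r X.v := Lq_const_mul r (-1) X.v
  rw [this]; simp

lemma NZ_fl {X : Pt N} (h : NZ X) : NZ X.fl := by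
  rw [NZ_iff] at h ⊢
  unfold Pt.fl
  simp only
  rw [N2_const_mul]
  linarith

lemma lt_of_sqrt {l : ℝ} (hμν : 0 < μ * ν) (hl : 0 < l) (h : l < √(μ * ν)) : l ^ 2 < μ * ν := by
  have h2 := pow_lt_pow_left₀ h hl.le (two_ne_zero)
  rwa [Real.sq_sqrt hμν.le] at h2

lemma mem_GSet_of (hN : 3 ≤ N) (hq : 2 < q) (hqr : q < ts N) (hμ : 0 < μ) (hν : 0 < ν) {l : ℝ}
    (hl : 0 < l) (hl2 : l < √(μ * ν)) (h : ∃ X ∈ Neh N q μ ν l, En q μ ν l X ≤ cst N) :
    l ∈ GSet N q μ ν := by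
  have hll := lt_of_sqrt (mul_pos hμ hν) hl hl2
  exact ⟨hl, hl2, gs_of_seq hN hq hqr hμ hν hl hll le_rfl (fun _ => l) tendsto_const_nhds
    (fun _ => hl) (fun _ => le_rfl) fun _ => h⟩

lemma mem_GSet_of_lt (hN : 3 ≤ N) (hq : 2 < q) (hqr : q < ts N) (hμ : 0 < μ) (hν : 0 < ν) {l : ℝ}
    (hl : 0 < l) (hl2 : l < √(μ * ν)) (h : mm N q μ ν l < cst N) :
    l ∈ GSet N q μ ν := by
  have hll := lt_of_sqrt (mul_pos hμ hν) hl hl2
  refine mem_GSet_of hN hq hqr hμ hν hl hl2 ?_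
  obtain ⟨_, ⟨X, hX1, rfl⟩, hX2⟩ := exists_lt_of_csInf_lt
    ((Neh_nonempty hN hq hqr hμ hν hl hll).image _) h
  exact ⟨X, hX1, hX2.le⟩

lemma low_of_mem (hN : 3 ≤ N) (hq : 2 < q) (hqr : q < ts N) (hμ : 0 < μ) (hν : 0 < ν) {l : ℝ}
    (h : l ∈ GSet N q μ ν) : ∃ X : Pt N, IsGS q μ ν l X ∧ En q μ ν l X ≤ cst N := by
  obtain ⟨hl, hl2, X, hX⟩ := h
  have hll := lt_of_sqrt (mul_pos hμ hν) hl hl2
  exact ⟨X, hX, by rw [hX.2.2]; exact mm_le_cst hN hq hqr hμ hν hl hll⟩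

/-- above a coupling with a ground state the level is strictly below `(1/N) S^{N/2}` -/
lemma mm_lt_of_mem (hN : 3 ≤ N) (hq : 2 < q) (hqr : q < ts N) (hμ : 0 < μ) (hν : 0 < ν) {l l' : ℝ}
    (h : l ∈ GSet N q μ ν) (hll' : l < l') (hl' : l' < √(μ * ν)) : mm N q μ ν l' < cst N := by
  obtain ⟨X, hX, hXc⟩ := low_of_mem hN hq hqr hμ hν h
  have hl := h.1
  have hsq := lt_of_sqrt (mul_pos hμ hν) hl h.2.1
  have hl'0 : 0 < l' := hl.trans hll'
  have hsq' := lt_of_sqrt (mul_pos hμ hν) hl'0 hl'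
  have hr := ts_gt hN
  set I := ∫ x, X.u x * X.v x with hI
  have hb := Lq_nonneg q X.u
  have hd := Lq_nonneg (ts N) X.v
  -- ∫ uv ≥ 0
  have hI0 : 0 ≤ I := by
    by_contra hneg
    push Not at hneg
    have hQlt : Qf μ ν l X.fl < Qf μ ν l X := by
      rw [Qf_fl]
      have : 4 * l * I < 0 := by nlinarith
      linarith
    obtain ⟨t, ht0, ht1, htm⟩ := exists_sm hN hq hqr hμ hν hl hsq (NZ_fl hX.1.1)
    have h1 := mm_le hN hq htm
    rw [En_sm q μ ν l _ ht0.le, Lq_fl] at h1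
    have h2 := fib_le (q := q) (r := ts N) hq hr hb hd hX.1.2 ht0.le
    rw [← En_eq_fib, hX.2.2] at h2
    have e : X.fl.u = X.u := rfl
    rw [e] at h1
    unfold fib at h1 h2
    have h3 : t ^ 2 / 2 * Qf μ ν l X.fl < t ^ 2 / 2 * Qf μ ν l X :=
      mul_lt_mul_of_pos_left hQlt (by positivity)
    linarith
  by_contra hcon
  push Not at hcon
  obtain ⟨t, ht0, ht1, htm⟩ := exists_sm hN hq hqr hμ hν hl'0 hsq' hX.1.1
  have h1 := mm_le hN hq htm
  rw [En_sm q μ ν l' _ ht0.le] at h1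
  have h2 := fib_le (q := q) (r := ts N) hq hr hb hd hX.1.2 ht0.le
  rw [← En_eq_fib] at h2
  have hQ : Qf μ ν l' X = Qf μ ν l X - 2 * (l' - l) * I := by
    unfold Qf; rw [hI]; ring
  have hI1 : I = 0 := by
    refine le_antisymm ?_ hI0
    by_contra hpos
    push Not at hpos
    unfold fib at h1 h2
    rw [hQ] at h1
    have h3 : 0 < t ^ 2 / 2 * (2 * (l' - l) * I) := by
      have : 0 < l' - l := by linarith
      positivity
    nlinarith
  have hQ' : Qf μ ν l' X = Qf μ ν l X := by rw [hQ, hI1]; ring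
  have hXm : X ∈ Neh N q μ ν l' := ⟨hX.1.1, by rw [hQ']; exact hX.1.2⟩
  have hE' : En q μ ν l' X = En q μ ν l X := by rw [En_eq_fib, En_eq_fib, hQ']
  have hmin : En q μ ν l' X = mm N q μ ν l' := by
    refine le_antisymm ?_ (mm_le hN hq hXm)
    rw [hE']; exact hXc.trans hcon
  have hc' := crit hN hq hqr hμ hν hl'0 hsq' hXm hmin
  have hc := hX.2.1
  have e1 := (hc X.v X.gv X.hv).1
  have e1' := (hc' X.v X.gv X.hv).1
  have e2 := (hc X.u X.gu X.hu).2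
  have e2' := (hc' X.u X.gu X.hu).2
  have hvv : (∫ x, X.v x * X.v x) = N2 X.v := by unfold N2; congr 1; ext x; ring
  have huu : (∫ x, X.u x * X.u x) = N2 X.u := by unfold N2; congr 1; ext x; ring
  rw [hvv] at e1 e1'
  rw [huu] at e2 e2'
  have hd' : 0 < l' - l := by linarith
  have z1 : (l' - l) * N2 X.v = 0 := by linarith
  have z2 : (l' - l) * N2 X.u = 0 := by linarith
  have z3 : N2 X.v = 0 := by
    rcases mul_eq_zero.1 z1 with h | h
    · linarith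
    · exact h
  have z4 : N2 X.u = 0 := by
    rcases mul_eq_zero.1 z2 with h | h
    · linarith
    · exact h
  have := (NZ_iff X).1 hX.1.1
  linarith

lemma rho_le (hN : 3 ≤ N) (hq : 2 < q) (hqr : q < ts N) (hν : 0 < ν) (hμ : mu0q N q < μ) {l : ℝ}
    (h : l ∈ GSet N q μ ν) : √((μ - mu0q N q) * ν) ≤ l := by
  have hm := mu0q_pos hN hq hqr
  by_contra hlt
  push Not at hlt
  obtain ⟨X, hX, hXc⟩ := low_of_mem hN hq hqr (by linarith) hν h
  have hl := lt_of_sqrt (μ := μ - mu0q N q) (ν := ν) (mul_pos (by linarith) hν) h.1 hlt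
  have := En_gt hN hq hqr hν hμ hl hX.1
  linarith

theorem GSet_eq (hN : 3 ≤ N) (hq : 2 < q) (hqr : q < ts N) (hν : 0 < ν) (hμ : mu0q N q < μ) :
    √((μ - mu0q N q) * ν) ≤ sInf (GSet N q μ ν) ∧ sInf (GSet N q μ ν) < √(μ * ν) ∧
      GSet N q μ ν = Ico (sInf (GSet N q μ ν)) (√(μ * ν)) ∧
      sInf (TSet N q μ ν) = sInf (GSet N q μ ν) := by
  have hm := mu0q_pos hN hq hqr
  have hμ0 : 0 < μ := by linarith
  have hμν : 0 < μ * ν := mul_pos hμ0 hν
  obtain ⟨l1, hl10, hl11, hl12⟩ := exists_lam1 (N := N) hN hq hqr hμ0 hν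
  have hl1G : l1 ∈ GSet N q μ ν := mem_GSet_of_lt hN hq hqr hμ0 hν hl10 hl11 (hl12 l1 le_rfl hl11)
  have hρ : 0 < √((μ - mu0q N q) * ν) := Real.sqrt_pos.2 (mul_pos (by linarith) hν)
  have hbdd : BddBelow (GSet N q μ ν) := ⟨_, fun l hl => rho_le hN hq hqr hν hμ hl⟩
  have hlow : √((μ - mu0q N q) * ν) ≤ sInf (GSet N q μ ν) :=
    le_csInf ⟨l1, hl1G⟩ fun l hl => rho_le hN hq hqr hν hμ hl
  have hup : sInf (GSet N q μ ν) < √(μ * ν) := (csInf_le hbdd hl1G).trans_lt hl11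
  set Λ := sInf (GSet N q μ ν) with hΛ
  have hΛ0 : 0 < Λ := hρ.trans_le hlow
  have hmem : Λ ∈ GSet N q μ ν := by
    obtain ⟨l, hanti, hlt, hlG⟩ := exists_seq_tendsto_sInf ⟨l1, hl1G⟩ hbdd
    have h0 := hlG 0
    refine ⟨hΛ0, hup, gs_of_seq hN hq hqr hμ0 hν (lb := l 0) hΛ0
      (lt_of_sqrt hμν h0.1 h0.2.1) (csInf_le hbdd h0) l hlt (fun n => (hlG n).1)
      (fun n => hanti (Nat.zero_le n)) fun n => ?_⟩
    obtain ⟨X, hX, hXc⟩ := low_of_mem hN hq hqr hμ0 hν (hlG n)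
    exact ⟨X, hX.1, hXc⟩
  refine ⟨hlow, hup, ?_, ?_⟩
  · ext l
    constructor
    · intro h
      exact ⟨csInf_le hbdd h, h.2.1⟩
    · rintro ⟨h1, h2⟩
      rcases eq_or_lt_of_le h1 with h3 | h3
      · rw [← h3]; exact hmem
      · exact mem_GSet_of_lt hN hq hqr hμ0 hν (hΛ0.trans h3) h2
          (mm_lt_of_mem hN hq hqr hμ0 hν hmem h3 h2)
  · -- TSet
    have hTG : ∀ l ∈ TSet N q μ ν, Λ ≤ l := by
      intro l hl
      by_contra hlt
      push Not at hlt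
      -- then m < cst on all of [l, √)
      have hτ0 : 0 < max l (Λ / 2) := lt_of_lt_of_le (by positivity) (le_max_right _ _)
      have hτΛ : max l (Λ / 2) < Λ := max_lt hlt (by linarith)
      have h1 := hl.2 (max l (Λ / 2)) (le_max_left _ _) (hτΛ.trans hup)
      have h2 := mem_GSet_of_lt hN hq hqr hμ0 hν hτ0 (hτΛ.trans hup) h1
      have := csInf_le hbdd h2
      linarith
    have hl1T : l1 ∈ TSet N q μ ν := ⟨hl11, hl12⟩
    refine le_antisymm ?_ (le_csInf ⟨l1, hl1T⟩ hTG)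
    refine le_of_forall_gt_imp_ge_of_dense fun c hc => ?_
    rcases lt_or_ge c (√(μ * ν)) with h1 | h1
    · refine csInf_le ⟨Λ, hTG⟩ ⟨h1, fun τ h2 h3 => ?_⟩
      exact mm_lt_of_mem hN hq hqr hμ0 hν hmem (hc.trans_le h2) h3
    · exact (csInf_le ⟨Λ, hTG⟩ hl1T).trans (hl11.le.trans h1)

end Pool.Agent.H158.LS
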