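import Mathlib

/-!
# The linearly coupled critical Schrödinger system: definitions

`-Δu + μu = |u|^{p-1}u + λv`, `-Δv + νv = |v|^{2^*-2}v + λu` in `ℝ^N`, `N ≥ 3`, `1 < p < 2^* - 1`.
All integrals are Lebesgue integrals on `ℝ^N`.
-/

set_option autoImplicit false

open MeasureTheory Filter Topology Set
open scoped ContDiff

namespace Pool.Agent.H158.LSD

/-- `ℝ^N` -/
abbrev E (N : ℕ) := EuclideanSpace ℝ (Fin N)

/-- `∂_i φ (x)` for a smooth function `φ` -/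
noncomputable def pd {N : ℕ} (φ : E N → ℝ) (i : Fin N) (x : E N) : ℝ :=
  fderiv ℝ φ x (EuclideanSpace.single i (1:ℝ))

/-- `u ∈ H¹(ℝ^N)`, with weak (distributional) gradient `g = (g 0, …, g (N-1))`. -/
structure InH1 {N : ℕ} (u : E N → ℝ) (g : Fin N → E N → ℝ) : Prop where
  meas : Measurable u
  sq : Integrable (fun x => u x ^ 2)
  gmeas : ∀ i, Measurable (g i)
  gsq : ∀ i, Integrable (fun x => g i x ^ 2)
  weak : ∀ (i : Fin N) (φ : E N → ℝ), ContDiff ℝ ∞ φ → HasCompactSupport φ →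
    ∫ x, u x * pd φ i x = - ∫ x, g i x * φ x

/-- An element `(u, v)` of `H = H¹(ℝ^N) × H¹(ℝ^N)`; `gu`, `gv` are the weak gradients of `u`, `v`. -/
structure Pair (N : ℕ) where
  u : E N → ℝ
  gu : Fin N → E N → ℝ
  v : E N → ℝ
  gv : Fin N → E N → ℝ
  hu : InH1 u gu
  hv : InH1 v gv

/-- The critical exponent `2^* = 2N/(N-2)`. -/
noncomputable def crit (N : ℕ) : ℝ := 2 * N / (N - 2)

/-- `‖u‖_μ² = ∫ (|∇u|² + μ u²)`, where `g = ∇u`. -/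
noncomputable def nsq {N : ℕ} (μ : ℝ) (u : E N → ℝ) (g : Fin N → E N → ℝ) : ℝ :=
  (∑ i, ∫ x, g i x ^ 2) + μ * ∫ x, u x ^ 2

/-- The energy `I_{μ,ν,λ}(u, v)`. -/
noncomputable def energy {N : ℕ} (p μ ν lam : ℝ) (X : Pair N) : ℝ :=
  1 / 2 * nsq μ X.u X.gu + 1 / 2 * nsq ν X.v X.gv
    - 1 / (p + 1) * (∫ x, |X.u x| ^ (p + 1)) - 1 / crit N * (∫ x, |X.v x| ^ crit N)
    - lam * ∫ x, X.u x * X.v x

/-- The Nehari set `M_{μ,ν,λ} = {(u,v) ∈ H ∖ {(0,0)} : I'(u,v)(u,v) = 0}`. -/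
def Nehari (N : ℕ) (p μ ν lam : ℝ) : Set (Pair N) :=
  {X | ¬ (X.u =ᵐ[volume] 0 ∧ X.v =ᵐ[volume] 0) ∧
    nsq μ X.u X.gu + nsq ν X.v X.gv - (∫ x, |X.u x| ^ (p + 1)) - (∫ x, |X.v x| ^ crit N)
      - 2 * lam * (∫ x, X.u x * X.v x) = 0}

/-- `m_{μ,ν,λ} = inf_M I`. -/
noncomputable def level (N : ℕ) (p μ ν lam : ℝ) : ℝ :=
  sInf (energy p μ ν lam '' Nehari N p μ ν lam)

/-- `(u, v)` solves the system: both equations hold tested against every `φ ∈ H¹(ℝ^N)`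
(equivalently `(u,v)` is a critical point of `I_{μ,ν,λ}` on `H`). -/
def Solves {N : ℕ} (p μ ν lam : ℝ) (X : Pair N) : Prop :=
  ∀ (φ : E N → ℝ) (g : Fin N → E N → ℝ), InH1 φ g →
    (∑ i, ∫ x, X.gu i x * g i x) + μ * (∫ x, X.u x * φ x) =
      (∫ x, |X.u x| ^ (p - 1) * X.u x * φ x) + lam * (∫ x, X.v x * φ x) ∧
    (∑ i, ∫ x, X.gv i x * g i x) + ν * (∫ x, X.v x * φ x) =
      (∫ x, |X.v x| ^ (crit N - 2) * X.v x * φ x) + lam * (∫ x, X.u x * φ x)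

/-- A ground state solution: a solution in `M` with energy `m_{μ,ν,λ}`. -/
def IsGroundState {N : ℕ} (p μ ν lam : ℝ) (X : Pair N) : Prop :=
  X ∈ Nehari N p μ ν lam ∧ Solves p μ ν lam X ∧ energy p μ ν lam X = level N p μ ν lam

/-- The sharp Sobolev constant `S` (best constant over test functions, which are dense in
`D^{1,2}(ℝ^N)`). -/
noncomputable def S (N : ℕ) : ℝ :=
  sInf {r | ∃ φ : E N → ℝ, ContDiff ℝ ∞ φ ∧ HasCompactSupport φ ∧ φ ≠ 0 ∧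
    r = (∑ i, ∫ x, pd φ i x ^ 2) / (∫ x, |φ x| ^ crit N) ^ (2 / crit N)}

/-- The sharp constant `C_q` in `∫ (|∇u|² + u²) ≥ C_q (∫ |u|^q)^{2/q}` on `H¹(ℝ^N)`. -/
noncomputable def C (N : ℕ) (q : ℝ) : ℝ :=
  sInf {r | ∃ (u : E N → ℝ) (g : Fin N → E N → ℝ), InH1 u g ∧ ¬ u =ᵐ[volume] 0 ∧
    r = nsq 1 u g / (∫ x, |u x| ^ q) ^ (2 / q)}

/-- The number `μ₀`. -/
noncomputable def mu0 (N : ℕ) (p : ℝ) : ℝ :=
  (2 * (p + 1) / (N * (p - 1)) * S N ^ ((N:ℝ) / 2) * C N (p + 1) ^ (-((p + 1) / (p - 1))))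
    ^ ((p + 1) / (p - 1) - (N:ℝ) / 2)⁻¹

end Pool.Agent.H158.LSD
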