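import Mathlib
import Pool.Agent.H158.LS9
import Pool.Agent.H158.LSDefs

/-!
# Bridge to the plain definitions
-/

set_option autoImplicit false
set_option linter.unusedSectionVars false
set_option linter.unusedVariables false

open MeasureTheory Filter Topology Set
open scoped ContDiff ENNReal NNReal

namespace Pool.Agent.H158.LS

open Pool.Agent.Helper985.VR

variable {N : ℕ}

lemma bN_apply (i : Fin N) : bN N i = EuclideanSpace.single i (1:ℝ) := by simp [bN]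

lemma inH1_iff {u : EN N → ℝ} {g : Fin N → EN N → ℝ} : LSD.InH1 u g ↔ H1 (bN N) u g := by
  constructor
  · intro h
    refine ⟨⟨h.meas, h.sq⟩, fun i => ⟨h.gmeas i, h.gsq i⟩, fun i φ h1 h2 => ?_⟩
    rw [bN_apply]
    exact h.weak i φ h1 h2
  · intro h
    refine ⟨h.1.1, h.1.2, fun i => (h.2.1 i).1, fun i => (h.2.1 i).2, fun i φ h1 h2 => ?_⟩
    have := h.2.2 i φ h1 h2
    rw [bN_apply] at this
    exact this

/-- conversion -/
def toPt (X : LSD.Pair N) : Pt N := ⟨X.u, X.gu, X.v, X.gv, inH1_iff.1 X.hu, inH1_iff.1 X.hv⟩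

/-- conversion -/
def ofPt (X : Pt N) : LSD.Pair N := ⟨X.u, X.gu, X.v, X.gv, inH1_iff.2 X.hu, inH1_iff.2 X.hv⟩

lemma toPt_ofPt (X : Pt N) : toPt (ofPt X) = X := rfl
lemma ofPt_toPt (X : LSD.Pair N) : ofPt (toPt X) = X := rfl

lemma energy_eq (p μ ν lam : ℝ) (X : LSD.Pair N) :
    LSD.energy p μ ν lam X = En (p + 1) μ ν lam (toPt X) := rfl

lemma nehari_iff (p μ ν lam : ℝ) (X : LSD.Pair N) :
    X ∈ LSD.Nehari N p μ ν lam ↔ toPt X ∈ Neh N (p + 1) μ ν lam := by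
  have e : LSD.nsq μ X.u X.gu + LSD.nsq ν X.v X.gv - (∫ x, |X.u x| ^ (p + 1))
      - (∫ x, |X.v x| ^ LSD.crit N) - 2 * lam * (∫ x, X.u x * X.v x)
      = Qf μ ν lam (toPt X) - (Lq (p + 1) (toPt X).u + Lq (ts N) (toPt X).v) := by
    have e1 : LSD.nsq μ X.u X.gu = Kn (toPt X).gu + μ * N2 (toPt X).u := rfl
    have e2 : LSD.nsq ν X.v X.gv = Kn (toPt X).gv + ν * N2 (toPt X).v := rfl
    have e3 : (∫ x, |X.u x| ^ (p + 1)) = Lq (p + 1) (toPt X).u := rfl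
    have e4 : (∫ x, |X.v x| ^ LSD.crit N) = Lq (ts N) (toPt X).v := rfl
    have e5 : (∫ x, X.u x * X.v x) = ∫ x, (toPt X).u x * (toPt X).v x := rfl
    rw [e1, e2, e3, e4, e5]
    unfold Qf; ring
  constructor
  · rintro ⟨h1, h2⟩
    rw [e] at h2
    exact ⟨h1, by linarith⟩
  · rintro ⟨h1, h2⟩
    refine ⟨h1, ?_⟩
    rw [e]; linarith

lemma level_eq (N : ℕ) (p μ ν lam : ℝ) : LSD.level N p μ ν lam = mm N (p + 1) μ ν lam := by
  unfold LSD.level mm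
  congr 1
  ext r
  constructor
  · rintro ⟨X, hX, rfl⟩
    exact ⟨toPt X, (nehari_iff p μ ν lam X).1 hX, rfl⟩
  · rintro ⟨X, hX, rfl⟩
    exact ⟨ofPt X, (nehari_iff p μ ν lam (ofPt X)).2 hX, rfl⟩

lemma solves_iff (p μ ν lam : ℝ) (X : LSD.Pair N) :
    LSD.Solves p μ ν lam X ↔ IsCrit (p + 1) μ ν lam (toPt X) := by
  have e : p + 1 - 2 = p - 1 := by ring
  unfold LSD.Solves IsCrit
  rw [e]
  constructor
  · intro h φ g H
    exact h φ g (inH1_iff.2 H)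
  · intro h φ g H
    exact h φ g (inH1_iff.1 H)

lemma gs_iff (p μ ν lam : ℝ) (X : LSD.Pair N) :
    LSD.IsGroundState p μ ν lam X ↔ IsGS (p + 1) μ ν lam (toPt X) := by
  unfold LSD.IsGroundState IsGS
  rw [nehari_iff, solves_iff, energy_eq, level_eq]

lemma exists_gs_iff (p μ ν lam : ℝ) :
    (∃ X : LSD.Pair N, LSD.IsGroundState p μ ν lam X) ↔ ∃ X : Pt N, IsGS (p + 1) μ ν lam X := by
  constructor
  · rintro ⟨X, hX⟩
    exact ⟨toPt X, (gs_iff p μ ν lam X).1 hX⟩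
  · rintro ⟨X, hX⟩
    exact ⟨ofPt X, (gs_iff p μ ν lam (ofPt X)).2 hX⟩

lemma gr_eq (φ : EN N → ℝ) (i : Fin N) (x : EN N) : gr φ i x = LSD.pd φ i x := by
  unfold gr LSD.pd
  rw [bN_apply]

lemma S_eq (N : ℕ) : LSD.S N = Sob N := by
  unfold LSD.S Sob
  have e : ∀ φ : EN N → ℝ, (∑ i, ∫ x, LSD.pd φ i x ^ 2) = Kn (gr φ) := fun φ => by
    unfold Kn N2
    simp only [gr_eq]
  congr 1
  ext r
  constructor
  · rintro ⟨φ, h1, h2, h3, h4⟩
    refine ⟨φ, h1, h2, h3, ?_⟩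
    rw [h4, e φ]; rfl
  · rintro ⟨φ, h1, h2, h3, h4⟩
    refine ⟨φ, h1, h2, h3, ?_⟩
    rw [h4, e φ]; rfl

lemma C_eq (N : ℕ) (q : ℝ) : LSD.C N q = Cq N q := by
  unfold LSD.C Cq
  have e : ∀ (u : EN N → ℝ) (g : Fin N → EN N → ℝ), LSD.nsq 1 u g = Kn g + N2 u := fun u g => by
    have e1 : LSD.nsq 1 u g = Kn g + 1 * N2 u := rfl
    rw [e1, one_mul]
  congr 1
  ext r
  constructor
  · rintro ⟨u, g, h1, h2, h3⟩
    refine ⟨u, g, inH1_iff.1 h1, h2, ?_⟩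
    rw [h3, e u g]; rfl
  · rintro ⟨u, g, h1, h2, h3⟩
    refine ⟨u, g, inH1_iff.2 h1, h2, ?_⟩
    rw [h3, e u g]; rfl

lemma mu0_eq (N : ℕ) (p : ℝ) : LSD.mu0 N p = mu0q N (p + 1) := by
  unfold LSD.mu0 mu0q
  rw [S_eq, C_eq]
  have e : p + 1 - 2 = p - 1 := by ring
  rw [e]

lemma gset_eq (N : ℕ) (p μ ν : ℝ) :
    {l : ℝ | 0 < l ∧ l < √(μ * ν) ∧ ∃ X : LSD.Pair N, LSD.IsGroundState p μ ν l X}
      = GSet N (p + 1) μ ν := by
  unfold GSet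
  ext l
  rw [mem_ofPred_eq, mem_ofPred_eq, exists_gs_iff]

lemma tset_eq (N : ℕ) (p μ ν : ℝ) :
    {l : ℝ | l < √(μ * ν) ∧ ∀ τ, l ≤ τ → τ < √(μ * ν) →
      LSD.level N p μ ν τ < 1 / N * LSD.S N ^ ((N:ℝ) / 2)} = TSet N (p + 1) μ ν := by
  unfold TSet
  ext l
  simp only [mem_ofPred_eq, level_eq, S_eq]
  rfl

/-- the complete picture, with both descriptions of the threshold -/
theorem full (N : ℕ) (hN : 3 ≤ N) (p : ℝ) (hp : 1 < p) (hp2 : p < LSD.crit N - 1) (μ ν : ℝ)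
    (hμ : LSD.mu0 N p < μ) (hν : 0 < ν) :
    0 < LSD.mu0 N p ∧
    √((μ - LSD.mu0 N p) * ν) ≤ sInf (GSet N (p + 1) μ ν) ∧
      sInf (GSet N (p + 1) μ ν) < √(μ * ν) ∧
      GSet N (p + 1) μ ν = Ico (sInf (GSet N (p + 1) μ ν)) (√(μ * ν)) ∧
      sInf (TSet N (p + 1) μ ν) = sInf (GSet N (p + 1) μ ν) := by
  have hq : 2 < p + 1 := by linarith
  have hqr : p + 1 < ts N := by
    have : LSD.crit N = ts N := rfl
    rw [this] at hp2
    linarith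
  rw [mu0_eq] at hμ ⊢
  exact ⟨mu0q_pos hN hq hqr, GSet_eq hN hq hqr hν hμ⟩

end Pool.Agent.H158.LS
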