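import Pool.Agent.Helper490.LTSech

/-!
# Near optimisers with any number of functions
-/

set_option autoImplicit false
set_option linter.unusedSectionVars false
set_option linter.deprecated false

open MeasureTheory Set Filter Topology Real
open Pool.Helper490.Sech

namespace Pool.Agent.H158.RGN

/-- Clamping to `[-R, R]`. -/
noncomputable def cl (R x : ℝ) : ℝ := max (-R) (min x R)

/-- The truncated profile. -/
noncomputable def W (R x : ℝ) : ℝ := w (cl R x) - w R

/-- Its derivative. -/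
noncomputable def W' (R x : ℝ) : ℝ := (Ico (-R) R).indicator w' x

lemma w_neg (x : ℝ) : w (-x) = w x := by
  unfold w
  rw [cosh_neg]

lemma w_anti {x y : ℝ} (h : |x| ≤ |y|) : w y ≤ w x := by
  unfold w
  have h1 : cosh x ≤ cosh y := cosh_le_cosh.2 h
  exact inv_anti₀ (scp x) (Real.sqrt_le_sqrt h1)

lemma cl_cont (R : ℝ) : Continuous (cl R) := by unfold cl; fun_prop

lemma W_cont (R : ℝ) : Continuous (W R) := (w_cont.comp (cl_cont R)).sub continuous_const

variable {R : ℝ} (hR : 0 < R)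
include hR

lemma cl_in {x : ℝ} (h1 : -R ≤ x) (h2 : x ≤ R) : cl R x = x := by
  unfold cl
  rw [min_eq_left h2, max_eq_right h1]

lemma cl_right {x : ℝ} (h : R ≤ x) : cl R x = R := by
  unfold cl
  rw [min_eq_right h, max_eq_right (by linarith)]

lemma cl_left {x : ℝ} (h : x ≤ -R) : cl R x = -R := by
  unfold cl
  rw [min_eq_left (by linarith), max_eq_left h]

lemma W_out {x : ℝ} (h : R ≤ |x|) : W R x = 0 := by
  unfold W
  rcases le_abs.1 h with h1 | h1
  · rw [cl_right hR h1, sub_self]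
  · rw [cl_left hR (by linarith), w_neg, sub_self]

lemma W_in {x : ℝ} (h : |x| ≤ R) : W R x = w x - w R := by
  unfold W
  rw [cl_in hR (abs_le.1 h).1 (abs_le.1 h).2]

lemma W_nonneg (x : ℝ) : 0 ≤ W R x := by
  rcases le_total |x| R with h | h
  · rw [W_in hR h]
    have := w_anti (x := x) (y := R) (by rwa [abs_of_pos hR])
    linarith
  · rw [W_out hR h]

lemma W_le (x : ℝ) : W R x ≤ w x := by
  rcases le_total |x| R with h | h
  · rw [W_in hR h]
    have := w_pos R
    linarith
  · rw [W_out hR h]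
    exact (w_pos x).le

lemma W_deriv (x : ℝ) : HasDerivWithinAt (W R) (W' R x) (Ioi x) x := by
  rcases lt_or_ge x (-R) with h | h
  · have h0 : W' R x = 0 := by
      unfold W'
      rw [indicator_of_notMem]
      exact fun hx => absurd hx.1 (not_le.2 h)
    rw [h0]
    have h1 : W R =ᶠ[𝓝 x] fun _ => (0:ℝ) := by
      filter_upwards [Iio_mem_nhds h] with y hy
      rw [W_out hR]
      rw [le_abs]
      right
      have : y < -R := hy
      linarith
    exact ((hasDerivAt_const x (0:ℝ)).congr_of_eventuallyEq h1).hasDerivWithinAt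
  · rcases lt_or_ge x R with h2 | h2
    · have h0 : W' R x = w' x := by
        unfold W'
        rw [indicator_of_mem]
        exact ⟨h, h2⟩
      rw [h0]
      have h1 : W R =ᶠ[𝓝[>] x] fun y => w y - w R := by
        filter_upwards [Ioo_mem_nhdsGT h2] with y hy
        rw [W_in hR]
        rw [abs_le]
        exact ⟨by linarith [hy.1], hy.2.le⟩
      exact ((w_deriv x).sub_const (w R)).hasDerivWithinAt.congr_of_eventuallyEq h1
        (W_in hR (abs_le.2 ⟨h, h2.le⟩))
    · have h0 : W' R x = 0 := by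
        unfold W'
        rw [indicator_of_notMem]
        exact fun hx => absurd hx.2 (not_lt.2 h2)
      rw [h0]
      have h1 : W R =ᶠ[𝓝[>] x] fun _ => (0:ℝ) := by
        filter_upwards [self_mem_nhdsWithin] with y hy
        rw [W_out hR]
        rw [le_abs]
        left
        have : x < y := hy
        linarith
      exact (hasDerivWithinAt_const x (Ioi x) (0:ℝ)).congr_of_eventuallyEq h1
        (W_out hR (le_abs.2 (Or.inl h2)))

lemma W'_meas : Measurable (W' R) := w'_cont.measurable.indicator measurableSet_Ico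

lemma W'_sq_le (x : ℝ) : W' R x ^ 2 ≤ w' x ^ 2 := by
  unfold W'
  by_cases hx : x ∈ Ico (-R) R
  · rw [indicator_of_mem hx]
  · rw [indicator_of_notMem hx]
    have := sq_nonneg (w' x)
    simpa using this

lemma W'_int : Integrable (fun x => W' R x ^ 2) :=
  int_w'_sq.mono' ((W'_meas hR).pow_const 2).aestronglyMeasurable
    (Eventually.of_forall fun x => by
      rw [Real.norm_eq_abs, abs_of_nonneg (sq_nonneg _)]
      exact W'_sq_le hR x)

lemma W_int : Integrable (fun x => W R x ^ 2) :=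
  int_w_sq.mono' ((W_cont R).pow 2).aestronglyMeasurable
    (Eventually.of_forall fun x => by
      rw [Real.norm_eq_abs, abs_of_nonneg (sq_nonneg _)]
      exact pow_le_pow_left₀ (W_nonneg hR x) (W_le hR x) 2)

lemma W'_ii (a b : ℝ) : IntervalIntegrable (W' R) volume a b := by
  have h1 : LocallyIntegrable (W' R) volume := by
    have h2 : MemLp (W' R) 2 := by
      rw [memLp_two_iff_integrable_sq (W'_meas hR).aestronglyMeasurable]
      exact W'_int hR
    exact h2.locallyIntegrable (by norm_num)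
  exact intervalIntegrable_iff.2 ((h1.integrableOn_isCompact isCompact_uIcc).mono_set
    uIoc_subset_uIcc)

lemma W_ftc (a b : ℝ) : W R b - W R a = ∫ x in a..b, W' R x :=
  (intervalIntegral.integral_eq_sub_of_hasDeriv_right ((W_cont R).continuousOn)
    (fun x _ => W_deriv hR x) (W'_ii hR a b)).symm

lemma W'_le : ∫ x, W' R x ^ 2 ≤ π / 8 := by
  rw [← integral_w'_sq]
  exact integral_mono (W'_int hR) int_w'_sq (W'_sq_le hR)

lemma W_le' : ∫ x, W R x ^ 2 ≤ π := by
  rw [← integral_w_sq]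
  exact integral_mono (W_int hR) int_w_sq fun x =>
    pow_le_pow_left₀ (W_nonneg hR x) (W_le hR x) 2

lemma W_pos : 0 < ∫ x, W R x ^ 2 := by
  rw [integral_pos_iff_support_of_nonneg (fun x => sq_nonneg _) (W_int hR)]
  have hc : Continuous fun x => W R x ^ 2 := (W_cont R).pow 2
  refine hc.isOpen_support.measure_pos volume ⟨0, ?_⟩
  simp only [Function.mem_support]
  have h1 : W R 0 = w 0 - w R := W_in hR (by simpa using hR.le)
  have h2 : w R < w 0 := by
    unfold w
    have h3 : cosh 0 < cosh R := cosh_lt_cosh.2 (by simpa using abs_pos.2 hR.ne')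
    exact inv_strictAnti₀ (scp 0) (Real.sqrt_lt_sqrt (cosh_pos 0).le h3)
  rw [h1]
  have : 0 < w 0 - w R := by linarith
  positivity

omit hR

lemma w_tendsto : Tendsto w atTop (𝓝 0) := by
  have hc : Tendsto cosh atTop atTop := by
    refine tendsto_atTop_mono (fun x => ?_) tendsto_sinh_top
    exact (sinh_lt_cosh x).le
  exact (Real.tendsto_sqrt_atTop.comp hc).inv_tendsto_atTop

lemma int_w_six : Integrable (fun x => (w x ^ 2) ^ 3) := by
  simp only [w_sq]
  exact int_sech3

lemma six_tendsto : Tendsto (fun k : ℕ => ∫ x, (W ((k:ℝ) + 1) x ^ 2) ^ 3) atTop (𝓝 (π / 2)) := by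
  rw [← integral_w_six]
  refine tendsto_integral_of_dominated_convergence (fun x => (w x ^ 2) ^ 3) (fun k => ?_)
    int_w_six (fun k => Eventually.of_forall fun x => ?_) (Eventually.of_forall fun x => ?_)
  · exact (((W_cont _).pow 2).pow 3).aestronglyMeasurable
  · have hk : (0:ℝ) < (k:ℝ) + 1 := by positivity
    rw [Real.norm_eq_abs, abs_of_nonneg (by positivity)]
    exact pow_le_pow_left₀ (sq_nonneg _)
      (pow_le_pow_left₀ (W_nonneg hk x) (W_le hk x) 2) 3
  · have hlim : Tendsto (fun k : ℕ => (k:ℝ) + 1) atTop atTop :=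
      tendsto_atTop_add_const_right _ _ tendsto_natCast_atTop_atTop
    have h1 : Tendsto (fun k : ℕ => w x - w ((k:ℝ) + 1)) atTop (𝓝 (w x - 0)) :=
      tendsto_const_nhds.sub (w_tendsto.comp hlim)
    rw [sub_zero] at h1
    have h2 : Tendsto (fun k : ℕ => W ((k:ℝ) + 1) x) atTop (𝓝 (w x)) := by
      refine h1.congr' ?_
      filter_upwards [hlim.eventually_ge_atTop |x|] with k hk
      rw [W_in (by positivity) hk]
    exact (h2.pow 2).pow 3

/-- Near optimisers. -/
theorem near_opt (N : ℕ) (hN : 1 ≤ N) {ε : ℝ} (hε : 0 < ε) :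
    ∃ u g : Fin N → ℝ → ℂ, (∀ n, MemLp (u n) 2) ∧ (∀ n, MemLp (g n) 2) ∧
      (∀ n a b, u n b - u n a = ∫ x in a..b, g n x) ∧
      (∀ n m, ∫ x, star (u n x) * u m x = if n = m then (1:ℂ) else 0) ∧
      ∑ n, ∫ x, ‖g n x‖ ^ 2 < (π ^ 2 / 4 + ε) * ∫ x, (∑ n, ‖u n x‖ ^ 2) ^ 3 := by
  have hpi := pi_pos
  -- the choice of the radius
  have hlim := (six_tendsto.const_mul (π ^ 2 / 4 + ε))
  have hgt : π ^ 3 / 8 < (π ^ 2 / 4 + ε) * (π / 2) := by nlinarith [mul_pos hε hpi]
  obtain ⟨k, hk⟩ := (hlim.eventually (lt_mem_nhds hgt)).exists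
  set R : ℝ := (k:ℝ) + 1 with hRd
  have hR : 0 < R := by positivity
  set D : ℝ := ∫ x, W R x ^ 2 with hD
  have hD0 : 0 < D := W_pos hR
  have hDπ : D ≤ π := W_le' hR
  set c : ℝ := (√D)⁻¹ with hc
  have hc2 : c ^ 2 = D⁻¹ := by rw [hc, inv_pow, Real.sq_sqrt hD0.le]
  set s : Fin N → ℝ := fun n => 3 * R * (n : ℝ) with hs
  -- disjoint supports
  have hdisj : ∀ n m : Fin N, n ≠ m → ∀ x, W R (x - s n) = 0 ∨ W R (x - s m) = 0 := by
    intro n m hnm x
    by_contra hcon
    rw [not_or] at hcon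
    have h1 : |x - s n| < R := by
      by_contra h
      exact hcon.1 (W_out hR (not_lt.1 h))
    have h2 : |x - s m| < R := by
      by_contra h
      exact hcon.2 (W_out hR (not_lt.1 h))
    have h3 : |s n - s m| < 2 * R := by
      have : s n - s m = (x - s m) - (x - s n) := by ring
      rw [this]
      calc |(x - s m) - (x - s n)| ≤ |x - s m| + |x - s n| := abs_sub _ _
        _ < 2 * R := by linarith
    have h4 : s n - s m = 3 * R * ((n : ℝ) - (m : ℝ)) := by simp only [hs]; ring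
    rw [h4, abs_mul, abs_of_pos (by positivity : 0 < 3 * R)] at h3
    have h5 : (1:ℝ) ≤ |(n : ℝ) - (m : ℝ)| := by
      have h6 : ((n : ℕ) : ℤ) - ((m : ℕ) : ℤ) ≠ 0 := by
        intro h7
        apply hnm
        apply Fin.ext
        omega
      have h8 := Int.one_le_abs h6
      have h9 : ((1:ℤ):ℝ) ≤ ((|((n : ℕ) : ℤ) - ((m : ℕ) : ℤ)| : ℤ) : ℝ) := by exact_mod_cast h8
      simpa using h9
    nlinarith
  set u : Fin N → ℝ → ℂ := fun n x => ((c * W R (x - s n) : ℝ) : ℂ) with hu
  set g : Fin N → ℝ → ℂ := fun n x => ((c * W' R (x - s n) : ℝ) : ℂ) with hg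
  have hun : ∀ n x, ‖u n x‖ ^ 2 = D⁻¹ * W R (x - s n) ^ 2 := by
    intro n x
    simp only [hu]
    rw [Complex.norm_real, Real.norm_eq_abs, sq_abs, mul_pow, hc2]
  have hgn : ∀ n x, ‖g n x‖ ^ 2 = D⁻¹ * W' R (x - s n) ^ 2 := by
    intro n x
    simp only [hg]
    rw [Complex.norm_real, Real.norm_eq_abs, sq_abs, mul_pow, hc2]
  have hWi : ∀ n, Integrable (fun x => W R (x - s n) ^ 2) := fun n =>
    (W_int hR).comp_sub_right (s n)
  have hW'i : ∀ n, Integrable (fun x => W' R (x - s n) ^ 2) := fun n =>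
    (W'_int hR).comp_sub_right (s n)
  have hWt : ∀ n, ∫ x, W R (x - s n) ^ 2 = D := fun n =>
    integral_sub_right_eq_self (fun x => W R x ^ 2) (s n)
  have hW't : ∀ n, ∫ x, W' R (x - s n) ^ 2 = ∫ x, W' R x ^ 2 := fun n =>
    integral_sub_right_eq_self (fun x => W' R x ^ 2) (s n)
  have hW6t : ∀ n, ∫ x, (W R (x - s n) ^ 2) ^ 3 = ∫ x, (W R x ^ 2) ^ 3 := fun n =>
    integral_sub_right_eq_self (fun x => (W R x ^ 2) ^ 3) (s n)
  have hucont : ∀ n, Continuous (u n) := fun n =>
    Complex.continuous_ofReal.comp (continuous_const.mul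
      ((W_cont R).comp (continuous_id.sub continuous_const)))
  have hgmeas : ∀ n, Measurable (g n) := fun n =>
    Complex.measurable_ofReal.comp (((W'_meas hR).comp (measurable_id.sub_const _)).const_mul c)
  refine ⟨u, g, ?_, ?_, ?_, ?_, ?_⟩
  · intro n
    rw [memLp_two_iff_integrable_sq_norm (hucont n).aestronglyMeasurable]
    simp only [hun]
    exact (hWi n).const_mul _
  · intro n
    rw [memLp_two_iff_integrable_sq_norm (hgmeas n).aestronglyMeasurable]
    simp only [hgn]
    exact (hW'i n).const_mul _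
  · intro n a b
    simp only [hu, hg]
    rw [intervalIntegral.integral_ofReal, intervalIntegral.integral_const_mul,
      intervalIntegral.integral_comp_sub_right (fun x => W' R x), ← W_ftc hR]
    push_cast
    ring
  · intro n m
    have h1 : ∀ x, star (u n x) * u m x =
        ((D⁻¹ * (W R (x - s n) * W R (x - s m)) : ℝ) : ℂ) := by
      intro x
      have h2 : star (u n x) = u n x := Complex.conj_ofReal _
      rw [h2, ← hc2]
      simp only [hu]
      push_cast
      ring
    simp only [h1]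
    rw [integral_complex_ofReal, integral_const_mul]
    split_ifs with hnm
    · subst hnm
      have h3 : ∀ x, W R (x - s n) * W R (x - s n) = W R (x - s n) ^ 2 := fun x => by ring
      simp only [h3]
      rw [hWt n, inv_mul_cancel₀ hD0.ne']
      simp
    · have h3 : ∀ x, W R (x - s n) * W R (x - s m) = 0 := by
        intro x
        rcases hdisj n m hnm x with h | h <;> rw [h] <;> ring
      simp [h3]
  · have h1 : ∑ n, ∫ x, ‖g n x‖ ^ 2 = N * (D⁻¹ * ∫ x, W' R x ^ 2) := by
      simp only [hgn, integral_const_mul, hW't]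
      rw [Finset.sum_const, Finset.card_univ, Fintype.card_fin, nsmul_eq_mul]
    have h2 : ∀ x, (∑ n, ‖u n x‖ ^ 2) ^ 3 = ∑ n, (D⁻¹ * W R (x - s n) ^ 2) ^ 3 := by
      intro x
      simp only [hun]
      by_cases hex : ∃ n, W R (x - s n) ≠ 0
      · obtain ⟨n, hn⟩ := hex
        have h3 : ∀ m, m ≠ n → W R (x - s m) = 0 := by
          intro m hm
          rcases hdisj m n hm x with h | h
          · exact h
          · exact absurd h hn
        rw [Finset.sum_eq_single n (fun m _ hm => by rw [h3 m hm]; ring) (by simp),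
          Finset.sum_eq_single n (fun m _ hm => by rw [h3 m hm]; ring) (by simp)]
      · rw [not_exists] at hex
        have h3 : ∀ m, W R (x - s m) = 0 := fun m => not_not.1 (hex m)
        simp [h3]
    have hi6 : Integrable (fun x => (W R x ^ 2) ^ 3) := by
      refine int_w_six.mono' (((W_cont _).pow 2).pow 3).aestronglyMeasurable
        (Eventually.of_forall fun x => ?_)
      rw [Real.norm_eq_abs, abs_of_nonneg (by positivity)]
      exact pow_le_pow_left₀ (sq_nonneg _)
        (pow_le_pow_left₀ (W_nonneg hR x) (W_le hR x) 2) 3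
    have h4 : ∫ x, (∑ n, ‖u n x‖ ^ 2) ^ 3 = N * (D⁻¹ ^ 3 * ∫ x, (W R x ^ 2) ^ 3) := by
      simp only [h2, mul_pow]
      rw [integral_finsetSum _ fun n _ => (Integrable.comp_sub_right hi6 (s n)).const_mul _]
      simp only [integral_const_mul, hW6t]
      rw [Finset.sum_const, Finset.card_univ, Fintype.card_fin, nsmul_eq_mul]
    rw [h1, h4]
    have hNpos : (0:ℝ) < N := by exact_mod_cast hN
    have h5 : D⁻¹ * ∫ x, W' R x ^ 2 <
        (π ^ 2 / 4 + ε) * (D⁻¹ ^ 3 * ∫ x, (W R x ^ 2) ^ 3) := by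
      have h6 : D⁻¹ * ∫ x, W' R x ^ 2 ≤ D⁻¹ ^ 3 * (π ^ 3 / 8) := by
        have h7 := W'_le hR
        have h8 : D ^ 2 ≤ π ^ 2 := pow_le_pow_left₀ hD0.le hDπ 2
        have h9 : D⁻¹ * ∫ x, W' R x ^ 2 = D⁻¹ ^ 3 * (D ^ 2 * ∫ x, W' R x ^ 2) := by
          field_simp
        rw [h9]
        refine mul_le_mul_of_nonneg_left ?_ (by positivity)
        calc D ^ 2 * ∫ x, W' R x ^ 2 ≤ π ^ 2 * (π / 8) :=
              mul_le_mul h8 h7 (integral_nonneg fun x => sq_nonneg _) (by positivity)
          _ = π ^ 3 / 8 := by ring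
      have h10 : D⁻¹ ^ 3 * (π ^ 3 / 8) <
          D⁻¹ ^ 3 * ((π ^ 2 / 4 + ε) * ∫ x, (W R x ^ 2) ^ 3) :=
        mul_lt_mul_of_pos_left hk (by positivity)
      calc D⁻¹ * ∫ x, W' R x ^ 2 ≤ D⁻¹ ^ 3 * (π ^ 3 / 8) := h6
        _ < D⁻¹ ^ 3 * ((π ^ 2 / 4 + ε) * ∫ x, (W R x ^ 2) ^ 3) := h10
        _ = _ := by ring
    calc (N:ℝ) * (D⁻¹ * ∫ x, W' R x ^ 2) <
        N * ((π ^ 2 / 4 + ε) * (D⁻¹ ^ 3 * ∫ x, (W R x ^ 2) ^ 3)) :=
          mul_lt_mul_of_pos_left h5 hNpos
      _ = _ := by ring

end Pool.Agent.H158.RGN
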