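import Pool.Agent.H158.RG8
import Pool.Agent.H158.RG12

set_option autoImplicit false

open MeasureTheory Set Real Filter Topology

namespace Pool.Agent.H158.OD

/-- odd Sobolev families on the half-line: the strict inequality -/
theorem half {N : ℕ} (hN : 1 ≤ N) (u g : Fin N → ℝ → ℂ) (hu2 : ∀ n, MemLp (u n) 2)
    (hg2 : ∀ n, MemLp (g n) 2) (hug : ∀ n a b, u n b - u n a = ∫ x in a..b, g n x)
    (hodd : ∀ n x, u n (-x) = -u n x)
    (hgram : ∀ c : Fin N → ℂ, ∫ x, ‖∑ n, c n * u n x‖ ^ 2 = ∑ n, ‖c n‖ ^ 2) :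
    IntegrableOn (fun x => (∑ n, ‖u n x‖ ^ 2) ^ 3) (Ioi 0) ∧
    π ^ 2 * ∫ x in Ioi 0, (∑ n, ‖u n x‖ ^ 2) ^ 3 < ∑ n, ∫ x in Ioi 0, ‖g n x‖ ^ 2 := by
  have h0 : ∀ n, u n 0 = 0 := by
    intro n
    have := hodd n 0
    rw [neg_zero] at this
    have h2 : (2:ℂ) * u n 0 = 0 := by linear_combination this
    simpa using h2
  set c2 : ℂ := ((√2 : ℝ) : ℂ) with hc2
  have hc2n : ‖c2‖ ^ 2 = 2 := by
    rw [hc2, Complex.norm_real, Real.norm_of_nonneg (Real.sqrt_nonneg _), Real.sq_sqrt (by norm_num)]
  set V : Fin N → ℝ → ℂ := fun n => (Ioi 0).indicator (fun x => c2 * u n x) with hV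
  set H : Fin N → ℝ → ℂ := fun n => (Ioi 0).indicator (fun x => c2 * g n x) with hH
  have hV2 : ∀ n, MemLp (V n) 2 := fun n => ((hu2 n).const_mul c2).indicator measurableSet_Ioi
  have hH2 : ∀ n, MemLp (H n) 2 := fun n => ((hg2 n).const_mul c2).indicator measurableSet_Ioi
  have hVP : ∀ n x, V n x = c2 * u n (max x 0) := by
    intro n x
    by_cases hx : 0 < x
    · rw [hV]; simp only
      rw [indicator_of_mem (show x ∈ Ioi 0 from hx), max_eq_left hx.le]
    · rw [hV]; simp only
      rw [indicator_of_notMem (show x ∉ Ioi 0 from hx), max_eq_right (not_lt.1 hx), h0, mul_zero]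
  have hgi : ∀ n a b, IntervalIntegrable (g n) volume a b := by
    intro n a b
    have h1 : LocallyIntegrable (g n) volume := (hg2 n).locallyIntegrable (by norm_num)
    exact (h1.integrableOn_isCompact isCompact_uIcc).intervalIntegrable
  have hHi : ∀ n a b, IntervalIntegrable (H n) volume a b := by
    intro n a b
    have h1 : LocallyIntegrable (H n) volume := (hH2 n).locallyIntegrable (by norm_num)
    exact (h1.integrableOn_isCompact isCompact_uIcc).intervalIntegrable
  have hF : ∀ n b, ∫ x in (0:ℝ)..b, H n x = c2 * ∫ x in (0:ℝ)..(max b 0), g n x := by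
    intro n b
    rcases le_total 0 b with hb | hb
    · rw [max_eq_left hb, ← intervalIntegral.integral_const_mul,
        intervalIntegral.integral_of_le hb, intervalIntegral.integral_of_le hb]
      apply setIntegral_congr_fun measurableSet_Ioc
      intro x hx
      rw [hH]; simp only
      rw [indicator_of_mem (show x ∈ Ioi 0 from hx.1)]
    · rw [max_eq_right hb, intervalIntegral.integral_same, mul_zero,
        intervalIntegral.integral_of_ge hb]
      rw [setIntegral_eq_zero_of_forall_eq_zero, neg_zero]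
      intro x hx
      rw [hH]; simp only
      rw [indicator_of_notMem (show x ∉ Ioi 0 from not_lt.2 hx.2)]
  have hVH : ∀ n a b, V n b - V n a = ∫ x in a..b, H n x := by
    intro n a b
    rw [← intervalIntegral.integral_interval_sub_left (hHi n 0 b) (hHi n 0 a), hF, hF, hVP, hVP,
      ← hug n 0, ← hug n 0]
    ring
  have hsq : ∀ n x, ‖V n x‖ ^ 2 = (Ioi 0).indicator (fun x => 2 * ‖u n x‖ ^ 2) x := by
    intro n x
    by_cases hx : x ∈ Ioi 0
    · rw [hV]; simp only
      rw [indicator_of_mem hx, indicator_of_mem hx, norm_mul, mul_pow, hc2n]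
    · rw [hV]; simp only
      rw [indicator_of_notMem hx, indicator_of_notMem hx]; simp
  have hsqH : ∀ n x, ‖H n x‖ ^ 2 = (Ioi 0).indicator (fun x => 2 * ‖g n x‖ ^ 2) x := by
    intro n x
    by_cases hx : x ∈ Ioi 0
    · rw [hH]; simp only
      rw [indicator_of_mem hx, indicator_of_mem hx, norm_mul, mul_pow, hc2n]
    · rw [hH]; simp only
      rw [indicator_of_notMem hx, indicator_of_notMem hx]; simp
  have hbes : ∀ c : Fin N → ℂ, ∫ x, ‖∑ n, c n * V n x‖ ^ 2 ≤ ∑ n, ‖c n‖ ^ 2 := by
    intro c
    set f : ℝ → ℝ := fun x => ‖∑ n, c n * u n x‖ ^ 2 with hf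
    have hfe : ∀ x, f (-x) = f x := by
      intro x
      simp only [hf]
      have : ∑ n, c n * u n (-x) = -∑ n, c n * u n x := by
        rw [← Finset.sum_neg_distrib]
        exact Finset.sum_congr rfl fun n _ => by rw [hodd]; ring
      rw [this, norm_neg]
    have hmem : MemLp (fun x => ∑ n, c n * u n x) 2 volume :=
      memLp_finsetSum _ fun n _ => (hu2 n).const_mul (c n)
    have hfi : Integrable f := hmem.integrable_norm_pow (by norm_num)
    have h1 : ∀ x, ‖∑ n, c n * V n x‖ ^ 2 = (Ioi 0).indicator (fun x => 2 * f x) x := by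
      intro x
      by_cases hx : x ∈ Ioi 0
      · rw [indicator_of_mem hx]
        have : ∑ n, c n * V n x = c2 * ∑ n, c n * u n x := by
          rw [Finset.mul_sum]
          refine Finset.sum_congr rfl fun n _ => ?_
          rw [hV]; simp only
          rw [indicator_of_mem hx]; ring
        rw [this, norm_mul, mul_pow, hc2n]
      · rw [indicator_of_notMem hx]
        have : ∑ n, c n * V n x = 0 := by
          refine Finset.sum_eq_zero fun n _ => ?_
          rw [hV]; simp only
          rw [indicator_of_notMem hx, mul_zero]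
        rw [this]; simp
    simp only [h1]
    rw [integral_indicator measurableSet_Ioi, integral_const_mul]
    have h2 : ∫ x in Iic 0, f x = ∫ x in Ioi 0, f x := by
      have := integral_comp_neg_Iic (0:ℝ) f
      rw [neg_zero] at this
      rw [← this]
      congr 1
      funext x
      rw [hfe]
    have h3 : (∫ x in Iic 0, f x) + ∫ x in Ioi 0, f x = ∫ x, f x := by
      have h4 := integral_add_compl (s := Iic (0:ℝ)) measurableSet_Iic hfi
      rw [compl_Iic] at h4
      exact h4
    have h5 := hgram c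
    have h6 : ∫ x, f x = ∑ n, ‖c n‖ ^ 2 := h5
    linarith
  obtain ⟨r1, r2, r3⟩ := Pool.Agent.H158.RG.complex_rigidity V H hV2 hH2 hVH hbes
  have hρ : ∀ x, (∑ n, ‖V n x‖ ^ 2) ^ 3 =
      (Ioi 0).indicator (fun x => 8 * (∑ n, ‖u n x‖ ^ 2) ^ 3) x := by
    intro x
    simp only [hsq]
    by_cases hx : x ∈ Ioi 0
    · simp only [indicator_of_mem hx]
      rw [← Finset.mul_sum]
      ring
    · simp only [indicator_of_notMem hx]
      simp
  have e1 : ∫ x, (∑ n, ‖V n x‖ ^ 2) ^ 3 = 8 * ∫ x in Ioi 0, (∑ n, ‖u n x‖ ^ 2) ^ 3 := by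
    simp only [hρ]
    rw [integral_indicator measurableSet_Ioi, integral_const_mul]
  have e2 : ∑ n, ∫ x, ‖H n x‖ ^ 2 = 2 * ∑ n, ∫ x in Ioi 0, ‖g n x‖ ^ 2 := by
    rw [Finset.mul_sum]
    refine Finset.sum_congr rfl fun n _ => ?_
    simp only [hsqH]
    rw [integral_indicator measurableSet_Ioi, integral_const_mul]
  have hint : IntegrableOn (fun x => (∑ n, ‖u n x‖ ^ 2) ^ 3) (Ioi 0) := by
    have h1 : IntegrableOn (fun x => 8 * (∑ n, ‖u n x‖ ^ 2) ^ 3) (Ioi 0) := by
      rw [← integrable_indicator_iff measurableSet_Ioi]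
      exact r1.congr (Eventually.of_forall hρ)
    have h2 := h1.const_mul (1 / 8 : ℝ)
    refine h2.congr (Eventually.of_forall fun x => ?_)
    simp only
    ring
  refine ⟨hint, ?_⟩
  have hne : π ^ 2 / 4 * ∫ x, (∑ n, ‖V n x‖ ^ 2) ^ 3 ≠ ∑ n, ∫ x, ‖H n x‖ ^ 2 := by
    intro heq
    rcases r3.1 heq with h | ⟨a, x0, ν, ha, hν, h⟩
    · -- all V vanish: contradiction with normalisation
      have hz : ∀ n x, u n x = 0 := by
        have hp : ∀ n x, 0 < x → u n x = 0 := by
          intro n x hx
          have h1 := h n x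
          rw [hVP, max_eq_left hx.le] at h1
          have hc0 : c2 ≠ 0 := by
            intro h2
            rw [h2] at hc2n
            norm_num at hc2n
          exact (mul_eq_zero.1 h1).resolve_left hc0
        intro n x
        rcases lt_trichotomy x 0 with hx | hx | hx
        · have h1 := hp n (-x) (by linarith)
          rw [hodd] at h1
          exact neg_eq_zero.1 h1
        · rw [hx]; exact h0 n
        · exact hp n x hx
      have h1 := hgram (fun _ => 1)
      simp only [hz] at h1
      have h2 : ∑ n : Fin N, ‖(1:ℂ)‖ ^ 2 = (N:ℝ) := by simp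
      have h3 : ∫ x : ℝ, ‖∑ n : Fin N, (1:ℂ) * (0:ℂ)‖ ^ 2 = 0 := by simp
      rw [h2, h3] at h1
      have h4 : N = 0 := by exact_mod_cast h1.symm
      omega
    · -- the profile does not vanish on the negative half-line
      have h1 : ∀ n, ν n = 0 := by
        intro n
        have h2 := h n (-1)
        rw [hVP, max_eq_right (by norm_num), h0, mul_zero] at h2
        have h3 : ((√(a / (π * cosh (a * (-1 - x0)))) : ℝ) : ℂ) ≠ 0 := by
          have : 0 < a / (π * cosh (a * (-1 - x0))) := by
            have := cosh_pos (a * (-1 - x0))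
            positivity
          exact_mod_cast (Real.sqrt_pos.2 this).ne'
        exact (mul_eq_zero.1 h2.symm).resolve_right h3
      simp [h1] at hν
  have hlt := lt_of_le_of_ne r2 hne
  rw [e1, e2] at hlt
  linarith

end Pool.Agent.H158.OD
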