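import Pool.Agent.H158.RG12

set_option autoImplicit false

open MeasureTheory Set Real Filter Topology

namespace Pool.Agent.H158.OD
open Pool.Agent.H158.RGN

/-- odd near optimiser -/
theorem odd_opt {ε : ℝ} (hε : 0 < ε) :
    ∃ u g : ℝ → ℂ, MemLp u 2 ∧ MemLp g 2 ∧
      (∀ a b, u b - u a = ∫ x in a..b, g x) ∧ (∀ x, u (-x) = -u x) ∧
      (∫ x, star (u x) * u x = (1:ℂ)) ∧
      ∫ x, ‖g x‖ ^ 2 < (π ^ 2 + ε) * ∫ x, (‖u x‖ ^ 2) ^ 3 := by
  have hpi := pi_pos
  have hlim := (six_tendsto.const_mul ((π ^ 2 + ε) / 4))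
  have hgt : π ^ 3 / 8 < (π ^ 2 + ε) / 4 * (π / 2) := by nlinarith [mul_pos hε hpi]
  obtain ⟨k, hk⟩ := (hlim.eventually (lt_mem_nhds hgt)).exists
  set R : ℝ := (k:ℝ) + 1 with hRd
  have hR : 0 < R := by positivity
  set D : ℝ := ∫ x, W R x ^ 2 with hD
  have hD0 : 0 < D := W_pos hR
  have hDπ : D ≤ π := W_le' hR
  set c : ℝ := (√(2 * D))⁻¹ with hc
  have hc2 : c ^ 2 = (2 * D)⁻¹ := by rw [hc, inv_pow, Real.sq_sqrt (by positivity)]
  have hWneg : ∀ x, W R (-x) = W R x := by
    intro x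
    by_cases hx : |x| ≤ R
    · rw [W_in hR hx, W_in hR (by rwa [abs_neg]), w_neg]
    · rw [W_out hR (not_le.1 hx).le, W_out hR (by rw [abs_neg]; exact (not_le.1 hx).le)]
  have hdisj : ∀ x, W R (x - 2 * R) = 0 ∨ W R (x + 2 * R) = 0 := by
    intro x
    by_contra hcon
    rw [not_or] at hcon
    have h1 : |x - 2 * R| < R := by
      by_contra h
      exact hcon.1 (W_out hR (not_lt.1 h))
    have h2 : |x + 2 * R| < R := by
      by_contra h
      exact hcon.2 (W_out hR (not_lt.1 h))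
    rw [abs_lt] at h1 h2
    linarith [h1.1, h2.2]
  set U : ℝ → ℝ := fun x => c * (W R (x - 2 * R) - W R (x + 2 * R)) with hU
  set G : ℝ → ℝ := fun x => c * (W' R (x - 2 * R) - W' R (x + 2 * R)) with hG
  have hW'0 : ∀ x, W' R (x - 2 * R) = 0 ∨ W' R (x + 2 * R) = 0 := by
    intro x
    by_cases h : x - 2 * R ∈ Ico (-R) R
    · right
      unfold W'
      rw [indicator_of_notMem]
      intro h2
      linarith [h.1, h2.2]
    · left
      unfold W'
      rw [indicator_of_notMem h]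
  have hU2 : ∀ x, U x ^ 2 = (2 * D)⁻¹ * (W R (x - 2 * R) ^ 2 + W R (x + 2 * R) ^ 2) := by
    intro x
    simp only [hU]
    rw [mul_pow, hc2]
    rcases hdisj x with h | h <;> rw [h] <;> ring
  have hG2 : ∀ x, G x ^ 2 = (2 * D)⁻¹ * (W' R (x - 2 * R) ^ 2 + W' R (x + 2 * R) ^ 2) := by
    intro x
    simp only [hG]
    rw [mul_pow, hc2]
    rcases hW'0 x with h | h <;> rw [h] <;> ring
  have hU6 : ∀ x, (U x ^ 2) ^ 3 =
      ((2 * D)⁻¹) ^ 3 * ((W R (x - 2 * R) ^ 2) ^ 3 + (W R (x + 2 * R) ^ 2) ^ 3) := by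
    intro x
    rw [hU2]
    rcases hdisj x with h | h <;> rw [h] <;> ring
  have i1 : Integrable (fun x => W R (x - 2 * R) ^ 2) := (W_int hR).comp_sub_right _
  have i2 : Integrable (fun x => W R (x + 2 * R) ^ 2) := (W_int hR).comp_add_right _
  have j1 : Integrable (fun x => W' R (x - 2 * R) ^ 2) := (W'_int hR).comp_sub_right _
  have j2 : Integrable (fun x => W' R (x + 2 * R) ^ 2) := (W'_int hR).comp_add_right _
  have hsix : Integrable (fun x => (W R x ^ 2) ^ 3) := by
    refine int_w_six.mono' (((W_cont R).pow 2).pow 3).aestronglyMeasurable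
      (Eventually.of_forall fun x => ?_)
    rw [Real.norm_eq_abs, abs_of_nonneg (by positivity)]
    exact pow_le_pow_left₀ (sq_nonneg _) (pow_le_pow_left₀ (W_nonneg hR x) (W_le hR x) 2) 3
  have l1 : Integrable (fun x => (W R (x - 2 * R) ^ 2) ^ 3) := hsix.comp_sub_right _
  have l2 : Integrable (fun x => (W R (x + 2 * R) ^ 2) ^ 3) := hsix.comp_add_right _
  have eU : ∫ x, U x ^ 2 = 1 := by
    simp only [hU2]
    rw [integral_const_mul, integral_add i1 i2,
      integral_sub_right_eq_self (fun x => W R x ^ 2) (2 * R),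
      integral_add_right_eq_self (fun x => W R x ^ 2) (2 * R), ← hD]
    field_simp
    ring
  have eG : ∫ x, G x ^ 2 = D⁻¹ * ∫ x, W' R x ^ 2 := by
    simp only [hG2]
    rw [integral_const_mul, integral_add j1 j2,
      integral_sub_right_eq_self (fun x => W' R x ^ 2) (2 * R),
      integral_add_right_eq_self (fun x => W' R x ^ 2) (2 * R)]
    field_simp
    ring
  have e6 : ∫ x, (U x ^ 2) ^ 3 = (1 / 4) * (D⁻¹) ^ 3 * ∫ x, (W R x ^ 2) ^ 3 := by
    simp only [hU6]
    rw [integral_const_mul, integral_add l1 l2,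
      integral_sub_right_eq_self (fun x => (W R x ^ 2) ^ 3) (2 * R),
      integral_add_right_eq_self (fun x => (W R x ^ 2) ^ 3) (2 * R)]
    field_simp
    ring
  have hUcont : Continuous U := by
    simp only [hU]
    have := W_cont R
    fun_prop
  have hGmeas : Measurable G := by
    simp only [hG]
    have := W'_meas (R := R) hR
    exact ((this.comp (measurable_id.sub_const _)).sub (this.comp (measurable_id.add_const _))).const_mul c
  refine ⟨fun x => (U x : ℂ), fun x => (G x : ℂ), ?_, ?_, ?_, ?_, ?_, ?_⟩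
  · have hm : AEStronglyMeasurable (fun x => (U x : ℂ)) volume :=
      (Complex.continuous_ofReal.comp hUcont).aestronglyMeasurable
    rw [memLp_two_iff_integrable_sq_norm hm]
    simp only [Complex.norm_real, Real.norm_eq_abs, sq_abs, hU2]
    exact (i1.add i2).const_mul _
  · have hm : AEStronglyMeasurable (fun x => (G x : ℂ)) volume :=
      (Complex.measurable_ofReal.comp hGmeas).aestronglyMeasurable
    rw [memLp_two_iff_integrable_sq_norm hm]
    simp only [Complex.norm_real, Real.norm_eq_abs, sq_abs, hG2]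
    exact (j1.add j2).const_mul _
  · intro a b
    rw [intervalIntegral.integral_ofReal]
    simp only [hU, hG]
    rw [intervalIntegral.integral_const_mul, intervalIntegral.integral_sub,
      intervalIntegral.integral_comp_sub_right (fun x => W' R x),
      intervalIntegral.integral_comp_add_right (fun x => W' R x), ← W_ftc hR, ← W_ftc hR]
    · push_cast
      ring
    · simpa using (W'_ii hR (a - 2 * R) (b - 2 * R)).comp_sub_right (2 * R)
    · simpa using (W'_ii hR (a + 2 * R) (b + 2 * R)).comp_add_right (2 * R)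
  · intro x
    simp only [hU]
    have h1 : W R (-x - 2 * R) = W R (x + 2 * R) := by rw [← hWneg]; congr 1; ring
    have h2 : W R (-x + 2 * R) = W R (x - 2 * R) := by rw [← hWneg]; congr 1; ring
    rw [h1, h2]
    push_cast
    ring
  · have h1 : ∀ x, star ((U x : ℂ)) * (U x : ℂ) = ((U x ^ 2 : ℝ) : ℂ) := by
      intro x
      rw [show star ((U x : ℂ)) = (U x : ℂ) from Complex.conj_ofReal _]
      push_cast
      ring
    simp only [h1]
    rw [integral_complex_ofReal, eU]
    simp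
  · simp only [Complex.norm_real, Real.norm_eq_abs, sq_abs]
    rw [eG, e6]
    have h1 := W'_le hR
    have h2 : (∫ x, W' R x ^ 2) < (π ^ 2 + ε) / 4 * (D⁻¹) ^ 2 * ∫ x, (W R x ^ 2) ^ 3 := by
      have h3 : π ^ 3 / 8 < (π ^ 2 + ε) / 4 * ∫ x, (W R x ^ 2) ^ 3 := hk
      have h4 : D ^ 2 ≤ π ^ 2 := pow_le_pow_left₀ hD0.le hDπ 2
      have h5 : (∫ x, W' R x ^ 2) * D ^ 2 ≤ π / 8 * π ^ 2 :=
        mul_le_mul h1 h4 (by positivity) (by positivity)
      have h6 : (∫ x, W' R x ^ 2) * D ^ 2 < (π ^ 2 + ε) / 4 * ∫ x, (W R x ^ 2) ^ 3 := by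
        have : π / 8 * π ^ 2 = π ^ 3 / 8 := by ring
        linarith
      have h7 : (π ^ 2 + ε) / 4 * (D⁻¹) ^ 2 * ∫ x, (W R x ^ 2) ^ 3 =
          ((π ^ 2 + ε) / 4 * ∫ x, (W R x ^ 2) ^ 3) / D ^ 2 := by field_simp
      rw [h7, lt_div_iff₀ (by positivity)]
      exact h6
    calc D⁻¹ * ∫ x, W' R x ^ 2 < D⁻¹ * ((π ^ 2 + ε) / 4 * (D⁻¹) ^ 2 * ∫ x, (W R x ^ 2) ^ 3) :=
          mul_lt_mul_of_pos_left h2 (by positivity)
      _ = _ := by ring

end Pool.Agent.H158.OD
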