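import Pool.Agent.H158.RG9

/-!
# The remainder in coordinates
-/

set_option autoImplicit false
set_option linter.unusedSectionVars false
set_option linter.deprecated false

open MeasureTheory Set Filter Topology Real
open scoped RealInnerProductSpace ENNReal
open Pool.Helper490.Calib

namespace Pool.Agent.H158.RG

variable {ι : Type*} [Fintype ι]

/-- The density. -/
noncomputable def dens (u : ι → ℝ → ℝ) (x : ℝ) : ℝ := ∑ n, u n x ^ 2

/-- The partial Gram matrix applied to the vector of the values. -/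
noncomputable def gv (u : ι → ℝ → ℝ) (n : ι) (x : ℝ) : ℝ :=
  ∑ m, (∫ y in Iic x, u n y * u m y) * u m x

/-- The square of the wedge product of the vectors of the values. -/
noncomputable def wedge (u : ι → ℝ → ℝ) (x : ℝ) : ℝ :=
  ∑ n, ∑ m, (u n x * gv u m x - u m x * gv u n x) ^ 2

/-- The vector valued function. -/
noncomputable def vec (u : ι → ℝ → ℝ) (x : ℝ) : EuclideanSpace ℝ ι :=
  WithLp.toLp 2 fun n => u n x

lemma vec_apply (u : ι → ℝ → ℝ) (x : ℝ) (n : ι) : vec u x n = u n x := rfl

lemma vec_norm (u : ι → ℝ → ℝ) (x : ℝ) : ‖vec u x‖ ^ 2 = dens u x := by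
  rw [EuclideanSpace.norm_sq_eq, dens]
  simp [vec_apply]

lemma lagrange (a b : ι → ℝ) : ∑ n, ∑ m, (a n * b m - a m * b n) ^ 2 =
    2 * ((∑ n, a n ^ 2) * (∑ n, b n ^ 2) - (∑ n, a n * b n) ^ 2) := by
  have h1 : ∀ n m, (a n * b m - a m * b n) ^ 2 =
      a n ^ 2 * b m ^ 2 + b n ^ 2 * a m ^ 2 - 2 * ((a n * b n) * (a m * b m)) := by
    intro n m
    ring
  simp only [h1, Finset.sum_sub_distrib, Finset.sum_add_distrib, ← Finset.mul_sum,
    ← Finset.sum_mul]
  ring

variable {u g : ι → ℝ → ℝ}

lemma hsys_of_real (hu2 : ∀ n, MemLp (u n) 2)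
    (hg2 : ∀ n, MemLp (g n) 2) (hug : ∀ n a b, u n b - u n a = ∫ x in a..b, g n x)
    (hgram : ∀ c : ι → ℝ, ∫ x, (∑ n, c n * u n x) ^ 2 ≤ ∑ n, c n ^ 2) :
    Hsys (vec u) (vec g) := by
  have hmem : ∀ f : ι → ℝ → ℝ, (∀ n, MemLp (f n) 2) → MemLp (vec f) 2 := by
    intro f hf
    have hfm : AEStronglyMeasurable (fun x => fun n => f n x) volume :=
      (aemeasurable_pi_lambda _ fun n => (hf n).1.aemeasurable).aestronglyMeasurable
    have hm : AEStronglyMeasurable (vec f) volume :=
      (PiLp.continuous_toLp 2 (fun _ : ι => ℝ)).comp_aestronglyMeasurable hfm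
    rw [memLp_two_iff_integrable_sq_norm hm]
    simp only [vec_norm]
    unfold dens
    refine integrable_finsetSum _ fun n _ => ?_
    have := (hf n).integrable_norm_pow (by norm_num)
    refine this.congr (Eventually.of_forall fun x => ?_)
    simp
  have hII : ∀ n a b, IntervalIntegrable (g n) volume a b := by
    intro n a b
    have h1 : LocallyIntegrable (g n) volume := (hg2 n).locallyIntegrable (by norm_num)
    exact intervalIntegrable_iff.2 ((h1.integrableOn_isCompact isCompact_uIcc).mono_set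
      uIoc_subset_uIcc)
  have hVV : ∀ a b, IntervalIntegrable (vec g) volume a b := by
    intro a b
    have h1 : LocallyIntegrable (vec g) volume := (hmem g hg2).locallyIntegrable (by norm_num)
    exact intervalIntegrable_iff.2 ((h1.integrableOn_isCompact isCompact_uIcc).mono_set
      uIoc_subset_uIcc)
  refine ⟨hmem u hu2, hmem g hg2, ?_, ?_⟩
  · intro a b
    ext n
    have h2 := (EuclideanSpace.proj (𝕜 := ℝ) n : EuclideanSpace ℝ ι →L[ℝ] ℝ).intervalIntegral_comp_comm
      (hVV a b)
    have h2' : ∀ v : EuclideanSpace ℝ ι,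
        (EuclideanSpace.proj (𝕜 := ℝ) n : EuclideanSpace ℝ ι →L[ℝ] ℝ) v = v n := fun v => rfl
    simp only [h2', vec_apply] at h2
    rw [← h2, PiLp.sub_apply, vec_apply, vec_apply, hug n a b]
  · intro v
    have h3 : ∀ x, ⟪vec u x, v⟫ = ∑ n, v n * u n x := by
      intro x
      rw [PiLp.inner_apply]
      refine Finset.sum_congr rfl fun n _ => ?_
      simp [vec_apply]
    simp only [h3]
    refine (hgram v).trans (le_of_eq ?_)
    rw [EuclideanSpace.norm_sq_eq]
    simp

lemma RV_vec (hu2 : ∀ n, MemLp (u n) 2) (hp : Pre (vec u)) (x : ℝ) :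
    RV (vec u x) (Bop (vec u) x) = dens u x * wedge u x / 2 := by
  classical
  have hij : ∀ n m, Integrable (fun y => u n y * u m y) := by
    intro n m
    have h2 : ∀ n, Integrable (fun x => ‖u n x‖ ^ 2) := fun n =>
      (hu2 n).integrable_norm_pow (by norm_num)
    have hm : AEStronglyMeasurable (fun x => u n x * u m x) volume := (hu2 n).1.mul (hu2 m).1
    refine ((h2 n).add (h2 m)).mono' hm (Eventually.of_forall fun x => ?_)
    rw [norm_mul]
    simp only [Pi.add_apply]
    nlinarith [sq_nonneg (‖u n x‖ - ‖u m x‖), norm_nonneg (u n x), norm_nonneg (u m x)]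
  have hG : ∀ n, Gam (vec u) x (vec u x) n = gv u n x := by
    intro n
    have h1 := hp.Gam_inner x (vec u x) (EuclideanSpace.single n (1:ℝ))
    have h2 : ⟪Gam (vec u) x (vec u x), EuclideanSpace.single n (1:ℝ)⟫ =
        Gam (vec u) x (vec u x) n := by
      rw [EuclideanSpace.inner_single_right]
      simp
    have h3 : ∀ y, ⟪vec u y, vec u x⟫ * ⟪vec u y, EuclideanSpace.single n (1:ℝ)⟫ =
        ∑ m, (u n y * u m y) * u m x := by
      intro y
      rw [EuclideanSpace.inner_single_right, PiLp.inner_apply, Finset.sum_mul]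
      refine Finset.sum_congr rfl fun m _ => ?_
      simp [vec_apply]
      ring
    rw [h2] at h1
    rw [h1, gv]
    simp only [h3]
    rw [integral_finsetSum _ fun m _ => ((hij n m).mul_const _).integrableOn]
    refine Finset.sum_congr rfl fun m _ => ?_
    rw [integral_mul_const]
  rw [RV_Gam, vec_norm]
  have h4 : ‖Gam (vec u) x (vec u x)‖ ^ 2 = ∑ n, gv u n x ^ 2 := by
    rw [EuclideanSpace.norm_sq_eq]
    refine Finset.sum_congr rfl fun n _ => ?_
    rw [hG, Real.norm_eq_abs, sq_abs]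
  have h5 : ⟪vec u x, Gam (vec u) x (vec u x)⟫ = ∑ n, u n x * gv u n x := by
    rw [PiLp.inner_apply]
    refine Finset.sum_congr rfl fun n _ => ?_
    rw [hG]
    simp [vec_apply]
    ring
  rw [h4, h5]
  have h6 := lagrange (fun n => u n x) (fun n => gv u n x)
  unfold wedge dens
  rw [h6]
  ring

/-- The remainder in coordinates, for real families with Gram matrix at most one. -/
theorem real_remainder (hu2 : ∀ n, MemLp (u n) 2)
    (hg2 : ∀ n, MemLp (g n) 2) (hug : ∀ n a b, u n b - u n a = ∫ x in a..b, g n x)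
    (hgram : ∀ c : ι → ℝ, ∫ x, (∑ n, c n * u n x) ^ 2 ≤ ∑ n, c n ^ 2) :
    Integrable (fun x => dens u x ^ 3) ∧ Integrable (fun x => dens u x * wedge u x) ∧
    π ^ 2 / 4 * (∫ x, dens u x ^ 3) + π ^ 4 / 96 * (∫ x, dens u x * wedge u x) ≤
      ∑ n, ∫ x, g n x ^ 2 := by
  have hs := hsys_of_real hu2 hg2 hug hgram
  obtain ⟨hJ, -⟩ := sharp_H1 _ _ hs.hu2 hs.hg2 hs.hug hs.hbes
  have hp : Pre (vec u) := (H1_ineq (vec u) (vec g) hs.hu2 hs.hg2 hs.hug hs.hbes
    (∅ : Finset ℕ) (fun _ => 0) (fun _ => 0) (fun _ => 0) 0 0 0 le_rfl le_rfl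
    (fun s t => by simp [P]) (fun s _ r _ t _ => by simp [P, D])).1
  obtain ⟨hR, hle⟩ := remainder hs
  simp only [vec_norm] at hJ hle
  have h1 : ∀ x, RV (vec u x) (Bop (vec u) x) = dens u x * wedge u x / 2 := RV_vec hu2 hp
  simp only [h1] at hR hle
  have h2 : Integrable (fun x => dens u x * wedge u x) := by
    refine (hR.const_mul 2).congr (Eventually.of_forall fun x => ?_)
    simp only []
    ring
  have hgi : ∀ n, Integrable (fun x => g n x ^ 2) := by
    intro n
    refine ((hg2 n).integrable_norm_pow (by norm_num)).congr (Eventually.of_forall fun x => ?_)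
    simp
  refine ⟨hJ, h2, ?_⟩
  rw [integral_div] at hle
  have h3 : ∫ x, dens g x = ∑ n, ∫ x, g n x ^ 2 := by
    unfold dens
    exact integral_finsetSum _ fun n _ => hgi n
  rw [← h3]
  linarith

end Pool.Agent.H158.RG
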