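import Pool.Agent.H158.RG10

/-!
# The remainder for complex families
-/

set_option autoImplicit false
set_option linter.unusedSectionVars false
set_option linter.deprecated false

open MeasureTheory Set Filter Topology Real
open scoped RealInnerProductSpace ENNReal
open Pool.Helper490.Calib

namespace Pool.Agent.H158.RG

/-- The real and imaginary parts. -/
noncomputable def parts {N : ℕ} (u : Fin N → ℝ → ℂ) : Fin N ⊕ Fin N → ℝ → ℝ :=
  Sum.elim (fun n x => (u n x).re) (fun n x => (u n x).im)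

lemma dens_parts {N : ℕ} (u : Fin N → ℝ → ℂ) (x : ℝ) :
    dens (parts u) x = ∑ n, ‖u n x‖ ^ 2 := by
  unfold dens parts
  rw [Fintype.sum_sum_type, ← Finset.sum_add_distrib]
  refine Finset.sum_congr rfl fun n _ => ?_
  simp only [Sum.elim_inl, Sum.elim_inr]
  exact (sqn _).symm

theorem complex_remainder {N : ℕ} (u g : Fin N → ℝ → ℂ) (hu2 : ∀ n, MemLp (u n) 2)
    (hg2 : ∀ n, MemLp (g n) 2) (hug : ∀ n a b, u n b - u n a = ∫ x in a..b, g n x)
    (hgram : ∀ c : Fin N → ℂ, ∫ x, ‖∑ n, c n * u n x‖ ^ 2 ≤ ∑ n, ‖c n‖ ^ 2) :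
    Integrable (fun x => (∑ n, ‖u n x‖ ^ 2) ^ 3) ∧
    Integrable (fun x => (∑ n, ‖u n x‖ ^ 2) * wedge (parts u) x) ∧
    π ^ 2 / 4 * (∫ x, (∑ n, ‖u n x‖ ^ 2) ^ 3) +
      π ^ 4 / 96 * (∫ x, (∑ n, ‖u n x‖ ^ 2) * wedge (parts u) x) ≤
      ∑ n, ∫ x, ‖g n x‖ ^ 2 := by
  have hII : ∀ n a b, IntervalIntegrable (g n) volume a b := by
    intro n a b
    have h1 : LocallyIntegrable (g n) volume := (hg2 n).locallyIntegrable (by norm_num)
    exact intervalIntegrable_iff.2 ((h1.integrableOn_isCompact isCompact_uIcc).mono_set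
      uIoc_subset_uIcc)
  have hm : ∀ f : Fin N → ℝ → ℂ, (∀ n, MemLp (f n) 2) → ∀ j, MemLp (parts f j) 2 := by
    intro f hf j
    rcases j with n | n
    · exact (hf n).re
    · exact (hf n).im
  have hug' : ∀ j a b, parts u j b - parts u j a = ∫ x in a..b, parts g j x := by
    intro j a b
    rcases j with n | n
    · have h2 := Complex.reCLM.intervalIntegral_comp_comm (hII n a b)
      simp only [Complex.reCLM_apply] at h2
      simp only [parts, Sum.elim_inl]
      rw [h2, ← hug n a b, Complex.sub_re]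
    · have h2 := Complex.imCLM.intervalIntegral_comp_comm (hII n a b)
      simp only [Complex.imCLM_apply] at h2
      simp only [parts, Sum.elim_inr]
      rw [h2, ← hug n a b, Complex.sub_im]
  have hgram' : ∀ c : Fin N ⊕ Fin N → ℝ, ∫ x, (∑ j, c j * parts u j x) ^ 2 ≤ ∑ j, c j ^ 2 := by
    intro c
    have h1 := bessel_of_gram u hu2 hgram (WithLp.toLp 2 c)
    have h2 : ∀ x, ⟪realify (fun n => u n x), WithLp.toLp 2 c⟫ = ∑ j, c j * parts u j x := by
      intro x
      rw [PiLp.inner_apply, Fintype.sum_sum_type, Fintype.sum_sum_type]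
      simp [realify, parts]
    simp only [h2] at h1
    refine h1.trans (le_of_eq ?_)
    rw [EuclideanSpace.norm_sq_eq]
    simp
  obtain ⟨h1, h2, h3⟩ := real_remainder (hm u hu2) (hm g hg2) hug' hgram'
  simp only [dens_parts] at h1 h2 h3
  refine ⟨h1, h2, h3.trans (le_of_eq ?_)⟩
  rw [Fintype.sum_sum_type, ← Finset.sum_add_distrib]
  refine Finset.sum_congr rfl fun n _ => ?_
  have hr : Integrable (fun x => parts g (Sum.inl n) x ^ 2) := by
    refine ((hm g hg2 (Sum.inl n)).integrable_norm_pow (by norm_num)).congr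
      (Eventually.of_forall fun x => ?_)
    simp
  have hi : Integrable (fun x => parts g (Sum.inr n) x ^ 2) := by
    refine ((hm g hg2 (Sum.inr n)).integrable_norm_pow (by norm_num)).congr
      (Eventually.of_forall fun x => ?_)
    simp
  rw [← integral_add hr hi]
  refine integral_congr_ae (Eventually.of_forall fun x => ?_)
  simp only [parts, Sum.elim_inl, Sum.elim_inr]
  exact (sqn _).symm

end Pool.Agent.H158.RG
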