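import Pool.Agent.H158.RG1
import Pool.Agent.Helper490.LTH1

/-!
# Gram operators of continuous square integrable functions
-/

set_option autoImplicit false
set_option linter.unusedSectionVars false
set_option linter.deprecated false

open MeasureTheory Set Filter Topology Real
open scoped RealInnerProductSpace
open Pool.Helper490.Calib

namespace Pool.Agent.H158.RG

variable {E : Type*} [NormedAddCommGroup E] [InnerProductSpace ℝ E] [FiniteDimensional ℝ E]

/-- Continuous functions with Gram operator at most one. -/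
structure Pre (u : ℝ → E) : Prop where
  uc : Continuous u
  hui : Integrable (fun x => ‖u x‖ ^ 2)
  hbes : ∀ v : E, ∫ x, ⟪u x, v⟫ ^ 2 ≤ ‖v‖ ^ 2

lemma pre_of_sys {u u' : ℝ → E} (h : Sys u u') : Pre u := ⟨h.uc, h.hui, h.hbes⟩

namespace Pre

variable {u : ℝ → E} (h : Pre u)
include h

lemma Rc : Continuous (R u) := by
  have h1 : Continuous fun x => innerSL ℝ (u x) := (innerSL ℝ).continuous.comp h.uc
  have h2 := (ContinuousLinearMap.smulRightL ℝ E E).continuous.comp h1
  exact h2.clm_apply h.uc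

lemma Ri : Integrable (R u) := by
  refine h.hui.mono h.Rc.aestronglyMeasurable (Eventually.of_forall fun x => ?_)
  rw [R_norm, Real.norm_eq_abs, abs_of_nonneg (sq_nonneg _)]

lemma Gam_deriv (x : ℝ) : HasDerivAt (Gam u) (R u x) x := by
  have hform : Gam u = fun x => Gam u 0 + ∫ t in (0:ℝ)..x, R u t := by
    funext x
    have := intervalIntegral.integral_Iic_sub_Iic (f := R u) (a := 0) (b := x) (μ := volume)
      h.Ri.integrableOn h.Ri.integrableOn
    simp only [Gam]
    rw [← this]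
    abel
  rw [hform]
  exact (intervalIntegral.integral_hasDerivAt_right h.Ri.intervalIntegrable
    (h.Ri.aestronglyMeasurable.stronglyMeasurableAtFilter) h.Rc.continuousAt).const_add _

lemma Bop_deriv (x : ℝ) : HasDerivAt (Bop u) (R u x) x := (h.Gam_deriv x).sub_const _

lemma Bop_cont : Continuous (Bop u) :=
  continuous_iff_continuousAt.2 fun x => (h.Bop_deriv x).continuousAt

lemma Gam_inner (x : ℝ) (v w : E) :
    ⟪Gam u x v, w⟫ = ∫ y in Iic x, ⟪u y, v⟫ * ⟪u y, w⟫ := by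
  have h1 : Gam u x v = ∫ y in Iic x, R u y v :=
    ContinuousLinearMap.integral_apply h.Ri.integrableOn v
  have h2 : IntegrableOn (fun y => R u y v) (Iic x) := by
    have := h.Ri.integrableOn (s := Iic x)
    exact this.apply_continuousLinearMap v
  rw [h1, real_inner_comm, ← integral_inner h2 w]
  refine integral_congr_ae (Eventually.of_forall fun y => ?_)
  simp only [Pool.Helper490.Calib.R_apply, real_inner_smul_right]
  rw [real_inner_comm w (u y)]

lemma int_sq (v : E) : Integrable (fun y => ⟪u y, v⟫ ^ 2) := by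
  have hc : Continuous fun y => ⟪u y, v⟫ ^ 2 := (h.uc.inner continuous_const).pow 2
  refine (h.hui.mul_const (‖v‖ ^ 2)).mono' hc.aestronglyMeasurable
    (Eventually.of_forall fun y => ?_)
  rw [Real.norm_eq_abs, abs_of_nonneg (sq_nonneg _), ← mul_pow, ← sq_abs]
  exact pow_le_pow_left₀ (abs_nonneg _) (abs_real_inner_le_norm _ _) 2

lemma Gam_sq (x : ℝ) (v : E) : ⟪Gam u x v, v⟫ = ∫ y in Iic x, ⟪u y, v⟫ ^ 2 := by
  rw [h.Gam_inner]
  exact integral_congr_ae (Eventually.of_forall fun y => (pow_two _).symm)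

lemma Gam_nonneg (x : ℝ) (v : E) : 0 ≤ ⟪Gam u x v, v⟫ := by
  rw [h.Gam_inner]
  exact setIntegral_nonneg measurableSet_Iic fun y _ => mul_self_nonneg _

lemma Gam_le (x : ℝ) (v : E) : ⟪Gam u x v, v⟫ ≤ ‖v‖ ^ 2 := by
  rw [h.Gam_sq]
  refine le_trans ?_ (h.hbes v)
  exact setIntegral_le_integral (h.int_sq v) (Eventually.of_forall fun y => sq_nonneg _)

/-- Strict bounds at the points where `u` does not vanish. -/
lemma Gam_pos {x : ℝ} (hx : u x ≠ 0) : 0 < ⟪Gam u x (u x), u x⟫ := by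
  rw [h.Gam_sq]
  rw [setIntegral_pos_iff_support_of_nonneg_ae
    (Eventually.of_forall fun y => sq_nonneg _) (h.int_sq _).integrableOn]
  have hc : Continuous fun y => ⟪u y, u x⟫ ^ 2 := (h.uc.inner continuous_const).pow 2
  have hopen : IsOpen (Function.support fun y => ⟪u y, u x⟫ ^ 2) := hc.isOpen_support
  have hmem : x ∈ Function.support fun y => ⟪u y, u x⟫ ^ 2 := by
    simp only [Function.mem_support]
    rw [real_inner_self_eq_norm_sq]
    have := norm_pos_iff.2 hx
    positivity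
  obtain ⟨ε, hε, hsub⟩ := Metric.isOpen_iff.1 hopen x hmem
  have hsub2 : Ioo (x - ε) x ⊆ (Function.support fun y => ⟪u y, u x⟫ ^ 2) ∩ Iic x := by
    intro y hy
    refine ⟨hsub ?_, hy.2.le⟩
    rw [Metric.mem_ball, Real.dist_eq, abs_lt]
    constructor <;> linarith [hy.1, hy.2]
  refine lt_of_lt_of_le ?_ (measure_mono hsub2)
  rw [Real.volume_Ioo]
  simpa using hε

lemma Gam_lt {x : ℝ} (hx : u x ≠ 0) : ⟪Gam u x (u x), u x⟫ < ‖u x‖ ^ 2 := by
  have h1 := h.hbes (u x)
  have h2 : ∫ y, ⟪u y, u x⟫ ^ 2 = (∫ y in Iic x, ⟪u y, u x⟫ ^ 2) +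
      ∫ y in Ioi x, ⟪u y, u x⟫ ^ 2 := by
    have := integral_add_compl (s := Iic x) measurableSet_Iic (h.int_sq (u x))
    rw [compl_Iic] at this
    exact this.symm
  have h3 : 0 < ∫ y in Ioi x, ⟪u y, u x⟫ ^ 2 := by
    rw [setIntegral_pos_iff_support_of_nonneg_ae
      (Eventually.of_forall fun y => sq_nonneg _) (h.int_sq _).integrableOn]
    have hc : Continuous fun y => ⟪u y, u x⟫ ^ 2 := (h.uc.inner continuous_const).pow 2
    have hopen : IsOpen (Function.support fun y => ⟪u y, u x⟫ ^ 2) := hc.isOpen_support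
    have hmem : x ∈ Function.support fun y => ⟪u y, u x⟫ ^ 2 := by
      simp only [Function.mem_support]
      rw [real_inner_self_eq_norm_sq]
      have := norm_pos_iff.2 hx
      positivity
    obtain ⟨ε, hε, hsub⟩ := Metric.isOpen_iff.1 hopen x hmem
    have hsub2 : Ioo x (x + ε) ⊆ (Function.support fun y => ⟪u y, u x⟫ ^ 2) ∩ Ioi x := by
      intro y hy
      refine ⟨hsub ?_, hy.1⟩
      rw [Metric.mem_ball, Real.dist_eq, abs_lt]
      constructor <;> linarith [hy.1, hy.2]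
    refine lt_of_lt_of_le ?_ (measure_mono hsub2)
    rw [Real.volume_Ioo]
    simpa using hε
  rw [h.Gam_sq]
  linarith

lemma Bop_inner (x : ℝ) (v w : E) : ⟪Bop u x v, w⟫ = ⟪Gam u x v, w⟫ - 1 / 2 * ⟪v, w⟫ := by
  simp only [Bop, ContinuousLinearMap.sub_apply, ContinuousLinearMap.smul_apply,
    ContinuousLinearMap.one_apply, inner_sub_left, real_inner_smul_left]

lemma Bop_symm (x : ℝ) (v w : E) : ⟪Bop u x v, w⟫ = ⟪v, Bop u x w⟫ := by
  rw [real_inner_comm (Bop u x w) v, h.Bop_inner, h.Bop_inner, h.Gam_inner, h.Gam_inner,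
    real_inner_comm w v]
  congr 2
  funext y
  ring

lemma Bop_pow_symm (x : ℝ) (a : ℕ) (v w : E) :
    ⟪(Bop u x ^ a) v, w⟫ = ⟪v, (Bop u x ^ a) w⟫ := by
  induction a generalizing v w with
  | zero => simp
  | succ a ih =>
    rw [pow_succ, ContinuousLinearMap.mul_apply, ih, h.Bop_symm, ← ContinuousLinearMap.mul_apply,
      ← pow_succ', pow_succ]

/-- Coordinates in an eigenbasis. -/
lemma coords' (x : ℝ) : ∃ (n : ℕ) (b : OrthonormalBasis (Fin n) ℝ E) (e : Fin n → ℝ),
    (∀ i, e i ∈ Icc (-(1 / 2) : ℝ) (1 / 2)) ∧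
    ∀ i a (y : E), ⟪b i, (Bop u x ^ a) y⟫ = e i ^ a * ⟪b i, y⟫ := by
  have hT : ((Bop u x : E →L[ℝ] E) : E →ₗ[ℝ] E).IsSymmetric := fun v w => h.Bop_symm x v w
  set n := Module.finrank ℝ E with hn
  set b := hT.eigenvectorBasis hn.symm with hb
  set e := hT.eigenvalues hn.symm with he
  have hbe : ∀ i, Bop u x (b i) = e i • b i := fun i => hT.apply_eigenvectorBasis hn.symm i
  have hpow : ∀ i a, (Bop u x ^ a) (b i) = e i ^ a • b i := by
    intro i a
    induction a with
    | zero => simp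
    | succ a ih =>
      rw [pow_succ, ContinuousLinearMap.mul_apply, hbe, map_smul, ih, smul_smul, pow_succ, mul_comm]
  refine ⟨n, b, e, ?_, ?_⟩
  · intro i
    have hb1 : ‖b i‖ = 1 := b.orthonormal.1 i
    have h1 := h.Gam_nonneg x (b i)
    have h2 := h.Gam_le x (b i)
    have h3 := h.Bop_inner x (b i) (b i)
    rw [hbe, real_inner_smul_left, real_inner_self_eq_norm_sq, hb1] at h3
    rw [hb1] at h2
    constructor <;> nlinarith
  · intro i a y
    rw [← h.Bop_pow_symm, hpow, real_inner_smul_left]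

end Pre

/-! ### The integrand with the remainders -/

section F

variable {ι : Type*} (S : Finset ι) (w : ι → ℝ) (α β : ι → ℕ) (κ : ℝ)

/-- The nonlinear field. -/
noncomputable def NV (U : E) (B : E →L[ℝ] E) : E :=
  (2 * κ) • ∑ q ∈ S, (w q * ⟪U, (B ^ β q) U⟫) • (B ^ α q) U

/-- The second remainder. -/
noncomputable def RV (U : E) (B : E →L[ℝ] E) : ℝ :=
  ‖U‖ ^ 2 * (‖U‖ ^ 2 * ‖B U‖ ^ 2 - ⟪U, B U⟫ ^ 2)

lemma RV_nonneg (U : E) (B : E →L[ℝ] E) : 0 ≤ RV U B := by
  unfold RV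
  have h1 := abs_real_inner_le_norm U (B U)
  have h2 : ⟪U, B U⟫ ^ 2 ≤ (‖U‖ * ‖B U‖) ^ 2 := by
    rw [← sq_abs]
    exact pow_le_pow_left₀ (abs_nonneg _) h1 2
  rw [mul_pow] at h2
  have : 0 ≤ ‖U‖ ^ 2 * ‖B U‖ ^ 2 - ⟪U, B U⟫ ^ 2 := by linarith
  positivity

/-- The integrand. -/
noncomputable def FV (c0 c1 : ℝ) (U : E) (B : E →L[ℝ] E) (g : E) : ℝ :=
  c0 * (‖U‖ ^ 2) ^ 3 + ‖g - NV S w α β κ U B‖ ^ 2 + 2 * c1 * RV U B

lemma FV_nonneg {c0 c1 : ℝ} (h0 : 0 ≤ c0) (h1 : 0 ≤ c1) (U : E) (B : E →L[ℝ] E) (g : E) :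
    0 ≤ FV S w α β κ c0 c1 U B g := by
  unfold FV
  have := RV_nonneg U B
  positivity

lemma FV_continuous (c0 c1 : ℝ) :
    Continuous fun p : E × (E →L[ℝ] E) × E => FV S w α β κ c0 c1 p.1 p.2.1 p.2.2 := by
  have hB : ∀ a : ℕ, Continuous fun p : E × (E →L[ℝ] E) × E => (p.2.1 ^ a) p.1 := fun a =>
    ((continuous_snd.fst).pow a).clm_apply continuous_fst
  have hN : Continuous fun p : E × (E →L[ℝ] E) × E => NV S w α β κ p.1 p.2.1 := by
    unfold NV
    refine Continuous.const_smul (continuous_finset_sum _ fun q _ => ?_) _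
    exact (continuous_const.mul (continuous_fst.inner (hB _))).smul (hB _)
  have hB1 : Continuous fun p : E × (E →L[ℝ] E) × E => p.2.1 p.1 :=
    (continuous_snd.fst).clm_apply continuous_fst
  unfold FV RV
  have hn : Continuous fun p : E × (E →L[ℝ] E) × E => ‖p.1‖ ^ 2 := continuous_fst.norm.pow 2
  refine ((continuous_const.mul (hn.pow 3)).add
    (((continuous_snd.snd).sub hN).norm.pow 2)).add (continuous_const.mul ?_)
  exact hn.mul ((hn.mul (hB1.norm.pow 2)).sub ((continuous_fst.inner hB1).pow 2))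

end F

end Pool.Agent.H158.RG
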