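import Pool.Agent.H158.RG2

/-!
# The calibrated inequality with both remainders
-/

set_option autoImplicit false
set_option linter.unusedSectionVars false
set_option linter.deprecated false

open MeasureTheory Set Filter Topology Real
open scoped RealInnerProductSpace
open Pool.Helper490.Calib

namespace Pool.Agent.H158.RG

variable {E : Type*} [NormedAddCommGroup E] [InnerProductSpace ℝ E] [FiniteDimensional ℝ E]

variable {u u' : ℝ → E} (h : Sys u u')
include h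

variable {ι : Type*} (S : Finset ι) (w : ι → ℝ) (α β : ι → ℕ) (κ : ℝ)

/-- The calibration argument for a polynomial kernel. -/
theorem calibrated' (c0 c1 : ℝ) (hc0 : 0 ≤ c0) (hc1 : 0 ≤ c1)
    (hsym : ∀ s t, P S w α β s t = P S w α β t s)
    (hK : ∀ s ∈ Icc (-(1 / 2) : ℝ) (1 / 2), ∀ r ∈ Icc (-(1 / 2) : ℝ) (1 / 2),
        ∀ t ∈ Icc (-(1 / 2) : ℝ) (1 / 2),
      4 * κ ^ 2 * (P S w α β t s * P S w α β t r) + κ * D S w α β s r t + c0 +
        c1 * (s - r) ^ 2 ≤ 0) :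
    ∫⁻ x, ENNReal.ofReal (FV S w α β κ c0 c1 (u x) (Bop u x) (u' x)) ≤
      ENNReal.ofReal (∫ x, ‖u' x‖ ^ 2) := by
  obtain ⟨M, hM0, hM⟩ := h.rho_bdd
  set Dm : ℕ → ℝ → ℝ := fun a x =>
    2 * mu u u' a x + ∑ l ∈ Finset.range a, mo u l x * mo u (a - 1 - l) x with hDm
  set Φ : ℝ → ℝ := fun x => κ * ∑ q ∈ S, w q * (mo u (α q) x * mo u (β q) x) with hΦ
  set Φ' : ℝ → ℝ := fun x => κ * ∑ q ∈ S, w q *
    (Dm (α q) x * mo u (β q) x + mo u (α q) x * Dm (β q) x) with hΦ'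
  have hΦd : ∀ x, HasDerivAt Φ (Φ' x) x := by
    intro x
    refine HasDerivAt.const_mul κ ?_
    refine HasDerivAt.fun_sum fun q _ => ?_
    exact ((h.mo_deriv x (α q)).mul (h.mo_deriv x (β q))).const_mul (w q)
  have hDmc : ∀ a, Continuous (Dm a) := fun a =>
    (continuous_const.mul (h.mu_cont a)).add
      (continuous_finset_sum _ fun l _ => (h.mo_cont l).mul (h.mo_cont _))
  have hΦ'c : Continuous Φ' := by
    refine continuous_const.mul (continuous_finset_sum _ fun q _ => continuous_const.mul ?_)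
    exact ((hDmc _).mul (h.mo_cont _)).add ((h.mo_cont _).mul (hDmc _))
  -- bounds
  have hDmb : ∀ a x, |Dm a x| ≤ (‖u x‖ ^ 2 + ‖u' x‖ ^ 2) + a * (M * ‖u x‖ ^ 2) := by
    intro a x
    refine (abs_add_le _ _).trans (add_le_add (h.mu_bound x a) ?_)
    refine (Finset.abs_sum_le_sum_abs _ _).trans ?_
    have : ∀ l ∈ Finset.range a, |mo u l x * mo u (a - 1 - l) x| ≤ M * ‖u x‖ ^ 2 := by
      intro l _
      rw [abs_mul]
      exact mul_le_mul ((h.mo_bound x l).trans (hM x)) (h.mo_bound x _) (abs_nonneg _) hM0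
    refine (Finset.sum_le_sum this).trans ?_
    rw [Finset.sum_const, Finset.card_range, nsmul_eq_mul]
  have hterm : ∀ q x, |Dm (α q) x * mo u (β q) x + mo u (α q) x * Dm (β q) x| ≤
      ((‖u x‖ ^ 2 + ‖u' x‖ ^ 2) + α q * (M * ‖u x‖ ^ 2)) * M +
      M * ((‖u x‖ ^ 2 + ‖u' x‖ ^ 2) + β q * (M * ‖u x‖ ^ 2)) := by
    intro q x
    refine (abs_add_le _ _).trans (add_le_add ?_ ?_)
    · rw [abs_mul]
      exact mul_le_mul (hDmb _ x) ((h.mo_bound x _).trans (hM x)) (abs_nonneg _) (by positivity)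
    · rw [abs_mul]
      exact mul_le_mul ((h.mo_bound x _).trans (hM x)) (hDmb _ x) (abs_nonneg _) hM0
  have hΦ'i : Integrable Φ' := by
    have hdom : Integrable (fun x => |κ| * ∑ q ∈ S, |w q| *
        (((‖u x‖ ^ 2 + ‖u' x‖ ^ 2) + α q * (M * ‖u x‖ ^ 2)) * M +
      M * ((‖u x‖ ^ 2 + ‖u' x‖ ^ 2) + β q * (M * ‖u x‖ ^ 2)))) := by
      refine Integrable.const_mul (integrable_finset_sum _ fun q _ => Integrable.const_mul ?_ _) _
      refine Integrable.add (Integrable.mul_const ?_ _) (Integrable.const_mul ?_ _)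
      · exact (h.hui.add h.hu'i).add ((h.hui.const_mul _).const_mul _)
      · exact (h.hui.add h.hu'i).add ((h.hui.const_mul _).const_mul _)
    refine hdom.mono' hΦ'c.aestronglyMeasurable (Eventually.of_forall fun x => ?_)
    rw [Real.norm_eq_abs]
    simp only [hΦ']
    rw [abs_mul]
    refine mul_le_mul_of_nonneg_left ?_ (abs_nonneg _)
    refine (Finset.abs_sum_le_sum_abs _ _).trans (Finset.sum_le_sum fun q _ => ?_)
    rw [abs_mul]
    exact mul_le_mul_of_nonneg_left (hterm q x) (abs_nonneg _)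
  have hΦb : ∀ x, |Φ x| ≤ |κ| * (∑ q ∈ S, |w q|) * (‖u x‖ ^ 2) ^ 2 := by
    intro x
    simp only [hΦ]
    rw [abs_mul, mul_assoc]
    refine mul_le_mul_of_nonneg_left ?_ (abs_nonneg _)
    rw [Finset.sum_mul]
    refine (Finset.abs_sum_le_sum_abs _ _).trans (Finset.sum_le_sum fun q _ => ?_)
    rw [abs_mul, abs_mul, pow_two]
    refine mul_le_mul_of_nonneg_left ?_ (abs_nonneg _)
    exact mul_le_mul (h.mo_bound x _) (h.mo_bound x _) (abs_nonneg _) (sq_nonneg _)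
  have hΦT : Tendsto Φ atTop (𝓝 0) := by
    refine squeeze_zero_norm hΦb ?_
    have := (h.rho_top.pow 2).const_mul (|κ| * (∑ q ∈ S, |w q|))
    simpa using this
  have hΦB : Tendsto Φ atBot (𝓝 0) := by
    refine squeeze_zero_norm hΦb ?_
    have := (h.rho_bot.pow 2).const_mul (|κ| * (∑ q ∈ S, |w q|))
    simpa using this
  have hzero : ∫ x, Φ' x = 0 := by
    have := integral_of_hasDerivAt_of_tendsto hΦd hΦ'i hΦB hΦT
    simpa using this
  -- pointwise inequality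
  have hpt : ∀ x, Φ' x + FV S w α β κ c0 c1 (u x) (Bop u x) (u' x) ≤ ‖u' x‖ ^ 2 := by
    intro x
    obtain ⟨n, b, e, he, hbe⟩ := (pre_of_sys h).coords' x
    have hexp : ∀ v w : E, ⟪v, w⟫ = ∑ i, ⟪b i, v⟫ * ⟪b i, w⟫ := by
      intro v w
      rw [← b.sum_inner_mul_inner v w]
      refine Finset.sum_congr rfl fun i _ => ?_
      rw [real_inner_comm v (b i)]
    have hmo : ∀ a, mo u a x = ∑ i, e i ^ a * ⟪b i, u x⟫ ^ 2 := by
      intro a
      rw [mo, hexp]
      refine Finset.sum_congr rfl fun i _ => ?_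
      rw [hbe]
      ring
    have hmu : ∀ a, mu u u' a x = ∑ i, e i ^ a * (⟪b i, u x⟫ * ⟪b i, u' x⟫) := by
      intro a
      rw [mu, hexp]
      refine Finset.sum_congr rfl fun i _ => ?_
      rw [hbe]
      ring
    have hnsq : ∀ v : E, ‖v‖ ^ 2 = ∑ i, ⟪b i, v⟫ ^ 2 := by
      intro v
      rw [← real_inner_self_eq_norm_sq, hexp]
      exact Finset.sum_congr rfl fun i _ => (pow_two _).symm
    have hB1 : ∀ i, ⟪b i, Bop u x (u x)⟫ = e i * ⟪b i, u x⟫ := by
      intro i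
      have := hbe i 1 (u x)
      rwa [pow_one, pow_one] at this
    have hkey := pointwise' S w α β κ c0 c1 e (fun i => ⟪b i, u x⟫) (fun i => ⟪b i, u' x⟫) hsym
      (fun i k j => hK (e i) (he i) (e k) (he k) (e j) (he j))
    have hNV : ∀ i, ⟪b i, NV S w α β κ (u x) (Bop u x)⟫ =
        ⟪b i, u x⟫ * (2 * κ * ∑ j, P S w α β (e i) (e j) * ⟪b j, u x⟫ ^ 2) := by
      intro i
      unfold NV
      rw [real_inner_smul_right, inner_sum]
      simp only [real_inner_smul_right, hbe]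
      have h1 : ∀ q, ⟪u x, (Bop u x ^ β q) (u x)⟫ = ∑ j, e j ^ β q * ⟪b j, u x⟫ ^ 2 := by
        intro q
        exact hmo (β q)
      simp only [h1, P, Finset.sum_mul, Finset.mul_sum]
      rw [Finset.sum_comm]
      refine Finset.sum_congr rfl fun j _ => Finset.sum_congr rfl fun q _ => ?_
      ring
    have hN2 : ‖u' x - NV S w α β κ (u x) (Bop u x)‖ ^ 2 =
        ∑ i, (⟪b i, u' x⟫ - ⟪b i, u x⟫ * (2 * κ * ∑ j, P S w α β (e i) (e j) *
          ⟪b j, u x⟫ ^ 2)) ^ 2 := by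
      rw [hnsq]
      refine Finset.sum_congr rfl fun i _ => ?_
      rw [inner_sub_right, hNV]
    have hR2 : RV (u x) (Bop u x) = (∑ i, ⟪b i, u x⟫ ^ 2) * ((∑ i, ⟪b i, u x⟫ ^ 2) *
        (∑ i, e i ^ 2 * ⟪b i, u x⟫ ^ 2) - (∑ i, e i * ⟪b i, u x⟫ ^ 2) ^ 2) := by
      unfold RV
      have e1 : ‖Bop u x (u x)‖ ^ 2 = ∑ i, e i ^ 2 * ⟪b i, u x⟫ ^ 2 := by
        rw [hnsq]
        refine Finset.sum_congr rfl fun i _ => ?_
        rw [hB1]
        ring
      have e2 : ⟪u x, Bop u x (u x)⟫ = ∑ i, e i * ⟪b i, u x⟫ ^ 2 := by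
        rw [hexp]
        refine Finset.sum_congr rfl fun i _ => ?_
        rw [hB1]
        ring
      rw [e1, e2, hnsq]
    unfold FV
    rw [hN2, hR2, hnsq (u x), hnsq (u' x)]
    simp only [hΦ', hDm, hmo, hmu]
    linarith
  have hF0 : ∀ x, 0 ≤ FV S w α β κ c0 c1 (u x) (Bop u x) (u' x) := fun x =>
    FV_nonneg S w α β κ hc0 hc1 _ _ _
  calc ∫⁻ x, ENNReal.ofReal (FV S w α β κ c0 c1 (u x) (Bop u x) (u' x)) ≤
      ∫⁻ x, ENNReal.ofReal (‖u' x‖ ^ 2 - Φ' x) :=
        lintegral_mono fun x => ENNReal.ofReal_le_ofReal (by linarith [hpt x])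
    _ = ENNReal.ofReal (∫ x, (‖u' x‖ ^ 2 - Φ' x)) :=
        (ofReal_integral_eq_lintegral_ofReal (h.hu'i.sub hΦ'i)
          (Eventually.of_forall fun x => by
            have h1 := hpt x
            have h2 := hF0 x
            change (0:ℝ) ≤ ‖u' x‖ ^ 2 - Φ' x
            linarith)).symm
    _ = ENNReal.ofReal (∫ x, ‖u' x‖ ^ 2) := by
        rw [integral_sub h.hu'i hΦ'i, hzero, sub_zero]

end Pool.Agent.H158.RG
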