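import Pool.Agent.H158.RG3

/-!
# The calibrated inequality with remainders in the Sobolev space
-/

set_option autoImplicit false
set_option linter.unusedSectionVars false
set_option linter.deprecated false

open MeasureTheory Set Filter Topology Real
open scoped RealInnerProductSpace ENNReal
open Pool.Helper490.Calib

namespace Pool.Agent.H158.RG

variable {E : Type*} [NormedAddCommGroup E] [InnerProductSpace ℝ E] [FiniteDimensional ℝ E]

lemma R_sub_norm (u v : ℝ → E) (y : ℝ) :
    ‖R u y - R v y‖ ≤ (‖u y‖ + ‖v y‖) * ‖u y - v y‖ := by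
  refine ContinuousLinearMap.opNorm_le_bound _ (by positivity) fun z => ?_
  have h1 : (R u y - R v y) z = ⟪u y - v y, z⟫ • u y + ⟪v y, z⟫ • (u y - v y) := by
    rw [ContinuousLinearMap.sub_apply, Pool.Helper490.Calib.R_apply,
      Pool.Helper490.Calib.R_apply, inner_sub_left, sub_smul, smul_sub]
    abel
  rw [h1]
  refine (norm_add_le _ _).trans ?_
  rw [norm_smul, norm_smul, Real.norm_eq_abs, Real.norm_eq_abs]
  have h2 := abs_real_inner_le_norm (u y - v y) z
  have h3 := abs_real_inner_le_norm (v y) z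
  have h4 := mul_le_mul_of_nonneg_right h2 (norm_nonneg (u y))
  have h5 := mul_le_mul_of_nonneg_right h3 (norm_nonneg (u y - v y))
  nlinarith

lemma Bop_sub {u v : ℝ → E} (hu : Pre u) (hv : Pre v) {η : ℝ} (hη : 0 < η)
    (hd : Integrable (fun y => ‖u y - v y‖ ^ 2)) (x : ℝ) :
    ‖Bop u x - Bop v x‖ ≤ η * ((∫ y, ‖u y‖ ^ 2) + ∫ y, ‖v y‖ ^ 2) +
      (∫ y, ‖u y - v y‖ ^ 2) / (2 * η) := by
  have h0 : Bop u x - Bop v x = ∫ y in Iic x, (R u y - R v y) := by
    rw [integral_sub hu.Ri.integrableOn hv.Ri.integrableOn]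
    simp only [Bop, Gam]
    abel
  have hI : Integrable (fun y => η * (‖u y‖ ^ 2 + ‖v y‖ ^ 2) + ‖u y - v y‖ ^ 2 / (2 * η)) :=
    ((hu.hui.add hv.hui).const_mul η).add (hd.div_const _)
  rw [h0]
  calc ‖∫ y in Iic x, (R u y - R v y)‖ ≤
      ∫ y in Iic x, (η * (‖u y‖ ^ 2 + ‖v y‖ ^ 2) + ‖u y - v y‖ ^ 2 / (2 * η)) := by
        refine norm_integral_le_of_norm_le hI.integrableOn (Eventually.of_forall fun y => ?_)
        refine (R_sub_norm u v y).trans ?_
        have h1 : (‖u y‖ + ‖v y‖) * ‖u y - v y‖ ≤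
            η / 2 * (‖u y‖ + ‖v y‖) ^ 2 + ‖u y - v y‖ ^ 2 / (2 * η) := by
          have h2 : η / 2 * (‖u y‖ + ‖v y‖) ^ 2 + ‖u y - v y‖ ^ 2 / (2 * η) -
              (‖u y‖ + ‖v y‖) * ‖u y - v y‖ =
              (η * (‖u y‖ + ‖v y‖) - ‖u y - v y‖) ^ 2 / (2 * η) := by
            field_simp
            ring
          have h3 : 0 ≤ (η * (‖u y‖ + ‖v y‖) - ‖u y - v y‖) ^ 2 / (2 * η) := by positivity
          linarith
        refine h1.trans ?_
        have h4 : (‖u y‖ + ‖v y‖) ^ 2 ≤ 2 * (‖u y‖ ^ 2 + ‖v y‖ ^ 2) := by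
          nlinarith [sq_nonneg (‖u y‖ - ‖v y‖)]
        nlinarith
    _ ≤ ∫ y, (η * (‖u y‖ ^ 2 + ‖v y‖ ^ 2) + ‖u y - v y‖ ^ 2 / (2 * η)) :=
        setIntegral_le_integral hI (Eventually.of_forall fun y => by positivity)
    _ = _ := by
        have hI0 : Integrable (fun y => ‖u y‖ ^ 2 + ‖v y‖ ^ 2) := hu.hui.add hv.hui
        have hI1 : Integrable (fun y => η * (‖u y‖ ^ 2 + ‖v y‖ ^ 2)) := hI0.const_mul η
        have hI2 : Integrable (fun y => ‖u y - v y‖ ^ 2 / (2 * η)) := hd.div_const _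
        rw [integral_add hI1 hI2,
          integral_const_mul, integral_add hu.hui hv.hui, integral_div]

lemma FV_tendsto {ι : Type*} (S : Finset ι) (w : ι → ℝ) (α β : ι → ℕ) (κ c0 c1 : ℝ)
    {U : ℕ → E} {B : ℕ → E →L[ℝ] E} {g : ℕ → E} {U0 : E} {B0 : E →L[ℝ] E} {g0 : E}
    (hU : Tendsto U atTop (𝓝 U0)) (hB : Tendsto B atTop (𝓝 B0)) (hg : Tendsto g atTop (𝓝 g0)) :
    Tendsto (fun k => FV S w α β κ c0 c1 (U k) (B k) (g k)) atTop
      (𝓝 (FV S w α β κ c0 c1 U0 B0 g0)) := by
  have h1 : Tendsto (fun k => (U k, B k, g k)) atTop (𝓝 (U0, B0, g0)) :=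
    hU.prodMk_nhds (hB.prodMk_nhds hg)
  have h2 := FV_continuous (E := E) S w α β κ c0 c1
  generalize FV (E := E) S w α β κ c0 c1 = F at h2 ⊢
  have h3 := (h2.tendsto (U0, B0, g0)).comp h1
  exact h3

lemma FV_cont' {ι : Type*} (S : Finset ι) (w : ι → ℝ) (α β : ι → ℕ) (κ c0 c1 : ℝ)
    {U : ℝ → E} {B : ℝ → E →L[ℝ] E} {g : ℝ → E}
    (hU : Continuous U) (hB : Continuous B) (hg : Continuous g) :
    Continuous (fun k => FV S w α β κ c0 c1 (U k) (B k) (g k)) := by
  have h1 : Continuous (fun k => (U k, B k, g k)) := hU.prodMk (hB.prodMk hg)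
  have h2 := FV_continuous (E := E) S w α β κ c0 c1
  generalize FV (E := E) S w α β κ c0 c1 = F at h2 ⊢
  exact h2.comp h1

/-- The inequality with both remainders for functions with a square integrable weak derivative. -/
theorem H1_ineq (u g : ℝ → E) (hu2 : MemLp u 2) (hg2 : MemLp g 2)
    (hug : ∀ a b, u b - u a = ∫ x in a..b, g x)
    (hbes : ∀ v : E, ∫ x, ⟪u x, v⟫ ^ 2 ≤ ‖v‖ ^ 2)
    {ι : Type*} (S : Finset ι) (w : ι → ℝ) (α β : ι → ℕ) (κ : ℝ)
    (c0 c1 : ℝ) (hc0 : 0 ≤ c0) (hc1 : 0 ≤ c1)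
    (hsym : ∀ s t, P S w α β s t = P S w α β t s)
    (hK : ∀ s ∈ Icc (-(1 / 2) : ℝ) (1 / 2), ∀ r ∈ Icc (-(1 / 2) : ℝ) (1 / 2),
        ∀ t ∈ Icc (-(1 / 2) : ℝ) (1 / 2),
      4 * κ ^ 2 * (P S w α β t s * P S w α β t r) + κ * D S w α β s r t + c0 +
        c1 * (s - r) ^ 2 ≤ 0) :
    Pre u ∧ ∫⁻ x, ENNReal.ofReal (FV S w α β κ c0 c1 (u x) (Bop u x) (g x)) ≤
      ENNReal.ofReal (∫ x, ‖g x‖ ^ 2) := by
  -- a measurable representative of the derivative
  set G : ℝ → E := hg2.1.mk g with hG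
  have hGm : StronglyMeasurable G := hg2.1.stronglyMeasurable_mk
  have hgG : g =ᵐ[volume] G := hg2.1.ae_eq_mk
  have hG2 : MemLp G 2 := (memLp_congr_ae hgG).1 hg2
  have hGli : LocallyIntegrable G volume := hG2.locallyIntegrable (by norm_num)
  have hGi : ∀ a b, IntervalIntegrable G volume a b := by
    intro a b
    exact intervalIntegrable_iff.2 ((hGli.integrableOn_isCompact isCompact_uIcc).mono_set
      uIoc_subset_uIcc)
  have huG : ∀ a b, u b - u a = ∫ x in a..b, G x := by
    intro a b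
    rw [hug a b]
    exact intervalIntegral.integral_congr_ae (hgG.mono fun x hx _ => hx)
  have hu2i : Integrable (fun x => ‖u x‖ ^ 2) := hu2.integrable_norm_pow (by norm_num)
  have hG2i : Integrable (fun x => ‖G x‖ ^ 2) := hG2.integrable_norm_pow (by norm_num)
  have hgval : ∫ x, ‖g x‖ ^ 2 = ∫ x, ‖G x‖ ^ 2 :=
    integral_congr_ae (hgG.mono fun x hx => by simp only [hx])
  have huc : Continuous u := by
    have : u = fun x => u 0 + ∫ t in (0:ℝ)..x, G t := by
      funext x; rw [← huG 0 x]; abel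
    rw [this]
    exact continuous_const.add (intervalIntegral.continuous_primitive hGi 0)
  have hum : StronglyMeasurable u := huc.stronglyMeasurable
  have hpre : Pre u := ⟨huc, hu2i, hbes⟩
  refine ⟨hpre, ?_⟩
  -- the averages
  set U : ℝ → E := fun x => ∫ t in (0:ℝ)..x, u t with hU
  have hUd : ∀ x, HasDerivAt U (u x) x := fun x =>
    intervalIntegral.integral_hasDerivAt_right (huc.intervalIntegrable _ _)
      (huc.stronglyMeasurableAtFilter _ _) huc.continuousAt
  have hAu : ∀ h : ℝ, h ≠ 0 → ∀ x, Av h u x = h⁻¹ • (U (x + h) - U x) := by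
    intro h hh x
    rw [Av, intervalIntegral.integral_comp_add_mul u hh x]
    congr 1
    rw [mul_zero, add_zero, mul_one]
    simp only [hU]
    rw [intervalIntegral.integral_interval_sub_left (huc.intervalIntegrable _ _)
      (huc.intervalIntegrable _ _)]
  have hAG : ∀ h : ℝ, h ≠ 0 → ∀ x, Av h G x = h⁻¹ • (u (x + h) - u x) := by
    intro h hh x
    rw [Av, intervalIntegral.integral_comp_add_mul G hh x]
    congr 1
    rw [mul_zero, add_zero, mul_one, huG]
  have hAd : ∀ h : ℝ, h ≠ 0 → ∀ x, HasDerivAt (Av h u) (Av h G x) x := by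
    intro h hh x
    have h1 : HasDerivAt (fun x => U (x + h)) (u (x + h)) x := (hUd (x + h)).comp_add_const x h
    have h2 := (h1.sub (hUd x)).const_smul h⁻¹
    rw [hAG h hh x]
    have h3 : Av h u = fun x => h⁻¹ • (U (x + h) - U x) := funext (hAu h hh)
    rw [h3]
    exact h2
  have hAGc : ∀ h : ℝ, h ≠ 0 → Continuous (Av h G) := by
    intro h hh
    have h3 : Av h G = fun x => h⁻¹ • (u (x + h) - u x) := funext (hAG h hh)
    rw [h3]
    exact ((huc.comp (continuous_add_const h)).sub huc).const_smul _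
  have hAuc : ∀ h : ℝ, h ≠ 0 → Continuous (Av h u) := fun h hh =>
    continuous_iff_continuousAt.2 fun x => (hAd h hh x).continuousAt
  have hsys : ∀ h : ℝ, h ≠ 0 → Sys (Av h u) (Av h G) := by
    intro h hh
    refine ⟨hAd h hh, hAGc h hh, ?_, ?_, ?_⟩
    · exact (Av_bound h u hum hu2i (hAuc h hh).aestronglyMeasurable).1
    · exact (Av_bound h G hGm hG2i (hAGc h hh).aestronglyMeasurable).1
    · intro v
      have h1 : ∀ x, ⟪Av h u x, v⟫ = Av h (fun y => ⟪u y, v⟫) x := by
        intro x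
        simp only [Av]
        rw [real_inner_comm]
        have hi : IntervalIntegrable (fun s => u (x + h * s)) volume 0 1 :=
          (huc.comp (by fun_prop : Continuous fun s : ℝ => x + h * s)).intervalIntegrable _ _
        have := (innerSL ℝ v).intervalIntegral_comp_comm hi
        simp only [innerSL_apply_apply] at this
        rw [← this]
        refine intervalIntegral.integral_congr fun s _ => ?_
        exact real_inner_comm _ _
      have hc : Continuous fun y => ⟪u y, v⟫ := huc.inner continuous_const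
      have hi2 : Integrable (fun y => ‖⟪u y, v⟫‖ ^ 2) := by
        refine (hu2i.mul_const (‖v‖ ^ 2)).mono' (hc.norm.pow 2).aestronglyMeasurable
          (Eventually.of_forall fun y => ?_)
        rw [Real.norm_eq_abs, abs_of_nonneg (sq_nonneg _), ← mul_pow]
        exact pow_le_pow_left₀ (norm_nonneg _) (abs_real_inner_le_norm _ _) 2
      have hAc : AEStronglyMeasurable (Av h fun y => ⟪u y, v⟫) volume := by
        have : (Av h fun y => ⟪u y, v⟫) = fun x => ⟪Av h u x, v⟫ := funext fun x => (h1 x).symm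
        rw [this]
        exact ((hAuc h hh).inner continuous_const).aestronglyMeasurable
      have h2 := (Av_bound h (fun y => ⟪u y, v⟫) hc.stronglyMeasurable hi2 hAc).2
      simp only [Real.norm_eq_abs, sq_abs] at h2
      simp only [h1]
      exact h2.trans (hbes v)
  -- distance of the averages
  have hnG : ∀ a b, IntervalIntegrable (fun y => ‖G y‖) volume a b := fun a b => (hGi a b).norm
  have hdist : ∀ h : ℝ, 0 < h → ∀ x, ‖Av h u x - u x‖ ≤ h * Av h (fun y => ‖G y‖) x := by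
    intro h hh x
    have e1 : h * Av h (fun y => ‖G y‖) x = ∫ y in x..x + h, ‖G y‖ := by
      rw [Av, intervalIntegral.integral_comp_add_mul (fun y => ‖G y‖) hh.ne' x, mul_zero,
        add_zero, mul_one, smul_eq_mul, ← mul_assoc, mul_inv_cancel₀ hh.ne', one_mul]
    have e2 : Av h u x - u x = ∫ s in (0:ℝ)..1, (u (x + h * s) - u x) := by
      have hi : IntervalIntegrable (fun s => u (x + h * s)) volume 0 1 :=
        (huc.comp (by fun_prop : Continuous fun s : ℝ => x + h * s)).intervalIntegrable _ _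
      have hi' : IntervalIntegrable (fun _ : ℝ => u x) volume 0 1 :=
        continuous_const.intervalIntegrable _ _
      rw [intervalIntegral.integral_sub hi hi', intervalIntegral.integral_const, sub_zero,
        one_smul]
      rfl
    rw [e1, e2]
    have := intervalIntegral.norm_integral_le_of_norm_le_const (a := (0:ℝ)) (b := 1)
      (f := fun s => u (x + h * s) - u x) (C := ∫ y in x..x + h, ‖G y‖) (by
        intro s hs
        rw [uIoc_of_le zero_le_one] at hs
        rw [huG]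
        have hxs : x ≤ x + h * s := by nlinarith [hs.1]
        have hxs2 : x + h * s ≤ x + h := by nlinarith [hs.2]
        refine (intervalIntegral.norm_integral_le_integral_norm hxs).trans ?_
        exact intervalIntegral.integral_mono_interval le_rfl hxs hxs2
          (Eventually.of_forall fun y => norm_nonneg _) (hnG _ _))
    simpa using this
  have hD : ∀ h : ℝ, 0 < h → Integrable (fun x => ‖Av h u x - u x‖ ^ 2) ∧
      ∫ x, ‖Av h u x - u x‖ ^ 2 ≤ h ^ 2 * ∫ x, ‖G x‖ ^ 2 := by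
    intro h hh
    have hi2 : Integrable (fun y => ‖‖G y‖‖ ^ 2) := by simpa using hG2i
    have hc : Continuous (Av h fun y => ‖G y‖) := by
      have e1 : (Av h fun y => ‖G y‖) = fun x => h⁻¹ *
          ((∫ y in (0:ℝ)..x + h, ‖G y‖) - ∫ y in (0:ℝ)..x, ‖G y‖) := by
        funext x
        rw [Av, intervalIntegral.integral_comp_add_mul (fun y => ‖G y‖) hh.ne' x, mul_zero,
          add_zero, mul_one, smul_eq_mul,
          intervalIntegral.integral_interval_sub_left (hnG _ _) (hnG _ _)]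
      rw [e1]
      have h1 : Continuous fun x => ∫ y in (0:ℝ)..x, ‖G y‖ :=
        intervalIntegral.continuous_primitive hnG 0
      exact continuous_const.mul ((h1.comp (continuous_add_const h)).sub h1)
    obtain ⟨hI, hle⟩ := Av_bound h (fun y => ‖G y‖) hGm.norm hi2 hc.aestronglyMeasurable
    simp only [norm_norm] at hle
    have hpt : ∀ x, ‖Av h u x - u x‖ ^ 2 ≤ h ^ 2 * ‖Av h (fun y => ‖G y‖) x‖ ^ 2 := by
      intro x
      have h1 := hdist h hh x
      have h2 : h * Av h (fun y => ‖G y‖) x ≤ h * ‖Av h (fun y => ‖G y‖) x‖ :=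
        mul_le_mul_of_nonneg_left (le_abs_self _) hh.le
      have h3 := pow_le_pow_left₀ (norm_nonneg _) (h1.trans h2) 2
      rwa [mul_pow] at h3
    have hc2 : Continuous fun x => ‖Av h u x - u x‖ ^ 2 := ((hAuc h hh.ne').sub huc).norm.pow 2
    have hI2 : Integrable (fun x => ‖Av h u x - u x‖ ^ 2) :=
      (hI.const_mul (h ^ 2)).mono' hc2.aestronglyMeasurable (Eventually.of_forall fun x => by
        rw [Real.norm_eq_abs, abs_of_nonneg (sq_nonneg _)]; exact hpt x)
    refine ⟨hI2, (integral_mono hI2 (hI.const_mul (h ^ 2)) hpt).trans ?_⟩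
    rw [integral_const_mul]
    exact mul_le_mul_of_nonneg_left hle (sq_nonneg _)
  -- the limit
  set hk : ℕ → ℝ := fun k => 1 / ((k : ℝ) + 1) with hhk
  have hkp : ∀ k, 0 < hk k := fun k => by simp only [hhk]; positivity
  have hk0 : ∀ k, hk k ≠ 0 := fun k => (hkp k).ne'
  have hlim : Tendsto hk atTop (𝓝 0) := tendsto_one_div_add_atTop_nhds_zero_nat
  have hlim' : Tendsto hk atTop (𝓝[≠] 0) :=
    tendsto_nhdsWithin_iff.2 ⟨hlim, Eventually.of_forall fun k => hk0 k⟩
  have hpt : ∀ x, Tendsto (fun k => Av (hk k) u x) atTop (𝓝 (u x)) := by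
    intro x
    have h1 := (hUd x).tendsto_slope_zero
    refine (h1.comp hlim').congr fun k => ?_
    simp only [Function.comp]
    rw [hAu _ (hk0 k)]
  have hptG : ∀ᵐ x, Tendsto (fun k => Av (hk k) G x) atTop (𝓝 (G x)) := by
    filter_upwards [_root_.LocallyIntegrable.ae_hasDerivAt_integral hGli] with x hx
    have h0 := hx 0
    have h1 : HasDerivAt u (G x) x := by
      have e : u = fun x => u 0 + ∫ t in (0:ℝ)..x, G t := by
        funext y; rw [← huG 0 y]; abel
      rw [e]
      exact h0.const_add _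
    refine (h1.tendsto_slope_zero.comp hlim').congr fun k => ?_
    simp only [Function.comp]
    rw [hAG _ (hk0 k)]
  have hAub : ∀ k, ∫ x, ‖Av (hk k) u x‖ ^ 2 ≤ ∫ x, ‖u x‖ ^ 2 := fun k =>
    (Av_bound (hk k) u hum hu2i (hAuc _ (hk0 k)).aestronglyMeasurable).2
  have hptB : ∀ x, Tendsto (fun k => Bop (Av (hk k) u) x) atTop (𝓝 (Bop u x)) := by
    intro x
    rw [tendsto_iff_norm_sub_tendsto_zero]
    have hb : ∀ k, ‖Bop (Av (hk k) u) x - Bop u x‖ ≤
        hk k * (2 * (∫ x, ‖u x‖ ^ 2) + (∫ x, ‖G x‖ ^ 2) / 2) := by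
      intro k
      have h1 := Bop_sub (pre_of_sys (hsys _ (hk0 k))) hpre (hkp k) (hD _ (hkp k)).1 x
      have h2 := (hD _ (hkp k)).2
      have h3 : (∫ y, ‖Av (hk k) u y - u y‖ ^ 2) / (2 * hk k) ≤
          hk k * ((∫ x, ‖G x‖ ^ 2) / 2) := by
        rw [div_le_iff₀ (by have := hkp k; positivity)]
        calc _ ≤ hk k ^ 2 * ∫ x, ‖G x‖ ^ 2 := h2
          _ = _ := by ring
      have h4 := mul_le_mul_of_nonneg_left (hAub k) (hkp k).le
      nlinarith
    refine squeeze_zero (fun k => norm_nonneg _) hb ?_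
    have := hlim.mul_const (2 * (∫ x, ‖u x‖ ^ 2) + (∫ x, ‖G x‖ ^ 2) / 2)
    simpa using this
  have hfk : ∀ᵐ x, liminf (fun k => ENNReal.ofReal (FV S w α β κ c0 c1 (Av (hk k) u x)
      (Bop (Av (hk k) u) x) (Av (hk k) G x))) atTop =
      ENNReal.ofReal (FV S w α β κ c0 c1 (u x) (Bop u x) (G x)) := by
    filter_upwards [hptG] with x hx
    refine Tendsto.liminf_eq ?_
    exact (ENNReal.continuous_ofReal.tendsto _).comp
      (FV_tendsto S w α β κ c0 c1 (hpt x) (hptB x) hx)
  have hfatou : ∫⁻ x, ENNReal.ofReal (FV S w α β κ c0 c1 (u x) (Bop u x) (G x)) ≤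
      ENNReal.ofReal (∫ x, ‖G x‖ ^ 2) := by
    have h2 : ∫⁻ x, liminf (fun k => ENNReal.ofReal (FV S w α β κ c0 c1 (Av (hk k) u x)
        (Bop (Av (hk k) u) x) (Av (hk k) G x))) atTop ≤
        liminf (fun k => ∫⁻ x, ENNReal.ofReal (FV S w α β κ c0 c1 (Av (hk k) u x)
        (Bop (Av (hk k) u) x) (Av (hk k) G x))) atTop := by
      refine lintegral_liminf_le fun k => ?_
      have hBc := (pre_of_sys (hsys _ (hk0 k))).Bop_cont
      have hcc : Continuous fun x => FV S w α β κ c0 c1 (Av (hk k) u x)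
          (Bop (Av (hk k) u) x) (Av (hk k) G x) :=
        FV_cont' S w α β κ c0 c1 (hAuc _ (hk0 k)) hBc (hAGc _ (hk0 k))
      exact hcc.measurable.ennreal_ofReal
    rw [lintegral_congr_ae hfk] at h2
    refine h2.trans ?_
    refine liminf_le_of_le (by isBoundedDefault) fun b hb => ?_
    obtain ⟨k, hk'⟩ := hb.exists
    refine hk'.trans ((calibrated' (hsys _ (hk0 k)) S w α β κ c0 c1 hc0 hc1 hsym hK).trans ?_)
    exact ENNReal.ofReal_le_ofReal
      (Av_bound (hk k) G hGm hG2i (hAGc _ (hk0 k)).aestronglyMeasurable).2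
  rw [hgval]
  refine le_trans (le_of_eq ?_) hfatou
  exact lintegral_congr_ae (hgG.mono fun x hx => by simp only [hx])

end Pool.Agent.H158.RG
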