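import Pool.Agent.H158.RG4

/-!
# Consequences of equality in the sharp inequality
-/

set_option autoImplicit false
set_option linter.unusedSectionVars false
set_option linter.deprecated false

open MeasureTheory Set Filter Topology Real
open scoped RealInnerProductSpace ENNReal
open Pool.Helper490.Calib

namespace Pool.Agent.H158.RG

variable {E : Type*} [NormedAddCommGroup E] [InnerProductSpace ℝ E] [FiniteDimensional ℝ E]

/-- Square integrable functions with a square integrable weak derivative and Gram operator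
at most one. -/
structure Hsys (u g : ℝ → E) : Prop where
  hu2 : MemLp u 2
  hg2 : MemLp g 2
  hug : ∀ a b, u b - u a = ∫ x in a..b, g x
  hbes : ∀ v : E, ∫ x, ⟪u x, v⟫ ^ 2 ≤ ‖v‖ ^ 2

lemma FV_aesm {ι : Type*} (S : Finset ι) (w : ι → ℝ) (α β : ι → ℕ) (κ c0 c1 : ℝ)
    {U : ℝ → E} {B : ℝ → E →L[ℝ] E} {g : ℝ → E}
    (hU : Continuous U) (hB : Continuous B) (hg : AEStronglyMeasurable g volume) :
    AEStronglyMeasurable (fun k => FV S w α β κ c0 c1 (U k) (B k) (g k)) volume := by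
  have h1 : AEStronglyMeasurable (fun k => (U k, B k, g k)) volume :=
    hU.aestronglyMeasurable.prodMk (hB.aestronglyMeasurable.prodMk hg)
  have h2 := FV_continuous (E := E) S w α β κ c0 c1
  generalize FV (E := E) S w α β κ c0 c1 = F at h2 ⊢
  exact h2.comp_aestronglyMeasurable h1

lemma NV_cont {ι : Type*} (S : Finset ι) (w : ι → ℝ) (α β : ι → ℕ) (κ : ℝ)
    {U : ℝ → E} {B : ℝ → E →L[ℝ] E} (hU : Continuous U) (hB : Continuous B) :
    Continuous (fun k => NV S w α β κ (U k) (B k)) := by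
  unfold NV
  have hBa : ∀ a : ℕ, Continuous fun x => (B x ^ a) (U x) := fun a =>
    (hB.pow a).clm_apply hU
  refine Continuous.const_smul (continuous_finset_sum _ fun q _ => ?_) _
  exact (continuous_const.mul (hU.inner (hBa _))).smul (hBa _)

lemma pow_apply_of_eigen {B : E →L[ℝ] E} {U : E} {e : ℝ} (h : B U = e • U) (a : ℕ) :
    (B ^ a) U = e ^ a • U := by
  induction a with
  | zero => simp
  | succ a ih =>
    rw [pow_succ, ContinuousLinearMap.mul_apply, h, map_smul, ih, smul_smul, pow_succ, mul_comm]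

lemma NV_eigen {ι : Type*} (S : Finset ι) (w : ι → ℝ) (α β : ι → ℕ) (κ : ℝ)
    {B : E →L[ℝ] E} {U : E} {e : ℝ} (h : B U = e • U) :
    NV S w α β κ U B = (2 * κ * P S w α β e e * ‖U‖ ^ 2) • U := by
  unfold NV P
  simp only [pow_apply_of_eigen h, real_inner_smul_right, real_inner_self_eq_norm_sq, smul_smul]
  rw [← Finset.sum_smul, smul_smul]
  congr 1
  simp only [Finset.mul_sum, Finset.sum_mul]
  refine Finset.sum_congr rfl fun q _ => ?_
  ring

theorem split_ineq {u g : ℝ → E} (h : Hsys u g)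
    (heq : ∫ x, ‖g x‖ ^ 2 ≤ π ^ 2 / 4 * ∫ x, (‖u x‖ ^ 2) ^ 3)
    {θ δ : ℝ} (hθ0 : 0 < θ) (hθ : θ < π) (hδ : 0 < δ) (hc : δ ≤ θ ^ 2 / 4) :
    ∃ N : ℝ → E, Continuous N ∧
      (∀ x e, Bop u x (u x) = e • u x → e ∈ Icc (-(1 / 2) : ℝ) (1 / 2) →
        ∃ p : ℝ, |p + tan (θ * e)| ≤ δ ∧ N x = (θ / 2 * p * ‖u x‖ ^ 2) • u x) ∧
      ∫⁻ x, ENNReal.ofReal (‖g x - N x‖ ^ 2) ≤
        ENNReal.ofReal ((π ^ 2 / 4 - (θ ^ 2 / 4 - δ)) * ∫ x, (‖u x‖ ^ 2) ^ 3) ∧
      ∫⁻ x, ENNReal.ofReal (θ ^ 4 / 48 * RV (u x) (Bop u x)) ≤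
        ENNReal.ofReal ((π ^ 2 / 4 - (θ ^ 2 / 4 - δ)) * ∫ x, (‖u x‖ ^ 2) ^ 3) := by
  obtain ⟨K, a, hsym, happ, hK⟩ := exists_kernel' hθ0 hθ hδ
  have hc0 : 0 ≤ θ ^ 2 / 4 - δ := by linarith
  have hc1 : 0 ≤ θ ^ 4 / 96 := by positivity
  obtain ⟨hpre, hle⟩ := H1_ineq u g h.hu2 h.hg2 h.hug h.hbes (SS K) (ww a) (fun q => q.2.1)
    (fun q => q.2.2) (θ / 4) (θ ^ 2 / 4 - δ) (θ ^ 4 / 96) hc0 hc1 hsym hK
  obtain ⟨hJ, -⟩ := sharp_H1 u g h.hu2 h.hg2 h.hug h.hbes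
  set c0 := θ ^ 2 / 4 - δ with hc0d
  set N : ℝ → E := fun x => NV (SS K) (ww a) (fun q => q.2.1) (fun q => q.2.2) (θ / 4) (u x)
    (Bop u x) with hN
  set F : ℝ → ℝ := fun x => FV (SS K) (ww a) (fun q => q.2.1) (fun q => q.2.2) (θ / 4) c0
    (θ ^ 4 / 96) (u x) (Bop u x) (g x) with hF
  have hFe : ∀ x, F x = c0 * (‖u x‖ ^ 2) ^ 3 + ‖g x - N x‖ ^ 2 +
      2 * (θ ^ 4 / 96) * RV (u x) (Bop u x) := fun x => rfl
  have hFm : AEStronglyMeasurable F volume :=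
    FV_aesm _ _ _ _ _ _ _ hpre.uc hpre.Bop_cont h.hg2.1
  have hF0 : ∀ x, 0 ≤ F x := fun x => FV_nonneg _ _ _ _ _ hc0 hc1 _ _ _
  have hFi : Integrable F := by
    refine ⟨hFm, ?_⟩
    rw [hasFiniteIntegral_iff_ofReal (Eventually.of_forall hF0)]
    exact hle.trans_lt ENNReal.ofReal_lt_top
  have hFint : ∫ x, F x ≤ ∫ x, ‖g x‖ ^ 2 := by
    have h1 : ENNReal.ofReal (∫ x, F x) ≤ ENNReal.ofReal (∫ x, ‖g x‖ ^ 2) := by
      rw [ofReal_integral_eq_lintegral_ofReal hFi (Eventually.of_forall hF0)]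
      exact hle
    exact (ENNReal.ofReal_le_ofReal_iff (integral_nonneg fun x => sq_nonneg _)).1 h1
  have hJc : Integrable (fun x => c0 * (‖u x‖ ^ 2) ^ 3) := hJ.const_mul c0
  set H : ℝ → ℝ := fun x => F x - c0 * (‖u x‖ ^ 2) ^ 3 with hH
  have hHi : Integrable H := hFi.sub hJc
  have hR0 : ∀ x, 0 ≤ RV (u x) (Bop u x) := fun x => RV_nonneg _ _
  have hHe : ∀ x, H x = ‖g x - N x‖ ^ 2 + θ ^ 4 / 48 * RV (u x) (Bop u x) := by
    intro x
    simp only [hH, hFe]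
    ring
  have hH0 : ∀ x, 0 ≤ H x := by
    intro x
    rw [hHe]
    have := hR0 x
    positivity
  have hHint : ∫ x, H x ≤ (π ^ 2 / 4 - c0) * ∫ x, (‖u x‖ ^ 2) ^ 3 := by
    have h1 : ∫ x, H x = (∫ x, F x) - c0 * ∫ x, (‖u x‖ ^ 2) ^ 3 := by
      rw [← integral_const_mul]
      exact integral_sub hFi hJc
    rw [h1]
    linarith
  have hHl : ∫⁻ x, ENNReal.ofReal (H x) ≤
      ENNReal.ofReal ((π ^ 2 / 4 - c0) * ∫ x, (‖u x‖ ^ 2) ^ 3) := by
    rw [← ofReal_integral_eq_lintegral_ofReal hHi (Eventually.of_forall hH0)]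
    exact ENNReal.ofReal_le_ofReal hHint
  refine ⟨N, NV_cont _ _ _ _ _ hpre.uc hpre.Bop_cont, ?_, ?_, ?_⟩
  · intro x e hxe he
    refine ⟨P (SS K) (ww a) (fun q => q.2.1) (fun q => q.2.2) e e, ?_, ?_⟩
    · have h1 := happ e he e he
      have h2 : θ / 2 * (e + e) = θ * e := by ring
      rwa [h2] at h1
    · simp only [hN]
      rw [NV_eigen _ _ _ _ _ hxe]
      congr 1
      ring
  · refine le_trans (lintegral_mono fun x => ENNReal.ofReal_le_ofReal ?_) hHl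
    rw [hHe]
    have := hR0 x
    have h3 : 0 ≤ θ ^ 4 / 48 * RV (u x) (Bop u x) := by positivity
    linarith
  · refine le_trans (lintegral_mono fun x => ENNReal.ofReal_le_ofReal ?_) hHl
    rw [hHe]
    have h3 : 0 ≤ ‖g x - N x‖ ^ 2 := by positivity
    linarith

/-- The eigenvalue. -/
noncomputable def ee (u : ℝ → E) (x : ℝ) : ℝ := ⟪u x, Bop u x (u x)⟫ / ‖u x‖ ^ 2

/-- The coefficient of the equation. -/
noncomputable def cf (u : ℝ → E) (x : ℝ) : ℝ := -(π / 2) * tan (π * ee u x) * ‖u x‖ ^ 2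

lemma Pre.ee_mem {u : ℝ → E} (h : Pre u) {x : ℝ} (hx : u x ≠ 0) :
    ee u x ∈ Ioo (-(1 / 2) : ℝ) (1 / 2) := by
  have h1 := h.Gam_pos hx
  have h2 := h.Gam_lt hx
  have h3 : 0 < ‖u x‖ ^ 2 := by have := norm_pos_iff.2 hx; positivity
  have h4 : ⟪u x, Bop u x (u x)⟫ = ⟪Gam u x (u x), u x⟫ - 1 / 2 * ‖u x‖ ^ 2 := by
    rw [real_inner_comm, h.Bop_inner, real_inner_self_eq_norm_sq]
  unfold ee
  rw [h4]
  constructor
  · rw [lt_div_iff₀ h3]
    linarith
  · rw [div_lt_iff₀ h3]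
    linarith

lemma eigen_of_RV {U : E} {B : E →L[ℝ] E} (hU : U ≠ 0) (h : RV U B = 0) :
    B U = (⟪U, B U⟫ / ‖U‖ ^ 2) • U := by
  have h3 : 0 < ‖U‖ ^ 2 := by have := norm_pos_iff.2 hU; positivity
  unfold RV at h
  have h4 : ‖U‖ ^ 2 * ‖B U‖ ^ 2 - ⟪U, B U⟫ ^ 2 = 0 := by
    rcases mul_eq_zero.1 h with h5 | h5
    · exact absurd h5 h3.ne'
    · exact h5
  have h5 : ‖B U - (⟪U, B U⟫ / ‖U‖ ^ 2) • U‖ ^ 2 = 0 := by
    rw [norm_sub_sq_real, norm_smul, mul_pow, Real.norm_eq_abs, sq_abs, real_inner_smul_right,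
      real_inner_comm U (B U)]
    have e1 : ‖B U‖ ^ 2 = ⟪U, B U⟫ ^ 2 / ‖U‖ ^ 2 := by
      rw [eq_div_iff h3.ne']
      linarith
    rw [e1]
    field_simp
    ring
  have h6 : ‖B U - (⟪U, B U⟫ / ‖U‖ ^ 2) • U‖ = 0 := by
    simpa using h5
  exact sub_eq_zero.1 (norm_eq_zero.1 h6)

theorem eq_cons {u g : ℝ → E} (h : Hsys u g)
    (heq : ∫ x, ‖g x‖ ^ 2 ≤ π ^ 2 / 4 * ∫ x, (‖u x‖ ^ 2) ^ 3) :
    Pre u ∧ (∀ x, u x ≠ 0 → Bop u x (u x) = ee u x • u x) ∧
      ∀ᵐ x, u x ≠ 0 → g x = cf u x • u x := by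
  set J := ∫ x, (‖u x‖ ^ 2) ^ 3 with hJ
  have hpi3 := pi_gt_three
  set θ : ℕ → ℝ := fun k => π - 1 / ((k : ℝ) + 1) with hθ
  set δ : ℕ → ℝ := fun k => 1 / ((k : ℝ) + 1) with hδ
  have hδ0 : ∀ k, 0 < δ k := fun k => by simp only [hδ]; positivity
  have hδ1 : ∀ k, δ k ≤ 1 := fun k => by
    simp only [hδ]
    rw [div_le_one (by positivity)]
    have : (0:ℝ) ≤ k := Nat.cast_nonneg k
    linarith
  have hθd : ∀ k, θ k = π - δ k := fun k => rfl
  have hθ2 : ∀ k, 2 ≤ θ k := fun k => by rw [hθd]; linarith [hδ1 k]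
  have hθπ : ∀ k, θ k < π := fun k => by rw [hθd]; linarith [hδ0 k]
  have hc : ∀ k, δ k ≤ θ k ^ 2 / 4 := fun k => by
    have h1 := hδ1 k
    have h2 := hθ2 k
    nlinarith
  have hδl : Tendsto δ atTop (𝓝 0) := tendsto_one_div_add_atTop_nhds_zero_nat
  have hθl : Tendsto θ atTop (𝓝 π) := by
    have := hδl.const_sub π
    rw [sub_zero] at this
    exact this
  have hmain := fun k => split_ineq h heq (by linarith [hθ2 k] : 0 < θ k) (hθπ k) (hδ0 k) (hc k)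
  choose N hNc hNe hN1 hN2 using hmain
  have hpre : Pre u := by
    obtain ⟨K, a, hsym, happ, hK⟩ := exists_kernel' (by linarith [hθ2 0] : 0 < θ 0) (hθπ 0) (hδ0 0)
    exact (H1_ineq u g h.hu2 h.hg2 h.hug h.hbes (SS K) (ww a) (fun q => q.2.1)
      (fun q => q.2.2) (θ 0 / 4) (θ 0 ^ 2 / 4 - δ 0) (θ 0 ^ 4 / 96) (by linarith [hc 0])
        (by positivity) hsym hK).1
  have hrhs : Tendsto (fun k => ENNReal.ofReal ((π ^ 2 / 4 - (θ k ^ 2 / 4 - δ k)) * J)) atTop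
      (𝓝 0) := by
    have h1 : Tendsto (fun k => (π ^ 2 / 4 - (θ k ^ 2 / 4 - δ k)) * J) atTop
        (𝓝 ((π ^ 2 / 4 - (π ^ 2 / 4 - 0)) * J)) :=
      (((hθl.pow 2).div_const 4).sub hδl |>.const_sub _).mul_const _
    have h2 : (π ^ 2 / 4 - (π ^ 2 / 4 - 0)) * J = 0 := by ring
    rw [h2] at h1
    have := (ENNReal.continuous_ofReal.tendsto 0).comp h1
    rwa [ENNReal.ofReal_zero] at this
  -- the first remainder vanishes
  have hRVc : Continuous fun x => RV (u x) (Bop u x) := by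
    unfold RV
    have hB1 : Continuous fun x => Bop u x (u x) := hpre.Bop_cont.clm_apply hpre.uc
    have hn := hpre.uc.norm.pow 2
    exact hn.mul ((hn.mul (hB1.norm.pow 2)).sub ((hpre.uc.inner hB1).pow 2))
  have hRV : ∀ x, RV (u x) (Bop u x) = 0 := by
    have h1 : ∫⁻ x, ENNReal.ofReal (16 / 48 * RV (u x) (Bop u x)) ≤ 0 := by
      refine ge_of_tendsto hrhs (Eventually.of_forall fun k => ?_)
      refine le_trans (lintegral_mono fun x => ENNReal.ofReal_le_ofReal ?_) (hN2 k)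
      have h2 : (16:ℝ) ≤ θ k ^ 4 := by
        have := pow_le_pow_left₀ (by norm_num) (hθ2 k) 4
        norm_num at this
        exact this
      have h3 := RV_nonneg (u x) (Bop u x)
      exact mul_le_mul_of_nonneg_right (by linarith) h3
    have h2 : ∫⁻ x, ENNReal.ofReal (16 / 48 * RV (u x) (Bop u x)) = 0 := le_antisymm h1 zero_le'
    rw [lintegral_eq_zero_iff (hRVc.const_mul _).measurable.ennreal_ofReal] at h2
    have h3 : (fun x => RV (u x) (Bop u x)) =ᵐ[volume] fun _ => (0:ℝ) := by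
      filter_upwards [h2] with x hx
      simp only [Pi.zero_apply, ENNReal.ofReal_eq_zero] at hx
      have h4 := RV_nonneg (u x) (Bop u x)
      linarith
    have h4 := Continuous.ae_eq_iff_eq volume hRVc (continuous_const (y := (0:ℝ))) |>.1 h3
    exact fun x => congrFun h4 x
  have hE : ∀ x, u x ≠ 0 → Bop u x (u x) = ee u x • u x := fun x hx => eigen_of_RV hx (hRV x)
  refine ⟨hpre, hE, ?_⟩
  -- the second remainder vanishes
  have hfat : ∫⁻ x, liminf (fun k => ENNReal.ofReal (‖g x - N k x‖ ^ 2)) atTop ≤ 0 := by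
    have h1 : ∫⁻ x, liminf (fun k => ENNReal.ofReal (‖g x - N k x‖ ^ 2)) atTop ≤
        liminf (fun k => ∫⁻ x, ENNReal.ofReal (‖g x - N k x‖ ^ 2)) atTop := by
      refine lintegral_liminf_le' fun k => ?_
      exact ((h.hg2.1.sub (hNc k).aestronglyMeasurable).norm.pow 2).aemeasurable.ennreal_ofReal
    refine h1.trans ?_
    have h2 : liminf (fun k => ∫⁻ x, ENNReal.ofReal (‖g x - N k x‖ ^ 2)) atTop ≤
        liminf (fun k => ENNReal.ofReal ((π ^ 2 / 4 - (θ k ^ 2 / 4 - δ k)) * J)) atTop :=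
      liminf_le_liminf (Eventually.of_forall fun k => hN1 k)
    rw [hrhs.liminf_eq] at h2
    exact h2
  have hfat0 := le_antisymm hfat zero_le'
  have hmeasl : AEMeasurable (fun x => liminf (fun k => ENNReal.ofReal (‖g x - N k x‖ ^ 2)) atTop)
      volume := by
    refine ⟨fun x => liminf (fun k => ENNReal.ofReal (‖h.hg2.1.mk g x - N k x‖ ^ 2)) atTop,
      Measurable.liminf fun k => ?_, ?_⟩
    · exact ((h.hg2.1.stronglyMeasurable_mk.sub
        (hNc k).stronglyMeasurable).norm.pow 2).measurable.ennreal_ofReal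
    · filter_upwards [h.hg2.1.ae_eq_mk] with x hx
      simp only [← hx]
  rw [lintegral_eq_zero_iff' hmeasl] at hfat0
  filter_upwards [hfat0] with x hx hux
  have hem := hpre.ee_mem hux
  have hem' : ee u x ∈ Icc (-(1 / 2) : ℝ) (1 / 2) := ⟨hem.1.le, hem.2.le⟩
  choose p hp1 hp2 using fun k => hNe k x (ee u x) (hE x hux) hem'
  have hcos : cos (π * ee u x) ≠ 0 := by
    refine (cos_pos_of_mem_Ioo ⟨?_, ?_⟩).ne'
    · nlinarith [hem.1, pi_pos]
    · nlinarith [hem.2, pi_pos]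
  have hpl : Tendsto p atTop (𝓝 (-tan (π * ee u x))) := by
    have h1 : Tendsto (fun k => tan (θ k * ee u x)) atTop (𝓝 (tan (π * ee u x))) :=
      (continuousAt_tan.2 hcos).tendsto.comp (hθl.mul_const _)
    have h2 : Tendsto (fun k => p k + tan (θ k * ee u x)) atTop (𝓝 0) :=
      squeeze_zero_norm (fun k => by rw [Real.norm_eq_abs]; exact hp1 k) hδl
    have h3 := h2.sub h1
    rw [zero_sub] at h3
    refine h3.congr fun k => ?_
    ring
  have hNl : Tendsto (fun k => N k x) atTop (𝓝 (cf u x • u x)) := by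
    have h1 : Tendsto (fun k => (θ k / 2 * p k * ‖u x‖ ^ 2) • u x) atTop
        (𝓝 ((π / 2 * (-tan (π * ee u x)) * ‖u x‖ ^ 2) • u x)) :=
      (((hθl.div_const 2).mul hpl).mul_const _).smul_const _
    have h2 : π / 2 * (-tan (π * ee u x)) * ‖u x‖ ^ 2 = cf u x := by
      unfold cf
      ring
    rw [h2] at h1
    exact h1.congr fun k => (hp2 k).symm
  have hl : Tendsto (fun k => ENNReal.ofReal (‖g x - N k x‖ ^ 2)) atTop
      (𝓝 (ENNReal.ofReal (‖g x - cf u x • u x‖ ^ 2))) :=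
    (ENNReal.continuous_ofReal.tendsto _).comp ((hNl.const_sub _).norm.pow 2)
  rw [hl.liminf_eq] at hx
  simp only [Pi.zero_apply, ENNReal.ofReal_eq_zero] at hx
  have h7 : ‖g x - cf u x • u x‖ = 0 := by
    have h8 := sq_nonneg ‖g x - cf u x • u x‖
    have h9 : ‖g x - cf u x • u x‖ ^ 2 = 0 := le_antisymm hx h8
    simpa using h9
  exact sub_eq_zero.1 (norm_eq_zero.1 h7)

end Pool.Agent.H158.RG
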