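import Pool.Agent.H158.RG5

/-!
# Rigidity: the equation and its consequences
-/

set_option autoImplicit false
set_option linter.unusedSectionVars false
set_option linter.deprecated false

open MeasureTheory Set Filter Topology Real
open scoped RealInnerProductSpace ENNReal
open Pool.Helper490.Calib

namespace Pool.Agent.H158.RG

variable {E : Type*} [NormedAddCommGroup E] [InnerProductSpace ℝ E] [FiniteDimensional ℝ E]

variable {u g : ℝ → E}

lemma rho_pos {x : ℝ} (hx : u x ≠ 0) : 0 < ‖u x‖ ^ 2 := by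
  have := norm_pos_iff.2 hx
  positivity

lemma Pre.cos_pos' (h : Pre u) {x : ℝ} (hx : u x ≠ 0) : 0 < cos (π * ee u x) := by
  have hem := h.ee_mem hx
  refine cos_pos_of_mem_Ioo ⟨?_, ?_⟩
  · nlinarith [hem.1, pi_pos]
  · nlinarith [hem.2, pi_pos]

lemma Pre.tau_cont (h : Pre u) : Continuous fun x => ⟪u x, Bop u x (u x)⟫ :=
  h.uc.inner (h.Bop_cont.clm_apply h.uc)

lemma Pre.ee_cont (h : Pre u) {x : ℝ} (hx : u x ≠ 0) : ContinuousAt (ee u) x :=
  h.tau_cont.continuousAt.div (h.uc.norm.pow 2).continuousAt (rho_pos hx).ne'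

lemma Pre.cf_cont (h : Pre u) {x : ℝ} (hx : u x ≠ 0) : ContinuousAt (cf u) x := by
  have h1 : ContinuousAt (fun y => tan (π * ee u y)) x := by
    have h2 : ContinuousAt (fun y => π * ee u y) x := continuousAt_const.mul (h.ee_cont hx)
    exact ContinuousAt.comp (f := fun y => π * ee u y) (g := tan)
      (continuousAt_tan.2 (h.cos_pos' hx).ne') h2
  unfold cf
  exact (continuousAt_const.mul h1).mul (h.uc.norm.pow 2).continuousAt

lemma Pre.open_ne (h : Pre u) : IsOpen {y | u y ≠ 0} := isOpen_ne_fun h.uc continuous_const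

lemma Pre.hasDeriv (h : Pre u) (hug : ∀ a b, u b - u a = ∫ x in a..b, g x)
    (hae : ∀ᵐ x, u x ≠ 0 → g x = cf u x • u x) {x : ℝ} (hx : u x ≠ 0) :
    HasDerivAt u (cf u x • u x) x := by
  set Ω : Set ℝ := {y | u y ≠ 0} with hΩ
  have hΩo : IsOpen Ω := h.open_ne
  have hG : ContinuousOn (fun y => cf u y • u y) Ω := fun y hy =>
    ((h.cf_cont hy).smul h.uc.continuousAt).continuousWithinAt
  have h1 : HasDerivAt (fun y => ∫ t in x..y, cf u t • u t) (cf u x • u x) x :=
    intervalIntegral.integral_hasDerivAt_right (IntervalIntegrable.refl)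
      (hG.stronglyMeasurableAtFilter hΩo x hx) (hG.continuousAt (hΩo.mem_nhds hx))
  have h2 : HasDerivAt (fun y => u x + ∫ t in x..y, cf u t • u t) (cf u x • u x) x :=
    h1.const_add _
  refine h2.congr_of_eventuallyEq ?_
  obtain ⟨ε, hε, hball⟩ := Metric.isOpen_iff.1 hΩo x hx
  filter_upwards [Metric.ball_mem_nhds x hε] with y hy
  have h3 : ∫ t in x..y, g t = ∫ t in x..y, cf u t • u t := by
    refine intervalIntegral.integral_congr_ae ?_
    filter_upwards [hae] with t ht htm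
    refine ht (hball ?_)
    have hc : Convex ℝ (Metric.ball x ε) := convex_ball x ε
    have h5 := hc.ordConnected.uIcc_subset (Metric.mem_ball_self hε) hy
    exact h5 (uIoc_subset_uIcc htm)
  rw [← h3, ← hug]
  abel

section rigid

variable (h : Pre u) (hE : ∀ x, u x ≠ 0 → Bop u x (u x) = ee u x • u x)
  (hd : ∀ x, u x ≠ 0 → HasDerivAt u (cf u x • u x) x)
include h hE hd

lemma rho_deriv {x : ℝ} (hx : u x ≠ 0) :
    HasDerivAt (fun y => ‖u y‖ ^ 2) (2 * cf u x * ‖u x‖ ^ 2) x := by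
  have h1 := (hd x hx).norm_sq
  have h2 : 2 * ⟪u x, cf u x • u x⟫ = 2 * cf u x * ‖u x‖ ^ 2 := by
    rw [real_inner_smul_right, real_inner_self_eq_norm_sq]
    ring
  rw [h2] at h1
  exact h1

lemma ee_deriv {x : ℝ} (hx : u x ≠ 0) : HasDerivAt (ee u) (‖u x‖ ^ 2) x := by
  have hr := rho_pos hx
  have h1 : HasDerivAt (fun y => Bop u y (u y)) (R u x (u x) + Bop u x (cf u x • u x)) x :=
    (h.Bop_deriv x).clm_apply (hd x hx)
  have h2 := (hd x hx).inner ℝ h1
  have h3 := h2.div (rho_deriv h hE hd hx) hr.ne'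
  have h4 : HasDerivAt (ee u) _ x := h3
  convert h4 using 1
  rw [Pool.Helper490.Calib.R_apply, map_smul, hE x hx]
  simp only [inner_add_right, real_inner_smul_right, real_inner_smul_left,
    real_inner_self_eq_norm_sq]
  field_simp
  ring

lemma m_deriv {x : ℝ} (hx : u x ≠ 0) :
    HasDerivAt (fun y => ‖u y‖ ^ 2 / cos (π * ee u y)) 0 x := by
  have hc := h.cos_pos' hx
  have h1 : HasDerivAt (fun y => cos (π * ee u y)) (-sin (π * ee u x) * (π * ‖u x‖ ^ 2)) x :=
    ((ee_deriv h hE hd hx).const_mul π).cos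
  have h2 := (rho_deriv h hE hd hx).div h1 hc.ne'
  have h3 : (2 * cf u x * ‖u x‖ ^ 2 * cos (π * ee u x) -
      ‖u x‖ ^ 2 * (-sin (π * ee u x) * (π * ‖u x‖ ^ 2))) / cos (π * ee u x) ^ 2 = 0 := by
    unfold cf
    rw [tan_eq_sin_div_cos]
    field_simp
    ring
  rw [h3] at h2
  exact h2

theorem never_zero {x0 : ℝ} (hx0 : u x0 ≠ 0) : ∀ x, u x ≠ 0 := by
  set Ω : Set ℝ := {y | u y ≠ 0} with hΩ
  have hΩo : IsOpen Ω := h.open_ne
  set I := connectedComponentIn Ω x0 with hI
  have hIo : IsOpen I := hΩo.connectedComponentIn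
  have hIp : IsPreconnected I := isPreconnected_connectedComponentIn
  have hIΩ : I ⊆ Ω := connectedComponentIn_subset Ω x0
  have hx0I : x0 ∈ I := mem_connectedComponentIn hx0
  set C : ℝ := ‖u x0‖ ^ 2 / cos (π * ee u x0) with hC
  have hconst : ∀ y ∈ I, ‖u y‖ ^ 2 / cos (π * ee u y) = C := by
    intro y hy
    refine hIo.is_const_of_deriv_eq_zero hIp (f := fun y => ‖u y‖ ^ 2 / cos (π * ee u y))
      (fun z hz => (m_deriv h hE hd (hIΩ hz)).differentiableAt.differentiableWithinAt)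
      (fun z hz => (m_deriv h hE hd (hIΩ hz)).deriv) hy hx0I
  have hC0 : 0 < C := div_pos (rho_pos hx0) (h.cos_pos' hx0)
  have hbd : ∀ y ∈ I, ‖2 * cf u y‖ ≤ π * C := by
    intro y hy
    have hc := h.cos_pos' (hIΩ hy)
    have h1 := hconst y hy
    rw [div_eq_iff hc.ne'] at h1
    have h2 : 2 * cf u y = -(π * C * sin (π * ee u y)) := by
      unfold cf
      rw [h1, tan_eq_sin_div_cos]
      field_simp
    rw [h2, norm_neg, Real.norm_eq_abs, abs_mul, abs_of_pos (mul_pos pi_pos hC0)]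
    have h3 := abs_sin_le_one (π * ee u y)
    have h4 := mul_pos pi_pos hC0
    nlinarith
  have hlog : ∀ y ∈ I, HasDerivWithinAt (fun z => log (‖u z‖ ^ 2)) (2 * cf u y) I y := by
    intro y hy
    have hr := rho_pos (hIΩ hy)
    have h1 := (rho_deriv h hE hd (hIΩ hy)).log hr.ne'
    have h2 : 2 * cf u y * ‖u y‖ ^ 2 / ‖u y‖ ^ 2 = 2 * cf u y := mul_div_cancel_right₀ _ hr.ne'
    rw [h2] at h1
    exact h1.hasDerivWithinAt
  have hconv : Convex ℝ I := hIp.ordConnected.convex
  have hlow : ∀ y ∈ I, exp (log (‖u x0‖ ^ 2) - π * C * |y - x0|) ≤ ‖u y‖ ^ 2 := by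
    intro y hy
    have h1 := hconv.norm_image_sub_le_of_norm_hasDerivWithin_le hlog hbd hx0I hy
    rw [Real.norm_eq_abs, Real.norm_eq_abs] at h1
    have h2 := (abs_le.1 h1).1
    have hr := rho_pos (hIΩ hy)
    rw [← Real.exp_log hr]
    apply exp_le_exp.2
    linarith
  have hcl : closure I ⊆ Ω := by
    have hclosed : IsClosed {y | exp (log (‖u x0‖ ^ 2) - π * C * |y - x0|) ≤ ‖u y‖ ^ 2} := by
      refine isClosed_le ?_ (h.uc.norm.pow 2)
      fun_prop
    have h1 : closure I ⊆ {y | exp (log (‖u x0‖ ^ 2) - π * C * |y - x0|) ≤ ‖u y‖ ^ 2} :=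
      closure_minimal hlow hclosed
    intro y hy
    have h2 := h1 hy
    simp only [mem_setOf_eq] at h2
    have h3 : 0 < ‖u y‖ ^ 2 := lt_of_lt_of_le (exp_pos _) h2
    intro h0
    rw [h0, norm_zero] at h3
    norm_num at h3
  have hclI : closure I ⊆ I :=
    hIp.closure.subset_connectedComponentIn (subset_closure hx0I) hcl
  have hIclosed : IsClosed I := isClosed_of_closure_subset hclI
  have huniv : I = univ := IsClopen.eq_univ ⟨hIclosed, hIo⟩ ⟨x0, hx0I⟩
  intro x
  exact hIΩ (huniv ▸ mem_univ x)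

theorem direction : ∃ (φ : ℝ → ℝ) (v : E), ∀ x, u x = φ x • v := by
  by_cases h0 : ∀ x, u x = 0
  · exact ⟨fun _ => 0, 0, fun x => by rw [h0 x, smul_zero]⟩
  · obtain ⟨x0, hx0⟩ := not_forall.1 h0
    have hne := never_zero h hE hd hx0
    have hcc : Continuous (cf u) := continuous_iff_continuousAt.2 fun x => h.cf_cont (hne x)
    have hCd : ∀ x, HasDerivAt (fun y => ∫ t in (0:ℝ)..y, cf u t) (cf u x) x := fun x =>
      intervalIntegral.integral_hasDerivAt_right (hcc.intervalIntegrable _ _)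
        (hcc.stronglyMeasurableAtFilter _ _) hcc.continuousAt
    set W : ℝ → E := fun x => exp (-∫ t in (0:ℝ)..x, cf u t) • u x with hW
    have hWd : ∀ x, HasDerivAt W 0 x := by
      intro x
      have h0 : HasDerivAt (fun y => exp (-∫ t in (0:ℝ)..y, cf u t))
          (exp (-∫ t in (0:ℝ)..x, cf u t) * -cf u x) x := (hCd x).neg.exp
      have h1 := h0.smul (hd x (hne x))
      have h2 : rexp (-∫ t in (0:ℝ)..x, cf u t) • cf u x • u x +
          (rexp (-∫ t in (0:ℝ)..x, cf u t) * -cf u x) • u x = 0 := by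
        rw [smul_smul, ← add_smul]
        have : rexp (-∫ t in (0:ℝ)..x, cf u t) * cf u x +
            rexp (-∫ t in (0:ℝ)..x, cf u t) * -cf u x = 0 := by ring
        rw [this, zero_smul]
      rw [h2] at h1
      exact h1
    have hWc : ∀ x, W x = W 0 := fun x =>
      is_const_of_deriv_eq_zero (fun y => (hWd y).differentiableAt) (fun y => (hWd y).deriv) x 0
    refine ⟨fun x => exp (∫ t in (0:ℝ)..x, cf u t), W 0, fun x => ?_⟩
    rw [← hWc x]
    simp only [hW]
    rw [smul_smul, ← exp_add, add_neg_cancel, exp_zero, one_smul]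

end rigid

/-- If equality holds then the function has a constant direction. -/
theorem rigidity (h : Hsys u g)
    (heq : ∫ x, ‖g x‖ ^ 2 ≤ π ^ 2 / 4 * ∫ x, (‖u x‖ ^ 2) ^ 3) :
    ∃ (φ : ℝ → ℝ) (v : E), ∀ x, u x = φ x • v := by
  obtain ⟨hp, hE, hae⟩ := eq_cons h heq
  exact direction hp hE fun x hx => hp.hasDeriv h.hug hae hx

end Pool.Agent.H158.RG
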