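import Pool.Agent.H158.RG6

/-!
# Rigidity: the profile of the optimisers
-/

set_option autoImplicit false
set_option linter.unusedSectionVars false
set_option linter.deprecated false

open MeasureTheory Set Filter Topology Real
open scoped RealInnerProductSpace ENNReal
open Pool.Helper490.Calib

namespace Pool.Agent.H158.RG

variable {E : Type*} [NormedAddCommGroup E] [InnerProductSpace ℝ E] [FiniteDimensional ℝ E]

variable {u g : ℝ → E}

section rigid

variable (h : Pre u) (hE : ∀ x, u x ≠ 0 → Bop u x (u x) = ee u x • u x)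
  (hd : ∀ x, u x ≠ 0 → HasDerivAt u (cf u x • u x) x)
include h hE hd

theorem direction' (hne : ∀ x, u x ≠ 0) :
    ∃ (φ : ℝ → ℝ) (v : E), (∀ x, 0 < φ x) ∧ ∀ x, u x = φ x • v := by
  have hcc : Continuous (cf u) := continuous_iff_continuousAt.2 fun x => h.cf_cont (hne x)
  have hCd : ∀ x, HasDerivAt (fun y => ∫ t in (0:ℝ)..y, cf u t) (cf u x) x := fun x =>
    intervalIntegral.integral_hasDerivAt_right (hcc.intervalIntegrable _ _)
      (hcc.stronglyMeasurableAtFilter _ _) hcc.continuousAt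
  set W : ℝ → E := fun x => exp (-∫ t in (0:ℝ)..x, cf u t) • u x with hW
  have hWd : ∀ x, HasDerivAt W 0 x := by
    intro x
    have h0 : HasDerivAt (fun y => exp (-∫ t in (0:ℝ)..y, cf u t))
        (exp (-∫ t in (0:ℝ)..x, cf u t) * -cf u x) x := (hCd x).neg.exp
    have h1 := h0.smul (hd x (hne x))
    have h2 : rexp (-∫ t in (0:ℝ)..x, cf u t) • cf u x • u x +
        (rexp (-∫ t in (0:ℝ)..x, cf u t) * -cf u x) • u x = 0 := by
      rw [smul_smul, ← add_smul]
      have : rexp (-∫ t in (0:ℝ)..x, cf u t) * cf u x +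
          rexp (-∫ t in (0:ℝ)..x, cf u t) * -cf u x = 0 := by ring
      rw [this, zero_smul]
    rw [h2] at h1
    exact h1
  have hWc : ∀ x, W x = W 0 := fun x =>
    is_const_of_deriv_eq_zero (fun y => (hWd y).differentiableAt) (fun y => (hWd y).deriv) x 0
  refine ⟨fun x => exp (∫ t in (0:ℝ)..x, cf u t), W 0, fun x => exp_pos _, fun x => ?_⟩
  rw [← hWc x]
  simp only [hW]
  rw [smul_smul, ← exp_add, add_neg_cancel, exp_zero, one_smul]

theorem profile (hne : ∀ x, u x ≠ 0) :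
    ∃ (a x0 : ℝ) (ν : E), 0 < a ∧ ‖ν‖ = 1 ∧
      ∀ x, u x = √(a / (π * cosh (a * (x - x0)))) • ν := by
  obtain ⟨φ, v, hφ, hu⟩ := direction' h hE hd hne
  set C : ℝ := ‖u 0‖ ^ 2 / cos (π * ee u 0) with hC
  have hconst : ∀ y, ‖u y‖ ^ 2 / cos (π * ee u y) = C := fun y =>
    is_const_of_deriv_eq_zero (f := fun y => ‖u y‖ ^ 2 / cos (π * ee u y))
      (fun z => (m_deriv h hE hd (hne z)).differentiableAt)
      (fun z => (m_deriv h hE hd (hne z)).deriv) y 0
  have hC0 : 0 < C := div_pos (rho_pos (hne 0)) (h.cos_pos' (hne 0))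
  have hrho : ∀ y, ‖u y‖ ^ 2 = C * cos (π * ee u y) := by
    intro y
    have h1 := hconst y
    rwa [div_eq_iff (h.cos_pos' (hne y)).ne'] at h1
  have hsq : ∀ y, √(1 + tan (π * ee u y) ^ 2) = 1 / cos (π * ee u y) := by
    intro y
    have hc := h.cos_pos' (hne y)
    have h1 : 1 + tan (π * ee u y) ^ 2 = (1 / cos (π * ee u y)) ^ 2 := by
      rw [tan_eq_sin_div_cos]
      have h2 := sin_sq_add_cos_sq (π * ee u y)
      field_simp
      linarith
    rw [h1, Real.sqrt_sq (by positivity)]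
  have hT : ∀ y, HasDerivAt (fun z => arsinh (tan (π * ee u z)) - π * C * z) 0 y := by
    intro y
    have hc := h.cos_pos' (hne y)
    have h1 : HasDerivAt (fun z => π * ee u z) (π * ‖u y‖ ^ 2) y :=
      (ee_deriv h hE hd (hne y)).const_mul π
    have h2 : HasDerivAt (fun z => tan (π * ee u z)) (1 / cos (π * ee u y) ^ 2 * (π * ‖u y‖ ^ 2))
        y := HasDerivAt.comp (h₂ := tan) (h := fun z => π * ee u z) y (hasDerivAt_tan hc.ne') h1
    have h3 := h2.arsinh
    have h4 : HasDerivAt (fun z : ℝ => π * C * z) (π * C * 1) y := (hasDerivAt_id y).const_mul _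
    have h5 := h3.sub h4
    have h6 : (√(1 + tan (π * ee u y) ^ 2))⁻¹ • (1 / cos (π * ee u y) ^ 2 * (π * ‖u y‖ ^ 2)) -
        π * C * 1 = 0 := by
      rw [hsq, hrho, smul_eq_mul]
      field_simp
      ring
    rw [h6] at h5
    exact h5
  set b : ℝ := arsinh (tan (π * ee u 0)) with hb
  have hTc : ∀ y, arsinh (tan (π * ee u y)) = π * C * y + b := by
    intro y
    have h1 := is_const_of_deriv_eq_zero
      (f := fun z => arsinh (tan (π * ee u z)) - π * C * z)
      (fun z => (hT z).differentiableAt) (fun z => (hT z).deriv) y 0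
    simp only [mul_zero, sub_zero] at h1
    linarith
  have ha : 0 < π * C := mul_pos pi_pos hC0
  have hcosh : ∀ y, 1 / cos (π * ee u y) = cosh (π * C * (y - -b / (π * C))) := by
    intro y
    rw [← hsq, ← cosh_arsinh, hTc]
    congr 1
    field_simp
    ring
  have hrho2 : ∀ y, ‖u y‖ ^ 2 = π * C / (π * cosh (π * C * (y - -b / (π * C)))) := by
    intro y
    have hc := h.cos_pos' (hne y)
    rw [← hcosh, hrho]
    field_simp
  have hv : v ≠ 0 := by
    intro h0
    apply hne 0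
    rw [hu, h0, smul_zero]
  have hv' : 0 < ‖v‖ := norm_pos_iff.2 hv
  refine ⟨π * C, -b / (π * C), ‖v‖⁻¹ • v, ha, ?_, ?_⟩
  · rw [norm_smul, norm_inv, norm_norm, inv_mul_cancel₀ hv'.ne']
  · intro x
    rw [← hrho2, Real.sqrt_sq (norm_nonneg _), smul_smul]
    have h1 : ‖u x‖ = φ x * ‖v‖ := by
      rw [hu x, norm_smul, Real.norm_eq_abs, abs_of_pos (hφ x)]
    rw [h1, mul_assoc, mul_inv_cancel₀ hv'.ne', mul_one]
    exact hu x

end rigid

/-- The functions for which equality holds. -/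
theorem rigidity' (h : Hsys u g)
    (heq : ∫ x, ‖g x‖ ^ 2 ≤ π ^ 2 / 4 * ∫ x, (‖u x‖ ^ 2) ^ 3) :
    (∀ x, u x = 0) ∨ ∃ (a x0 : ℝ) (ν : E), 0 < a ∧ ‖ν‖ = 1 ∧
      ∀ x, u x = √(a / (π * cosh (a * (x - x0)))) • ν := by
  obtain ⟨hp, hE, hae⟩ := eq_cons h heq
  have hd : ∀ x, u x ≠ 0 → HasDerivAt u (cf u x • u x) x :=
    fun x hx => hp.hasDeriv h.hug hae hx
  by_cases h0 : ∀ x, u x = 0
  · exact Or.inl h0
  · right
    obtain ⟨x0, hx0⟩ := not_forall.1 h0
    exact profile hp hE hd (never_zero hp hE hd hx0)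

end Pool.Agent.H158.RG
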