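import Pool.Agent.H158.RG7
import Pool.Agent.Helper490.LTH1C

/-!
# Rigidity for families of complex functions
-/

set_option autoImplicit false
set_option linter.unusedSectionVars false
set_option linter.deprecated false

open MeasureTheory Set Filter Topology Real
open scoped RealInnerProductSpace ENNReal
open Pool.Helper490.Calib

namespace Pool.Agent.H158.RG

/-- Bessel's inequality in real coordinates. -/
lemma bessel_of_gram {N : ℕ} (u : Fin N → ℝ → ℂ) (h2 : ∀ n, MemLp (u n) 2)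
    (hgram : ∀ c : Fin N → ℂ, ∫ x, ‖∑ n, c n * u n x‖ ^ 2 ≤ ∑ n, ‖c n‖ ^ 2)
    (v : EuclideanSpace ℝ (Fin N ⊕ Fin N)) :
    ∫ x, ⟪realify (fun n => u n x), v⟫ ^ 2 ≤ ‖v‖ ^ 2 := by
  set z : Fin N → ℂ := fun n => ⟨v (Sum.inl n), v (Sum.inr n)⟩ with hz
  have hv : ‖v‖ ^ 2 = ∑ n, ‖z n‖ ^ 2 := by
    rw [EuclideanSpace.norm_sq_eq, Fintype.sum_sum_type, ← Finset.sum_add_distrib]
    refine Finset.sum_congr rfl fun n _ => ?_
    rw [sqn]
    simp [hz]
  have h3 := hgram fun n => star (z n)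
  simp only [norm_star] at h3
  rw [hv]
  refine le_trans ?_ h3
  have hi : Integrable (fun x => ‖∑ n, star (z n) * u n x‖ ^ 2) := by
    have h4 : MemLp (fun x => ∑ n, star (z n) * u n x) 2 :=
      memLp_finset_sum _ fun n _ => (h2 n).const_mul _
    exact h4.integrable_norm_pow (by norm_num)
  refine integral_mono_of_nonneg (Eventually.of_forall fun x => sq_nonneg _) hi
    (Eventually.of_forall fun x => ?_)
  simp only []
  rw [realify_inner, sqn]
  nlinarith [sq_nonneg (∑ n, star (z n) * u n x).im]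

/-- The real system attached to a family of complex functions. -/
lemma hsys_of_complex {N : ℕ} (u g : Fin N → ℝ → ℂ) (hu2 : ∀ n, MemLp (u n) 2)
    (hg2 : ∀ n, MemLp (g n) 2) (hug : ∀ n a b, u n b - u n a = ∫ x in a..b, g n x)
    (hgram : ∀ c : Fin N → ℂ, ∫ x, ‖∑ n, c n * u n x‖ ^ 2 ≤ ∑ n, ‖c n‖ ^ 2) :
    Hsys (fun x => realify fun n => u n x) (fun x => realify fun n => g n x) := by
  have hmem : ∀ f : Fin N → ℝ → ℂ, (∀ n, MemLp (f n) 2) →
      MemLp (fun x => realify fun n => f n x) 2 := by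
    intro f hf
    have hfm : AEStronglyMeasurable (fun x => fun n => f n x) volume :=
      (aemeasurable_pi_lambda _ fun n => (hf n).1.aemeasurable).aestronglyMeasurable
    have hm : AEStronglyMeasurable (fun x => realify fun n => f n x) volume :=
      (realifyL N).continuous.comp_aestronglyMeasurable hfm
    rw [memLp_two_iff_integrable_sq_norm hm]
    simp only [realify_norm]
    exact integrable_finsetSum _ fun n _ => (hf n).integrable_norm_pow (by norm_num)
  have hII : ∀ n a b, IntervalIntegrable (g n) volume a b := by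
    intro n a b
    have h1 : LocallyIntegrable (g n) volume := (hg2 n).locallyIntegrable (by norm_num)
    exact intervalIntegrable_iff.2 ((h1.integrableOn_isCompact isCompact_uIcc).mono_set
      uIoc_subset_uIcc)
  refine ⟨hmem u hu2, hmem g hg2, ?_, bessel_of_gram u hu2 hgram⟩
  intro a b
  have hpi : IntervalIntegrable (fun x => fun n => g n x) volume a b := by
    rw [intervalIntegrable_iff]
    exact Integrable.of_eval fun n => intervalIntegrable_iff.1 (hII n a b)
  have h1 := (realifyL N).intervalIntegral_comp_comm hpi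
  simp only [realifyL_apply] at h1
  rw [h1, ← realifyL_apply, ← realifyL_apply, ← realifyL_apply, ← map_sub]
  congr 1
  funext n
  rw [Pi.sub_apply, hug n a b]
  have h2 := (ContinuousLinearMap.proj (R := ℝ) (φ := fun _ : Fin N => ℂ) n).intervalIntegral_comp_comm hpi
  simpa using h2

/-- The profile of the optimisers. -/
noncomputable def prof (a x0 x : ℝ) : ℝ := √(a / (π * cosh (a * (x - x0))))

/-- The derivative of the profile. -/
noncomputable def prof' (a x0 x : ℝ) : ℝ :=
  √(a / π) * (Pool.Helper490.Sech.w' (a * (x - x0)) * a)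

lemma prof_eq {a : ℝ} (ha : 0 < a) (x0 x : ℝ) :
    prof a x0 x = √(a / π) * Pool.Helper490.Sech.w (a * (x - x0)) := by
  have h1 : a / (π * cosh (a * (x - x0))) = a / π * (cosh (a * (x - x0)))⁻¹ := by
    have := cosh_pos (a * (x - x0))
    field_simp
  rw [prof, h1, Real.sqrt_mul (by positivity), Real.sqrt_inv]
  rfl

lemma prof_deriv {a : ℝ} (ha : 0 < a) (x0 x : ℝ) : HasDerivAt (prof a x0) (prof' a x0 x) x := by
  have h1 : HasDerivAt (fun y => a * (y - x0)) (a * 1) x :=
    ((hasDerivAt_id x).sub_const x0).const_mul a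
  rw [mul_one] at h1
  have h2 := ((Pool.Helper490.Sech.w_deriv (a * (x - x0))).comp x h1).const_mul (√(a / π))
  refine h2.congr_of_eventuallyEq (Eventually.of_forall fun y => ?_)
  exact prof_eq ha x0 y

lemma integral_scale {a : ℝ} (ha : 0 < a) (x0 : ℝ) (f : ℝ → ℝ) :
    ∫ x, f (a * (x - x0)) = a⁻¹ * ∫ x, f x := by
  have h1 : ∫ x, f (a * (x - x0)) = ∫ x, f (a * x) :=
    integral_sub_right_eq_self (fun x => f (a * x)) x0
  rw [h1, Measure.integral_comp_mul_left, abs_of_pos (inv_pos.2 ha), smul_eq_mul]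

lemma sq_sqrt_api {a : ℝ} (ha : 0 < a) : √(a / π) ^ 2 = a / π :=
  Real.sq_sqrt (by positivity)

lemma integral_prof_six {a : ℝ} (ha : 0 < a) (x0 : ℝ) :
    ∫ x, (prof a x0 x ^ 2) ^ 3 = a ^ 2 / (2 * π ^ 2) := by
  have h1 : ∀ x, (prof a x0 x ^ 2) ^ 3 =
      (a / π) ^ 3 * (fun y => (Pool.Helper490.Sech.w y ^ 2) ^ 3) (a * (x - x0)) := by
    intro x
    rw [prof_eq ha, mul_pow, sq_sqrt_api ha, mul_pow]
  simp only [h1]
  rw [integral_const_mul, integral_scale ha x0 (fun y => (Pool.Helper490.Sech.w y ^ 2) ^ 3),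
    Pool.Helper490.Sech.integral_w_six]
  field_simp

lemma integral_prof'_sq {a : ℝ} (ha : 0 < a) (x0 : ℝ) :
    ∫ x, prof' a x0 x ^ 2 = a ^ 2 / 8 := by
  have h1 : ∀ x, prof' a x0 x ^ 2 =
      (a / π * a ^ 2) * (fun y => Pool.Helper490.Sech.w' y ^ 2) (a * (x - x0)) := by
    intro x
    rw [prof', mul_pow, sq_sqrt_api ha, mul_pow]
    ring
  simp only [h1]
  rw [integral_const_mul, integral_scale ha x0 (fun y => Pool.Helper490.Sech.w' y ^ 2),
    Pool.Helper490.Sech.integral_w'_sq]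
  field_simp

lemma integral_prof_sq {a : ℝ} (ha : 0 < a) (x0 : ℝ) :
    ∫ x, prof a x0 x ^ 2 = 1 := by
  have h1 : ∀ x, prof a x0 x ^ 2 =
      (a / π) * (fun y => Pool.Helper490.Sech.w y ^ 2) (a * (x - x0)) := by
    intro x
    rw [prof_eq ha, mul_pow, sq_sqrt_api ha]
  simp only [h1]
  rw [integral_const_mul, integral_scale ha x0 (fun y => Pool.Helper490.Sech.w y ^ 2),
    Pool.Helper490.Sech.integral_w_sq]
  field_simp

/-- The weak derivative of a differentiable function. -/
lemma weak_eq {u g d : ℝ → ℂ} (hg2 : MemLp g 2) (hug : ∀ a b, u b - u a = ∫ x in a..b, g x)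
    (hd : ∀ x, HasDerivAt u (d x) x) : g =ᵐ[volume] d := by
  have hli : LocallyIntegrable g volume := hg2.locallyIntegrable (by norm_num)
  filter_upwards [_root_.LocallyIntegrable.ae_hasDerivAt_integral hli] with x hx
  have h1 : HasDerivAt (fun y => ∫ t in (0:ℝ)..y, g t) (d x) x := by
    have h2 : (fun y => ∫ t in (0:ℝ)..y, g t) = fun y => u y - u 0 := by
      funext y
      rw [hug]
    rw [h2]
    exact (hd x).sub_const _
  exact (hx 0).unique h1

/-- The sharp inequality and the cases of equality, for families with Gram operator at most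
one. -/
theorem complex_rigidity {N : ℕ} (u g : Fin N → ℝ → ℂ) (hu2 : ∀ n, MemLp (u n) 2)
    (hg2 : ∀ n, MemLp (g n) 2) (hug : ∀ n a b, u n b - u n a = ∫ x in a..b, g n x)
    (hgram : ∀ c : Fin N → ℂ, ∫ x, ‖∑ n, c n * u n x‖ ^ 2 ≤ ∑ n, ‖c n‖ ^ 2) :
    Integrable (fun x => (∑ n, ‖u n x‖ ^ 2) ^ 3) ∧
    π ^ 2 / 4 * ∫ x, (∑ n, ‖u n x‖ ^ 2) ^ 3 ≤ ∑ n, ∫ x, ‖g n x‖ ^ 2 ∧
    (π ^ 2 / 4 * ∫ x, (∑ n, ‖u n x‖ ^ 2) ^ 3 = ∑ n, ∫ x, ‖g n x‖ ^ 2 ↔
      (∀ n x, u n x = 0) ∨ ∃ (a x0 : ℝ) (ν : Fin N → ℂ), 0 < a ∧ ∑ n, ‖ν n‖ ^ 2 = 1 ∧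
        ∀ n x, u n x = ν n * (√(a / (π * cosh (a * (x - x0)))) : ℝ)) := by
  have hs := hsys_of_complex u g hu2 hg2 hug hgram
  have hgi : ∀ n, Integrable (fun x => ‖g n x‖ ^ 2) := fun n =>
    (hg2 n).integrable_norm_pow (by norm_num)
  have hsharp := sharp_H1 _ _ hs.hu2 hs.hg2 hs.hug hs.hbes
  simp only [realify_norm] at hsharp
  rw [integral_finsetSum _ fun n _ => hgi n] at hsharp
  refine ⟨hsharp.1, hsharp.2, ?_, ?_⟩
  · intro heq
    have h1 := rigidity' hs (by
      simp only [realify_norm]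
      rw [integral_finsetSum _ fun n _ => hgi n]
      exact heq.ge)
    rcases h1 with h1 | ⟨a, x0, ν, ha, hν, h1⟩
    · left
      intro n x
      have h2 := h1 x
      have h3 := congrArg (fun w : EuclideanSpace ℝ (Fin N ⊕ Fin N) => w (Sum.inl n)) h2
      have h4 := congrArg (fun w : EuclideanSpace ℝ (Fin N ⊕ Fin N) => w (Sum.inr n)) h2
      simp only [realify, Sum.elim_inl, Sum.elim_inr, PiLp.zero_apply] at h3 h4
      exact Complex.ext h3 h4
    · right
      refine ⟨a, x0, fun n => ⟨ν (Sum.inl n), ν (Sum.inr n)⟩, ha, ?_, ?_⟩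
      · have h5 : ‖ν‖ ^ 2 = 1 := by rw [hν, one_pow]
        rw [← h5, EuclideanSpace.norm_sq_eq, Fintype.sum_sum_type, ← Finset.sum_add_distrib]
        refine Finset.sum_congr rfl fun n _ => ?_
        rw [sqn]
        simp
      · intro n x
        have h2 := h1 x
        have h3 := congrArg (fun w : EuclideanSpace ℝ (Fin N ⊕ Fin N) => w (Sum.inl n)) h2
        have h4 := congrArg (fun w : EuclideanSpace ℝ (Fin N ⊕ Fin N) => w (Sum.inr n)) h2
        simp only [realify, Sum.elim_inl, Sum.elim_inr, PiLp.smul_apply, smul_eq_mul] at h3 h4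
        refine Complex.ext ?_ ?_
        · rw [h3, Complex.re_mul_ofReal, mul_comm]
        · rw [h4, Complex.im_mul_ofReal, mul_comm]
  · rintro (h0 | ⟨a, x0, ν, ha, hν, h1⟩)
    · have h2 : ∀ n, ∫ x, ‖g n x‖ ^ 2 = 0 := by
        intro n
        have h3 : g n =ᵐ[volume] fun _ => (0 : ℂ) := by
          refine weak_eq (hg2 n) (hug n) fun x => ?_
          have h4 : u n = fun _ => 0 := funext (h0 n)
          rw [h4]
          exact hasDerivAt_const x 0
        have h5 : ∫ x, ‖g n x‖ ^ 2 = ∫ _x : ℝ, (0:ℝ) :=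
          integral_congr_ae (h3.mono fun x hx => by simp [hx])
        rw [h5, integral_zero]
      simp [h0, h2]
    · have h2 : ∀ n, ∫ x, ‖g n x‖ ^ 2 = ‖ν n‖ ^ 2 * (a ^ 2 / 8) := by
        intro n
        have h3 : g n =ᵐ[volume] fun x => ν n * ((prof' a x0 x : ℝ) : ℂ) := by
          refine weak_eq (hg2 n) (hug n) fun x => ?_
          have h4 : u n = fun x => ν n * ((prof a x0 x : ℝ) : ℂ) := funext (h1 n)
          rw [h4]
          exact ((prof_deriv ha x0 x).ofReal_comp).const_mul _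
        rw [← integral_prof'_sq ha x0, ← integral_const_mul]
        refine integral_congr_ae (h3.mono fun x hx => ?_)
        simp only [hx]
        rw [norm_mul, mul_pow, Complex.norm_real, Real.norm_eq_abs, sq_abs]
      have h5 : ∀ x, ∑ n, ‖u n x‖ ^ 2 = prof a x0 x ^ 2 := by
        intro x
        have h6 : ∀ n, ‖u n x‖ ^ 2 = ‖ν n‖ ^ 2 * prof a x0 x ^ 2 := by
          intro n
          rw [h1, norm_mul, mul_pow, Complex.norm_real, Real.norm_eq_abs, sq_abs]
          rfl
        simp only [h6]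
        rw [← Finset.sum_mul, hν, one_mul]
      simp only [h2, h5]
      rw [← Finset.sum_mul, hν, integral_prof_six ha]
      field_simp
      ring

/-- No orthonormal family of two or more functions attains equality. -/
theorem complex_strict {N : ℕ} (hN : 2 ≤ N) (u g : Fin N → ℝ → ℂ) (hu2 : ∀ n, MemLp (u n) 2)
    (hg2 : ∀ n, MemLp (g n) 2) (hug : ∀ n a b, u n b - u n a = ∫ x in a..b, g n x)
    (hgram : ∀ c : Fin N → ℂ, ∫ x, ‖∑ n, c n * u n x‖ ^ 2 ≤ ∑ n, ‖c n‖ ^ 2)
    (ho : ∀ n m, ∫ x, star (u n x) * u m x = if n = m then 1 else 0) :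
    π ^ 2 / 4 * ∫ x, (∑ n, ‖u n x‖ ^ 2) ^ 3 < ∑ n, ∫ x, ‖g n x‖ ^ 2 := by
  obtain ⟨-, hle, hiff⟩ := complex_rigidity u g hu2 hg2 hug hgram
  refine lt_of_le_of_ne hle fun heq => ?_
  set i : Fin N := ⟨0, by omega⟩ with hi
  set j : Fin N := ⟨1, by omega⟩ with hj
  have hij : i ≠ j := by simp [hi, hj]
  have h11 := ho i i
  have h12 := ho i j
  have h22 := ho j j
  rw [if_pos rfl] at h11 h22
  rw [if_neg hij] at h12
  rcases hiff.1 heq with h0 | ⟨a, x0, ν, ha, hν, h1⟩
  · simp [h0] at h11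
  · have h2 : ∀ n m, ∫ x, star (u n x) * u m x = star (ν n) * ν m := by
      intro n m
      have h3 : ∀ x, star (u n x) * u m x =
          star (ν n) * ν m * ((prof a x0 x ^ 2 : ℝ) : ℂ) := by
        intro x
        rw [h1, h1, star_mul']
        have h4 : star (((√(a / (π * cosh (a * (x - x0)))) : ℝ)) : ℂ) =
            ((√(a / (π * cosh (a * (x - x0)))) : ℝ) : ℂ) := Complex.conj_ofReal _
        rw [h4]
        simp only [prof]
        push_cast
        ring
      simp only [h3]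
      rw [integral_const_mul, integral_complex_ofReal, integral_prof_sq ha]
      simp
    rw [h2] at h11 h12 h22
    rcases mul_eq_zero.1 h12 with h3 | h3
    · rw [h3, zero_mul] at h11
      exact zero_ne_one h11
    · rw [h3, mul_zero] at h22
      exact zero_ne_one h22

end Pool.Agent.H158.RG
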