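import Pool.Agent.H158.RG8

/-!
# The inequality with an explicit remainder
-/

set_option autoImplicit false
set_option linter.unusedSectionVars false
set_option linter.deprecated false

open MeasureTheory Set Filter Topology Real
open scoped RealInnerProductSpace ENNReal
open Pool.Helper490.Calib

namespace Pool.Agent.H158.RG

variable {E : Type*} [NormedAddCommGroup E] [InnerProductSpace ℝ E] [FiniteDimensional ℝ E]

lemma Pre.RV_cont {u : ℝ → E} (hpre : Pre u) : Continuous fun x => RV (u x) (Bop u x) := by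
  unfold RV
  have hB1 : Continuous fun x => Bop u x (u x) := hpre.Bop_cont.clm_apply hpre.uc
  have hn := hpre.uc.norm.pow 2
  exact hn.mul ((hn.mul (hB1.norm.pow 2)).sub ((hpre.uc.inner hB1).pow 2))

/-- One step: the inequality at a parameter below `π`. -/
theorem remainder_step {u g : ℝ → E} (h : Hsys u g) {θ δ : ℝ} (hθ0 : 0 < θ) (hθ : θ < π)
    (hδ : 0 < δ) (hc : δ ≤ θ ^ 2 / 4) :
    Integrable (fun x => RV (u x) (Bop u x)) ∧
    (θ ^ 2 / 4 - δ) * (∫ x, (‖u x‖ ^ 2) ^ 3) + θ ^ 4 / 48 * (∫ x, RV (u x) (Bop u x)) ≤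
      ∫ x, ‖g x‖ ^ 2 := by
  obtain ⟨K, a, hsym, happ, hK⟩ := exists_kernel' hθ0 hθ hδ
  have hc0 : 0 ≤ θ ^ 2 / 4 - δ := by linarith
  have hc1 : 0 ≤ θ ^ 4 / 96 := by positivity
  obtain ⟨hpre, hle⟩ := H1_ineq u g h.hu2 h.hg2 h.hug h.hbes (SS K) (ww a) (fun q => q.2.1)
    (fun q => q.2.2) (θ / 4) (θ ^ 2 / 4 - δ) (θ ^ 4 / 96) hc0 hc1 hsym hK
  obtain ⟨hJ, -⟩ := sharp_H1 u g h.hu2 h.hg2 h.hug h.hbes
  have hR0 : ∀ x, 0 ≤ RV (u x) (Bop u x) := fun x => RV_nonneg _ _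
  set H : ℝ → ℝ := fun x => (θ ^ 2 / 4 - δ) * (‖u x‖ ^ 2) ^ 3 +
    θ ^ 4 / 48 * RV (u x) (Bop u x) with hH
  have hH0 : ∀ x, 0 ≤ H x := by
    intro x
    have := hR0 x
    simp only [hH]
    positivity
  have hHc : Continuous H :=
    (continuous_const.mul ((hpre.uc.norm.pow 2).pow 3)).add
      (continuous_const.mul hpre.RV_cont)
  have hHl : ∫⁻ x, ENNReal.ofReal (H x) ≤ ENNReal.ofReal (∫ x, ‖g x‖ ^ 2) := by
    refine le_trans (lintegral_mono fun x => ENNReal.ofReal_le_ofReal ?_) hle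
    simp only [hH]
    unfold FV
    have h3 : 0 ≤ ‖g x - NV (SS K) (ww a) (fun q => q.2.1) (fun q => q.2.2) (θ / 4) (u x)
      (Bop u x)‖ ^ 2 := by positivity
    linarith
  have hHi : Integrable H := by
    refine ⟨hHc.aestronglyMeasurable, ?_⟩
    rw [hasFiniteIntegral_iff_ofReal (Eventually.of_forall hH0)]
    exact hHl.trans_lt ENNReal.ofReal_lt_top
  have hHint : ∫ x, H x ≤ ∫ x, ‖g x‖ ^ 2 := by
    rw [← ofReal_integral_eq_lintegral_ofReal hHi (Eventually.of_forall hH0)] at hHl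
    exact (ENNReal.ofReal_le_ofReal_iff (integral_nonneg fun x => sq_nonneg _)).1 hHl
  have hRi : Integrable (fun x => RV (u x) (Bop u x)) := by
    have h4 : Integrable (fun x => H x - (θ ^ 2 / 4 - δ) * (‖u x‖ ^ 2) ^ 3) :=
      hHi.sub (hJ.const_mul _)
    have h5 : 0 < θ ^ 4 / 48 := by positivity
    refine (h4.const_mul (θ ^ 4 / 48)⁻¹).congr (Eventually.of_forall fun x => ?_)
    simp only [hH]
    field_simp
    ring
  refine ⟨hRi, ?_⟩
  have h6 : ∫ x, H x = (θ ^ 2 / 4 - δ) * (∫ x, (‖u x‖ ^ 2) ^ 3) +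
      θ ^ 4 / 48 * (∫ x, RV (u x) (Bop u x)) := by
    have h7 : Integrable (fun x => (θ ^ 2 / 4 - δ) * (‖u x‖ ^ 2) ^ 3) := hJ.const_mul _
    have h8 : Integrable (fun x => θ ^ 4 / 48 * RV (u x) (Bop u x)) := hRi.const_mul _
    rw [← integral_const_mul, ← integral_const_mul, ← integral_add h7 h8]
  rw [← h6]
  exact hHint

/-- The sharp inequality with a remainder. -/
theorem remainder {u g : ℝ → E} (h : Hsys u g) :
    Integrable (fun x => RV (u x) (Bop u x)) ∧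
    π ^ 2 / 4 * (∫ x, (‖u x‖ ^ 2) ^ 3) + π ^ 4 / 48 * (∫ x, RV (u x) (Bop u x)) ≤
      ∫ x, ‖g x‖ ^ 2 := by
  have hpi3 := pi_gt_three
  set θ : ℕ → ℝ := fun k => π - 1 / ((k : ℝ) + 1) with hθ
  set δ : ℕ → ℝ := fun k => 1 / ((k : ℝ) + 1) with hδ
  have hδ0 : ∀ k, 0 < δ k := fun k => by simp only [hδ]; positivity
  have hδ1 : ∀ k, δ k ≤ 1 := fun k => by
    simp only [hδ]
    rw [div_le_one (by positivity)]
    have : (0:ℝ) ≤ k := Nat.cast_nonneg k
    linarith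
  have hθd : ∀ k, θ k = π - δ k := fun k => rfl
  have hθ2 : ∀ k, 2 ≤ θ k := fun k => by rw [hθd]; linarith [hδ1 k]
  have hθπ : ∀ k, θ k < π := fun k => by rw [hθd]; linarith [hδ0 k]
  have hc : ∀ k, δ k ≤ θ k ^ 2 / 4 := fun k => by
    have h1 := hδ1 k
    have h2 := hθ2 k
    nlinarith
  have hδl : Tendsto δ atTop (𝓝 0) := tendsto_one_div_add_atTop_nhds_zero_nat
  have hθl : Tendsto θ atTop (𝓝 π) := by
    have := hδl.const_sub π
    rw [sub_zero] at this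
    exact this
  have hmain := fun k => remainder_step h (by linarith [hθ2 k] : 0 < θ k) (hθπ k) (hδ0 k) (hc k)
  refine ⟨(hmain 0).1, ?_⟩
  have hl : Tendsto (fun k => (θ k ^ 2 / 4 - δ k) * (∫ x, (‖u x‖ ^ 2) ^ 3) +
      θ k ^ 4 / 48 * (∫ x, RV (u x) (Bop u x))) atTop
      (𝓝 ((π ^ 2 / 4 - 0) * (∫ x, (‖u x‖ ^ 2) ^ 3) +
        π ^ 4 / 48 * (∫ x, RV (u x) (Bop u x)))) :=
    ((((hθl.pow 2).div_const 4).sub hδl).mul_const _).add
      (((hθl.pow 4).div_const 48).mul_const _)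
  rw [sub_zero] at hl
  exact le_of_tendsto' hl fun k => (hmain k).2

/-- The remainder does not see the shift. -/
lemma RV_Gam (u : ℝ → E) (x : ℝ) : RV (u x) (Bop u x) =
    ‖u x‖ ^ 2 * (‖u x‖ ^ 2 * ‖Gam u x (u x)‖ ^ 2 - ⟪u x, Gam u x (u x)⟫ ^ 2) := by
  unfold RV
  have h1 : Bop u x (u x) = Gam u x (u x) - (1 / 2 : ℝ) • u x := by
    simp only [Bop, ContinuousLinearMap.sub_apply, ContinuousLinearMap.smul_apply,
      ContinuousLinearMap.one_apply]
  rw [h1, norm_sub_sq_real, inner_sub_right, real_inner_smul_right, real_inner_smul_right,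
    norm_smul, mul_pow, real_inner_self_eq_norm_sq, real_inner_comm (u x) (Gam u x (u x)),
    Real.norm_eq_abs, sq_abs]
  ring

end Pool.Agent.H158.RG
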