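import Mathlib

set_option autoImplicit false
open MeasureTheory Real Set Filter Topology
open scoped FourierTransform SchwartzMap

namespace H158.TD

/-- the symbol -/
noncomputable def om (k ξ : ℝ) : ℝ := (2 * π * |ξ|) ^ (5 / 2 : ℝ) + k ^ (5 / 2 : ℝ)

theorem om_pos {k : ℝ} (hk : 0 < k) (ξ : ℝ) : 0 < om k ξ := by
  unfold om
  have h1 : 0 ≤ (2 * π * |ξ|) ^ (5 / 2 : ℝ) := by positivity
  have h2 : 0 < k ^ (5 / 2 : ℝ) := by positivity
  linarith

theorem om_cont (k : ℝ) : Continuous (om k) := by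
  unfold om
  have : Continuous fun ξ : ℝ => (2 * π * |ξ|) ^ (5 / 2 : ℝ) :=
    (by fun_prop : Continuous fun ξ : ℝ => 2 * π * |ξ|).rpow_const (fun x => Or.inr (by norm_num))
  exact this.add continuous_const

theorem om_neg (k ξ : ℝ) : om k (-ξ) = om k ξ := by unfold om; rw [abs_neg]

theorem om_ge {k : ℝ} (hk : 0 < k) (ξ : ℝ) :
    1 + ξ ^ 2 ≤ (1 + 2 / k ^ (5 / 2 : ℝ)) * om k ξ := by
  have hkp : 0 < k ^ (5 / 2 : ℝ) := by positivity
  have h0 : 0 ≤ (2 * π * |ξ|) ^ (5 / 2 : ℝ) := by positivity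
  have h1 : ξ ^ 2 ≤ 1 + (2 * π * |ξ|) ^ (5 / 2 : ℝ) := by
    by_cases h : |ξ| ≤ 1
    · have : ξ ^ 2 ≤ 1 := by
        rw [← sq_abs]; nlinarith [abs_nonneg ξ]
      linarith
    · push Not at h
      have e1 : ξ ^ 2 = |ξ| ^ (2 : ℝ) := by rw [← sq_abs]; norm_num
      have e2 : |ξ| ^ (2 : ℝ) ≤ |ξ| ^ (5 / 2 : ℝ) :=
        Real.rpow_le_rpow_of_exponent_le h.le (by norm_num)
      have e3 : |ξ| ^ (5 / 2 : ℝ) ≤ (2 * π * |ξ|) ^ (5 / 2 : ℝ) := by
        apply Real.rpow_le_rpow (abs_nonneg _) _ (by norm_num)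
        have := Real.pi_gt_three
        nlinarith
      linarith
  have h2 : (1 + 2 / k ^ (5 / 2 : ℝ)) * om k ξ =
      (2 * π * |ξ|) ^ (5 / 2 : ℝ) + k ^ (5 / 2 : ℝ) + 2 +
        2 / k ^ (5 / 2 : ℝ) * (2 * π * |ξ|) ^ (5 / 2 : ℝ) := by
    unfold om
    field_simp
    ring
  rw [h2]
  have h3 : 0 ≤ 2 / k ^ (5 / 2 : ℝ) * (2 * π * |ξ|) ^ (5 / 2 : ℝ) := by positivity
  linarith

theorem om_inv_int {k : ℝ} (hk : 0 < k) : Integrable (fun ξ => 1 / om k ξ) := by
  refine Integrable.mono' (integrable_inv_one_add_sq.const_mul (1 + 2 / k ^ (5 / 2 : ℝ))) ?_ ?_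
  · exact (continuous_const.div (om_cont k) (fun ξ => (om_pos hk ξ).ne')).aestronglyMeasurable
  · refine Eventually.of_forall fun ξ => ?_
    have h1 := om_ge hk ξ
    have h2 := om_pos hk ξ
    have h3 : 0 < 1 + ξ ^ 2 := by positivity
    rw [Real.norm_of_nonneg (by positivity), ← div_eq_mul_inv, div_le_div_iff₀ h2 h3]
    linarith

theorem om_mul_int {k : ℝ} (hk : 0 < k) {c : ℝ → ℝ} (hc : Continuous c) (hb : ∀ x, |c x| ≤ 1) :
    Integrable (fun ξ => c ξ / om k ξ) := by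
  have h := (om_inv_int hk).bdd_mul (c := 1) hc.aestronglyMeasurable
    (Eventually.of_forall fun x => by rw [Real.norm_eq_abs]; exact hb x)
  refine h.congr (Eventually.of_forall fun ξ => ?_)
  simp only
  ring

/-- the Green function at unit energy -/
noncomputable def g (x : ℝ) : ℝ := ∫ ξ, cos (2 * π * x * ξ) / om 1 ξ

/-- the Green function -/
noncomputable def G (k x : ℝ) : ℝ := ∫ ξ, cos (2 * π * x * ξ) / om k ξ

theorem om_scale {k : ℝ} (hk : 0 < k) (η : ℝ) : om k (k * η) = k ^ (5 / 2 : ℝ) * om 1 η := by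
  unfold om
  rw [abs_mul, abs_of_pos hk, show 2 * π * (k * |η|) = k * (2 * π * |η|) by ring,
    Real.mul_rpow hk.le (by positivity), Real.one_rpow]
  ring

theorem G_eq {k : ℝ} (hk : 0 < k) (x : ℝ) : G k x = k ^ (-(3 / 2) : ℝ) * g (k * x) := by
  unfold G g
  have h := Measure.integral_comp_mul_left (fun ξ => cos (2 * π * x * ξ) / om k ξ) k
  rw [smul_eq_mul, abs_of_pos (inv_pos.2 hk)] at h
  have h2 : ∫ ξ, cos (2 * π * x * ξ) / om k ξ =
      k * ∫ η, cos (2 * π * x * (k * η)) / om k (k * η) := by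
    rw [h, ← mul_assoc, mul_inv_cancel₀ hk.ne', one_mul]
  rw [h2, ← integral_const_mul, ← integral_const_mul]
  congr 1
  funext η
  rw [om_scale hk, show 2 * π * x * (k * η) = 2 * π * (k * x) * η by ring]
  have e : k ^ (-(3 / 2) : ℝ) = k / k ^ (5 / 2 : ℝ) := by
    rw [show (-(3 / 2) : ℝ) = 1 - 5 / 2 by norm_num, Real.rpow_sub hk, Real.rpow_one]
  rw [e]
  have h3 := om_pos one_pos η
  have h4 : 0 < k ^ (5 / 2 : ℝ) := by positivity
  field_simp

theorem g_cont : Continuous g := by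
  unfold g
  refine continuous_of_dominated (bound := fun ξ => 1 / om 1 ξ) ?_ ?_ (om_inv_int one_pos) ?_
  · intro x
    exact ((by fun_prop : Continuous fun ξ : ℝ => cos (2 * π * x * ξ)).div (om_cont 1)
      (fun ξ => (om_pos one_pos ξ).ne')).aestronglyMeasurable
  · intro x
    refine Eventually.of_forall fun ξ => ?_
    have h2 := om_pos one_pos ξ
    rw [norm_div, Real.norm_of_nonneg h2.le, Real.norm_eq_abs]
    exact div_le_div_of_nonneg_right (abs_cos_le_one _) h2.le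
  · refine Eventually.of_forall fun ξ => ?_
    fun_prop

theorem g0_pos : 0 < g 0 := by
  unfold g
  have e : (fun ξ : ℝ => cos (2 * π * 0 * ξ) / om 1 ξ) = fun ξ => 1 / om 1 ξ := by
    funext ξ; simp
  rw [e]
  rw [integral_pos_iff_support_of_nonneg (fun ξ => by have := om_pos one_pos ξ; positivity)
    (om_inv_int one_pos)]
  have : Function.support (fun ξ => 1 / om 1 ξ) = univ := by
    ext ξ
    simp only [Function.mem_support, mem_univ, iff_true]
    have := om_pos one_pos ξ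
    positivity
  rw [this]
  simp

theorem g_le (x : ℝ) : g x ≤ g 0 := by
  unfold g
  apply integral_mono
  · exact om_mul_int one_pos (by fun_prop) (fun y => abs_cos_le_one _)
  · exact om_mul_int one_pos (by fun_prop) (fun y => abs_cos_le_one _)
  · intro ξ
    simp only
    have h2 := om_pos one_pos ξ
    apply div_le_div_of_nonneg_right _ h2.le
    simp only [mul_zero, zero_mul, cos_zero]
    exact cos_le_one _

theorem g_ge (x : ℝ) : -g 0 ≤ g x := by
  unfold g
  rw [← integral_neg]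
  apply integral_mono
  · exact (om_mul_int one_pos (by fun_prop) (fun y => abs_cos_le_one _)).neg
  · exact om_mul_int one_pos (by fun_prop) (fun y => abs_cos_le_one _)
  · intro ξ
    simp only
    have h2 := om_pos one_pos ξ
    rw [← neg_div]
    apply div_le_div_of_nonneg_right _ h2.le
    simp only [mul_zero, zero_mul, cos_zero]
    exact neg_one_le_cos _

/-- the selection of the two energies -/
theorem select (hneg : ∃ x, 0 < x ∧ g x < 0) : ∃ ke ko L : ℝ, 0 < ke ∧ 0 < ko ∧ ke ≤ ko ∧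
    1 < ko ^ (-(3 / 2) : ℝ) * (g 0 - g (ko * L)) ∧ 1 < ke ^ (-(3 / 2) : ℝ) * (g 0 + g (ke * L)) ∧
    2 * g 0 < ke ^ (3 / 2 : ℝ) + ko ^ (3 / 2 : ℝ) := by
  obtain ⟨X, hX, hgX⟩ := hneg
  obtain ⟨y, hy, hmin⟩ := isCompact_Icc.exists_isMinOn (⟨X, by simp [hX.le]⟩ : (Icc 0 X).Nonempty)
    g_cont.continuousOn
  set m := -g y with hm
  have hm0 : 0 < m := by
    have := hmin (show X ∈ Icc 0 X by simp [hX.le])
    simp only [Set.mem_ofPred_eq] at this
    linarith
  have hcl : IsCompact (Icc 0 X ∩ g ⁻¹' {-m}) :=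
    isCompact_Icc.inter_right ((isClosed_singleton).preimage g_cont)
  obtain ⟨xm, hxm, hleast⟩ := hcl.exists_isLeast ⟨y, hy, by simp [hm]⟩
  have hxm1 : g xm = -m := hxm.2
  have hxm0 : 0 < xm := by
    rcases hxm.1.1.lt_or_eq with h | h
    · exact h
    · exfalso
      rw [← h] at hxm1
      have := g0_pos
      linarith
  have hbelow : ∀ u, 0 ≤ u → u < xm → -m < g u := by
    intro u hu0 hu
    have h1 : -m ≤ g u := by
      have := hmin (show u ∈ Icc 0 X from ⟨hu0, hu.le.trans hxm.1.2⟩)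
      simp only [Set.mem_ofPred_eq] at this
      linarith
    rcases h1.lt_or_eq with h | h
    · exact h
    · exfalso
      have := hleast ⟨⟨hu0, hu.le.trans hxm.1.2⟩, h.symm⟩
      linarith
  have hmg : m ≤ g 0 := by have := g_ge y; linarith
  have hg0 := g0_pos
  let ke : ℝ → ℝ := fun δ => (g 0 - m + 2 * δ) ^ (2 / 3 : ℝ)
  let ko : ℝ → ℝ := fun δ => (g 0 + m - δ) ^ (2 / 3 : ℝ)
  have hkec : Continuous ke :=
    (by fun_prop : Continuous fun δ => g 0 - m + 2 * δ).rpow_const fun x => Or.inr (by norm_num)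
  have hkoc : Continuous ko :=
    (by fun_prop : Continuous fun δ => g 0 + m - δ).rpow_const fun x => Or.inr (by norm_num)
  have hko0 : 0 < ko 0 := by
    show 0 < (g 0 + m - 0) ^ (2 / 3 : ℝ)
    apply Real.rpow_pos_of_pos
    linarith
  have hlt0 : ke 0 < ko 0 := by
    show (g 0 - m + 2 * 0) ^ (2 / 3 : ℝ) < (g 0 + m - 0) ^ (2 / 3 : ℝ)
    apply Real.rpow_lt_rpow (by linarith) (by linarith) (by norm_num)
  have hke0 : 0 ≤ ke 0 := Real.rpow_nonneg (by linarith) _
  have hφ : ContinuousAt (fun δ => g (ke δ * (xm / ko δ)) + m - 2 * δ) 0 := by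
    have h1 : ContinuousAt (fun δ => ke δ * (xm / ko δ)) 0 :=
      hkec.continuousAt.mul (continuousAt_const.div hkoc.continuousAt hko0.ne')
    exact ((g_cont.continuousAt.comp h1).add continuousAt_const).sub (by fun_prop)
  have hφ0 : 0 < (fun δ => g (ke δ * (xm / ko δ)) + m - 2 * δ) 0 := by
    have h1 : ke 0 * (xm / ko 0) < xm := by
      rw [← mul_div_assoc, div_lt_iff₀ hko0]
      nlinarith
    have h2 := hbelow _ (by positivity) h1
    simp only
    linarith
  have hev : ∀ᶠ δ in 𝓝 (0 : ℝ), 0 < g (ke δ * (xm / ko δ)) + m - 2 * δ :=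
    hφ.eventually (lt_mem_nhds hφ0)
  obtain ⟨ε, hε, hball⟩ := Metric.eventually_nhds_iff.1 hev
  set δ := min (ε / 2) (m / 3) with hδ
  have hδ0 : 0 < δ := lt_min (by linarith) (by linarith)
  have hδm : δ ≤ m / 3 := min_le_right _ _
  have hδε : δ < ε := lt_of_le_of_lt (min_le_left _ _) (by linarith)
  have hδφ := hball (show dist δ 0 < ε by rw [Real.dist_eq, sub_zero, abs_of_pos hδ0]; exact hδε)
  have hbe : 0 < g 0 - m + 2 * δ := by linarith
  have hbo : 0 < g 0 + m - δ := by linarith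
  have hkep : 0 < ke δ := Real.rpow_pos_of_pos hbe _
  have hkop : 0 < ko δ := Real.rpow_pos_of_pos hbo _
  have e1 : ke δ ^ (3 / 2 : ℝ) = g 0 - m + 2 * δ := by
    show ((g 0 - m + 2 * δ) ^ (2 / 3 : ℝ)) ^ (3 / 2 : ℝ) = _
    rw [← Real.rpow_mul hbe.le]; norm_num
  have e2 : ko δ ^ (3 / 2 : ℝ) = g 0 + m - δ := by
    show ((g 0 + m - δ) ^ (2 / 3 : ℝ)) ^ (3 / 2 : ℝ) = _
    rw [← Real.rpow_mul hbo.le]; norm_num
  refine ⟨ke δ, ko δ, xm / ko δ, hkep, hkop, ?_, ?_, ?_, ?_⟩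
  · apply Real.rpow_le_rpow hbe.le _ (by norm_num)
    linarith
  · rw [Real.rpow_neg hkop.le, e2, mul_div_cancel₀ _ hkop.ne', hxm1, ← div_eq_inv_mul, lt_div_iff₀ hbo]
    linarith
  · rw [Real.rpow_neg hkep.le, e1, ← div_eq_inv_mul, lt_div_iff₀ hbe]
    linarith
  · rw [e1, e2]
    linarith

end H158.TD
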