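import Pool.Agent.H158.TD1

set_option autoImplicit false
open MeasureTheory Real Set Filter Topology
open scoped FourierTransform SchwartzMap

namespace H158.TD

/-- complex symbol -/
noncomputable def mC (ξ : ℝ) : ℂ := ((1 / om 1 ξ : ℝ) : ℂ)

theorem mC_int : Integrable mC := (om_inv_int one_pos).ofReal

theorem mC_cont : Continuous mC := by
  unfold mC
  exact Complex.continuous_ofReal.comp
    (continuous_const.div (om_cont 1) (fun ξ => (om_pos one_pos ξ).ne'))

theorem odd_int {f : ℝ → ℝ} (h : ∀ x, f (-x) = -f x) : ∫ x, f x = 0 := by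
  have h1 : ∫ x, f (-x) = ∫ x, f x := integral_neg_eq_self f volume
  have h2 : ∫ x, f (-x) = -∫ x, f x := by rw [← integral_neg]; congr 1; funext x; exact h x
  linarith

theorem fourier_mC (x : ℝ) : 𝓕 mC x = (g x : ℂ) := by
  rw [Real.fourier_real_eq_integral_exp_smul]
  have e : (fun v : ℝ => Complex.exp (↑(-2 * π * v * x) * Complex.I) • mC v) =
      fun v => ((cos (2 * π * x * v) / om 1 v : ℝ) : ℂ) -
        ((sin (2 * π * x * v) / om 1 v : ℝ) : ℂ) * Complex.I := by
    funext v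
    rw [Complex.exp_mul_I, ← Complex.ofReal_cos, ← Complex.ofReal_sin,
      show -2 * π * v * x = -(2 * π * x * v) by ring, Real.cos_neg, Real.sin_neg]
    unfold mC
    push_cast
    rw [smul_eq_mul]
    ring
  rw [e, integral_sub, integral_mul_const, integral_complex_ofReal, integral_complex_ofReal]
  · have h : ∫ v, sin (2 * π * x * v) / om 1 v = 0 := by
      apply odd_int
      intro v
      rw [om_neg, mul_neg, Real.sin_neg, neg_div]
    rw [h]
    unfold g
    simp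
  · exact (om_mul_int one_pos (by fun_prop) (fun y => abs_cos_le_one _)).ofReal
  · exact ((om_mul_int one_pos (by fun_prop) (fun y => abs_sin_le_one _)).ofReal).mul_const _

theorem tend (v : ℝ) : Tendsto (fun (c : ℝ) ↦
    (∫ w : ℝ, Complex.exp (- (c:ℂ)⁻¹ * (‖w‖:ℂ) ^ 2 + 2 * π * Complex.I * (inner ℝ v w : ℝ)) • (𝓕 mC) w)) atTop
    (𝓝 (mC v)) := by
  have B := Real.tendsto_integral_gaussian_smul' mC_int (v := v) mC_cont.continuousAt
  apply B.congr'
  filter_upwards [Ioi_mem_atTop 0] with c (hc : 0 < c)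
  have J : Integrable (fun w : ℝ ↦ Complex.exp (- (c:ℂ)⁻¹ * (‖w‖:ℂ) ^ 2 + 2 * π * Complex.I * (inner ℝ v w : ℝ))) :=
    GaussianFourier.integrable_cexp_neg_mul_sq_norm_add (by simpa) _ _
  have h := (VectorFourier.integral_fourierIntegral_smul_eq_flip (L := innerₗ ℝ)
      Real.continuous_fourierChar continuous_inner J mC_int)
  have h2 : ∫ w : ℝ, 𝓕 (fun w : ℝ ↦ Complex.exp (- (c:ℂ)⁻¹ * (‖w‖:ℂ) ^ 2 + 2 * π * Complex.I * (inner ℝ v w : ℝ))) w • mC w =
    ∫ w : ℝ, Complex.exp (- (c:ℂ)⁻¹ * (‖w‖:ℂ) ^ 2 + 2 * π * Complex.I * (inner ℝ v w : ℝ)) • (𝓕 mC) w := by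
    simpa using! h
  rw [← h2]
  congr with w
  rw [fourier_gaussian_innerProductSpace' (by simpa), div_inv_eq_mul, div_inv_eq_mul,
    show -(π:ℂ) ^ 2 * (‖v - w‖:ℂ) ^ 2 * c = -(π:ℂ) ^ 2 * c * (‖v - w‖:ℂ) ^ 2 by ring]

theorem tendR (v : ℝ) : Tendsto (fun (c : ℝ) ↦
    (∫ w : ℝ, rexp (- c⁻¹ * w ^ 2) * cos (2 * π * v * w) * g w)) atTop
    (𝓝 (1 / om 1 v)) := by
  have h1 := (Complex.continuous_re.tendsto _).comp (tend v)
  have e1 : (mC v).re = 1 / om 1 v := by unfold mC; rw [Complex.ofReal_re]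
  rw [e1] at h1
  apply h1.congr'
  filter_upwards [Ioi_mem_atTop 0] with c (hc : 0 < c)
  have J : Integrable (fun w : ℝ ↦ Complex.exp (- (c:ℂ)⁻¹ * (‖w‖:ℂ) ^ 2 + 2 * π * Complex.I * (inner ℝ v w : ℝ))) :=
    GaussianFourier.integrable_cexp_neg_mul_sq_norm_add (by simpa) _ _
  have J2 : Integrable (fun w : ℝ ↦ Complex.exp (- (c:ℂ)⁻¹ * (‖w‖:ℂ) ^ 2 + 2 * π * Complex.I * (inner ℝ v w : ℝ)) • (𝓕 mC) w) := by
    have hb := J.bdd_mul (c := g 0) (f := fun w => (g w : ℂ))
      (Complex.continuous_ofReal.comp g_cont).aestronglyMeasurable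
      (Eventually.of_forall fun x => by
        rw [Complex.norm_real, Real.norm_eq_abs]; exact abs_le.2 ⟨g_ge x, g_le x⟩)
    refine hb.congr (Eventually.of_forall fun w => ?_)
    simp only [fourier_mC, smul_eq_mul]
    ring
  simp only [Function.comp]
  have h3 := integral_re J2
  simp only [RCLike.re_to_complex] at h3
  rw [← h3]
  congr 1
  funext w
  rw [fourier_mC, smul_eq_mul, mul_comm, Complex.re_ofReal_mul]
  have e2 : (- (c:ℂ)⁻¹ * (‖w‖:ℂ) ^ 2 + 2 * π * Complex.I * (inner ℝ v w : ℝ)) =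
      ((- c⁻¹ * w ^ 2 : ℝ) : ℂ) + ((2 * π * v * w : ℝ) : ℂ) * Complex.I := by
    have e4 : (‖w‖ : ℂ) ^ 2 = ((w ^ 2 : ℝ) : ℂ) := by
      rw [← Complex.ofReal_pow, Real.norm_eq_abs, sq_abs]
    rw [e4]
    have e5 : (inner ℝ v w : ℝ) = w * v := by simp
    rw [e5]
    push_cast
    ring
  rw [e2, Complex.exp_add, Complex.exp_mul_I, ← Complex.ofReal_exp, ← Complex.ofReal_cos,
    ← Complex.ofReal_sin, Complex.re_ofReal_mul]
  simp only [Complex.add_re, Complex.ofReal_re, Complex.mul_re, Complex.I_re, Complex.ofReal_im,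
    Complex.I_im, mul_zero, zero_mul, sub_zero, add_zero]
  ring

theorem gaussint {c : ℝ} (hc : 0 < c) {b : ℝ → ℝ} (hb : Continuous b) {C : ℝ} (hC : ∀ x, |b x| ≤ C) :
    Integrable (fun w : ℝ => rexp (- c⁻¹ * w ^ 2) * b w * g w) := by
  have h1 := integrable_exp_neg_mul_sq (b := c⁻¹) (by positivity)
  have h2 := h1.bdd_mul (c := C * g 0) (f := fun w => b w * g w)
    (hb.mul g_cont).aestronglyMeasurable
    (Eventually.of_forall fun x => by
      rw [norm_mul, Real.norm_eq_abs, Real.norm_eq_abs]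
      exact mul_le_mul (hC x) (abs_le.2 ⟨g_ge x, g_le x⟩) (abs_nonneg _)
        ((abs_nonneg _).trans (hC x)))
  refine h2.congr (Eventually.of_forall fun w => ?_)
  simp only
  ring

theorem g_neg : ∃ x, g x < 0 := by
  by_contra hcon
  push Not at hcon
  have key : ∀ v : ℝ, 0 ≤ 3 * (1 / om 1 0) - 4 * (1 / om 1 v) + 1 / om 1 (2 * v) := by
    intro v
    have hT := (((tendR 0).const_mul 3).sub ((tendR v).const_mul 4)).add (tendR (2 * v))
    refine ge_of_tendsto hT ?_
    filter_upwards [Ioi_mem_atTop 0] with c (hc : 0 < c)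
    have i1 := gaussint hc (b := fun w => cos (2 * π * 0 * w)) (by fun_prop) (fun x => abs_cos_le_one _)
    have i2 := gaussint hc (b := fun w => cos (2 * π * v * w)) (by fun_prop) (fun x => abs_cos_le_one _)
    have i3 := gaussint hc (b := fun w => cos (2 * π * (2 * v) * w)) (by fun_prop) (fun x => abs_cos_le_one _)
    have i12 : Integrable (fun w => 3 * (rexp (- c⁻¹ * w ^ 2) * cos (2 * π * 0 * w) * g w) -
      4 * (rexp (- c⁻¹ * w ^ 2) * cos (2 * π * v * w) * g w)) :=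
      (i1.const_mul 3).sub (i2.const_mul 4)
    have hsum := integral_add i12 i3
    rw [integral_sub (i1.const_mul 3) (i2.const_mul 4), integral_const_mul, integral_const_mul] at hsum
    rw [← hsum]
    apply integral_nonneg
    intro w
    simp only
    have e1 : cos (2 * π * (2 * v) * w) = 2 * cos (2 * π * v * w) ^ 2 - 1 := by
      rw [← Real.cos_two_mul]; ring_nf
    rw [e1]
    simp only [mul_zero, zero_mul, cos_zero, mul_one]
    have h1 : 0 ≤ rexp (- c⁻¹ * w ^ 2) * g w := mul_nonneg (Real.exp_pos _).le (hcon w)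
    have h2 : 0 ≤ 2 * (rexp (- c⁻¹ * w ^ 2) * g w) * (1 - cos (2 * π * v * w)) ^ 2 := by positivity
    show 0 ≤ _
    nlinarith
  have e0 : om 1 0 = 1 := by
    unfold om
    simp only [abs_zero, mul_zero, Real.one_rpow]
    rw [Real.zero_rpow (by norm_num)]
    norm_num
  set v : ℝ := (1 / 100 : ℝ) ^ (2 / 5 : ℝ) / (2 * π) with hv
  have hvp : 0 < v := by positivity
  have e1 : om 1 v = 1 / 100 + 1 := by
    unfold om
    rw [abs_of_pos hvp, hv, mul_div_cancel₀ _ (by positivity), ← Real.rpow_mul (by norm_num),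
      Real.one_rpow]
    norm_num
  have e2 : om 1 (2 * v) = (2 : ℝ) ^ (5 / 2 : ℝ) / 100 + 1 := by
    unfold om
    rw [abs_of_pos (by positivity), show 2 * π * (2 * v) = 2 * (2 * π * v) by ring,
      Real.mul_rpow (by norm_num) (by positivity), hv, mul_div_cancel₀ _ (by positivity),
      ← Real.rpow_mul (by norm_num), Real.one_rpow]
    norm_num
    ring
  have hK : 5 ≤ (2 : ℝ) ^ (5 / 2 : ℝ) := by
    have h1 : ((2 : ℝ) ^ (5 / 2 : ℝ)) ^ 2 = 32 := by
      rw [← Real.rpow_natCast, ← Real.rpow_mul (by norm_num)]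
      norm_num
    have h2 : 0 ≤ (2 : ℝ) ^ (5 / 2 : ℝ) := by positivity
    nlinarith
  have hk := key v
  rw [e0, e1, e2] at hk
  set K := (2 : ℝ) ^ (5 / 2 : ℝ) with hKd
  have h3 : 1 / (K / 100 + 1) ≤ 1 / (5 / 100 + 1) := by
    apply one_div_le_one_div_of_le (by norm_num)
    linarith
  norm_num at hk h3
  linarith

theorem g_even (x : ℝ) : g (-x) = g x := by
  unfold g
  congr 1
  funext ξ
  rw [show 2 * π * -x * ξ = -(2 * π * x * ξ) by ring, Real.cos_neg]

theorem g_neg_pos : ∃ x, 0 < x ∧ g x < 0 := by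
  obtain ⟨x, hx⟩ := g_neg
  rcases lt_trichotomy x 0 with h | h | h
  · exact ⟨-x, by linarith, by rw [g_even]; exact hx⟩
  · rw [h] at hx
    have := g0_pos
    linarith
  · exact ⟨x, h, hx⟩

end H158.TD
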