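import Pool.Agent.H158.TD1

set_option autoImplicit false
open MeasureTheory Real Set Filter Topology
open scoped FourierTransform SchwartzMap ContDiff

namespace H158.TD

/-- cut-off near zero and infinity -/
noncomputable def eta (n : ℕ) (ξ : ℝ) : ℝ :=
  smoothTransition (2 - (ξ / (n + 1)) ^ 2) * smoothTransition (((n + 1) * ξ) ^ 2 - 1)

theorem eta_nonneg (n : ℕ) (ξ : ℝ) : 0 ≤ eta n ξ :=
  mul_nonneg (smoothTransition.nonneg _) (smoothTransition.nonneg _)

theorem eta_le (n : ℕ) (ξ : ℝ) : eta n ξ ≤ 1 :=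
  mul_le_one₀ (smoothTransition.le_one _) (smoothTransition.nonneg _) (smoothTransition.le_one _)

theorem eta_neg (n : ℕ) (ξ : ℝ) : eta n (-ξ) = eta n ξ := by
  unfold eta
  congr 2 <;> ring

theorem eta_smooth (n : ℕ) : ContDiff ℝ ∞ (eta n) := by
  unfold eta
  apply ContDiff.mul
  · exact smoothTransition.contDiff.comp (by fun_prop)
  · exact smoothTransition.contDiff.comp (by fun_prop)

theorem eta_zero_near (n : ℕ) : ∀ᶠ ξ in 𝓝 (0:ℝ), eta n ξ = 0 := by
  have h : Tendsto (fun ξ : ℝ => ((n + 1) * ξ) ^ 2 - 1) (𝓝 0) (𝓝 ((((n : ℝ) + 1) * 0) ^ 2 - 1)) :=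
    (by fun_prop : Continuous fun ξ : ℝ => ((n + 1) * ξ) ^ 2 - 1).tendsto 0
  have h2 := h.eventually (gt_mem_nhds (show ((n + 1 : ℝ) * 0) ^ 2 - 1 < 0 by norm_num))
  filter_upwards [h2] with ξ hξ
  unfold eta
  rw [smoothTransition.zero_of_nonpos hξ.le, mul_zero]

theorem eta_out (n : ℕ) {ξ : ℝ} (h : 2 * (n + 1) < |ξ|) : eta n ξ = 0 := by
  unfold eta
  have hn : (0:ℝ) < n + 1 := by positivity
  have h1 : 2 - (ξ / (n + 1)) ^ 2 ≤ 0 := by
    have h2 : 2 < |ξ / (n + 1)| := by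
      rw [abs_div, abs_of_pos hn, lt_div_iff₀ hn]; exact h
    rw [← sq_abs]
    nlinarith
  rw [smoothTransition.zero_of_nonpos h1, zero_mul]

theorem eta_tend {ξ : ℝ} (h : ξ ≠ 0) : Tendsto (fun n => eta n ξ) atTop (𝓝 1) := by
  have hξ : 0 < |ξ| := abs_pos.2 h
  obtain ⟨N1, hN1⟩ := exists_nat_gt (|ξ|)
  obtain ⟨N2, hN2⟩ := exists_nat_gt (2 / |ξ|)
  refine tendsto_const_nhds.congr' ?_
  filter_upwards [eventually_ge_atTop (max N1 N2)] with n hn
  have hn1 : (N1 : ℝ) ≤ n := by exact_mod_cast (le_max_left _ _).trans hn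
  have hn2 : (N2 : ℝ) ≤ n := by exact_mod_cast (le_max_right _ _).trans hn
  have hnp : (0:ℝ) < n + 1 := by positivity
  unfold eta
  have h1 : 1 ≤ 2 - (ξ / (n + 1)) ^ 2 := by
    have h2 : |ξ / (n + 1)| ≤ 1 := by
      rw [abs_div, abs_of_pos hnp, div_le_one hnp]; linarith
    rw [← sq_abs]
    nlinarith [abs_nonneg (ξ / (n + 1))]
  have h3 : 1 ≤ ((n + 1) * ξ) ^ 2 - 1 := by
    have h4 : 2 < |(n + 1) * ξ| := by
      rw [abs_mul, abs_of_pos hnp]
      rw [div_lt_iff₀ hξ] at hN2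
      nlinarith
    rw [← sq_abs]
    nlinarith
  rw [smoothTransition.one_of_one_le h1, smoothTransition.one_of_one_le h3, mul_one]

theorem om_smooth {k : ℝ} {ξ : ℝ} (h : ξ ≠ 0) : ContDiffAt ℝ ∞ (om k) ξ := by
  have e : om k = fun ξ => (4 * π ^ 2 * ξ ^ 2) ^ (5 / 4 : ℝ) + k ^ (5 / 2 : ℝ) := by
    funext x
    unfold om
    congr 1
    have e1 : 4 * π ^ 2 * x ^ 2 = (2 * π * |x|) ^ (2 : ℝ) := by
      rw [show ((2:ℝ) : ℝ) = ((2:ℕ) : ℝ) by norm_num, Real.rpow_natCast, mul_pow, sq_abs]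
      ring
    rw [e1, ← Real.rpow_mul (by positivity)]
    norm_num
  rw [e]
  apply ContDiffAt.add _ contDiffAt_const
  apply ContDiffAt.rpow_const_of_ne (by fun_prop)
  positivity

/-- the cut off trial function in Fourier space -/
noncomputable def rr (n : ℕ) (k : ℝ) (c : ℝ → ℝ) (ξ : ℝ) : ℝ := eta n ξ * (c ξ / om k ξ)

theorem rr_smooth (n : ℕ) {k : ℝ} (hk : 0 < k) {c : ℝ → ℝ} (hc : ContDiff ℝ ∞ c) :
    ContDiff ℝ ∞ (rr n k c) := by
  rw [contDiff_iff_contDiffAt]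
  intro ξ
  by_cases h : ξ = 0
  · subst h
    refine (contDiffAt_const (c := (0:ℝ))).congr_of_eventuallyEq ?_
    filter_upwards [eta_zero_near n] with x hx
    unfold rr
    rw [hx, zero_mul]
  · unfold rr
    exact (eta_smooth n).contDiffAt.mul (hc.contDiffAt.div (om_smooth h) (om_pos hk ξ).ne')

theorem rr_supp (n : ℕ) (k : ℝ) (c : ℝ → ℝ) : HasCompactSupport (rr n k c) := by
  refine HasCompactSupport.intro (isCompact_Icc (a := -(2 * ((n:ℝ) + 1))) (b := 2 * ((n:ℝ) + 1)))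
    fun x hx => ?_
  have : 2 * ((n:ℝ) + 1) < |x| := by
    by_contra hcon
    push Not at hcon
    exact hx (abs_le.1 hcon)
  unfold rr
  rw [eta_out n this, zero_mul]

theorem trial_exists {k : ℝ} (hk : 0 < k) {c : ℝ → ℝ} (hc : ContDiff ℝ ∞ c) (hb : ∀ x, |c x| ≤ 1)
    (hA : 1 < 2 * ∫ ξ, c ξ ^ 2 / om k ξ) :
    ∃ n, ∫ ξ, om k ξ * rr n k c ξ ^ 2 < 2 * (∫ ξ, rr n k c ξ * c ξ) ^ 2 := by
  set A := ∫ ξ, c ξ ^ 2 / om k ξ with hAd
  have hcc := hc.continuous
  have h1 : Tendsto (fun n => ∫ ξ, om k ξ * rr n k c ξ ^ 2) atTop (𝓝 A) := by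
    apply tendsto_integral_of_dominated_convergence (fun ξ => 1 / om k ξ)
    · intro n
      exact ((om_cont k).mul ((rr_smooth n hk hc).continuous.pow 2)).aestronglyMeasurable
    · exact om_inv_int hk
    · intro n
      refine Eventually.of_forall fun ξ => ?_
      have ho := om_pos hk ξ
      have e : om k ξ * rr n k c ξ ^ 2 = eta n ξ ^ 2 * c ξ ^ 2 / om k ξ := by
        unfold rr; field_simp
      rw [e, Real.norm_of_nonneg (by positivity)]
      apply div_le_div_of_nonneg_right _ ho.le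
      have h2 : c ξ ^ 2 ≤ 1 := by rw [← sq_abs]; nlinarith [hb ξ, abs_nonneg (c ξ)]
      have h3 : eta n ξ ^ 2 ≤ 1 := by nlinarith [eta_nonneg n ξ, eta_le n ξ]
      exact mul_le_one₀ h3 (by positivity) h2
    · filter_upwards [compl_mem_ae_iff.mpr (measure_singleton (0:ℝ))] with ξ hξ
      have ho := om_pos hk ξ
      have hne : ξ ≠ 0 := by simpa using hξ
      have h2 := ((eta_tend hne).pow 2).mul_const (c ξ ^ 2 / om k ξ)
      rw [one_pow, one_mul] at h2
      refine h2.congr fun n => ?_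
      unfold rr; field_simp
  have h2 : Tendsto (fun n => ∫ ξ, rr n k c ξ * c ξ) atTop (𝓝 A) := by
    apply tendsto_integral_of_dominated_convergence (fun ξ => 1 / om k ξ)
    · intro n
      exact ((rr_smooth n hk hc).continuous.mul hcc).aestronglyMeasurable
    · exact om_inv_int hk
    · intro n
      refine Eventually.of_forall fun ξ => ?_
      have ho := om_pos hk ξ
      have e : rr n k c ξ * c ξ = eta n ξ * c ξ ^ 2 / om k ξ := by
        unfold rr; field_simp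
      rw [e, Real.norm_of_nonneg (div_nonneg (mul_nonneg (eta_nonneg _ _) (sq_nonneg _)) ho.le)]
      apply div_le_div_of_nonneg_right _ ho.le
      have h2 : c ξ ^ 2 ≤ 1 := by rw [← sq_abs]; nlinarith [hb ξ, abs_nonneg (c ξ)]
      exact mul_le_one₀ (eta_le _ _) (by positivity) h2
    · filter_upwards [compl_mem_ae_iff.mpr (measure_singleton (0:ℝ))] with ξ hξ
      have ho := om_pos hk ξ
      have hne : ξ ≠ 0 := by simpa using hξ
      have h2 := (eta_tend hne).mul_const (c ξ ^ 2 / om k ξ)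
      rw [one_mul] at h2
      refine h2.congr fun n => ?_
      unfold rr; field_simp
  have h3 := h1.sub ((h2.pow 2).const_mul 2)
  have h4 : A - 2 * A ^ 2 < 0 := by nlinarith
  obtain ⟨n, hn⟩ := (h3.eventually (gt_mem_nhds h4)).exists
  exact ⟨n, by linarith⟩

theorem A_cos {k : ℝ} (hk : 0 < k) (L : ℝ) :
    2 * ∫ ξ, cos (π * L * ξ) ^ 2 / om k ξ = k ^ (-(3 / 2) : ℝ) * (g 0 + g (k * L)) := by
  have h0 := G_eq hk 0
  have h1 := G_eq hk L
  rw [mul_zero] at h0
  rw [mul_add, ← h0, ← h1]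
  unfold G
  rw [← integral_add (om_mul_int hk (by fun_prop) (fun y => abs_cos_le_one _))
    (om_mul_int hk (by fun_prop) (fun y => abs_cos_le_one _)), ← integral_const_mul]
  congr 1
  funext ξ
  rw [show 2 * π * L * ξ = 2 * (π * L * ξ) by ring, Real.cos_two_mul]
  simp only [mul_zero, zero_mul, cos_zero]
  ring

theorem A_sin {k : ℝ} (hk : 0 < k) (L : ℝ) :
    2 * ∫ ξ, sin (π * L * ξ) ^ 2 / om k ξ = k ^ (-(3 / 2) : ℝ) * (g 0 - g (k * L)) := by
  have h0 := G_eq hk 0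
  have h1 := G_eq hk L
  rw [mul_zero] at h0
  rw [mul_sub, ← h0, ← h1]
  unfold G
  rw [← integral_sub (om_mul_int hk (by fun_prop) (fun y => abs_cos_le_one _))
    (om_mul_int hk (by fun_prop) (fun y => abs_cos_le_one _)), ← integral_const_mul]
  congr 1
  funext ξ
  rw [show 2 * π * L * ξ = 2 * (π * L * ξ) by ring, Real.cos_two_mul, Real.sin_sq]
  simp only [mul_zero, zero_mul, cos_zero]
  ring

end H158.TD
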