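import Pool.Agent.H158.TD1

set_option autoImplicit false
open MeasureTheory Real Set Filter Topology
open scoped FourierTransform SchwartzMap ContDiff

namespace H158.TD

/-- kinetic energy -/
noncomputable def Kin (f : 𝓢(ℝ, ℂ)) : ℝ := ∫ ξ : ℝ, (2 * π * |ξ|) ^ (5 / 2 : ℝ) * ‖𝓕 f ξ‖ ^ 2

theorem sq_int (f : 𝓢(ℝ, ℂ)) : Integrable (fun x => ‖f x‖ ^ 2) := by
  have h := (f.memLp 2 volume)
  exact (memLp_two_iff_integrable_sq_norm f.continuous.aestronglyMeasurable).1 h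

theorem kin_int (f : 𝓢(ℝ, ℂ)) :
    Integrable (fun ξ : ℝ => (2 * π * |ξ|) ^ (5 / 2 : ℝ) * ‖f ξ‖ ^ 2) := by
  obtain ⟨C, hC⟩ := f.decay 3 0
  have hC0 : 0 < C := hC.1
  have hdec := hC.2
  -- |ξ|^3 ‖f‖ ≤ C
  obtain ⟨C0, hC0'⟩ := f.decay 0 0
  have hf : Integrable (fun ξ => ‖f ξ‖) := f.integrable.norm
  have h1 : Integrable (fun ξ => ((2 * π) ^ (5 / 2 : ℝ) * (C + C0)) * ‖f ξ‖) := hf.const_mul _
  refine h1.mono' ?_ ?_
  · have : Continuous fun ξ : ℝ => (2 * π * |ξ|) ^ (5 / 2 : ℝ) :=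
      (by fun_prop : Continuous fun ξ : ℝ => 2 * π * |ξ|).rpow_const (fun x => Or.inr (by norm_num))
    exact (this.mul (f.continuous.norm.pow 2)).aestronglyMeasurable
  · refine Eventually.of_forall fun ξ => ?_
    rw [Real.norm_of_nonneg (by positivity), Real.mul_rpow (by positivity) (abs_nonneg _)]
    have h2 : |ξ| ^ (5 / 2 : ℝ) ≤ 1 + |ξ| ^ 3 := by
      by_cases h : |ξ| ≤ 1
      · have := Real.rpow_le_one (abs_nonneg ξ) h (show (0:ℝ) ≤ 5 / 2 by norm_num)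
        have h3 : 0 ≤ |ξ| ^ 3 := by positivity
        linarith
      · push Not at h
        have := Real.rpow_le_rpow_of_exponent_le h.le (show (5 / 2 : ℝ) ≤ 3 by norm_num)
        rw [show ((3:ℝ)) = ((3:ℕ):ℝ) by norm_num, Real.rpow_natCast] at this
        linarith
    have h4 : (1 + |ξ| ^ 3) * ‖f ξ‖ ≤ C + C0 := by
      have a1 := hdec ξ
      have a2 := hC0'.2 ξ
      rw [norm_iteratedFDeriv_zero] at a1 a2
      rw [Real.norm_eq_abs] at a1 a2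
      rw [pow_zero, one_mul] at a2
      linarith
    have h5 : 0 ≤ ‖f ξ‖ := norm_nonneg _
    have h6 : 0 ≤ (2 * π) ^ (5 / 2 : ℝ) := by positivity
    calc (2 * π) ^ (5 / 2 : ℝ) * |ξ| ^ (5 / 2 : ℝ) * ‖f ξ‖ ^ 2
        ≤ (2 * π) ^ (5 / 2 : ℝ) * (1 + |ξ| ^ 3) * ‖f ξ‖ ^ 2 := by gcongr
      _ = (2 * π) ^ (5 / 2 : ℝ) * ((1 + |ξ| ^ 3) * ‖f ξ‖) * ‖f ξ‖ := by ring
      _ ≤ (2 * π) ^ (5 / 2 : ℝ) * (C + C0) * ‖f ξ‖ := by gcongr

theorem plancherel (f : 𝓢(ℝ, ℂ)) : ∫ ξ, ‖𝓕 f ξ‖ ^ 2 = ∫ x, ‖f x‖ ^ 2 :=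
  SchwartzMap.integral_norm_sq_fourier f

theorem kin_add {k : ℝ} (f : 𝓢(ℝ, ℂ)) :
    ∫ ξ, om k ξ * ‖𝓕 f ξ‖ ^ 2 = Kin f + k ^ (5 / 2 : ℝ) * ∫ x, ‖f x‖ ^ 2 := by
  rw [← plancherel, ← integral_const_mul]
  unfold Kin
  rw [← integral_add (kin_int (𝓕 f)) ((sq_int (𝓕 f)).const_mul _)]
  congr 1
  funext ξ
  unfold om
  ring

/-- Cauchy-Schwarz -/
theorem cs {a : ℝ → ℝ} {k : ℝ} (hk : 0 < k) (ha : ∀ x, 0 ≤ a x) (hai : Integrable a)
    (h2 : Integrable (fun x => om k x * a x ^ 2)) :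
    (∫ x, a x) ^ 2 ≤ (∫ x, 1 / om k x) * ∫ x, om k x * a x ^ 2 := by
  have hB : 0 < ∫ x, 1 / om k x := by
    rw [integral_pos_iff_support_of_nonneg (fun ξ => by have := om_pos hk ξ; positivity)
      (om_inv_int hk)]
    have : Function.support (fun ξ => 1 / om k ξ) = univ := by
      ext ξ
      simp only [Function.mem_support, mem_univ, iff_true]
      have := om_pos hk ξ
      positivity
    rw [this]
    simp
  set B := ∫ x, 1 / om k x with hBd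
  set I := ∫ x, a x with hI
  set l := I / B with hl
  -- ∫ om (a - l/om)^2 ≥ 0
  have h3 : 0 ≤ ∫ x, (om k x * a x ^ 2 - 2 * l * a x + l ^ 2 * (1 / om k x)) := by
    apply integral_nonneg
    intro x
    have ho := om_pos hk x
    have e : om k x * a x ^ 2 - 2 * l * a x + l ^ 2 * (1 / om k x) =
        om k x * (a x - l / om k x) ^ 2 := by field_simp; ring
    show 0 ≤ om k x * a x ^ 2 - 2 * l * a x + l ^ 2 * (1 / om k x)
    rw [e]
    positivity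
  have i1 : Integrable (fun x => om k x * a x ^ 2 - 2 * l * a x) := h2.sub (hai.const_mul (2 * l))
  have e1 := integral_add i1 ((om_inv_int hk).const_mul (l ^ 2))
  have e2 := integral_sub h2 (hai.const_mul (2 * l))
  rw [integral_const_mul] at e1 e2
  rw [e1, e2] at h3
  have h4 : l * B = I := by rw [hl]; field_simp
  have h5 : 0 ≤ B * ((∫ x, om k x * a x ^ 2) - 2 * l * I + l ^ 2 * B) := mul_nonneg hB.le h3
  have h6 : B * ((∫ x, om k x * a x ^ 2) - 2 * l * I + l ^ 2 * B) =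
      B * (∫ x, om k x * a x ^ 2) - I ^ 2 := by
    have : B * (2 * l * I) = 2 * I ^ 2 := by rw [← h4]; ring
    have h7 : B * (l ^ 2 * B) = I ^ 2 := by rw [← h4]; ring
    rw [mul_add, mul_sub, this, h7]; ring
  linarith

theorem sup_bound {k : ℝ} (hk : 0 < k) (f : 𝓢(ℝ, ℂ)) (x : ℝ) :
    ‖f x‖ ^ 2 ≤ k ^ (-(3 / 2) : ℝ) * g 0 * (Kin f + k ^ (5 / 2 : ℝ) * ∫ x, ‖f x‖ ^ 2) := by
  have h0 := G_eq hk 0
  rw [mul_zero] at h0
  rw [← h0, ← kin_add]
  have e : G k 0 = ∫ x, 1 / om k x := by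
    unfold G
    congr 1
    funext ξ
    simp
  rw [e]
  have hi : Integrable (fun ξ => om k ξ * ‖𝓕 f ξ‖ ^ 2) := by
    refine ((kin_int (𝓕 f)).add ((sq_int (𝓕 f)).const_mul (k ^ (5 / 2 : ℝ)))).congr ?_
    refine Eventually.of_forall fun ξ => ?_
    simp only [Pi.add_apply]
    unfold om
    ring
  refine le_trans ?_ (cs hk (fun x => norm_nonneg _) (𝓕 f).integrable.norm hi)
  apply pow_le_pow_left₀ (norm_nonneg _)
  have h1 : f x = 𝓕⁻ (𝓕 f : 𝓢(ℝ, ℂ)) x := by rw [FourierPair.fourierInv_fourier_eq]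
  conv_lhs => rw [h1]
  rw [SchwartzMap.fourierInv_coe, Real.fourierInv_eq]
  refine (norm_integral_le_integral_norm _).trans (le_of_eq ?_)
  congr 1
  funext v
  rw [Circle.norm_smul]

/-- one-particle lower bound -/
theorem lower (W : ℝ → ℝ) (hW : ∀ x, 0 ≤ W x) (hWi : Integrable W) :
    ∃ k : ℝ, 0 ≤ k ∧ k ^ (3 / 2 : ℝ) = g 0 * ∫ x, W x ∧
      ∀ f : 𝓢(ℝ, ℂ), (∫ x, ‖f x‖ ^ 2) = 1 →
        -(k ^ (5 / 2 : ℝ)) ≤ Kin f - ∫ x, W x * ‖f x‖ ^ 2 := by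
  have hM : 0 ≤ ∫ x, W x := integral_nonneg hW
  have hkin : ∀ f : 𝓢(ℝ, ℂ), 0 ≤ Kin f := fun f => by
    unfold Kin; apply integral_nonneg; intro ξ; positivity
  have hg0 := g0_pos
  rcases hM.eq_or_lt with h0 | h0
  · refine ⟨0, le_rfl, ?_, ?_⟩
    · rw [← h0, Real.zero_rpow (by norm_num), mul_zero]
    · intro f hf
      have h1 : W =ᵐ[volume] 0 := (integral_eq_zero_iff_of_nonneg hW hWi).1 h0.symm
      have h2 : ∫ x, W x * ‖f x‖ ^ 2 = 0 := by
        rw [integral_eq_zero_of_ae]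
        filter_upwards [h1] with x hx
        rw [hx]; simp
      rw [h2, Real.zero_rpow (by norm_num)]
      have := hkin f
      linarith
  · set M := ∫ x, W x with hMd
    have hgm : 0 < g 0 * M := by positivity
    set k := (g 0 * M) ^ (2 / 3 : ℝ) with hk
    have hkp : 0 < k := by positivity
    have e1 : k ^ (3 / 2 : ℝ) = g 0 * M := by
      rw [hk, ← Real.rpow_mul hgm.le]; norm_num
    refine ⟨k, hkp.le, e1, ?_⟩
    intro f hf
    have hs : ∀ x, ‖f x‖ ^ 2 ≤ (1 / M) * (Kin f + k ^ (5 / 2 : ℝ)) := by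
      intro x
      have := sup_bound hkp f x
      rw [hf, mul_one, Real.rpow_neg hkp.le, e1] at this
      have e2 : (g 0 * M)⁻¹ * g 0 = 1 / M := by field_simp
      rwa [e2] at this
    have h3 : ∫ x, W x * ‖f x‖ ^ 2 ≤ ∫ x, W x * ((1 / M) * (Kin f + k ^ (5 / 2 : ℝ))) := by
      apply integral_mono_of_nonneg
      · exact Eventually.of_forall fun x => mul_nonneg (hW x) (by positivity)
      · exact hWi.mul_const _
      · exact Eventually.of_forall fun x => mul_le_mul_of_nonneg_left (hs x) (hW x)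
    rw [integral_mul_const] at h3
    have e3 : M * (1 / M * (Kin f + k ^ (5 / 2 : ℝ))) = Kin f + k ^ (5 / 2 : ℝ) := by field_simp
    rw [e3] at h3
    linarith

end H158.TD
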