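import Pool.Agent.H158.TD3
import Pool.Agent.H158.TD4

set_option autoImplicit false
open MeasureTheory Real Set Filter Topology
open scoped FourierTransform SchwartzMap ContDiff

namespace H158.TD

theorem cexp_val (v x : ℝ) : ((𝐞 (v * x) : Circle) : ℂ) =
    (cos (2 * π * (v * x)) : ℂ) + (sin (2 * π * (v * x)) : ℂ) * Complex.I := by
  rw [Real.fourierChar_apply]
  rw [show ((2 * π * (v * x) : ℝ) : ℂ) * Complex.I = ((2 * π * (v * x) : ℝ) : ℂ) * Complex.I from rfl,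
    Complex.exp_mul_I]
  push_cast
  rfl

theorem finv_val (h : 𝓢(ℝ, ℂ)) (x : ℝ) : (𝓕⁻ h : 𝓢(ℝ, ℂ)) x = ∫ v, 𝐞 (v * x) • h v := by
  rw [SchwartzMap.fourierInv_coe, Real.fourierInv_eq']
  congr 1
  funext v
  simp [Circle.smul_def, Real.fourierChar_apply]
  left
  congr 1
  ring

theorem finv_parity (h : 𝓢(ℝ, ℂ)) (σ : ℂ) (hσ : ∀ v, h (-v) = σ * h v) (x : ℝ) :
    (𝓕⁻ h : 𝓢(ℝ, ℂ)) (-x) = σ * (𝓕⁻ h : 𝓢(ℝ, ℂ)) x := by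
  rw [finv_val, finv_val, ← integral_neg_eq_self (fun v => 𝐞 (v * -x) • h v), ← integral_const_mul]
  congr 1
  funext v
  rw [hσ, neg_mul_neg]
  simp only [Circle.smul_def, smul_eq_mul]
  ring

/-- the Schwartz function with Fourier transform `rr` -/
noncomputable def hh (n : ℕ) {k : ℝ} (hk : 0 < k) {c : ℝ → ℝ} (hc : ContDiff ℝ ∞ c) : 𝓢(ℝ, ℂ) :=
  ((rr_supp n k c).comp_left (g := ((↑) : ℝ → ℂ)) Complex.ofReal_zero).toSchwartzMap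
    (Complex.ofRealCLM.contDiff.comp (rr_smooth n hk hc))

theorem hh_apply (n : ℕ) {k : ℝ} (hk : 0 < k) {c : ℝ → ℝ} (hc : ContDiff ℝ ∞ c) (ξ : ℝ) :
    hh n hk hc ξ = (rr n k c ξ : ℂ) := rfl

theorem rr_parity (n : ℕ) (k : ℝ) {c : ℝ → ℝ} {σ : ℝ} (hσ : ∀ x, c (-x) = σ * c x) (ξ : ℝ) :
    rr n k c (-ξ) = σ * rr n k c ξ := by
  unfold rr
  rw [eta_neg, hσ, om_neg]
  ring

theorem rr_mul_int (n : ℕ) {k : ℝ} (hk : 0 < k) {c : ℝ → ℝ} (hc : ContDiff ℝ ∞ c) {b : ℝ → ℝ}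
    (hb : Continuous b) : Integrable (fun v => rr n k c v * b v) :=
  ((rr_smooth n hk hc).continuous.mul hb).integrable_of_hasCompactSupport
    ((rr_supp n k c).mul_right)

theorem val_formula (n : ℕ) {k : ℝ} (hk : 0 < k) {c : ℝ → ℝ} (hc : ContDiff ℝ ∞ c) (x : ℝ) :
    (𝓕⁻ (hh n hk hc) : 𝓢(ℝ, ℂ)) x = ((∫ v, rr n k c v * cos (2 * π * (v * x)) : ℝ) : ℂ) +
      ((∫ v, rr n k c v * sin (2 * π * (v * x)) : ℝ) : ℂ) * Complex.I := by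
  rw [finv_val, ← integral_complex_ofReal, ← integral_complex_ofReal, ← integral_mul_const,
    ← integral_add]
  · congr 1
    funext v
    rw [hh_apply, Circle.smul_def, cexp_val, smul_eq_mul]
    push_cast
    ring
  · exact (rr_mul_int n hk hc (by fun_prop)).ofReal
  · exact ((rr_mul_int n hk hc (by fun_prop)).ofReal).mul_const _

theorem odd_int' {f : ℝ → ℝ} (h : ∀ x, f (-x) = -f x) : ∫ x, f x = 0 := by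
  have h1 : ∫ x, f (-x) = ∫ x, f x := integral_neg_eq_self f volume
  have h2 : ∫ x, f (-x) = -∫ x, f x := by rw [← integral_neg]; congr 1; funext x; exact h x
  linarith

theorem trial_core {k L : ℝ} (hk : 0 < k) {c : ℝ → ℝ} (hc : ContDiff ℝ ∞ c) (hb : ∀ x, |c x| ≤ 1)
    {σ : ℝ} (hσ : ∀ x, c (-x) = σ * c x) (hs : |σ| = 1)
    (hv : ∀ n, ‖(𝓕⁻ (hh n hk hc) : 𝓢(ℝ, ℂ)) (L / 2)‖ ^ 2 = (∫ v, rr n k c v * c v) ^ 2)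
    (hA : 1 < 2 * ∫ ξ, c ξ ^ 2 / om k ξ) :
    ∃ f : 𝓢(ℝ, ℂ), (∀ x, f (-x) = (σ : ℂ) * f x) ∧ (∀ ξ, 𝓕 f (-ξ) = (σ : ℂ) * 𝓕 f ξ) ∧
      f (L / 2) ≠ 0 ∧
      Kin f + k ^ (5 / 2 : ℝ) * ∫ x, ‖f x‖ ^ 2 < ‖f (L / 2)‖ ^ 2 + ‖f (-(L / 2))‖ ^ 2 := by
  obtain ⟨n, hn⟩ := trial_exists hk hc hb hA
  have hpar : ∀ ξ, hh n hk hc (-ξ) = (σ : ℂ) * hh n hk hc ξ := by
    intro ξ
    rw [hh_apply, hh_apply, rr_parity n k hσ]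
    push_cast
    rfl
  have hF : 𝓕 (𝓕⁻ (hh n hk hc) : 𝓢(ℝ, ℂ)) = hh n hk hc := FourierInvPair.fourier_fourierInv_eq _
  have hp2 := finv_parity (hh n hk hc) (σ : ℂ) hpar
  have hnorm : ‖(𝓕⁻ (hh n hk hc) : 𝓢(ℝ, ℂ)) (-(L / 2))‖ = ‖(𝓕⁻ (hh n hk hc) : 𝓢(ℝ, ℂ)) (L / 2)‖ := by
    rw [hp2, norm_mul, Complex.norm_real, Real.norm_eq_abs, hs, one_mul]
  have hmain : Kin (𝓕⁻ (hh n hk hc)) + k ^ (5 / 2 : ℝ) * ∫ x, ‖(𝓕⁻ (hh n hk hc) : 𝓢(ℝ, ℂ)) x‖ ^ 2 <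
      ‖(𝓕⁻ (hh n hk hc) : 𝓢(ℝ, ℂ)) (L / 2)‖ ^ 2 + ‖(𝓕⁻ (hh n hk hc) : 𝓢(ℝ, ℂ)) (-(L / 2))‖ ^ 2 := by
    rw [hnorm, hv n, ← kin_add, hF]
    have e : ∫ ξ, om k ξ * ‖hh n hk hc ξ‖ ^ 2 = ∫ ξ, om k ξ * rr n k c ξ ^ 2 := by
      congr 1
      funext ξ
      rw [hh_apply, Complex.norm_real, Real.norm_eq_abs, sq_abs]
    rw [e]
    linarith
  have hF2 : ∀ ξ, 𝓕 (𝓕⁻ (hh n hk hc) : 𝓢(ℝ, ℂ)) (-ξ) = (σ : ℂ) * 𝓕 (𝓕⁻ (hh n hk hc) : 𝓢(ℝ, ℂ)) ξ := by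
    intro ξ
    rw [hF]
    exact hpar ξ
  clear hF hpar
  generalize (𝓕⁻ (hh n hk hc) : 𝓢(ℝ, ℂ)) = f at hp2 hnorm hmain hF2
  refine ⟨f, hp2, hF2, ?_, hmain⟩
  intro h0
  rw [hnorm, h0] at hmain
  have h1 : 0 ≤ Kin f := by
    unfold Kin; apply integral_nonneg; intro ξ; positivity
  have h3 : 0 ≤ ∫ x, ‖f x‖ ^ 2 := integral_nonneg fun x => by positivity
  have h2 : 0 ≤ k ^ (5 / 2 : ℝ) * ∫ x, ‖f x‖ ^ 2 := mul_nonneg (by positivity) h3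
  rw [norm_zero] at hmain
  linarith

theorem trial_even {k L : ℝ} (hk : 0 < k) (h : 1 < k ^ (-(3 / 2) : ℝ) * (g 0 + g (k * L))) :
    ∃ f : 𝓢(ℝ, ℂ), (∀ x, f (-x) = ((1:ℝ) : ℂ) * f x) ∧ (∀ ξ, 𝓕 f (-ξ) = ((1:ℝ) : ℂ) * 𝓕 f ξ) ∧
      f (L / 2) ≠ 0 ∧
      Kin f + k ^ (5 / 2 : ℝ) * ∫ x, ‖f x‖ ^ 2 < ‖f (L / 2)‖ ^ 2 + ‖f (-(L / 2))‖ ^ 2 := by
  have hc : ContDiff ℝ ∞ (fun ξ : ℝ => cos (π * L * ξ)) := by fun_prop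
  have hσ : ∀ x, (fun ξ : ℝ => cos (π * L * ξ)) (-x) = 1 * (fun ξ : ℝ => cos (π * L * ξ)) x := by
    intro x; simp
  refine trial_core hk hc (fun x => abs_cos_le_one _) hσ (by simp) ?_ (by rw [A_cos hk]; exact h)
  intro n
  rw [val_formula]
  have h0 : ∫ v, rr n k (fun ξ : ℝ => cos (π * L * ξ)) v * sin (2 * π * (v * (L / 2))) = 0 := by
    apply odd_int'
    intro v
    rw [rr_parity n k hσ, show 2 * π * (-v * (L / 2)) = -(2 * π * (v * (L / 2))) by ring, Real.sin_neg]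
    ring
  rw [h0, Complex.ofReal_zero, zero_mul, add_zero, Complex.norm_real, Real.norm_eq_abs, sq_abs]
  congr 2
  funext v
  congr 2
  ring

theorem trial_odd {k L : ℝ} (hk : 0 < k) (h : 1 < k ^ (-(3 / 2) : ℝ) * (g 0 - g (k * L))) :
    ∃ f : 𝓢(ℝ, ℂ), (∀ x, f (-x) = ((-1:ℝ) : ℂ) * f x) ∧ (∀ ξ, 𝓕 f (-ξ) = ((-1:ℝ) : ℂ) * 𝓕 f ξ) ∧
      f (L / 2) ≠ 0 ∧
      Kin f + k ^ (5 / 2 : ℝ) * ∫ x, ‖f x‖ ^ 2 < ‖f (L / 2)‖ ^ 2 + ‖f (-(L / 2))‖ ^ 2 := by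
  have hc : ContDiff ℝ ∞ (fun ξ : ℝ => sin (π * L * ξ)) := by fun_prop
  have hσ : ∀ x, (fun ξ : ℝ => sin (π * L * ξ)) (-x) = (-1) * (fun ξ : ℝ => sin (π * L * ξ)) x := by
    intro x; simp
  refine trial_core hk hc (fun x => abs_sin_le_one _) hσ (by simp) ?_ (by rw [A_sin hk]; exact h)
  intro n
  rw [val_formula]
  have h0 : ∫ v, rr n k (fun ξ : ℝ => sin (π * L * ξ)) v * cos (2 * π * (v * (L / 2))) = 0 := by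
    apply odd_int'
    intro v
    rw [rr_parity n k hσ, show 2 * π * (-v * (L / 2)) = -(2 * π * (v * (L / 2))) by ring, Real.cos_neg]
    ring
  rw [h0, Complex.ofReal_zero, zero_add, norm_mul, Complex.norm_real, Complex.norm_I, mul_one,
    Real.norm_eq_abs, sq_abs]
  congr 2
  funext v
  congr 2
  ring

end H158.TD
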