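import Pool.Agent.H158.TD4

set_option autoImplicit false
open MeasureTheory Real Set Filter Topology
open scoped FourierTransform SchwartzMap ContDiff

namespace H158.TD

/-- two narrow wells of mass one -/
noncomputable def WW (a ε : ℝ) (x : ℝ) : ℝ :=
  (2 * ε)⁻¹ * (indicator (Icc (a - ε) (a + ε)) (fun _ => (1:ℝ)) x +
    indicator (Icc (-a - ε) (-a + ε)) (fun _ => (1:ℝ)) x)

theorem WW_nonneg {a ε : ℝ} (hε : 0 < ε) (x : ℝ) : 0 ≤ WW a ε x := by
  unfold WW
  apply mul_nonneg (by positivity)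
  apply add_nonneg <;> exact indicator_nonneg (fun _ _ => zero_le_one) _

theorem ind_int (a b : ℝ) : Integrable (indicator (Icc a b) (fun _ => (1:ℝ))) :=
  (integrable_indicator_iff measurableSet_Icc).2
    (integrableOn_const (by simp) (by simp))

theorem WW_int (a ε : ℝ) : Integrable (WW a ε) :=
  ((ind_int _ _).add (ind_int _ _)).const_mul _

theorem WW_mass {a ε : ℝ} (hε : 0 < ε) : ∫ x, WW a ε x = 2 := by
  unfold WW
  rw [integral_const_mul, integral_add (ind_int _ _) (ind_int _ _), integral_indicator measurableSet_Icc,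
    integral_indicator measurableSet_Icc]
  simp only [integral_const, MeasurableSet.univ, measureReal_restrict_apply, univ_inter,
    Real.volume_real_Icc, smul_eq_mul, mul_one]
  rw [max_eq_left (by linarith), max_eq_left (by linarith)]
  field_simp
  ring

theorem WW_even {a ε : ℝ} (x : ℝ) : WW a ε (-x) = WW a ε x := by
  unfold WW
  have h1 : (-x ∈ Icc (a - ε) (a + ε)) ↔ (x ∈ Icc (-a - ε) (-a + ε)) := by
    simp only [mem_Icc]; constructor <;> rintro ⟨h1, h2⟩ <;> constructor <;> linarith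
  have h2 : (-x ∈ Icc (-a - ε) (-a + ε)) ↔ (x ∈ Icc (a - ε) (a + ε)) := by
    simp only [mem_Icc]; constructor <;> rintro ⟨h1, h2⟩ <;> constructor <;> linarith
  have e1 : indicator (Icc (a - ε) (a + ε)) (fun _ => (1:ℝ)) (-x) =
      indicator (Icc (-a - ε) (-a + ε)) (fun _ => (1:ℝ)) x := by
    by_cases h : -x ∈ Icc (a - ε) (a + ε)
    · rw [indicator_of_mem h, indicator_of_mem (h1.1 h)]
    · rw [indicator_of_notMem h, indicator_of_notMem (fun h' => h (h1.2 h'))]
  have e2 : indicator (Icc (-a - ε) (-a + ε)) (fun _ => (1:ℝ)) (-x) =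
      indicator (Icc (a - ε) (a + ε)) (fun _ => (1:ℝ)) x := by
    by_cases h : -x ∈ Icc (-a - ε) (-a + ε)
    · rw [indicator_of_mem h, indicator_of_mem (h2.1 h)]
    · rw [indicator_of_notMem h, indicator_of_notMem (fun h' => h (h2.2 h'))]
  rw [e1, e2, add_comm]

/-- the integral of a bounded continuous function against the indicator of a short interval -/
theorem ind_lower (F : ℝ → ℝ) (hF : Continuous F) (b η : ℝ) (hη : 0 < η) :
    ∃ ε0 > 0, ∀ ε, 0 < ε → ε < ε0 →
      F b - η ≤ (2 * ε)⁻¹ * ∫ x, indicator (Icc (b - ε) (b + ε)) (fun _ => (1:ℝ)) x * F x := by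
  obtain ⟨ε0, h0, h1⟩ := Metric.continuousAt_iff.1 (hF.continuousAt (x := b)) η hη
  refine ⟨ε0, h0, fun ε hε hlt => ?_⟩
  have e1 : ∫ x, indicator (Icc (b - ε) (b + ε)) (fun _ => (1:ℝ)) x * F x =
      ∫ x in Icc (b - ε) (b + ε), F x := by
    rw [← integral_indicator measurableSet_Icc]
    congr 1
    funext x
    by_cases h : x ∈ Icc (b - ε) (b + ε)
    · rw [indicator_of_mem h, indicator_of_mem h, one_mul]
    · rw [indicator_of_notMem h, indicator_of_notMem h, zero_mul]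
  have e2 : (F b - η) * (2 * ε) ≤ ∫ x in Icc (b - ε) (b + ε), F x := by
    have h2 : ∫ x in Icc (b - ε) (b + ε), (F b - η) = (F b - η) * (2 * ε) := by
      simp only [integral_const, MeasurableSet.univ, measureReal_restrict_apply, univ_inter,
        Real.volume_real_Icc, smul_eq_mul]
      rw [max_eq_left (by linarith)]
      ring
    rw [← h2]
    apply setIntegral_mono_on _ _ measurableSet_Icc
    · intro x hx
      have h3 : dist x b < ε0 := by
        rw [Real.dist_eq, abs_lt]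
        constructor <;> linarith [hx.1, hx.2]
      have h4 := h1 h3
      rw [Real.dist_eq, abs_lt] at h4
      linarith [h4.1]
    · exact integrableOn_const (by simp) (by simp)
    · exact hF.continuousOn.integrableOn_Icc
  rw [e1, ← div_eq_inv_mul, le_div_iff₀ (by positivity)]
  exact e2

theorem WW_lower (f : 𝓢(ℝ, ℂ)) (a B : ℝ) (h : B < ‖f a‖ ^ 2 + ‖f (-a)‖ ^ 2) :
    ∃ ε0 > 0, ∀ ε, 0 < ε → ε < ε0 → B ≤ ∫ x, WW a ε x * ‖f x‖ ^ 2 := by
  set η := (‖f a‖ ^ 2 + ‖f (-a)‖ ^ 2 - B) / 2 with hη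
  have hη0 : 0 < η := by rw [hη]; linarith
  have hFc : Continuous fun x => ‖f x‖ ^ 2 := f.continuous.norm.pow 2
  obtain ⟨ε1, h1, H1⟩ := ind_lower _ hFc a η hη0
  obtain ⟨ε2, h2, H2⟩ := ind_lower _ hFc (-a) η hη0
  refine ⟨min ε1 ε2, lt_min h1 h2, fun ε hε hlt => ?_⟩
  have a1 := H1 ε hε (hlt.trans_le (min_le_left _ _))
  have a2 := H2 ε hε (hlt.trans_le (min_le_right _ _))
  have hi : ∀ b, Integrable (fun x => indicator (Icc (b - ε) (b + ε)) (fun _ => (1:ℝ)) x * ‖f x‖ ^ 2) := by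
    intro b
    refine (sq_int f).bdd_mul (c := 1) ?_ ?_
    · exact (measurable_const.indicator measurableSet_Icc).aestronglyMeasurable
    · refine Eventually.of_forall fun x => ?_
      rw [Real.norm_of_nonneg (indicator_nonneg (fun _ _ => zero_le_one) _)]
      exact indicator_le_self' (fun _ _ => zero_le_one) x
  have e : ∫ x, WW a ε x * ‖f x‖ ^ 2 =
      (2 * ε)⁻¹ * (∫ x, indicator (Icc (a - ε) (a + ε)) (fun _ => (1:ℝ)) x * ‖f x‖ ^ 2) +
      (2 * ε)⁻¹ * (∫ x, indicator (Icc (-a - ε) (-a + ε)) (fun _ => (1:ℝ)) x * ‖f x‖ ^ 2) := by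
    rw [← mul_add, ← integral_add (hi a) (hi (-a)), ← integral_const_mul]
    congr 1
    funext x
    unfold WW
    ring
  rw [e]
  linarith

theorem W_mul_int (W : ℝ → ℝ) (hW : Integrable W) (f : 𝓢(ℝ, ℂ)) :
    Integrable (fun x => W x * ‖f x‖ ^ 2) := by
  obtain ⟨C0, hC0'⟩ := f.decay 0 0
  refine hW.mul_bdd (c := C0 ^ 2) (f.continuous.norm.pow 2).aestronglyMeasurable ?_
  refine Eventually.of_forall fun x => ?_
  have a2 := hC0'.2 x
  rw [norm_iteratedFDeriv_zero, pow_zero, one_mul] at a2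
  rw [norm_pow, norm_norm]
  exact pow_le_pow_left₀ (norm_nonneg _) a2 2

/-- parallelogram decoupling -/
theorem decouple (w : ℝ → ℝ) (hw : ∀ x, w (-x) = w x) (u v : ℝ → ℂ) (hu : ∀ x, u (-x) = -u x)
    (hv : ∀ x, v (-x) = v x) (a b : ℂ)
    (h1 : Integrable fun x => w x * ‖a * u x + b * v x‖ ^ 2)
    (h2 : Integrable fun x => w x * ‖u x‖ ^ 2) (h3 : Integrable fun x => w x * ‖v x‖ ^ 2) :
    ∫ x, w x * ‖a * u x + b * v x‖ ^ 2 =
      ‖a‖ ^ 2 * (∫ x, w x * ‖u x‖ ^ 2) + ‖b‖ ^ 2 * ∫ x, w x * ‖v x‖ ^ 2 := by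
  have e1 : ∫ x, w (-x) * ‖a * u (-x) + b * v (-x)‖ ^ 2 = ∫ x, w x * ‖a * u x + b * v x‖ ^ 2 :=
    integral_neg_eq_self (fun x => w x * ‖a * u x + b * v x‖ ^ 2) volume
  have h1' : Integrable fun x => w (-x) * ‖a * u (-x) + b * v (-x)‖ ^ 2 := h1.comp_neg
  have e2 : ∫ x, (w x * ‖a * u x + b * v x‖ ^ 2 + w (-x) * ‖a * u (-x) + b * v (-x)‖ ^ 2) =
      ∫ x, (2 * ‖a‖ ^ 2 * (w x * ‖u x‖ ^ 2) + 2 * ‖b‖ ^ 2 * (w x * ‖v x‖ ^ 2)) := by
    congr 1
    funext x
    rw [hw, hu, hv]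
    have hp := parallelogram_law_with_norm ℝ (b * v x) (a * u x)
    have e3 : a * -u x + b * v x = b * v x - a * u x := by ring
    have e4 : a * u x + b * v x = b * v x + a * u x := by ring
    rw [e3, e4, ← mul_add]
    have e5 : ‖b * v x + a * u x‖ ^ 2 + ‖b * v x - a * u x‖ ^ 2 =
        2 * (‖b * v x‖ ^ 2 + ‖a * u x‖ ^ 2) := by
      exact hp
    rw [e5, norm_mul, norm_mul]
    ring
  rw [integral_add h1 h1', e1, integral_add (h2.const_mul _) (h3.const_mul _), integral_const_mul,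
    integral_const_mul] at e2
  linarith

end H158.TD
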