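import Pool.Agent.H158.TD2
import Pool.Agent.H158.TD5
import Pool.Agent.H158.TD6

set_option autoImplicit false
open MeasureTheory Real Set Filter Topology
open scoped FourierTransform SchwartzMap ContDiff

namespace H158.TD

/-- the squared norm -/
noncomputable def Nm (f : 𝓢(ℝ, ℂ)) : ℝ := ∫ x, ‖f x‖ ^ 2

/-- the quadratic form -/
noncomputable def Qf (W : ℝ → ℝ) (f : 𝓢(ℝ, ℂ)) : ℝ := Kin f - ∫ x, W x * ‖f x‖ ^ 2

/-- Rayleigh quotients on a subspace -/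
def US (W : ℝ → ℝ) (V : Submodule ℂ 𝓢(ℝ, ℂ)) : Set ℝ :=
  {u : ℝ | ∃ f ∈ V, Nm f = 1 ∧ u = Qf W f}

/-- the min-max set -/
def TS (W : ℝ → ℝ) (j : ℕ) : Set ℝ :=
  {t : ℝ | ∃ V : Submodule ℂ 𝓢(ℝ, ℂ), Module.finrank ℂ V = j ∧ t = sSup (US W V)}

theorem TS_low {W : ℝ → ℝ} {K : ℝ} (hK : 0 ≤ K) (h : ∀ f, Nm f = 1 → -K ≤ Qf W f) (j : ℕ) :
    ∀ t ∈ TS W j, -K ≤ t := by
  rintro t ⟨V, -, rfl⟩
  by_cases hne : (US W V).Nonempty
  · obtain ⟨u, f, hf, hn, hu⟩ := hne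
    by_cases hb : BddAbove (US W V)
    · exact (h f hn).trans (le_csSup hb ⟨f, hf, hn, rfl⟩)
    · rw [Real.sSup_of_not_bddAbove hb]
      linarith
  · rw [not_nonempty_iff_eq_empty.1 hne, Real.sSup_empty]
    linarith

theorem E_ge {W : ℝ → ℝ} {K : ℝ} (hK : 0 ≤ K) (h : ∀ f, Nm f = 1 → -K ≤ Qf W f) (j : ℕ) :
    -K ≤ sInf (TS W j) := by
  by_cases hne : (TS W j).Nonempty
  · exact le_csInf hne (TS_low hK h j)
  · rw [not_nonempty_iff_eq_empty.1 hne, Real.sInf_empty]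
    linarith

theorem E_le {W : ℝ → ℝ} {K e : ℝ} (hK : 0 ≤ K) (h : ∀ f, Nm f = 1 → -K ≤ Qf W f) {j : ℕ}
    (V : Submodule ℂ 𝓢(ℝ, ℂ)) (hV : Module.finrank ℂ V = j) (hne : ∃ f ∈ V, Nm f = 1)
    (hup : ∀ f ∈ V, Nm f = 1 → Qf W f ≤ -e) : sInf (TS W j) ≤ -e := by
  refine (csInf_le ⟨-K, fun t ht => TS_low hK h j t ht⟩ ⟨V, hV, rfl⟩).trans ?_
  apply csSup_le
  · obtain ⟨f, hf, hn⟩ := hne
    exact ⟨_, f, hf, hn, rfl⟩
  · rintro u ⟨f, hf, hn, rfl⟩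
    exact hup f hf hn

theorem Nm_smul (c : ℂ) (f : 𝓢(ℝ, ℂ)) : Nm (c • f) = ‖c‖ ^ 2 * Nm f := by
  unfold Nm
  rw [← integral_const_mul]
  congr 1
  funext x
  rw [show (c • f) x = c • f x from rfl, norm_smul, mul_pow]

theorem Nm_pos {f : 𝓢(ℝ, ℂ)} {x : ℝ} (hx : f x ≠ 0) : 0 < Nm f := by
  unfold Nm
  rw [integral_pos_iff_support_of_nonneg (fun ξ => by positivity) (sq_int f)]
  have hopen : IsOpen (Function.support fun x => ‖f x‖ ^ 2) :=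
    (f.continuous.norm.pow 2).isOpen_support
  exact hopen.measure_pos volume ⟨x, by
    simp only [Function.mem_support]
    have := norm_pos_iff.2 hx
    positivity⟩

theorem exists_unit {V : Submodule ℂ 𝓢(ℝ, ℂ)} {f : 𝓢(ℝ, ℂ)} (hf : f ∈ V) {x : ℝ} (hx : f x ≠ 0) :
    ∃ f ∈ V, Nm f = 1 := by
  have h := Nm_pos hx
  refine ⟨((√(Nm f))⁻¹ : ℂ) • f, V.smul_mem _ hf, ?_⟩
  rw [Nm_smul, norm_inv, Complex.norm_real, Real.norm_of_nonneg (Real.sqrt_nonneg _), inv_pow,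
    Real.sq_sqrt h.le, inv_mul_cancel₀ h.ne']

section pair

variable {fo fe : 𝓢(ℝ, ℂ)} (ho : ∀ x, fo (-x) = -fo x) (he : ∀ x, fe (-x) = fe x)
  (ho' : ∀ x, 𝓕 fo (-x) = -𝓕 fo x) (he' : ∀ x, 𝓕 fe (-x) = 𝓕 fe x)

include ho he in
theorem Nm_pair (a b : ℂ) : Nm (a • fo + b • fe) = ‖a‖ ^ 2 * Nm fo + ‖b‖ ^ 2 * Nm fe := by
  have h := decouple (fun _ => 1) (fun _ => rfl) fo fe ho he a b
    (by simpa using sq_int (a • fo + b • fe)) (by simpa using sq_int fo) (by simpa using sq_int fe)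
  simpa [Nm] using h

include ho he ho' he' in
theorem Qf_pair {W : ℝ → ℝ} (hW : ∀ x, W (-x) = W x) (hWi : Integrable W) (a b : ℂ) :
    Qf W (a • fo + b • fe) = ‖a‖ ^ 2 * Qf W fo + ‖b‖ ^ 2 * Qf W fe := by
  have h1 := decouple W hW fo fe ho he a b
    (by simpa using W_mul_int W hWi (a • fo + b • fe)) (W_mul_int W hWi fo) (W_mul_int W hWi fe)
  have eF : (𝓕 (a • fo + b • fe) : 𝓢(ℝ, ℂ)) = a • (𝓕 fo : 𝓢(ℝ, ℂ)) + b • (𝓕 fe : 𝓢(ℝ, ℂ)) := by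
    rw [FourierTransform.fourier_add, FourierTransform.fourier_smul,
      FourierTransform.fourier_smul]
  have h3 : Kin (a • fo + b • fe) = ‖a‖ ^ 2 * Kin fo + ‖b‖ ^ 2 * Kin fe := by
    unfold Kin
    rw [eF]
    generalize (𝓕 fo : 𝓢(ℝ, ℂ)) = Fo at ho'
    generalize (𝓕 fe : 𝓢(ℝ, ℂ)) = Fe at he'
    have h2 := decouple (fun ξ => (2 * π * |ξ|) ^ (5 / 2 : ℝ)) (fun x => by rw [abs_neg])
      (fun x => Fo x) (fun x => Fe x) ho' he' a b (kin_int (a • Fo + b • Fe)) (kin_int Fo) (kin_int Fe)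
    exact h2
  have h4 : ∫ x, W x * ‖(a • fo + b • fe) x‖ ^ 2 =
      ‖a‖ ^ 2 * (∫ x, W x * ‖fo x‖ ^ 2) + ‖b‖ ^ 2 * ∫ x, W x * ‖fe x‖ ^ 2 := by
    rw [← h1]
    rfl
  unfold Qf
  rw [h3, h4]
  ring

end pair

theorem main_exists : ∃ W : ℝ → ℝ, (∀ x, 0 ≤ W x) ∧ Integrable W ∧
    g 0 * ∫ x, W x < (max 0 (-(sInf (TS W 1)))) ^ (3 / 5 : ℝ) +
      (max 0 (-(sInf (TS W 2)))) ^ (3 / 5 : ℝ) := by
  obtain ⟨ke, ko, L, hke, hko, hle, h1, h2, h3⟩ := select g_neg_pos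
  obtain ⟨fe, he, he', hen, hem⟩ := trial_even hke h2
  obtain ⟨fo, ho, ho', hon, hom⟩ := trial_odd hko h1
  simp only [Complex.ofReal_one, one_mul] at he he'
  simp only [Complex.ofReal_neg, Complex.ofReal_one, neg_mul, one_mul] at ho ho'
  obtain ⟨ε1, p1, H1⟩ := WW_lower fe (L / 2) _ hem
  obtain ⟨ε2, p2, H2⟩ := WW_lower fo (L / 2) _ hom
  set ε := min ε1 ε2 / 2 with hε
  have hmin : 0 < min ε1 ε2 := lt_min p1 p2
  have hε0 : 0 < ε := by rw [hε]; linarith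
  have hε1 : ε < ε1 := by have := min_le_left ε1 ε2; rw [hε]; linarith
  have hε2 : ε < ε2 := by have := min_le_right ε1 ε2; rw [hε]; linarith
  have K1 := H1 ε hε0 hε1
  have K2 := H2 ε hε0 hε2
  refine ⟨WW (L / 2) ε, WW_nonneg hε0, WW_int _ _, ?_⟩
  rw [WW_mass hε0]
  set W := WW (L / 2) ε with hWd
  have hQe : Qf W fe ≤ -(ke ^ (5 / 2 : ℝ) * Nm fe) := by unfold Qf Nm; linarith
  have hQo : Qf W fo ≤ -(ko ^ (5 / 2 : ℝ) * Nm fo) := by unfold Qf Nm; linarith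
  obtain ⟨k, hk0, hk1, hlow⟩ := lower W (WW_nonneg hε0) (WW_int _ _)
  have hK : 0 ≤ k ^ (5 / 2 : ℝ) := by positivity
  have hlow' : ∀ f, Nm f = 1 → -(k ^ (5 / 2 : ℝ)) ≤ Qf W f := fun f hf => hlow f hf
  -- first level
  have E1 : sInf (TS W 1) ≤ -(ko ^ (5 / 2 : ℝ)) := by
    refine E_le hK hlow' (Submodule.span ℂ {fo}) (finrank_span_singleton ?_) ?_ ?_
    · intro h0
      exact hon (by rw [h0]; rfl)
    · exact exists_unit (Submodule.mem_span_singleton_self fo) hon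
    · intro f hf hn
      obtain ⟨a, rfl⟩ := Submodule.mem_span_singleton.1 hf
      have hN := Nm_pair ho he a 0
      have hQ := Qf_pair ho he ho' he' (W := W) (fun x => WW_even x) (WW_int _ _) a 0
      simp only [zero_smul, add_zero, norm_zero, ne_eq, OfNat.ofNat_ne_zero, not_false_eq_true,
        zero_pow, zero_mul] at hN hQ
      rw [hn] at hN
      rw [hQ]
      have h5 : ‖a‖ ^ 2 * Qf W fo ≤ ‖a‖ ^ 2 * -(ko ^ (5 / 2 : ℝ) * Nm fo) :=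
        mul_le_mul_of_nonneg_left hQo (by positivity)
      have h6 : ‖a‖ ^ 2 * -(ko ^ (5 / 2 : ℝ) * Nm fo) = -(ko ^ (5 / 2 : ℝ)) := by
        calc ‖a‖ ^ 2 * -(ko ^ (5 / 2 : ℝ) * Nm fo) = -(ko ^ (5 / 2 : ℝ)) * (‖a‖ ^ 2 * Nm fo) := by ring
          _ = _ := by rw [← hN, mul_one]
      linarith
  have hli : LinearIndependent ℂ ![fo, fe] := by
    rw [LinearIndependent.pair_iff]
    intro a b hab
    have h5 : ∀ x, a * fo x + b * fe x = 0 := by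
      intro x
      have := congrArg (fun f : 𝓢(ℝ, ℂ) => f x) hab
      simpa using this
    have h6 := h5 (L / 2)
    have h7 := h5 (-(L / 2))
    rw [ho, he] at h7
    have h8 : a * fo (L / 2) = 0 := by linear_combination (h6 - h7) / 2
    have h9 : b * fe (L / 2) = 0 := by linear_combination (h6 + h7) / 2
    exact ⟨(mul_eq_zero.1 h8).resolve_right hon, (mul_eq_zero.1 h9).resolve_right hen⟩
  have E2 : sInf (TS W 2) ≤ -(ke ^ (5 / 2 : ℝ)) := by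
    refine E_le hK hlow' (Submodule.span ℂ (range ![fo, fe])) ?_ ?_ ?_
    · rw [finrank_span_eq_card hli]
      rfl
    · exact exists_unit (Submodule.subset_span ⟨0, rfl⟩) hon
    · intro f hf hn
      rw [Matrix.range_cons, Matrix.range_cons, Matrix.range_empty, union_empty,
        singleton_union, Submodule.mem_span_pair] at hf
      obtain ⟨a, b, rfl⟩ := hf
      have hN := Nm_pair ho he a b
      have hQ := Qf_pair ho he ho' he' (W := W) (fun x => WW_even x) (WW_int _ _) a b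
      rw [hn] at hN
      rw [hQ]
      have h5 : ‖a‖ ^ 2 * Qf W fo ≤ ‖a‖ ^ 2 * -(ko ^ (5 / 2 : ℝ) * Nm fo) :=
        mul_le_mul_of_nonneg_left hQo (by positivity)
      have h6 : ‖b‖ ^ 2 * Qf W fe ≤ ‖b‖ ^ 2 * -(ke ^ (5 / 2 : ℝ) * Nm fe) :=
        mul_le_mul_of_nonneg_left hQe (by positivity)
      have h7 : ke ^ (5 / 2 : ℝ) ≤ ko ^ (5 / 2 : ℝ) := Real.rpow_le_rpow hke.le hle (by norm_num)
      have h8 : 0 ≤ ‖a‖ ^ 2 * Nm fo := mul_nonneg (by positivity) (Nm_pos hon).le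
      have h9 : ke ^ (5 / 2 : ℝ) * (‖a‖ ^ 2 * Nm fo) ≤ ko ^ (5 / 2 : ℝ) * (‖a‖ ^ 2 * Nm fo) :=
        mul_le_mul_of_nonneg_right h7 h8
      have h10 : ke ^ (5 / 2 : ℝ) * (‖a‖ ^ 2 * Nm fo) + ke ^ (5 / 2 : ℝ) * (‖b‖ ^ 2 * Nm fe) =
          ke ^ (5 / 2 : ℝ) := by rw [← mul_add, ← hN, mul_one]
      nlinarith
  have hpow : ∀ {κ E : ℝ}, 0 < κ → E ≤ -(κ ^ (5 / 2 : ℝ)) →
      κ ^ (3 / 2 : ℝ) ≤ (max 0 (-E)) ^ (3 / 5 : ℝ) := by
    intro κ E hκ hE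
    have h5 : κ ^ (3 / 2 : ℝ) = (κ ^ (5 / 2 : ℝ)) ^ (3 / 5 : ℝ) := by
      rw [← Real.rpow_mul hκ.le]; norm_num
    rw [h5]
    apply Real.rpow_le_rpow (by positivity) _ (by norm_num)
    exact (le_max_right _ _).trans' (by linarith)
  have F1 := hpow hko E1
  have F2 := hpow hke E2
  linarith

theorem hyp_holds : ∀ W : ℝ → ℝ, (∀ x, 0 ≤ W x) → Integrable W →
    (max 0 (-(sInf (TS W 1)))) ^ (3 / 5 : ℝ) ≤ g 0 * ∫ x, W x := by
  intro W hW hWi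
  obtain ⟨k, hk0, hk1, hlow⟩ := lower W hW hWi
  have hK : 0 ≤ k ^ (5 / 2 : ℝ) := by positivity
  have hlow' : ∀ f, Nm f = 1 → -(k ^ (5 / 2 : ℝ)) ≤ Qf W f := fun f hf => hlow f hf
  have h := E_ge hK hlow' 1
  rw [← hk1]
  have h5 : k ^ (3 / 2 : ℝ) = (k ^ (5 / 2 : ℝ)) ^ (3 / 5 : ℝ) := by
    rw [← Real.rpow_mul hk0]; norm_num
  rw [h5]
  apply Real.rpow_le_rpow (le_max_left _ _) _ (by norm_num)
  exact max_le hK (by linarith)

end H158.TD
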