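import Mathlib
import Pool.Agent.H158.TWBase

/-!
# The limit functional `(1/2) ∫ ρ² - ∫ ρ / |x|` and trial densities
-/

set_option autoImplicit false

open MeasureTheory Filter Topology Set
open scoped ENNReal NNReal ContDiff

namespace Pool.Agent.H158.TW

/-- the minimiser of the limit functional -/
noncomputable def rho0 (x : E3) : ℝ := max (‖x‖⁻¹ - 1) 0

noncomputable def lam0 : ℝ := ∫ x, rho0 x

/-- the limit functional -/
noncomputable def FF (ρ : E3 → ℝ) : ℝ := 1 / 2 * (∫ x, ρ x ^ 2) - ∫ x, ‖x‖⁻¹ * ρ x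

lemma rho0_nonneg (x : E3) : 0 ≤ rho0 x := le_max_right _ _

lemma rho0_meas : Measurable rho0 := by
  unfold rho0
  exact (measurable_norm.inv.sub_const 1).max measurable_const

lemma rho0_zero {x : E3} (h : 1 ≤ ‖x‖) : rho0 x = 0 := by
  unfold rho0
  apply max_eq_right
  have : ‖x‖⁻¹ ≤ 1 := inv_le_one_of_one_le₀ h
  linarith

lemma K2_ball {x : E3} (h : ‖x‖ < 1) : K2 x = (‖x‖⁻¹) ^ 2 := by
  unfold K2
  rw [indicator_of_mem (by simpa using h), inv_pow]

lemma rho0_lt (x : E3) : rho0 x ≤ ‖x‖⁻¹ := by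
  unfold rho0
  apply max_le
  · linarith
  · positivity

lemma inv_le_sq {x : E3} (h : ‖x‖ < 1) : ‖x‖⁻¹ ≤ (‖x‖⁻¹) ^ 2 := by
  rcases eq_or_ne x 0 with rfl | hx
  · simp
  have hp : 0 < ‖x‖ := norm_pos_iff.mpr hx
  have : 1 ≤ ‖x‖⁻¹ := (one_le_inv₀ hp).2 h.le
  nlinarith

lemma rho0_le (x : E3) : rho0 x ≤ K2 x := by
  by_cases h : ‖x‖ < 1
  · rw [K2_ball h]
    exact (rho0_lt x).trans (inv_le_sq h)
  · rw [rho0_zero (not_lt.mp h)]
    exact K2_nonneg x

lemma rho0_sq_le (x : E3) : rho0 x ^ 2 ≤ K2 x := by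
  by_cases h : ‖x‖ < 1
  · rw [K2_ball h]
    exact pow_le_pow_left₀ (rho0_nonneg x) (rho0_lt x) 2
  · rw [rho0_zero (not_lt.mp h)]
    simpa using K2_nonneg x

lemma rho0_pot_le (x : E3) : ‖x‖⁻¹ * rho0 x ≤ K2 x := by
  by_cases h : ‖x‖ < 1
  · rw [K2_ball h, sq]
    exact mul_le_mul_of_nonneg_left (rho0_lt x) (by positivity)
  · rw [rho0_zero (not_lt.mp h)]
    simpa using K2_nonneg x

lemma rho0_int : Integrable rho0 :=
  Integrable.mono' K2_int rho0_meas.aestronglyMeasurable (ae_of_all _ fun x => by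
    rw [Real.norm_of_nonneg (rho0_nonneg x)]; exact rho0_le x)

lemma rho0_sq_int : Integrable (fun x => rho0 x ^ 2) :=
  Integrable.mono' K2_int (rho0_meas.pow_const 2).aestronglyMeasurable (ae_of_all _ fun x => by
    rw [Real.norm_of_nonneg (sq_nonneg _)]; exact rho0_sq_le x)

lemma rho0_pot_int : Integrable (fun x => ‖x‖⁻¹ * rho0 x) :=
  pot_int rho0_nonneg rho0_int rho0_sq_int

/-- open annulus -/
def Ann (a b : ℝ) : Set E3 := {x | a < ‖x‖ ∧ ‖x‖ < b}

lemma Ann_open (a b : ℝ) : IsOpen (Ann a b) :=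
  (isOpen_lt continuous_const continuous_norm).inter (isOpen_lt continuous_norm continuous_const)

lemma Ann_nonempty {a b : ℝ} (ha : 0 ≤ a) (hab : a < b) : (Ann a b).Nonempty := by
  obtain ⟨x, hx⟩ := exists_norm_eq E3 (show 0 ≤ (a + b) / 2 by linarith)
  exact ⟨x, by constructor <;> rw [hx] <;> linarith⟩

lemma Ann_fin (a b : ℝ) : volume (Ann a b) ≠ ⊤ := by
  have h : Ann a b ⊆ Metric.ball (0 : E3) b := fun x hx => by simpa using hx.2
  exact ne_top_of_le_ne_top Metric.isBounded_ball.measure_lt_top.ne (measure_mono h)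

lemma Ann_pos {a b : ℝ} (ha : 0 ≤ a) (hab : a < b) : 0 < volume.real (Ann a b) := by
  rw [measureReal_def]
  exact ENNReal.toReal_pos ((Ann_open a b).measure_pos volume (Ann_nonempty ha hab)).ne' (Ann_fin a b)

lemma lam0_pos : 0 < lam0 := by
  unfold lam0
  rw [integral_pos_iff_support_of_nonneg rho0_nonneg rho0_int]
  refine lt_of_lt_of_le ((Ann_open (1/4) (1/2)).measure_pos volume
    (Ann_nonempty (by norm_num) (by norm_num))) (measure_mono ?_)
  intro x hx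
  have h1 : 0 < ‖x‖ := lt_trans (by norm_num) hx.1
  have h2 : 1 < ‖x‖⁻¹ := (one_lt_inv₀ h1).2 (lt_trans hx.2 (by norm_num))
  have : 0 < rho0 x := by
    unfold rho0
    exact lt_max_of_lt_left (by linarith)
  exact this.ne'

/-- pointwise lower bound -/
lemma point_lower (w t : ℝ) (ht : 0 ≤ t) :
    1 / 2 * (max (w - 1) 0) ^ 2 - w * max (w - 1) 0 + 1 / 2 * (t - max (w - 1) 0) ^ 2
      - (t - max (w - 1) 0) ≤ 1 / 2 * t ^ 2 - w * t := by
  rcases le_total 0 (w - 1) with h | h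
  · rw [max_eq_left h]; nlinarith
  · rw [max_eq_right h]; nlinarith

lemma FF_lower {ρ : E3 → ℝ} (h0 : ∀ x, 0 ≤ ρ x) (hi : Integrable ρ)
    (h2 : Integrable (fun x => ρ x ^ 2)) (hl : ∫ x, ρ x ≤ lam0) :
    Integrable (fun x => (ρ x - rho0 x) ^ 2) ∧
      FF rho0 + 1 / 2 * ∫ x, (ρ x - rho0 x) ^ 2 ≤ FF ρ := by
  have hx : Integrable (fun x => ρ x * rho0 x) := by
    refine Integrable.mono' (h2.add rho0_sq_int)
      (hi.aestronglyMeasurable.mul rho0_meas.aestronglyMeasurable) ?_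
    filter_upwards with x
    simp only [Pi.add_apply, Real.norm_eq_abs]
    rw [abs_le]
    constructor <;> nlinarith [sq_nonneg (ρ x + rho0 x), sq_nonneg (ρ x - rho0 x)]
  have hd : Integrable (fun x => (ρ x - rho0 x) ^ 2) := by
    refine ((h2.add rho0_sq_int).sub (hx.const_mul 2)).congr ?_
    filter_upwards with x
    simp only [Pi.add_apply, Pi.sub_apply]
    ring
  refine ⟨hd, ?_⟩
  have hp := pot_int h0 hi h2
  have i1 : Integrable (fun x => 1 / 2 * ρ x ^ 2 - ‖x‖⁻¹ * ρ x) := (h2.const_mul _).sub hp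
  have i2 : Integrable (fun x => 1 / 2 * rho0 x ^ 2 - ‖x‖⁻¹ * rho0 x) :=
    (rho0_sq_int.const_mul _).sub rho0_pot_int
  have i3 : Integrable (fun x => 1 / 2 * (ρ x - rho0 x) ^ 2) := hd.const_mul _
  have i4 : Integrable (fun x => ρ x - rho0 x) := hi.sub rho0_int
  have key : ∫ x, ((1 / 2 * rho0 x ^ 2 - ‖x‖⁻¹ * rho0 x) + 1 / 2 * (ρ x - rho0 x) ^ 2
      - (ρ x - rho0 x)) ≤ ∫ x, (1 / 2 * ρ x ^ 2 - ‖x‖⁻¹ * ρ x) := by
    refine integral_mono ((i2.add i3).sub i4) i1 fun x => ?_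
    exact point_lower ‖x‖⁻¹ (ρ x) (h0 x)
  have i23 : Integrable (fun x => 1 / 2 * rho0 x ^ 2 - ‖x‖⁻¹ * rho0 x
      + 1 / 2 * (ρ x - rho0 x) ^ 2) := i2.add i3
  rw [integral_sub i23 i4, integral_add i2 i3, integral_sub (h2.const_mul _) hp,
    integral_sub (rho0_sq_int.const_mul _) rho0_pot_int, integral_sub hi rho0_int,
    integral_const_mul, integral_const_mul, integral_const_mul] at key
  unfold FF
  have : ∫ x, rho0 x = lam0 := rfl
  linarith

/-! ### Lipschitz functions with compact support -/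

lemma lip_weak {f : E3 → ℝ} {C : ℝ≥0} (hf : LipschitzWith C f) (hc : HasCompactSupport f) :
    ∃ g : E3 → E3, MemLp g 2 ∧ WeakGrad f g := by
  refine ⟨fun x => (InnerProductSpace.toDual ℝ E3).symm (fderiv ℝ f x), ?_, ?_⟩
  · have hm : Measurable (fun x => (InnerProductSpace.toDual ℝ E3).symm (fderiv ℝ f x)) :=
      (InnerProductSpace.toDual ℝ E3).symm.continuous.measurable.comp (measurable_fderiv ℝ f)
    rw [memLp_two_iff_integrable_sq_norm hm.aestronglyMeasurable]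
    have hK : IsCompact (tsupport f) := hc
    have hi : Integrable ((tsupport f).indicator fun _ => (C : ℝ) ^ 2) :=
      (integrable_indicator_iff (isClosed_tsupport f).measurableSet).2
        (integrableOn_const hK.measure_lt_top.ne)
    refine Integrable.mono' hi (hm.norm.pow_const 2).aestronglyMeasurable ?_
    filter_upwards with x
    rw [Real.norm_of_nonneg (sq_nonneg _), LinearIsometryEquiv.norm_map]
    by_cases hx : x ∈ tsupport f
    · rw [indicator_of_mem hx]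
      exact pow_le_pow_left₀ (norm_nonneg _) (norm_fderiv_le_of_lipschitz ℝ hf) 2
    · rw [indicator_of_notMem hx]
      have : fderiv ℝ f x = 0 := by
        have h1 : x ∉ tsupport (fderiv ℝ f) := fun h => hx (tsupport_fderiv_subset ℝ h)
        exact image_eq_zero_of_notMem_tsupport h1
      rw [this]; simp
  · intro φ hφ hφc v
    obtain ⟨D, hD⟩ := ContDiff.lipschitzWith_of_hasCompactSupport hφc hφ (by simp)
    have h1 := hf.integral_lineDeriv_mul_eq (μ := (volume : Measure E3)) hD hφc v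
    have h2 : ∫ x, lineDeriv ℝ f x v * φ x
        = ∫ x, inner ℝ ((InnerProductSpace.toDual ℝ E3).symm (fderiv ℝ f x)) v * φ x := by
      refine integral_congr_ae ?_
      filter_upwards [hf.ae_differentiableAt] with x hx
      rw [hx.lineDeriv_eq_fderiv, InnerProductSpace.toDual_symm_apply]
    have h3 : ∫ x, lineDeriv ℝ φ x (-v) * f x = -∫ x, f x * fderiv ℝ φ x v := by
      rw [← integral_neg]
      refine integral_congr_ae (ae_of_all _ fun x => ?_)
      have hd : DifferentiableAt ℝ φ x := (hφ.differentiable (by simp)) x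
      simp only
      rw [hd.lineDeriv_eq_fderiv, map_neg]
      ring
    rw [← h2, h1, h3, neg_neg]

lemma lip_adm {f : E3 → ℝ} {C : ℝ≥0} (hf : LipschitzWith C f) (hc : HasCompactSupport f)
    (h0 : ∀ x, 0 ≤ f x) : ∃ g : E3 → E3, Adm 2 (fun x => f x ^ 2) g := by
  obtain ⟨g, hg, hw⟩ := lip_weak hf hc
  have hcs : ∀ k : ℕ, k ≠ 0 → Integrable (fun x => f x ^ k) := by
    intro k hk
    have h1 : HasCompactSupport (fun x => f x ^ k) := by
      have : (fun x => f x ^ k) = (fun t : ℝ => t ^ k) ∘ f := rfl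
      rw [this]
      exact hc.comp_left (by simp [hk])
    exact (hf.continuous.pow k).integrable_of_hasCompactSupport h1
  have hi := hcs 2 (by norm_num)
  have h4 : Integrable (fun x => (f x ^ 2) ^ 2) := by
    refine (hcs 4 (by norm_num)).congr (ae_of_all _ fun x => ?_)
    simp only
    ring
  refine ⟨g, fun x => sq_nonneg _, hi, ?_, hg, ?_, coul_int hi h4⟩
  · refine h4.congr (ae_of_all _ fun x => ?_)
    simp only
    rw [Real.rpow_two]
  · have : (fun x => √(f x ^ 2)) = f := by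
      funext x
      exact Real.sqrt_sq (h0 x)
    rw [this]
    exact hw

/-! ### The trial densities -/

noncomputable def mm (δ : ℝ) (x : E3) : ℝ := max ((‖x‖ + δ)⁻¹ - 1) 0

noncomputable def psi (δ : ℝ) (x : E3) : ℝ := √(mm δ x + δ ^ 2) - δ

lemma mm_nonneg (δ : ℝ) (x : E3) : 0 ≤ mm δ x := le_max_right _ _

lemma mm_lip {δ : ℝ} (hδ : 0 < δ) (x y : E3) : |mm δ x - mm δ y| ≤ (δ ^ 2)⁻¹ * ‖x - y‖ := by
  have h1 : |mm δ x - mm δ y| ≤ |((‖x‖ + δ)⁻¹ - 1) - ((‖y‖ + δ)⁻¹ - 1)| := by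
    unfold mm
    exact abs_max_sub_max_le_abs _ _ _
  refine h1.trans ?_
  have hx : 0 < ‖x‖ + δ := by positivity
  have hy : 0 < ‖y‖ + δ := by positivity
  have h2 : ((‖x‖ + δ)⁻¹ - 1) - ((‖y‖ + δ)⁻¹ - 1) = (‖y‖ - ‖x‖) * ((‖x‖ + δ)⁻¹ * (‖y‖ + δ)⁻¹) := by
    field_simp
    ring
  rw [h2, abs_mul, abs_of_pos (show 0 < (‖x‖ + δ)⁻¹ * (‖y‖ + δ)⁻¹ by positivity), mul_comm]
  have h3 : |‖y‖ - ‖x‖| ≤ ‖x - y‖ := by
    rw [norm_sub_rev]
    exact abs_norm_sub_norm_le y x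
  have h4 : (‖x‖ + δ)⁻¹ * (‖y‖ + δ)⁻¹ ≤ (δ ^ 2)⁻¹ := by
    rw [← mul_inv]
    apply inv_anti₀ (by positivity)
    nlinarith [norm_nonneg x, norm_nonneg y, mul_nonneg (norm_nonneg x) (norm_nonneg y)]
  exact mul_le_mul h4 h3 (abs_nonneg _) (by positivity)

lemma sqrt_lip {δ a b : ℝ} (hδ : 0 < δ) (ha : 0 ≤ a) (hb : 0 ≤ b) :
    |√(a + δ ^ 2) - √(b + δ ^ 2)| ≤ δ⁻¹ * |a - b| := by
  have h1 : 0 ≤ √(a + δ ^ 2) := Real.sqrt_nonneg _
  have h2 : 0 ≤ √(b + δ ^ 2) := Real.sqrt_nonneg _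
  have e1 : √(a + δ ^ 2) ^ 2 = a + δ ^ 2 := Real.sq_sqrt (by positivity)
  have e2 : √(b + δ ^ 2) ^ 2 = b + δ ^ 2 := Real.sq_sqrt (by positivity)
  have h3 : δ ≤ √(a + δ ^ 2) := Real.le_sqrt_of_sq_le (by linarith)
  have h5 : a - b = (√(a + δ ^ 2) - √(b + δ ^ 2)) * (√(a + δ ^ 2) + √(b + δ ^ 2)) := by
    linear_combination e2 - e1
  have h6 : |a - b| = |√(a + δ ^ 2) - √(b + δ ^ 2)| * (√(a + δ ^ 2) + √(b + δ ^ 2)) := by
    rw [h5, abs_mul, abs_of_nonneg (add_nonneg h1 h2)]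
  rw [h6]
  have h7 : |√(a + δ ^ 2) - √(b + δ ^ 2)| * δ
      ≤ |√(a + δ ^ 2) - √(b + δ ^ 2)| * (√(a + δ ^ 2) + √(b + δ ^ 2)) :=
    mul_le_mul_of_nonneg_left (by linarith) (abs_nonneg _)
  have h8 : |√(a + δ ^ 2) - √(b + δ ^ 2)|
      = δ⁻¹ * (|√(a + δ ^ 2) - √(b + δ ^ 2)| * δ) := by
    field_simp
  rw [h8]
  refine mul_le_mul_of_nonneg_left ?_ (by positivity)
  rw [← h8]
  exact h7

lemma psi_lip {δ : ℝ} (hδ : 0 < δ) :
    LipschitzWith (Real.toNNReal (δ⁻¹ * (δ ^ 2)⁻¹)) (psi δ) := by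
  refine LipschitzWith.of_dist_le_mul fun x y => ?_
  rw [Real.coe_toNNReal _ (by positivity), Real.dist_eq, dist_eq_norm]
  unfold psi
  have h1 : √(mm δ x + δ ^ 2) - δ - (√(mm δ y + δ ^ 2) - δ)
      = √(mm δ x + δ ^ 2) - √(mm δ y + δ ^ 2) := by ring
  rw [h1]
  refine (sqrt_lip hδ (mm_nonneg δ x) (mm_nonneg δ y)).trans ?_
  rw [mul_assoc]
  exact mul_le_mul_of_nonneg_left (mm_lip hδ x y) (by positivity)

lemma psi_nonneg {δ : ℝ} (hδ : 0 < δ) (x : E3) : 0 ≤ psi δ x := by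
  unfold psi
  have : δ ≤ √(mm δ x + δ ^ 2) := Real.le_sqrt_of_sq_le (by linarith [mm_nonneg δ x])
  linarith

lemma psi_sq_le {δ : ℝ} (hδ : 0 < δ) (x : E3) : psi δ x ^ 2 ≤ mm δ x := by
  unfold psi
  have h0 := mm_nonneg δ x
  have h1 : δ ≤ √(mm δ x + δ ^ 2) := Real.le_sqrt_of_sq_le (by linarith)
  have e1 : √(mm δ x + δ ^ 2) ^ 2 = mm δ x + δ ^ 2 := Real.sq_sqrt (by positivity)
  nlinarith

lemma mm_le {δ : ℝ} (hδ : 0 < δ) {x : E3} (hx : x ≠ 0) : mm δ x ≤ rho0 x := by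
  unfold mm rho0
  have hp : 0 < ‖x‖ := norm_pos_iff.mpr hx
  have : (‖x‖ + δ)⁻¹ ≤ ‖x‖⁻¹ := inv_anti₀ hp (by linarith)
  exact max_le_max (by linarith) le_rfl

lemma mm_zero {δ : ℝ} (hδ : 0 < δ) {x : E3} (h : 1 ≤ ‖x‖) : mm δ x = 0 := by
  unfold mm
  apply max_eq_right
  have : (‖x‖ + δ)⁻¹ ≤ 1 := inv_le_one_of_one_le₀ (by linarith)
  linarith

lemma psi_cs {δ : ℝ} (hδ : 0 < δ) : HasCompactSupport (psi δ) := by
  refine HasCompactSupport.intro (isCompact_closedBall (0 : E3) 1) fun x hx => ?_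
  have h1 : 1 ≤ ‖x‖ := by
    have : ¬ ‖x‖ ≤ 1 := by simpa using hx
    linarith
  unfold psi
  rw [mm_zero hδ h1, zero_add, Real.sqrt_sq hδ.le, sub_self]

lemma psi_tendsto {x : E3} (hx : x ≠ 0) :
    Tendsto (fun k : ℕ => psi (1 / ((k : ℝ) + 1)) x ^ 2) atTop (𝓝 (rho0 x)) := by
  have hd : Tendsto (fun k : ℕ => 1 / ((k : ℝ) + 1)) atTop (𝓝 0) :=
    tendsto_one_div_add_atTop_nhds_zero_nat
  have hp : 0 < ‖x‖ := norm_pos_iff.mpr hx
  have hm : Tendsto (fun k : ℕ => mm (1 / ((k : ℝ) + 1)) x) atTop (𝓝 (rho0 x)) := by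
    unfold mm rho0
    refine Tendsto.max ?_ tendsto_const_nhds
    refine Tendsto.sub_const ?_ 1
    have : Tendsto (fun k : ℕ => ‖x‖ + 1 / ((k : ℝ) + 1)) atTop (𝓝 (‖x‖ + 0)) :=
      tendsto_const_nhds.add hd
    rw [add_zero] at this
    exact this.inv₀ hp.ne'
  have h2 : Tendsto (fun k : ℕ => √(mm (1 / ((k : ℝ) + 1)) x + (1 / ((k : ℝ) + 1)) ^ 2)
      - 1 / ((k : ℝ) + 1)) atTop (𝓝 (√(rho0 x + 0 ^ 2) - 0)) :=
    ((Real.continuous_sqrt.tendsto _).comp (hm.add (hd.pow 2))).sub hd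
  have h3 := h2.pow 2
  have h4 : (√(rho0 x + 0 ^ 2) - 0) ^ 2 = rho0 x := by
    simp [Real.sq_sqrt (rho0_nonneg x)]
  rw [h4] at h3
  exact h3

lemma exists_trial {ε : ℝ} (hε : 0 < ε) :
    ∃ (ρ : E3 → ℝ) (g : E3 → E3), Adm 2 ρ g ∧ ∫ x, ρ x ≤ lam0 ∧ FF ρ ≤ FF rho0 + ε := by
  have hx0 : ∀ᵐ x : E3, x ≠ 0 := by
    rw [ae_iff]
    simp
  have hδ : ∀ k : ℕ, (0:ℝ) < 1 / ((k : ℝ) + 1) := fun k => by positivity
  have hle : ∀ k : ℕ, ∀ᵐ x : E3, psi (1 / ((k : ℝ) + 1)) x ^ 2 ≤ rho0 x := by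
    intro k
    filter_upwards [hx0] with x hx
    exact (psi_sq_le (hδ k) x).trans (mm_le (hδ k) hx)
  have hmeas : ∀ k : ℕ, Continuous (fun x => psi (1 / ((k : ℝ) + 1)) x ^ 2) := fun k =>
    (psi_lip (hδ k)).continuous.pow 2
  have hFF : Tendsto (fun k : ℕ => FF (fun x => psi (1 / ((k : ℝ) + 1)) x ^ 2)) atTop
      (𝓝 (FF rho0)) := by
    unfold FF
    refine Tendsto.sub (Tendsto.const_mul _ ?_) ?_
    · refine tendsto_integral_of_dominated_convergence (fun x => rho0 x ^ 2) ?_ rho0_sq_int ?_ ?_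
      · intro k
        exact ((hmeas k).pow 2).aestronglyMeasurable
      · intro k
        filter_upwards [hle k] with x hx
        rw [Real.norm_of_nonneg (by positivity)]
        exact pow_le_pow_left₀ (sq_nonneg _) hx 2
      · filter_upwards [hx0] with x hx
        exact (psi_tendsto hx).pow 2
    · refine tendsto_integral_of_dominated_convergence (fun x => ‖x‖⁻¹ * rho0 x) ?_
        rho0_pot_int ?_ ?_
      · intro k
        exact measurable_norm.inv.aestronglyMeasurable.mul (hmeas k).aestronglyMeasurable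
      · intro k
        filter_upwards [hle k] with x hx
        rw [Real.norm_of_nonneg (by positivity)]
        exact mul_le_mul_of_nonneg_left hx (by positivity)
      · filter_upwards [hx0] with x hx
        exact (psi_tendsto hx).const_mul _
  obtain ⟨k, hk⟩ := (hFF.eventually (eventually_lt_nhds
    (show FF rho0 < FF rho0 + ε by linarith))).exists
  obtain ⟨g, hg⟩ := lip_adm (psi_lip (hδ k)) (psi_cs (hδ k)) (psi_nonneg (hδ k))
  exact ⟨_, g, hg, integral_mono_ae hg.int rho0_int (hle k), hk.le⟩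

/-! ### Closeness to `rho0` forbids convexity -/

lemma exists_pt {ρ f : E3 → ℝ} {a b η ε : ℝ} (hε : 0 < ε)
    (hη : η < ε ^ 2 * volume.real (Ann a b))
    (hd : Integrable (fun x => (ρ x - rho0 x) ^ 2)) (hl : ∫ x, (ρ x - rho0 x) ^ 2 ≤ η)
    (hf : ∀ᵐ x, √(ρ x) = f x) :
    ∃ x ∈ Ann a b, |ρ x - rho0 x| ≤ ε ∧ √(ρ x) = f x := by
  by_contra hcon
  push Not at hcon
  have h1 : ∀ᵐ x, x ∈ Ann a b → ε ^ 2 ≤ (ρ x - rho0 x) ^ 2 := by
    filter_upwards [hf] with x hx hxa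
    by_contra h
    have h2 : |ρ x - rho0 x| ≤ ε := by
      apply abs_le_of_sq_le_sq _ hε.le
      exact (not_le.mp h).le
    exact hcon x hxa h2 hx
  have h2 : ε ^ 2 * volume.real (Ann a b) ≤ ∫ x in Ann a b, (ρ x - rho0 x) ^ 2 := by
    have h3 : ∫ x in Ann a b, ε ^ 2 = volume.real (Ann a b) * ε ^ 2 := by
      rw [setIntegral_const, smul_eq_mul]
    rw [mul_comm, ← h3]
    exact setIntegral_mono_on_ae (integrableOn_const (Ann_fin a b)) hd.integrableOn
      (Ann_open a b).measurableSet h1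
  have h3 : ∫ x in Ann a b, (ρ x - rho0 x) ^ 2 ≤ ∫ x, (ρ x - rho0 x) ^ 2 :=
    setIntegral_le_integral hd (ae_of_all _ fun x => sq_nonneg _)
  linarith

lemma not_convex : ∃ η : ℝ, 0 < η ∧ ∀ (ρ : E3 → ℝ) (f : ℝ → ℝ), (∀ x, 0 ≤ ρ x) →
    Integrable (fun x => (ρ x - rho0 x) ^ 2) → ∫ x, (ρ x - rho0 x) ^ 2 ≤ η →
    (∀ᵐ x, √(ρ x) = f ‖x‖) → ¬ ConvexOn ℝ (Ioi 0) f := by
  set v := min (volume.real (Ann (1/2) (51/100))) (min (volume.real (Ann (9/10) (91/100)))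
    (volume.real (Ann 1 (101/100)))) with hv
  have hv0 : 0 < v := by
    rw [hv]
    exact lt_min (Ann_pos (by norm_num) (by norm_num))
      (lt_min (Ann_pos (by norm_num) (by norm_num)) (Ann_pos (by norm_num) (by norm_num)))
  have v1 : v ≤ volume.real (Ann (1/2) (51/100)) := min_le_left _ _
  have v2 : v ≤ volume.real (Ann (9/10) (91/100)) := (min_le_right _ _).trans (min_le_left _ _)
  have v3 : v ≤ volume.real (Ann 1 (101/100)) := (min_le_right _ _).trans (min_le_right _ _)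
  have hε : (0:ℝ) < 1 / 1000 := by norm_num
  refine ⟨(1/1000) ^ 2 * v / 2, by positivity, ?_⟩
  intro ρ f h0 hd hl hf hconv
  have hv' : (1/1000:ℝ) ^ 2 * v / 2 < (1/1000) ^ 2 * v := by
    have : (0:ℝ) < (1/1000) ^ 2 * v := by positivity
    linarith
  obtain ⟨x1, hx1, a1, b1⟩ := exists_pt (f := fun x => f ‖x‖) hε
    (hv'.trans_le (mul_le_mul_of_nonneg_left v1 (by positivity))) hd hl hf
  obtain ⟨x2, hx2, a2, b2⟩ := exists_pt (f := fun x => f ‖x‖) hε
    (hv'.trans_le (mul_le_mul_of_nonneg_left v2 (by positivity))) hd hl hf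
  obtain ⟨x3, hx3, a3, b3⟩ := exists_pt (f := fun x => f ‖x‖) hε
    (hv'.trans_le (mul_le_mul_of_nonneg_left v3 (by positivity))) hd hl hf
  obtain ⟨p1, q1⟩ := hx1
  obtain ⟨p2, q2⟩ := hx2
  obtain ⟨p3, q3⟩ := hx3
  set r1 := ‖x1‖
  set r2 := ‖x2‖
  set r3 := ‖x3‖
  have f1 : f r1 ≤ 1001 / 1000 := by
    rw [← b1]
    have h1 : rho0 x1 ≤ 1 := by
      unfold rho0
      apply max_le _ zero_le_one
      have h2 : r1⁻¹ ≤ 2 := by
        rw [inv_le_comm₀ (by linarith) (by norm_num)]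
        linarith
      linarith
    have h2 : ρ x1 ≤ 1001 / 1000 := by
      have := (abs_le.mp a1).2
      linarith
    rw [Real.sqrt_le_left (by norm_num)]
    linarith
  have f2 : 312 / 1000 ≤ f r2 := by
    rw [← b2]
    apply Real.le_sqrt_of_sq_le
    have h1 : 100 / 91 - 1 ≤ rho0 x2 := by
      unfold rho0
      refine le_trans ?_ (le_max_left _ _)
      have h2 : (100 / 91 : ℝ) ≤ r2⁻¹ := by
        rw [le_inv_comm₀ (by norm_num) (by linarith)]
        linarith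
      linarith
    have := (abs_le.mp a2).1
    linarith
  have f3 : f r3 ≤ 32 / 1000 := by
    rw [← b3]
    have h1 : rho0 x3 = 0 := rho0_zero p3.le
    have h2 : ρ x3 ≤ 1 / 1000 := by
      have := (abs_le.mp a3).2
      linarith
    rw [Real.sqrt_le_left (by norm_num)]
    linarith
  have h13 : 0 < r3 - r1 := by linarith
  have hc := hconv.2 (show r1 ∈ Ioi (0:ℝ) from by simp only [mem_Ioi]; linarith)
    (show r3 ∈ Ioi (0:ℝ) from by simp only [mem_Ioi]; linarith)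
    (show 0 ≤ (r3 - r2) / (r3 - r1) from div_nonneg (by linarith) h13.le)
    (show 0 ≤ (r2 - r1) / (r3 - r1) from div_nonneg (by linarith) h13.le)
    (by field_simp; ring)
  have e1 : ((r3 - r2) / (r3 - r1)) • r1 + ((r2 - r1) / (r3 - r1)) • r3 = r2 := by
    simp only [smul_eq_mul]
    field_simp
    ring
  rw [e1] at hc
  simp only [smul_eq_mul] at hc
  have hc2 : (r3 - r1) * f r2 ≤ (r3 - r2) * f r1 + (r2 - r1) * f r3 := by
    have := mul_le_mul_of_nonneg_left hc h13.le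
    have e2 : (r3 - r1) * ((r3 - r2) / (r3 - r1) * f r1 + (r2 - r1) / (r3 - r1) * f r3)
        = (r3 - r2) * f r1 + (r2 - r1) * f r3 := by
      field_simp
    rw [e2] at this
    exact this
  have c1 : 49/100 * (312/1000) ≤ (r3 - r1) * f r2 :=
    mul_le_mul (by linarith) f2 (by norm_num) (by linarith)
  have c2 : (r3 - r2) * f r1 ≤ (r3 - r2) * (1001/1000) :=
    mul_le_mul_of_nonneg_left f1 (by linarith)
  have c3 : (r2 - r1) * f r3 ≤ (r2 - r1) * (32/1000) :=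
    mul_le_mul_of_nonneg_left f3 (by linarith)
  linarith

/-- For large `n` the square root of a minimiser is not convex. -/
theorem min_not_convex : ∃ n : ℝ, 0 < n ∧ ∀ (ρ : E3 → ℝ) (g : E3 → E3), IsMin 1 n 2 n lam0 ρ g →
    ∀ f : ℝ → ℝ, (∀ᵐ x, √(ρ x) = f ‖x‖) → ¬ ConvexOn ℝ (Ioi 0) f := by
  obtain ⟨η, hη, hnc⟩ := not_convex
  obtain ⟨τ, gτ, hτ, hτl, hτF⟩ := exists_trial (show 0 < η / 4 by positivity)
  have hen : ∀ (n : ℝ) (ρ : E3 → ℝ) (g : E3 → E3), Adm 2 ρ g →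
      energy 1 n 2 n ρ g = (∫ x, ‖g x‖ ^ 2) + n * FF ρ + 1 / 2 * DD ρ := by
    intro n ρ g h
    unfold energy FF DD
    have e1 : ∫ x, ρ x ^ (2:ℝ) = ∫ x, ρ x ^ 2 := by
      refine integral_congr_ae (ae_of_all _ fun x => ?_)
      simp only
      rw [Real.rpow_two]
    have e2 : ∫ x, n / ‖x‖ * ρ x = n * ∫ x, ‖x‖⁻¹ * ρ x := by
      rw [← integral_const_mul]
      refine integral_congr_ae (ae_of_all _ fun x => ?_)
      simp only
      rw [div_eq_mul_inv, mul_assoc]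
    rw [e1, e2]
    ring
  set K := (∫ x, ‖gτ x‖ ^ 2) + 1 / 2 * DD τ with hK
  have hK0 : 0 ≤ K := by
    have h1 : 0 ≤ ∫ x, ‖gτ x‖ ^ 2 := integral_nonneg fun x => by positivity
    have h2 := DD_nonneg hτ.nonneg
    linarith
  refine ⟨4 * (K + 1) / η, by positivity, ?_⟩
  set n := 4 * (K + 1) / η with hn
  have hn0 : 0 < n := by positivity
  intro ρ g hm f hf
  obtain ⟨ha, hl, hmin⟩ := hm
  have h2 : Integrable (fun x => ρ x ^ 2) := by
    refine ha.int_p.congr (ae_of_all _ fun x => ?_)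
    simp only
    rw [Real.rpow_two]
  obtain ⟨hd, hlow⟩ := FF_lower ha.nonneg ha.int h2 hl
  refine hnc ρ f ha.nonneg hd ?_ hf
  have h3 := hmin τ gτ hτ hτl
  rw [hen n ρ g ha, hen n τ gτ hτ] at h3
  have h4 : 0 ≤ ∫ x, ‖g x‖ ^ 2 := integral_nonneg fun x => by positivity
  have h5 := DD_nonneg ha.nonneg
  have h6 : n * FF ρ ≤ n * FF τ + K := by linarith
  have h7 : K ≤ n * (η / 4) := by
    rw [hn]
    field_simp
    linarith
  have h8 : n * FF ρ ≤ n * (FF rho0 + η / 2) := by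
    have : n * FF τ ≤ n * (FF rho0 + η / 4) := mul_le_mul_of_nonneg_left hτF hn0.le
    nlinarith
  have h9 : FF ρ ≤ FF rho0 + η / 2 := le_of_mul_le_mul_left h8 hn0
  linarith

end Pool.Agent.H158.TW
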